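import Pool.Agent.COR.Bnd
import Pool.Agent.RBM.Rm
import Pool.Agent.RBM.TorP
import Pool.Agent.RBM.LdS

/-!
# COR/Rmc: the ribbon move and the 4-move for carried curves   (difficulty 3)

`rm_core`.  `hK` gives `κ₀, j`.  `Fc = d '' ({‖y‖ ≤ 1} × {|s| ≤ 1} × ℝ)` is closed (compact modulo `t`, `BBox` with `R₁, S₁ > 1`).  `exists_bundle` gives `κ, φ, σ`.  `RBM.Pieces` for `half σ b`, `d' = refl σ d`, `c' i = cj σ (c i)`,
`μ' i = cj σ (μ i)`, `β' = 2 β`, `ρ' = 2 ρ`, `sh = 0`: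
* `piece`: `d' (y, s, t) = d (cj σ y, s, t) = b (cj ς ((cj σ y - c) / μ), β + ς ρ s, t)` and `(cj σ y - c) / μ = cj σ ((y - c') / μ')`, `cj ς (cj σ x) = cj σ (cj ς x)`: `= half σ b (cj ς ((y - c')/μ'), 2 β + ς 2 ρ s, t)`.
* `inter`: from `inter` (`half σ b (z, s', t') = b (cj σ z, s'/2, t')`).  `torus`: `d' (y, s, t) = κ (l, v, t')`.  If `OutW l`: the point is in `Fc`, so it is `b (z, s', ..)` with `1/2 ≤ |s'| < 1`, by `inter` there is a piece, by `piece` and the injectivity of `b` (radius 5)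
  `|s'| < 1/2` (`range`): contradiction.  If `l` is in a window: `Bundle.strand` (modulo `perl`) shows that the point is in the box, `inter`.
`ribbon_move` with `o' = σ o` gives `M` with `IsM 1 d' (MsR c' η o') M`; `IsM 1 d (MsR c η o) M`: `MsR c' η o' (cj σ y, s) = cj σ (MsR c η o (y, s))` (for `σ = -1` see RBM/Cjm: conjugation of `MsR`, or directly from the formulas `Ro`, `Un`: `conj (ex x) = ex (-x)`).
`M` is equivariant (`IsM`, `EquiB a d`; outside the box it is the identity), so `κ' = M ∘ κ` is equivariant and carries; its core is `M (K (φ l))`; `rep` / `thick_rep` for `κ'` with the inverse of `φ` (smooth, `ψ (l + 1) = ψ l + 1`, positive derivative): core `M (K l)`.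
`four_core`: the same with `four_moveP` (`Fc = ∅`, `o' = σ o`, `MsDo o (conj y, s) = conj (MsDo (-o) (y, s))`).
-/

open scoped Manifold ContDiff Topology
open Set Filter
open Complex (I)
open Pool.Agent.RSG (E4 S3 cj)

namespace Pool.Agent.COR

open Pool.Agent.RBM (ThickT TwinP OnT Box Bundle IsM MsR MsDo)


/-! ### conjugation -/

theorem Rmc_cj1 (v : ℂ) : cj 1 v = v := by
  apply Complex.ext <;> simp [cj]

theorem Rmc_cjm (v : ℂ) : cj (-1) v = (starRingEnd ℂ) v := by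
  apply Complex.ext <;> simp [cj]

theorem Rmc_sub (σ : ℝ) (v w : ℂ) : cj σ (v - w) = cj σ v - cj σ w := by
  apply Complex.ext
  · simp [cj]
  · simp [cj]
    ring

theorem Rmc_comm (σ ς : ℝ) (v : ℂ) : cj σ (cj ς v) = cj ς (cj σ v) := by
  apply Complex.ext
  · simp [cj]
  · simp [cj]
    ring

theorem Rmc_div {σ : ℝ} (hσ : σ = 1 ∨ σ = -1) (v w : ℂ) : cj σ (v / w) = cj σ v / cj σ w := by
  rcases hσ with rfl | rfl
  · simp only [Rmc_cj1]
  · simp only [Rmc_cjm, map_div₀]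

theorem Rmc_norm_sub {σ : ℝ} (hσ : σ = 1 ∨ σ = -1) (y c : ℂ) : ‖cj σ y - c‖ = ‖y - cj σ c‖ := by
  rw [← RSG.cj_norm hσ (cj σ y - c), Rmc_sub, RSG.cj_cj hσ]

theorem Rmc_MsR {k : ℕ} (c : Fin k → ℂ) (η : Fin k → ℝ) (o : ℝ) {σ : ℝ} (hσ : σ = 1 ∨ σ = -1) (y : ℂ)
    (s : ℝ) : MsR (fun i => cj σ (c i)) η (σ * o) (y, s) = cj σ (MsR c η o (cj σ y, s)) := by
  rcases hσ with rfl | rfl
  · simp only [Rmc_cj1, one_mul]
  · simp only [Rmc_cjm]
    have hn : ∀ (z : ℂ) (i : Fin k), ‖((starRingEnd ℂ) z - c i) / (η i : ℂ)‖ = ‖(z - (starRingEnd ℂ) (c i)) / (η i : ℂ)‖ := by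
      intro z i
      rw [norm_div, norm_div, RBM.norm_conj_sub]
    have hU : ∀ (θ : ℝ) (z : ℂ), (starRingEnd ℂ) (RBM.Un c η θ ((starRingEnd ℂ) z)) =
        RBM.Un (fun i => (starRingEnd ℂ) (c i)) η (-θ) z := by
      intro θ z
      unfold RBM.Un
      simp only [map_add, map_sum, map_mul, map_sub, Complex.conj_conj, map_one, RBM.Cjm_ex_conj, hn]
      congr 1
      apply Finset.sum_congr rfl
      intro i _
      congr 3
      ring
    have hR : ∀ (θ : ℝ) (z : ℂ), (starRingEnd ℂ) (RBM.Ro θ z) = RBM.Ro (-θ) ((starRingEnd ℂ) z) := by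
      intro θ z
      unfold RBM.Ro
      rw [map_mul, RBM.Cjm_ex_conj, Complex.norm_conj]
      congr 2
      ring
    show RBM.Ro (-1 * o * RBM.gs s) (RBM.Un (fun i => (starRingEnd ℂ) (c i)) η (-1 * o * RBM.gs s) y) =
      (starRingEnd ℂ) (RBM.Ro (o * RBM.gs s) (RBM.Un c η (o * RBM.gs s) ((starRingEnd ℂ) y)))
    rw [hR, hU]
    have e : -1 * o * RBM.gs s = -(o * RBM.gs s) := by ring
    rw [e]

theorem Rmc_MsDo (o : ℝ) {σ : ℝ} (hσ : σ = 1 ∨ σ = -1) (y : ℂ) (s : ℝ) :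
    MsDo (σ * o) (y, s) = cj σ (MsDo o (cj σ y, s)) := by
  rcases hσ with rfl | rfl
  · simp only [Rmc_cj1, one_mul]
  · simp only [Rmc_cjm]
    unfold MsDo
    simp only [map_mul, Complex.conj_conj, RBM.Cjm_ex_conj, norm_div, Complex.norm_conj]
    congr 2
    ring

theorem Rmc_refl {P : Type*} {r σ : ℝ} (hσ : σ = 1 ∨ σ = -1) {d : ℂ × ℝ × ℝ → P}
    {Ms Ms' : ℂ × ℝ → ℂ} (h : ∀ y s, Ms' (y, s) = cj σ (Ms (cj σ y, s))) {M : Equiv.Perm P}
    (hM : IsM r d Ms M) : IsM r (refl σ d) Ms' M where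
  ball := by
    intro y s t hy hs
    show M (d (cj σ y, s, t)) = d (cj σ (Ms' (y, s)), s, t)
    rw [hM.ball _ _ _ (by rw [RSG.cj_norm hσ]; exact hy) hs, h, RSG.cj_cj hσ]
  out := by
    intro p hp
    refine hM.out p fun y s t hy hs he => ?_
    refine hp (cj σ y) s t (by rw [RSG.cj_norm hσ]; exact hy) hs ?_
    show p = d (cj σ (cj σ y), s, t)
    rw [RSG.cj_cj hσ]
    exact he

/-- `M` is equivariant -/
theorem Rmc_equi {P : Type*} [TopologicalSpace P] {EP : Type*} [NormedAddCommGroup EP]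
    [NormedSpace ℝ EP] {HP : Type*} [TopologicalSpace HP] {IP : ModelWithCorners ℝ EP HP}
    [ChartedSpace HP P] {a : ℝ → P → P} (ha : PTH.Act IP a) {r : ℝ} {d : ℂ × ℝ × ℝ → P}
    (heqd : EquiB a d) {Ms : ℂ × ℝ → ℂ} {M : Equiv.Perm P} (hM : IsM r d Ms M) (t : ℝ) (p : P) :
    M (a t p) = a t (M p) := by
  have hd : ∀ z s t t', a t (d (z, s, t')) = d (z, s, t + t') := by
    intro z s t t'
    rw [heqd z s t', ← ha.add, ← heqd]
  by_cases h : ∃ (y : ℂ) (s t : ℝ), ‖y‖ < r ∧ |s| < 1 / 8 ∧ p = d (y, s, t)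
  · obtain ⟨y, s, t', hy, hs, rfl⟩ := h
    rw [hd, hM.ball _ _ _ hy hs, hM.ball _ _ _ hy hs, hd]
  · rw [hM.out p fun y s t hy hs he => h ⟨y, s, t, hy, hs, he⟩]
    refine hM.out _ fun y s t' hy hs he => h ⟨y, s, -t + t', hy, hs, ?_⟩
    rw [← hd, ← he, ← ha.add, neg_add_cancel, ha.zero]

/-- inverse of a reparametrisation -/
theorem Rmc_inv {φ : ℝ → ℝ} (hφ : ContDiff ℝ ∞ φ) (hφ1 : ∀ l, φ (l + 1) = φ l + 1)
    (hφ' : ∀ l, 0 < deriv φ l) :
    ∃ ψ : ℝ → ℝ, ContDiff ℝ ∞ ψ ∧ (∀ l, ψ (l + 1) = ψ l + 1) ∧ (∀ l, 0 < deriv ψ l) ∧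
      ∀ l, φ (ψ l) = l := by
  have hm : StrictMono φ := strictMono_of_deriv_pos hφ'
  have hint : ∀ (l : ℝ) (m : ℤ), φ (l + m) = φ l + m := by
    intro l m
    have h := Pool.Agent.RBM.TorP_per (f := fun x => φ x - x)
      (fun x => by simp only [hφ1]; ring) l m
    linarith
  have hs : Function.Surjective φ := by
    intro y
    obtain ⟨N, hN⟩ := exists_nat_ge (|y - φ 0|)
    have hN2 := abs_le.mp hN
    have e1 := hint 0 (N : ℤ)
    have e2 := hint 0 (-(N : ℤ))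
    push_cast at e1 e2
    exact mem_range_of_exists_le_of_exists_ge hφ.continuous (c := y)
      ⟨0 + -(N : ℝ), by rw [e2]; linarith [hN2.1]⟩ ⟨0 + (N : ℝ), by rw [e1]; linarith [hN2.2]⟩
  obtain ⟨e, he⟩ : ∃ e : ℝ ≃ ℝ, ∀ l, e l = φ l :=
    ⟨Equiv.ofBijective φ ⟨hm.injective, hs⟩, fun l => rfl⟩
  have hef : (e : ℝ → ℝ) = φ := funext he
  have hld : ∀ x, IsLocalDiffeomorphAt 𝓘(ℝ, ℝ) 𝓘(ℝ, ℝ) ∞ e x := by
    intro x
    rw [hef]
    refine CSG.ld_of_fderiv (Eventually.of_forall fun y => hφ.contDiffAt) rfl ?_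
    intro v hv
    have h1 := (hφ.differentiable (by simp) x).hasDerivAt.hasFDerivAt
    rw [h1.fderiv] at hv
    simp only [ContinuousLinearMap.toSpanSingleton_apply, smul_eq_mul] at hv
    rcases mul_eq_zero.mp hv with h2 | h2
    · exact h2
    · exact absurd h2 (hφ' x).ne'
  have hsy : ContDiff ℝ ∞ e.symm := by
    rw [contDiff_iff_contDiffAt]
    intro y
    have h1 := Pool.Agent.RBM.ld_symm (hld (e.symm y))
    rw [Equiv.apply_symm_apply] at h1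
    exact h1.contMDiffAt.contDiffAt
  have hinv : ∀ l, φ (e.symm l) = l := fun l => by rw [← he, Equiv.apply_symm_apply]
  refine ⟨e.symm, hsy, ?_, ?_, hinv⟩
  · intro l
    apply hm.injective
    rw [hinv, hφ1, hinv]
  · intro l
    have h1 : HasDerivAt e.symm (deriv e.symm l) l := (hsy.differentiable (by simp) l).hasDerivAt
    have h2 : HasDerivAt φ (deriv φ (e.symm l)) (e.symm l) :=
      (hφ.differentiable (by simp) _).hasDerivAt
    have h3 : HasDerivAt (φ ∘ e.symm) (deriv φ (e.symm l) * deriv e.symm l) l := h2.comp l h1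
    have h4 : φ ∘ e.symm = id := funext hinv
    rw [h4] at h3
    have h5 := h3.unique (hasDerivAt_id l)
    have h6 := hφ' (e.symm l)
    by_contra h7
    have h8 := mul_nonpos_of_nonneg_of_nonpos h6.le (not_lt.mp h7)
    linarith

/-- conclusion: the moved curve carries -/
theorem Rmc_carries {P : Type*} [TopologicalSpace P] [T2Space P] {EP : Type*} [NormedAddCommGroup EP]
    [NormedSpace ℝ EP] {HP : Type*} [TopologicalSpace HP] {IP : ModelWithCorners ℝ EP HP}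
    [ChartedSpace HP P] {a : ℝ → P → P} {K : ℝ → P} {κ : ℝ × ℂ × ℝ → P} {φ : ℝ → ℝ}
    (heq : Equi a κ) (hφ : ContDiff ℝ ∞ φ) (hφ1 : ∀ l, φ (l + 1) = φ l + 1)
    (hφ' : ∀ l, 0 < deriv φ l) (hcore : ∀ l, κ (l, 0, 0) = K (φ l)) {M : Equiv.Perm P}
    (hMe : ∀ t p, M (a t p) = a t (M p)) (hth : ThickT IP (fun q => M (κ q))) {n j : ℤ}
    {X : Type*} [TopologicalSpace X] [ChartedSpace E4 X]
    (hD : Nonempty (TwinP IP (fun q => M (κ q)) n j X)) :
    PTH.Carries IP a n (fun l => M (K l)) X := by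
  obtain ⟨ψ, hψ, hψ1, hψ', hinv⟩ := Rmc_inv hφ hφ1 hφ'
  obtain ⟨D⟩ := hD
  refine ⟨fun q => M (κ (ψ q.1, q.2)), j, thick_rep hth hψ hψ1 hψ', ?_, ?_, rep hth hψ hψ1 hψ' D⟩
  · intro l v t
    show M (κ (ψ l, v, t)) = a t (M (κ (ψ l, v, 0)))
    rw [heq, hMe]
  · intro l
    show M (κ (ψ l, 0, 0)) = M (K l)
    rw [hcore, hinv]

theorem Rmc_box {P : Type*} [TopologicalSpace P] {EP : Type*} [NormedAddCommGroup EP]
    [NormedSpace ℝ EP] {HP : Type*} [TopologicalSpace HP] {IP : ModelWithCorners ℝ EP HP}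
    [ChartedSpace HP P] {r σ : ℝ} (hσ : σ = 1 ∨ σ = -1) {d : ℂ × ℝ × ℝ → P} (h : Box IP d r) :
    Box IP (refl σ d) r where
  per := fun z s t => h.per (cj σ z) s t
  loc := by
    intro z s t hz hs
    have h1 : ContDiff ℝ ∞ fun q : ℂ × ℝ × ℝ => (cj σ q.1, q.2) :=
      ((RSG.cj_smooth σ).comp contDiff_fst).prodMk contDiff_snd
    have h2 := CSG.ld_of_perm (f := (⟨fun q : ℂ × ℝ × ℝ => (cj σ q.1, q.2), fun q => (cj σ q.1, q.2),
      fun q => by simp only [RSG.cj_cj hσ], fun q => by simp only [RSG.cj_cj hσ]⟩ :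
      (ℂ × ℝ × ℝ) ≃ (ℂ × ℝ × ℝ))) h1 h1 (z, s, t)
    exact IsLocalDiffeomorphAt.comp (hf := h2)
      (hg := h.loc (cj σ z) s t (by rw [RSG.cj_norm hσ]; exact hz) hs) ..
  inj := by
    intro z s t z' s' t' hz hs hz' hs' he
    obtain ⟨h1, h2, h3⟩ := h.inj (cj σ z) s t (cj σ z') s' t' (by rw [RSG.cj_norm hσ]; exact hz) hs
      (by rw [RSG.cj_norm hσ]; exact hz') hs' he
    refine ⟨?_, h2, h3⟩
    rw [← RSG.cj_cj hσ z, h1, RSG.cj_cj hσ]

theorem Rmc_half {P : Type*} [TopologicalSpace P] {EP : Type*} [NormedAddCommGroup EP]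
    [NormedSpace ℝ EP] {HP : Type*} [TopologicalSpace HP] {IP : ModelWithCorners ℝ EP HP}
    [ChartedSpace HP P] {b : ℂ × ℝ × ℝ → P} (h : Box IP b 5) : Box IP (half 1 b) 4 where
  per := fun z s t => h.per (cj 1 z) (s / 2) t
  loc := by
    intro z s t hz hs
    have h1 : ContDiff ℝ ∞ fun q : ℂ × ℝ × ℝ => (cj 1 q.1, q.2.1 / 2, q.2.2) :=
      ((RSG.cj_smooth 1).comp contDiff_fst).prodMk
        (((contDiff_fst.comp contDiff_snd).div_const 2).prodMk (contDiff_snd.comp contDiff_snd))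
    have h1' : ContDiff ℝ ∞ fun q : ℂ × ℝ × ℝ => (cj 1 q.1, q.2.1 * 2, q.2.2) :=
      ((RSG.cj_smooth 1).comp contDiff_fst).prodMk
        (((contDiff_fst.comp contDiff_snd).mul contDiff_const).prodMk (contDiff_snd.comp contDiff_snd))
    have h2 := CSG.ld_of_perm (f := (⟨fun q : ℂ × ℝ × ℝ => (cj 1 q.1, q.2.1 / 2, q.2.2),
      fun q => (cj 1 q.1, q.2.1 * 2, q.2.2),
      fun q => by simp [Rmc_cj1], fun q => by simp [Rmc_cj1]⟩ :
      (ℂ × ℝ × ℝ) ≃ (ℂ × ℝ × ℝ))) h1 h1' (z, s, t)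
    exact IsLocalDiffeomorphAt.comp (hf := h2)
      (hg := h.loc (cj 1 z) (s / 2) t (by rw [Rmc_cj1]; linarith)
        (by rw [abs_div, abs_two]; linarith)) ..
  inj := by
    intro z s t z' s' t' hz hs hz' hs' he
    obtain ⟨h1, h2, h3⟩ := h.inj (cj 1 z) (s / 2) t (cj 1 z') (s' / 2) t' (by rw [Rmc_cj1]; linarith)
      (by rw [abs_div, abs_two]; linarith) (by rw [Rmc_cj1]; linarith)
      (by rw [abs_div, abs_two]; linarith) he
    rw [Rmc_cj1, Rmc_cj1] at h1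
    exact ⟨h1, by linarith, h3⟩

/-- In the box `d` (radius `1`) the curve `K` is contained in `k` pieces of the strands of the box `b`. -/
structure CPieces (K : ℝ → PTH.SP) (b d : ℂ × ℝ × ℝ → PTH.SP) (f₁ f₂ : ℝ → ℝ) {k : ℕ} (c μ : Fin k → ℂ)
    (β ς η ρ : Fin k → ℝ) : Prop where
  eta : ∀ i, 0 < η i
  mu : ∀ i, ‖μ i‖ = η i
  rho : ∀ i, 0 < ρ i
  small : ∀ i, ‖c i‖ + 4 * η i ≤ 1 / 100
  dist : ∀ i i', i ≠ i' → 4 * η i + 4 * η i' ≤ ‖c i - c i'‖
  range : ∀ i, |β i| + ρ i < 1 / 2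
  sign : ∀ i, ς i = 1 ∨ ς i = -1
  piece : ∀ (i : Fin k) (y : ℂ) (s t : ℝ), ‖y - c i‖ < 4 * η i → |s| < 1 →
    d (y, s, t) = b (cj (ς i) ((y - c i) / μ i), β i + ς i * ρ i * s, t)
  inter : ∀ (y : ℂ) (s t : ℝ) (z : ℂ) (s' t' : ℝ), ‖y‖ < 1 → |s| < 1 → ‖z‖ < 4 → |s'| < 1 →
    d (y, s, t) = b (z, s', t') → ∃ i, ‖y - c i‖ < 4 * η i
  off : ∀ l, (f₁ (1 / 2) ≤ l ∧ l ≤ f₂ (-(1 / 2))) ∨ (f₂ (1 / 2) ≤ l ∧ l ≤ f₁ (-(1 / 2)) + 1) →
    ∀ (y : ℂ) (s t : ℝ), ‖y‖ ≤ 1 → |s| ≤ 1 → K l ≠ d (y, s, t)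

/-- closedness of the closed box -/
theorem Rmc_closed {P : Type*} [TopologicalSpace P] [T2Space P] {EP : Type*} [NormedAddCommGroup EP]
    [NormedSpace ℝ EP] {HP : Type*} [TopologicalSpace HP] {IP : ModelWithCorners ℝ EP HP}
    [ChartedSpace HP P] {d : ℂ × ℝ × ℝ → P} {R₁ S₁ : ℝ} (hR : 1 < R₁) (hS : 1 < S₁)
    (hd : BBox IP d R₁ S₁) :
    IsClosed {p : P | ∃ (y : ℂ) (s t : ℝ), ‖y‖ ≤ 1 ∧ |s| ≤ 1 ∧ p = d (y, s, t)} := by
  have hK : IsCompact (Metric.closedBall (0 : ℂ) 1 ×ˢ (Icc (-1 : ℝ) 1 ×ˢ Icc (0 : ℝ) 1)) :=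
    (isCompact_closedBall _ _).prod (isCompact_Icc.prod isCompact_Icc)
  have hc : ContinuousOn d (Metric.closedBall (0 : ℂ) 1 ×ˢ (Icc (-1 : ℝ) 1 ×ˢ Icc (0 : ℝ) 1)) := by
    rintro ⟨z, s, t⟩ ⟨h1, h2, -⟩
    have h3 : ‖z‖ ≤ 1 := by simpa using h1
    have h4 : |s| ≤ 1 := abs_le.mpr h2
    exact (CSG.ld_continuousAt (hd.loc z s t (by linarith) (by linarith))).continuousWithinAt
  have h := (hK.image_of_continuousOn hc).isClosed
  have e : {p : P | ∃ (y : ℂ) (s t : ℝ), ‖y‖ ≤ 1 ∧ |s| ≤ 1 ∧ p = d (y, s, t)} =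
      d '' (Metric.closedBall (0 : ℂ) 1 ×ˢ (Icc (-1 : ℝ) 1 ×ˢ Icc (0 : ℝ) 1)) := by
    ext p
    constructor
    · rintro ⟨y, s, t, hy, hs, rfl⟩
      refine ⟨(y, s, Int.fract t), ⟨by simpa using hy, abs_le.mp hs, Int.fract_nonneg _,
        (Int.fract_lt_one _).le⟩, ?_⟩
      have h1 := RBM.TorP_per (f := fun x => d (y, s, x)) (fun x => hd.per y s x) (Int.fract t) ⌊t⌋
      simp only [Int.fract_add_floor] at h1
      exact h1.symm
    · rintro ⟨⟨y, s, t⟩, ⟨h1, h2, -⟩, rfl⟩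
      exact ⟨y, s, t, by simpa using h1, abs_le.mpr h2, rfl⟩
  rw [e]
  exact h

theorem Rmc_sign {σ o : ℝ} (hσ : σ = 1 ∨ σ = -1) (ho : o = 1 ∨ o = -1) : σ * o = 1 ∨ σ * o = -1 := by
  rcases hσ with rfl | rfl <;> rcases ho with rfl | rfl <;> norm_num

/-- **Ribbon move, core form.** -/
theorem rm_core {a : ℝ → PTH.SP → PTH.SP} (ha : PTH.Act PTH.ISP a) {K : ℝ → PTH.SP}
    {b d : ℂ × ℝ × ℝ → PTH.SP} (hb : Box PTH.ISP b 5) (heqb : EquiB a b) {f₁ f₂ : ℝ → ℝ} {ε₁ ε₂ : ℝ}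
    (hs : TwoStrands b K f₁ f₂ ε₁ ε₂) {R₁ S₁ : ℝ} (hR : 1 < R₁) (hS : 1 < S₁)
    (hd : BBox PTH.ISP d R₁ S₁) (heqd : EquiB a d) {k : ℕ} {c μ : Fin k → ℂ} {β ς η ρ : Fin k → ℝ}
    (hp : CPieces K b d f₁ f₂ c μ β ς η ρ) {o : ℝ} (ho : o = 1 ∨ o = -1) :
    ∃ M : Equiv.Perm PTH.SP, IsM 1 d (MsR c η o) M ∧
      ∀ (n : ℤ) (X : Type*) [TopologicalSpace X] [ChartedSpace E4 X] [T2Space X],
        PTH.Carries PTH.ISP a n K X → PTH.Carries PTH.ISP a n (fun l => M (K l)) X := by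
  have hbox : Box PTH.ISP d 1 := ⟨hd.per, fun z s t hz hs => hd.loc z s t (by linarith) (by linarith),
    fun z s t z' s' t' hz hs hz' hs' he => hd.inj z s t z' s' t' (by linarith) (by linarith)
      (by linarith) (by linarith) he⟩
  obtain ⟨M, hM⟩ := RBM.exists_M hbox (r' := 7 / 8) (by norm_num)
    (RBM.MsR_isMs hp.eta hp.dist hp.small ho)
  refine ⟨M, hM, ?_⟩
  rintro n X _ _ _ ⟨κ₀, j, hκ₀, heq₀, hK₀, hD⟩
  have hFc := Rmc_closed hR hS hd
  obtain ⟨κ, φ, σ, hσ, heqκ, hBu, hφ, hφ1, hφ', hcore, -, -, hout, htwin⟩ :=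
    exists_bundle ha hκ₀ heq₀ hK₀ hb heqb hs hFc (by
      rintro l hl t ⟨y, s, t', hy, hs', he⟩
      refine hp.off l hl y s (-t + t') hy hs' ?_
      have h1 : K l = a (-t) (a t (K l)) := by rw [← ha.add, neg_add_cancel, ha.zero]
      rw [h1, he, heqd y s t', ← ha.add, ← heqd])
  have hcσ : ∀ (y : ℂ) (i : Fin k), ‖cj σ y - c i‖ = ‖y - cj σ (c i)‖ := fun y i =>
    Rmc_norm_sub hσ y (c i)
  have hPc : RBM.Pieces PTH.ISP κ (half σ b) (refl σ d) 1 (fun i => cj σ (c i)) (fun i => cj σ (μ i))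
      (fun i => 2 * β i) ς (fun _ => 0) η (fun i => 2 * ρ i) := by
    refine ⟨Rmc_box hσ hbox, hp.eta, ?_, ?_, ?_, ?_, ?_, hp.sign, ?_, ?_, ?_⟩
    · intro i
      rw [RSG.cj_norm hσ, hp.mu]
    · intro i
      have := hp.rho i
      linarith
    · intro i
      rw [RSG.cj_norm hσ]
      have := hp.small i
      linarith
    · intro i i' hi
      rw [← Rmc_sub, RSG.cj_norm hσ]
      exact hp.dist i i' hi
    · intro i
      have := hp.range i
      rw [abs_mul, abs_two]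
      linarith
    · intro i y s t hy hs'
      rw [← hcσ] at hy
      show d (cj σ y, s, t) = b (cj σ (cj (ς i) ((y - cj σ (c i)) / cj σ (μ i))),
        (2 * β i + ς i * (2 * ρ i) * s) / 2, t + 0)
      rw [hp.piece i _ s t hy hs', Rmc_comm, Rmc_div hσ, Rmc_sub, RSG.cj_cj hσ, RSG.cj_cj hσ]
      congr 3
      · ring
      · ring
    · intro y s t z s' t' hy hs1 hz hs2 he
      obtain ⟨i, hi⟩ := hp.inter (cj σ y) s t (cj σ z) (s' / 2) t' (by rw [RSG.cj_norm hσ]; exact hy) hs1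
        (by rw [RSG.cj_norm hσ]; exact hz) (by rw [abs_div, abs_two]; linarith) he
      exact ⟨i, by rw [← hcσ]; exact hi⟩
    · intro y s t l v t' hy hs1 hv he
      have hy' : ‖cj σ y‖ < 1 := by rw [RSG.cj_norm hσ]; exact hy
      have he' : d (cj σ y, s, t) = κ (l, v, t') := he
      have hfin : ∀ (z : ℂ) (s' t'' : ℝ), ‖z‖ < 4 → |s'| < 1 → κ (l, v, t') = b (z, s', t'') →
          ∃ i, ‖y - cj σ (c i)‖ < 4 * η i := by
        intro z s' t'' hz hs2 he2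
        obtain ⟨i, hi⟩ := hp.inter (cj σ y) s t z s' t'' hy' hs1 hz hs2 (he'.trans he2)
        exact ⟨i, by rw [← hcσ]; exact hi⟩
      by_cases hw : OutW l
      · rcases hout l v t' hv hw with h1 | ⟨z, s', t'', hz, -, hs2, he2⟩
        · exact absurd ⟨cj σ y, s, t, hy'.le, hs1.le, he'.symm⟩ h1
        · exact hfin z s' t'' hz hs2 he2
      · have hw' : ∃ m : ℤ, |l - 1 / 4 - m| < 1 / 16 ∨ |l - 3 / 4 - m| < 1 / 16 := by
          by_contra hcon
          push Not at hcon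
          exact hw hcon
        obtain ⟨m, hm | hm⟩ := hw'
        · have e1 : κ (l, v, t') = κ (1 / 4 + (l - 1 / 4 - m), v, t') := by
            have := RBM.TorP_per (f := fun x => κ (x, v, t')) (fun x => hBu.thick.perl x v t')
              (1 / 4 + (l - 1 / 4 - m)) m
            rw [← this]
            congr 2
            ring
          rw [hBu.strand₁ _ v t' hm hv] at e1
          refine hfin _ _ _ ?_ ?_ e1
          · rw [RSG.cj_norm hσ]
            calc ‖1 + cj ε₁ v / 2‖ ≤ ‖(1 : ℂ)‖ + ‖cj ε₁ v / 2‖ := norm_add_le _ _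
              _ < 4 := by
                rw [norm_one, norm_div, RSG.cj_norm hBu.sign₁]
                have : ‖(2 : ℂ)‖ = 2 := by norm_num
                rw [this]
                linarith
          · show |16 * ε₁ * (l - 1 / 4 - m) / 2| < 1
            have h3 : |ε₁| = 1 := by rcases hBu.sign₁ with h | h <;> rw [h] <;> norm_num
            rw [abs_div, abs_mul, abs_mul, h3, abs_two]
            have : |(16 : ℝ)| = 16 := by norm_num
            rw [this]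
            linarith
        · have e1 : κ (l, v, t') = κ (3 / 4 + (l - 3 / 4 - m), v, t') := by
            have := RBM.TorP_per (f := fun x => κ (x, v, t')) (fun x => hBu.thick.perl x v t')
              (3 / 4 + (l - 3 / 4 - m)) m
            rw [← this]
            congr 2
            ring
          rw [hBu.strand₂ _ v t' hm hv] at e1
          refine hfin _ _ _ ?_ ?_ e1
          · rw [RSG.cj_norm hσ]
            calc ‖-1 + cj ε₂ v / 2‖ ≤ ‖(-1 : ℂ)‖ + ‖cj ε₂ v / 2‖ := norm_add_le _ _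
              _ < 4 := by
                rw [norm_neg, norm_one, norm_div, RSG.cj_norm hBu.sign₂]
                have : ‖(2 : ℂ)‖ = 2 := by norm_num
                rw [this]
                linarith
          · show |16 * ε₂ * (l - 3 / 4 - m) / 2| < 1
            have h3 : |ε₂| = 1 := by rcases hBu.sign₂ with h | h <;> rw [h] <;> norm_num
            rw [abs_div, abs_mul, abs_mul, h3, abs_two]
            have : |(16 : ℝ)| = 16 := by norm_num
            rw [this]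
            linarith
  have hM' : IsM 1 (refl σ d) (MsR (fun i => cj σ (c i)) η (σ * o)) M :=
    Rmc_refl hσ (fun y s => Rmc_MsR c η o hσ y s) hM
  have hsm : ∀ i, ‖cj σ (c i)‖ + 4 * η i ≤ 1 / 100 := by
    intro i
    rw [RSG.cj_norm hσ]
    exact hp.small i
  have ho' := Rmc_sign hσ ho
  have hth := RBM.thick_M (r' := 7 / 8) hBu hPc (by norm_num) (RBM.MsR_isMs hPc.eta hPc.dist hsm ho') hM'
  exact Rmc_carries heqκ hφ hφ1 hφ' hcore (fun t p => Rmc_equi ha heqd hM t p) hth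
    (RBM.ribbon_twin hBu hPc hsm ho' hM' (htwin X n j hD))

/-- **4-move, core form.** -/
theorem four_core {a : ℝ → PTH.SP → PTH.SP} (ha : PTH.Act PTH.ISP a) {K : ℝ → PTH.SP}
    {b : ℂ × ℝ × ℝ → PTH.SP} (hb : Box PTH.ISP b 5) (heqb : EquiB a b) {f₁ f₂ : ℝ → ℝ} {ε₁ ε₂ : ℝ}
    (hs : TwoStrands b K f₁ f₂ ε₁ ε₂) {o : ℝ} (ho : o = 1 ∨ o = -1) :
    ∃ M : Equiv.Perm PTH.SP, IsM 4 (half 1 b) (MsDo o) M ∧
      ∀ (n : ℤ) (X : Type*) [TopologicalSpace X] [ChartedSpace E4 X] [T2Space X],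
        PTH.Carries PTH.ISP a n K X → PTH.Carries PTH.ISP a n (fun l => M (K l)) X := by
  have hbox : Box PTH.ISP (half 1 b) 4 := Rmc_half hb
  obtain ⟨La, R, hLa, hMs⟩ := RBM.exists_LaDo ho
  obtain ⟨M, hM⟩ := RBM.exists_M hbox (r' := 39 / 10) (by norm_num) hMs
  refine ⟨M, hM, ?_⟩
  rintro n X _ _ _ ⟨κ₀, j, hκ₀, heq₀, hK₀, hD⟩
  obtain ⟨κ, φ, σ, hσ, heqκ, hBu, hφ, hφ1, hφ', hcore, -, -, -, htwin⟩ :=
    exists_bundle ha hκ₀ heq₀ hK₀ hb heqb hs (Fc := ∅) isClosed_empty (fun l hl t h => h)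
  have heqh : EquiB a (half 1 b) := fun z s t => heqb (cj 1 z) (s / 2) t
  have hrb : refl σ (half 1 b) = half σ b := by
    funext q
    show b (cj 1 (cj σ q.1), q.2.1 / 2, q.2.2) = b (cj σ q.1, q.2.1 / 2, q.2.2)
    rw [Rmc_cj1]
  have hM' : IsM 4 (half σ b) (MsDo (σ * o)) M := by
    rw [← hrb]
    exact Rmc_refl hσ (fun y s => Rmc_MsDo o hσ y s) hM
  have ho' := Rmc_sign hσ ho
  obtain ⟨La', R', hLa', hMs'⟩ := RBM.exists_LaDo ho'
  have hth := RBM.thick_M (r' := 39 / 10) hBu (RBM.pieces_self hBu) (by norm_num) hMs' hM'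
  exact Rmc_carries heqκ hφ hφ1 hφ' hcore (fun t p => Rmc_equi ha heqh hM t p) hth
    (RBM.four_twin hBu ho' hM' (htwin X n j hD))

end Pool.Agent.COR
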