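import Pool.Agent.RBM.Defs
import Pool.Agent.RSG.GerM

/-!
# COR/Ger: only the germ of the thick torus matters
-/

open scoped Manifold ContDiff Topology
open Set Filter
open Complex (I)
open Pool.Agent.RSG

namespace Pool.Agent.COR

open Pool.Agent.RBM (ThickT TwinP OnT)

universe u

section
variable {EP : Type*} [NormedAddCommGroup EP] [NormedSpace ℝ EP] {HP : Type*}
  [TopologicalSpace HP] {J : ModelWithCorners ℝ EP HP} {P : Type*} [TopologicalSpace P]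
  [ChartedSpace HP P]

theorem phase (n j : ℤ) (z : S4) : ∃ l m t : ℝ, c1 z = ‖c1 z‖ * ex (m + (1 - j) * t) ∧
    c2 z = ‖c2 z‖ * ex (m - j * t) ∧ fh z = ‖fh z‖ * ex (l - n * t) := by
  obtain ⟨l, m, t, h1, h2, h3⟩ := exists_phase n j z
  refine ⟨l, m, t, ?_, ?_, h3⟩
  · rw [h1]
    congr 2
    · rw [← h1]
    · push_cast; ring
  · rw [h2]
    congr 2
    · rw [← h2]
    · push_cast; ring

/-- Only the germ of the thick torus matters. -/
theorem germ {X : Type u} [TopologicalSpace X] [ChartedSpace E4 X] {κ κ' : ℝ × ℂ × ℝ → P}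
    {n j : ℤ} {η : ℝ} (hη : 0 < η) (h : ThickT J κ) (h' : ThickT J κ')
    (he : ∀ l v t, ‖v‖ < η → κ' (l, v, t) = κ (l, v, t)) (D : TwinP J κ n j X) :
    Nonempty (TwinP J κ' n j X) := by
  classical
  let r : S4 → ℝ := fun z => 2 * ‖c1 z‖ * ‖c2 z‖
  have hrc : Continuous r :=
    (continuous_const.mul c1_smooth.continuous.norm).mul c2_smooth.continuous.norm
  have hr0 : ∀ z, 0 ≤ r z := fun z => by positivity
  -- the knots agree
  have hK : ∀ x, OnT κ' x ↔ OnT κ x := by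
    intro x
    have h0 : ∀ l t, κ' (l, 0, t) = κ (l, 0, t) := fun l t => he l 0 t (by simpa using hη)
    constructor
    · rintro ⟨l, t, hl⟩; exact ⟨l, t, by rw [hl, h0]⟩
    · rintro ⟨l, t, hl⟩; exact ⟨l, t, by rw [hl, h0]⟩
  have notK : ∀ l v t, v ≠ 0 → ‖v‖ < 1 → ¬ OnT κ (κ' (l, v, t)) := by
    intro l v t hv hv1 hk
    obtain ⟨l', t', hl'⟩ := (hK _).2 hk
    exact hv (h'.inj l v t l' 0 t' hv1 (by simp) hl').1
  have notK' : ∀ l v t, v ≠ 0 → ‖v‖ < 1 → ¬ OnT κ (κ (l, v, t)) := by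
    rintro l v t hv hv1 ⟨l', t', hl'⟩
    exact hv (h.inj l v t l' 0 t' hv1 (by simp) hl').1
  have hrpos : ∀ z, c1 z ≠ 0 → c2 z ≠ 0 → 0 < r z := by
    intro z h1 h2
    have := norm_pos_iff.2 h1
    have := norm_pos_iff.2 h2
    show 0 < 2 * ‖c1 z‖ * ‖c2 z‖
    positivity
  have hrNZ : ∀ z, 0 < r z → c1 z ≠ 0 ∧ c2 z ≠ 0 := by
    intro z hz
    constructor
    · intro h0
      have : r z = 0 := by show 2 * ‖c1 z‖ * ‖c2 z‖ = 0; rw [h0]; simp
      linarith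
    · intro h0
      have : r z = 0 := by show 2 * ‖c1 z‖ * ‖c2 z‖ = 0; rw [h0]; simp
      linarith
  have hvne : ∀ z, c1 z ≠ 0 → c2 z ≠ 0 → ∀ m, ((r z : ℝ) : ℂ) * ex m ≠ 0 := by
    intro z h1 h2 m
    exact mul_ne_zero (by exact_mod_cast (hrpos z h1 h2).ne') (ex_ne m)
  have hvn : ∀ z m, ‖((r z : ℝ) : ℂ) * ex m‖ = r z := by
    intro z m
    rw [norm_mul, ex_norm, mul_one, Complex.norm_real, Real.norm_of_nonneg (hr0 z)]
  choose L M T P1 P2 P3 using exists_phase n j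
  let Q' : S4 → X := fun z => if r z < η then D.Q z
    else D.A (κ' (L z, ((r z : ℝ) : ℂ) * ex (M z), T z))
  have hQlt : ∀ z, r z < η → Q' z = D.Q z := fun z hz => if_pos hz
  have hQge : ∀ z, ¬ r z < η → Q' z = D.A (κ' (L z, ((r z : ℝ) : ℂ) * ex (M z), T z)) :=
    fun z hz => if_neg hz
  have glueD : ∀ (z : S4) (l m t : ℝ), fh z ≠ 0 → c1 z ≠ 0 → c2 z ≠ 0 →
      c1 z = ‖c1 z‖ * ex (((1 : ℤ) : ℝ) * m + ((1 - j : ℤ) : ℝ) * t) →
      c2 z = ‖c2 z‖ * ex (((1 : ℤ) : ℝ) * m + ((-j : ℤ) : ℝ) * t) →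
      fh z = ‖fh z‖ * ex (l - n * t) →
      D.Q z = D.A (κ (l, (2 * ‖c1 z‖ * ‖c2 z‖ : ℝ) * ex m, t)) := by
    intro z l m t hf h1 h2 e1 e2 e3
    refine D.glue z l m t hf h1 h2 ?_ ?_ e3
    · have : m + (1 - (j : ℝ)) * t = ((1 : ℤ) : ℝ) * m + ((1 - j : ℤ) : ℝ) * t := by
        push_cast; ring
      rw [this]; exact e1
    · have : m - (j : ℝ) * t = ((1 : ℤ) : ℝ) * m + ((-j : ℤ) : ℝ) * t := by
        push_cast; ring
      rw [this]; exact e2
  -- (*)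
  have star : ∀ (z : S4) (l m t : ℝ), fh z ≠ 0 → c1 z ≠ 0 → c2 z ≠ 0 →
      c1 z = ‖c1 z‖ * ex (((1 : ℤ) : ℝ) * m + ((1 - j : ℤ) : ℝ) * t) →
      c2 z = ‖c2 z‖ * ex (((1 : ℤ) : ℝ) * m + ((-j : ℤ) : ℝ) * t) →
      fh z = ‖fh z‖ * ex (l - n * t) →
      Q' z = D.A (κ' (l, ((r z : ℝ) : ℂ) * ex m, t)) := by
    intro z l m t hf h1 h2 e1 e2 e3
    by_cases hz : r z < η
    · rw [hQlt z hz, glueD z l m t hf h1 h2 e1 e2 e3]
      have : κ' (l, ((r z : ℝ) : ℂ) * ex m, t) = κ (l, ((r z : ℝ) : ℂ) * ex m, t) :=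
        he _ _ _ (by rw [hvn]; exact hz)
      rw [this]
    · rw [hQge z hz]
      obtain ⟨hm, ⟨a, ha⟩, ⟨c, hc⟩⟩ := GerM_phases n j hf h1 h2 e1 e2 e3 (P1 z) (P2 z) (P3 z)
      rw [hm, ha, hc]
      have k1 := fun y => GerM_per (f := fun x => κ' (x, ((r z : ℝ) : ℂ) * ex m, y))
        (fun x => h'.perl _ _ _) l c
      have k2 := fun x => GerM_per (f := fun s => κ' (x, ((r z : ℝ) : ℂ) * ex m, s))
        (fun s => h'.pert _ _ _) t a
      rw [k1, k2]
  -- (**)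
  have star2 : ∀ (l t : ℝ) (v : ℂ), v ≠ 0 → ‖v‖ < 1 → Q' (Gc n j (l, v, t)) =
      D.A (κ' (l, v, t)) := by
    intro l t v hv hv1
    obtain ⟨hf, h1, h2, hr, e1, e2, e3⟩ := Gc_spec n j (l := l) (t := t) hv hv1
    set z := Gc n j (l, v, t) with hz
    have hvp : 0 < ‖v‖ := norm_pos_iff.2 hv
    obtain ⟨m, hm⟩ := ex_surj (u := v / ‖v‖) (by
      rw [norm_div, Complex.norm_real, norm_norm, div_self hvp.ne'])
    have hv' : ((r z : ℝ) : ℂ) * ex m = v := by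
      have : r z = ‖v‖ := hr
      rw [this, ← hm]
      have : ((‖v‖ : ℝ) : ℂ) ≠ 0 := by exact_mod_cast hvp.ne'
      field_simp
    rw [hm] at e1 e2
    have := star z l m t hf h1 h2 (by
        rw [← ex_add] at e1
        rw [show ((1 : ℤ) : ℝ) * m + ((1 - j : ℤ) : ℝ) * t = m + (1 - j) * t by push_cast; ring]
        exact e1) (by
        rw [← ex_add] at e2
        rw [show ((1 : ℤ) : ℝ) * m + ((-j : ℤ) : ℝ) * t = m + -j * t by push_cast; ring]
        exact e2) e3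
    rw [this, hv']
  have hGeq : ∀ z, fh z ≠ 0 → c1 z ≠ 0 → c2 z ≠ 0 →
      z = Gc n j (L z, ((r z : ℝ) : ℂ) * ex (M z), T z) := fun z hf h1 h2 =>
    Gc_eq n j hf h1 h2 (P1 z) (P2 z) (P3 z)
  have hvlt : ∀ z, fh z ≠ 0 → ∀ m, ‖((r z : ℝ) : ℂ) * ex m‖ < 1 := fun z hf m =>
    glue_norm hf m
  have hNZinj : ∀ z z', fh z ≠ 0 → fh z' ≠ 0 → c1 z ≠ 0 → c2 z ≠ 0 → c1 z' ≠ 0 → c2 z' ≠ 0 →
      Q' z = Q' z' → z = z' := by
    intro z z' hf hf' h1 h2 h1' h2' hq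
    rw [star z _ _ _ hf h1 h2 (P1 z) (P2 z) (P3 z),
      star z' _ _ _ hf' h1' h2' (P1 z') (P2 z') (P3 z')] at hq
    have hx := D.A_inj _ _
      (notK _ _ _ (hvne z h1 h2 _) (hvlt z hf _)) (notK _ _ _ (hvne z' h1' h2' _) (hvlt z' hf' _))
      hq
    obtain ⟨hv, ⟨c, hc⟩, ⟨a, ha⟩⟩ := h'.inj _ _ _ _ _ _ (hvlt z hf _) (hvlt z' hf' _) hx
    rw [hGeq z hf h1 h2, hGeq z' hf' h1' h2', ha, hc, ← hv, Gc_per]
  have hNZQ : ∀ z z', fh z ≠ 0 → fh z' ≠ 0 → (c1 z = 0 ∨ c2 z = 0) → c1 z' ≠ 0 → c2 z' ≠ 0 →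
      Q' z ≠ Q' z' := by
    intro z z' hf hf' hz h1' h2' hq
    have hr : r z < η := by
      by_contra hcon
      have := hrNZ z (lt_of_lt_of_le hη (not_lt.1 hcon))
      rcases hz with hz | hz
      · exact this.1 hz
      · exact this.2 hz
    rw [hQlt z hr, star z' _ _ _ hf' h1' h2' (P1 z') (P2 z') (P3 z')] at hq
    exact D.disj z _ hf hz (notK _ _ _ (hvne z' h1' h2' _) (hvlt z' hf' _)) hq
  refine ⟨{ A := D.A, Q := Q', A_loc := ?_, A_inj := ?_, Q_loc := ?_,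
            Q_inj := ?_, glue := ?_, disj := ?_, cover := ?_ }⟩
  · intro x hx
    exact D.A_loc x (fun hk => hx ((hK x).2 hk))
  · intro x x' hx hx' heq
    exact D.A_inj x x' (fun hk => hx ((hK x).2 hk)) (fun hk => hx' ((hK x').2 hk)) heq
  · intro z hf
    by_cases hz : r z < η
    · refine Pool.Agent.CSG.ld_congr (D.Q_loc z hf) ?_
      have : ∀ᶠ y in 𝓝 z, r y < η := hrc.continuousAt.eventually_lt continuousAt_const hz
      filter_upwards [this] with y hy using hQlt y hy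
    · have hrz : 0 < r z := lt_of_lt_of_le hη (not_lt.1 hz)
      obtain ⟨h1, h2⟩ := hrNZ z hrz
      have hzG := hGeq z hf h1 h2
      set v : ℂ := ((r z : ℝ) : ℂ) * ex (M z) with hvdef
      have hv0 : v ≠ 0 := hvne z h1 h2 _
      have hv1 : ‖v‖ < 1 := hvlt z hf _
      have hG := Gc_ld n j (l := L z) (t := T z) hv0 hv1
      have hcomp : IsLocalDiffeomorphAt 𝓘(ℝ, ℝ × ℂ × ℝ) (𝓡 4) ∞ (Q' ∘ Gc n j)
          (L z, v, T z) := by
        have hq : IsLocalDiffeomorphAt 𝓘(ℝ, ℝ × ℂ × ℝ) (𝓡 4) ∞ (D.A ∘ κ') (L z, v, T z) :=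
          IsLocalDiffeomorphAt.comp (hf := h'.loc (L z) v (T z) hv1)
            (hg := D.A_loc _ (notK _ _ _ hv0 hv1))
        refine Pool.Agent.CSG.ld_congr hq ?_
        have A1 : ∀ᶠ a : ℝ × ℂ × ℝ in 𝓝 (L z, v, T z), a.2.1 ≠ 0 :=
          (continuous_snd.fst).continuousAt.eventually_ne hv0
        have A2 : ∀ᶠ a : ℝ × ℂ × ℝ in 𝓝 (L z, v, T z), ‖a.2.1‖ < 1 :=
          (continuous_snd.fst.norm).continuousAt.eventually_lt continuousAt_const hv1
        filter_upwards [A1, A2] with a ha1 ha2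
        exact star2 a.1 a.2.2 a.2.1 ha1 ha2
      have := Pool.Agent.CSG.ld_of_comp_left hcomp hG
      rw [← hzG] at this
      exact this
  · intro z z' hf hf' hq
    by_cases hz : c1 z ≠ 0 ∧ c2 z ≠ 0
    · by_cases hz' : c1 z' ≠ 0 ∧ c2 z' ≠ 0
      · exact hNZinj z z' hf hf' hz.1 hz.2 hz'.1 hz'.2 hq
      · exact absurd hq.symm (hNZQ z' z hf' hf (by tauto) hz.1 hz.2)
    · by_cases hz' : c1 z' ≠ 0 ∧ c2 z' ≠ 0
      · exact absurd hq (hNZQ z z' hf hf' (by tauto) hz'.1 hz'.2)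
      · have hr : r z < η := by
          by_contra hcon
          exact hz (hrNZ z (lt_of_lt_of_le hη (not_lt.1 hcon)))
        have hr' : r z' < η := by
          by_contra hcon
          exact hz' (hrNZ z' (lt_of_lt_of_le hη (not_lt.1 hcon)))
        rw [hQlt z hr, hQlt z' hr'] at hq
        exact D.Q_inj z z' hf hf' hq
  · intro z l m t hf h1 h2 e1 e2 e3
    refine star z l m t hf h1 h2 ?_ ?_ e3
    · have : ((1 : ℤ) : ℝ) * m + ((1 - j : ℤ) : ℝ) * t = m + (1 - (j : ℝ)) * t := by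
        push_cast; ring
      rw [this]; exact e1
    · have : ((1 : ℤ) : ℝ) * m + ((-j : ℤ) : ℝ) * t = m - (j : ℝ) * t := by
        push_cast; ring
      rw [this]; exact e2
  · intro z x hf hz hx
    have hr : r z < η := by
      by_contra hcon
      have := hrNZ z (lt_of_lt_of_le hη (not_lt.1 hcon))
      rcases hz with hz | hz
      · exact this.1 hz
      · exact this.2 hz
    rw [hQlt z hr]
    exact D.disj z x hf hz (fun hk => hx ((hK x).2 hk))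
  · intro q
    rcases D.cover q with ⟨x, hx, hq⟩ | ⟨z, hf, hq⟩
    · exact Or.inl ⟨x, fun hk => hx ((hK x).1 hk), hq⟩
    · by_cases hz : r z < η
      · exact Or.inr ⟨z, hf, by rw [hQlt z hz]; exact hq⟩
      · obtain ⟨h1, h2⟩ := hrNZ z (lt_of_lt_of_le hη (not_lt.1 hz))
        left
        refine ⟨κ (L z, ((r z : ℝ) : ℂ) * ex (M z), T z), ?_, ?_⟩
        · intro hk
          exact notK' _ _ _ (hvne z h1 h2 _) (hvlt z hf _) ((hK _).1 hk)
        · rw [hq]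
          exact glueD z _ _ _ hf h1 h2 (P1 z) (P2 z) (P3 z)

/-- change by a diffeomorphism -/
theorem TwinP_diffeo {X : Type u} [TopologicalSpace X] [ChartedSpace E4 X] {κ : ℝ × ℂ × ℝ → P}
    {n j : ℤ} (F : Equiv.Perm P) (hF : ∀ p, IsLocalDiffeomorphAt J J ∞ F p)
    (D : TwinP J κ n j X) : Nonempty (TwinP J (fun q => F (κ q)) n j X) := by
  have hF' : ∀ p, IsLocalDiffeomorphAt J J ∞ F.symm p := by
    intro p
    have h1 : IsLocalDiffeomorphAt J J ∞ (F.symm ∘ F) (F.symm p) := by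
      refine Pool.Agent.CSG.ld_congr (Pool.Agent.CSG.ld_id _) ?_
      exact Filter.Eventually.of_forall fun x => by simp
    have := Pool.Agent.CSG.ld_of_comp_left h1 (hF (F.symm p))
    rwa [Equiv.apply_symm_apply] at this
  have hT : ∀ p, OnT (fun q => F (κ q)) p ↔ OnT κ (F.symm p) := by
    intro p
    constructor
    · rintro ⟨l, t, h⟩
      exact ⟨l, t, by rw [h, Equiv.symm_apply_apply]⟩
    · rintro ⟨l, t, h⟩
      exact ⟨l, t, by show p = F (κ (l, 0, t)); rw [← h, Equiv.apply_symm_apply]⟩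
  refine ⟨{ A := fun p => D.A (F.symm p), Q := D.Q, A_loc := ?_, A_inj := ?_, Q_loc := D.Q_loc,
            Q_inj := D.Q_inj, glue := ?_, disj := ?_, cover := ?_ }⟩
  · intro p hp
    rw [hT] at hp
    exact IsLocalDiffeomorphAt.comp (hf := hF' p) (hg := D.A_loc _ hp)
  · intro p p' hp hp' he
    rw [hT] at hp hp'
    exact F.symm.injective (D.A_inj _ _ hp hp' he)
  · intro z l m t hf h1 h2 e1 e2 e3
    rw [Equiv.symm_apply_apply]
    exact D.glue z l m t hf h1 h2 e1 e2 e3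
  · intro z p hf hz hp
    rw [hT] at hp
    exact D.disj z _ hf hz hp
  · intro q
    rcases D.cover q with ⟨p, h1, h2⟩ | h
    · refine Or.inl ⟨F p, ?_, ?_⟩
      · rw [hT, Equiv.symm_apply_apply]; exact h1
      · rw [Equiv.symm_apply_apply]; exact h2
    · exact Or.inr h

theorem ThickT_diffeo {κ : ℝ × ℂ × ℝ → P} (F : Equiv.Perm P)
    (hF : ∀ p, IsLocalDiffeomorphAt J J ∞ F p) (h : ThickT J κ) :
    ThickT J (fun q => F (κ q)) where
  perl := fun l v t => by rw [h.perl]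
  pert := fun l v t => by rw [h.pert]
  loc := fun l v t hv => IsLocalDiffeomorphAt.comp (hf := h.loc l v t hv) (hg := hF _)
  inj := fun l v t l' v' t' hv hv' he => h.inj l v t l' v' t' hv hv' (F.injective he)

end

end Pool.Agent.COR
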