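import Pool.Agent.COR.Defs

/-!
# COR/Kmv: diffeomorphisms of `P` supported in a thick torus   (difficulty 2)

`CSG.exists_gamma` with `Z = ℝ × ℂ × ℝ`, `e = κ`, `D = {‖v‖ < 1}`, `C = {‖v‖ ≤ R}`, `T = ∅`, `L = H`, `L' = H⁻¹` (compare with SPI/LevD `exists_level` and ISO/LiftA `exists_lift`).
* `H` and `H⁻¹` preserve `{‖v‖ < 1}`: if `‖v‖ ≥ 1 > R` then `H` is the identity at the point (and injectivity).
* `κ z = κ z'` implies `z' = z + (m, 0, k)` (`hκ.inj`), `H` commutes with these translations (from `hl`, `ht` by induction, also for `H⁻¹`), `κ` is periodic.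
* `κ '' {‖v‖ ≤ R}` is closed: it is `κ '' ([0,1] × {‖v‖ ≤ R} × [0,1])`, the image of a compact set.
* equivariance: as in `SPI.LChart.equivariant`.
-/

open scoped Manifold ContDiff Topology
open Set Filter
open Complex (I)

namespace Pool.Agent.COR

open Pool.Agent.RBM (ThickT TwinP OnT)

section
variable {EP : Type*} [NormedAddCommGroup EP] [NormedSpace ℝ EP] {HP : Type*} [TopologicalSpace HP]
  {IP : ModelWithCorners ℝ EP HP} {P : Type*} [TopologicalSpace P] [ChartedSpace HP P]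

theorem Kmv_per {α : Type*} {f : ℝ → α} (h : ∀ x, f (x + 1) = f x) (x : ℝ) (m : ℤ) :
    f (x + m) = f x := by
  have h1 : Function.Periodic f 1 := h
  have := h1.int_mul m x
  simpa using this

theorem Kmv_kap {κ : ℝ × ℂ × ℝ → P} (hκ : ThickT IP κ) (z : ℝ × ℂ × ℝ) (m k : ℤ) :
    κ (z + ((m : ℝ), 0, (k : ℝ))) = κ z := by
  obtain ⟨l, v, t⟩ := z
  have h0 : ((l, v, t) : ℝ × ℂ × ℝ) + ((m : ℝ), 0, (k : ℝ)) = (l + m, v, t + k) := by
    simp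
  rw [h0]
  have h1 := Kmv_per (f := fun x => κ (x, v, t + k)) (fun x => hκ.perl x v _) l m
  have h2 := Kmv_per (f := fun x => κ (l, v, x)) (fun x => hκ.pert l v x) t k
  exact h1.trans h2

theorem Kmv_H {H : ℝ × ℂ × ℝ → ℝ × ℂ × ℝ}
    (hl : ∀ l v t, H (l + 1, v, t) = H (l, v, t) + (1, 0, 0))
    (ht : ∀ l v t u, H (l, v, t + u) = H (l, v, t) + (0, 0, u)) (z : ℝ × ℂ × ℝ) (m k : ℤ) :
    H (z + ((m : ℝ), 0, (k : ℝ))) = H z + ((m : ℝ), 0, (k : ℝ)) := by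
  obtain ⟨l, v, t⟩ := z
  have h0 : ((l, v, t) : ℝ × ℂ × ℝ) + ((m : ℝ), 0, (k : ℝ)) = (l + m, v, t + k) := by
    simp
  rw [h0, ht]
  have h1 := Kmv_per (f := fun x => H (x, v, t) - (x, 0, 0)) (fun x => by
    show H (x + 1, v, t) - (x + 1, 0, 0) = H (x, v, t) - (x, 0, 0)
    rw [hl]
    have : ((x + 1, 0, 0) : ℝ × ℂ × ℝ) = (x, 0, 0) + (1, 0, 0) := by simp
    rw [this]
    abel) l m
  have h2 : H (l + m, v, t) - (l + m, 0, 0) = H (l, v, t) - (l, 0, 0) := h1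
  have h3 : H (l + m, v, t) = H (l, v, t) + ((m : ℝ), 0, 0) := by
    have h4 : ((l + m, 0, 0) : ℝ × ℂ × ℝ) = (l, 0, 0) + ((m : ℝ), 0, 0) := by simp
    rw [h4] at h2
    have h5 : H (l + m, v, t) = (H (l + m, v, t) - ((l, 0, 0) + ((m : ℝ), 0, 0))) +
        ((l, 0, 0) + ((m : ℝ), 0, 0)) := by abel
    rw [h5, h2]
    abel
  rw [h3, add_assoc]
  simp

theorem Kmv_closed [T2Space P] {κ : ℝ × ℂ × ℝ → P} (hκ : ThickT IP κ) {R : ℝ} (hR : R < 1) :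
    IsClosed (κ '' {z : ℝ × ℂ × ℝ | ‖z.2.1‖ ≤ R}) := by
  have h1 : κ '' {z : ℝ × ℂ × ℝ | ‖z.2.1‖ ≤ R} =
      κ '' (Icc (0 : ℝ) 1 ×ˢ (Metric.closedBall (0 : ℂ) R ×ˢ Icc (0 : ℝ) 1)) := by
    ext p
    constructor
    · rintro ⟨⟨l, v, t⟩, hv, rfl⟩
      refine ⟨(Int.fract l, v, Int.fract t), ⟨⟨Int.fract_nonneg l, (Int.fract_lt_one l).le⟩,
        by simpa using hv, Int.fract_nonneg t, (Int.fract_lt_one t).le⟩, ?_⟩
      have h2 := Kmv_kap hκ (Int.fract l, v, Int.fract t) ⌊l⌋ ⌊t⌋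
      have h3 : ((Int.fract l, v, Int.fract t) : ℝ × ℂ × ℝ) + ((⌊l⌋ : ℝ), 0, (⌊t⌋ : ℝ)) =
          (l, v, t) := by
        simp
      rw [h3] at h2
      exact h2.symm
    · rintro ⟨⟨l, v, t⟩, ⟨hl, hv, ht⟩, rfl⟩
      exact ⟨(l, v, t), by simpa using hv, rfl⟩
  rw [h1]
  apply IsCompact.isClosed
  apply IsCompact.image_of_continuousOn
  · exact isCompact_Icc.prod ((isCompact_closedBall 0 R).prod isCompact_Icc)
  · rintro ⟨l, v, t⟩ ⟨hl, hv, ht⟩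
    exact (CSG.ld_continuousAt (hκ.loc l v t
      (lt_of_le_of_lt (by simpa using hv) hR))).continuousWithinAt

theorem kap_move [T2Space P] {κ : ℝ × ℂ × ℝ → P} (hκ : ThickT IP κ) {H : Equiv.Perm (ℝ × ℂ × ℝ)}
    (hH : ContDiff ℝ ∞ H) (hH' : ContDiff ℝ ∞ H.symm)
    (hl : ∀ l v t, H (l + 1, v, t) = H (l, v, t) + (1, 0, 0))
    (ht : ∀ l v t u, H (l, v, t + u) = H (l, v, t) + (0, 0, u)) {R : ℝ} (hR : R < 1)
    (hid : ∀ l v t, R ≤ ‖v‖ → H (l, v, t) = (l, v, t)) :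
    ∃ F : Equiv.Perm P, (∀ p, IsLocalDiffeomorphAt IP IP ∞ F p) ∧
      (∀ l v t, ‖v‖ < 1 → F (κ (l, v, t)) = κ (H (l, v, t))) ∧
      (∀ p, (∀ l v t, ‖v‖ < 1 → κ (l, v, t) ≠ p) → F p = p) ∧
      (∀ a : ℝ → P → P, PTH.Act IP a → (∀ l v t, κ (l, v, t) = a t (κ (l, v, 0))) →
        ∀ t p, F (a t p) = a t (F p)) := by
  have hHz := Kmv_H (H := H) hl ht
  have hHs : ∀ (z : ℝ × ℂ × ℝ) (m k : ℤ),
      H.symm (z + ((m : ℝ), 0, (k : ℝ))) = H.symm z + ((m : ℝ), 0, (k : ℝ)) := by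
    intro z m k
    rw [Equiv.symm_apply_eq, hHz, Equiv.apply_symm_apply]
  have hbig : ∀ z : ℝ × ℂ × ℝ, 1 ≤ ‖z.2.1‖ → H z = z := by
    rintro ⟨l, v, t⟩ hz
    exact hid l v t (hR.le.trans hz)
  have hD0 : IsOpen {z : ℝ × ℂ × ℝ | ‖z.2.1‖ < 1} := isOpen_lt (by fun_prop) continuous_const
  have hinj : ∀ z z' : ℝ × ℂ × ℝ, ‖z.2.1‖ < 1 → ‖z'.2.1‖ < 1 → κ z = κ z' →
      ∃ m k : ℤ, z' = z + ((m : ℝ), 0, (k : ℝ)) := by
    rintro ⟨l, v, t⟩ ⟨l', v', t'⟩ h1 h2 he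
    obtain ⟨rfl, ⟨m, rfl⟩, ⟨k, rfl⟩⟩ := hκ.inj _ _ _ _ _ _ h1 h2 he
    exact ⟨m, k, by simp⟩
  obtain ⟨Γ, g1, g2, g3, -⟩ := CSG.exists_gamma (J := IP) κ {z : ℝ × ℂ × ℝ | ‖z.2.1‖ < 1}
    {z : ℝ × ℂ × ℝ | ‖z.2.1‖ ≤ R} ∅ H H.symm hD0
    (fun z hz => hκ.loc z.1 z.2.1 z.2.2 hz) (fun z _ => by simp)
    (fun z _ => CSG.ld_of_perm hH hH' z) (fun z _ => H.apply_symm_apply z)
    (fun z _ => H.symm_apply_apply z)
    (by
      intro z hz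
      by_contra hcon
      have h1 : 1 ≤ ‖(H z).2.1‖ := not_lt.1 hcon
      have h2 := H.injective (hbig _ h1)
      rw [h2] at h1
      exact absurd hz (not_lt.2 h1))
    (by
      intro z hz
      by_contra hcon
      have h1 : 1 ≤ ‖(H.symm z).2.1‖ := not_lt.1 hcon
      have h2 := hbig _ h1
      rw [Equiv.apply_symm_apply] at h2
      rw [← h2] at h1
      exact absurd hz (not_lt.2 h1))
    (by
      intro z hz z' hz' he
      obtain ⟨m, k, rfl⟩ := hinj z z' hz hz' he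
      rw [hHz, Kmv_kap hκ])
    (by
      intro z hz z' hz' he
      obtain ⟨m, k, rfl⟩ := hinj z z' hz hz' he
      rw [hHs, Kmv_kap hκ])
    (by
      rintro ⟨l, v, t⟩ _ hz
      exact hid l v t (not_le.1 hz).le)
    (by
      rw [union_empty]
      exact Kmv_closed hκ hR)
    (fun z hz => lt_of_le_of_lt hz hR)
  refine ⟨Γ, fun p => g1 p (by simp), fun l v t hv => g2 (l, v, t) hv, ?_, ?_⟩
  · intro p hp
    apply g3
    rintro ⟨⟨l, v, t⟩, hv, rfl⟩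
    exact hp l v t hv rfl
  · intro a ha heq t p
    have hat : ∀ (z : ℝ × ℂ × ℝ) (t : ℝ), a t (κ z) = κ (z + (0, 0, t)) := by
      rintro ⟨l, v, u⟩ t
      have h1 : ((l, v, u) : ℝ × ℂ × ℝ) + (0, 0, t) = (l, v, t + u) := by
        simp [add_comm]
      rw [h1, heq l v u, heq l v (t + u), ha.add]
    by_cases hD : p ∈ κ '' {z : ℝ × ℂ × ℝ | ‖z.2.1‖ < 1}
    · obtain ⟨⟨l, v, u⟩, hv, rfl⟩ := hD
      have hv' : ‖v‖ < 1 := hv
      rw [hat]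
      have h1 : ((l, v, u) : ℝ × ℂ × ℝ) + (0, 0, t) = (l, v, u + t) := by simp
      rw [h1, g2 (l, v, u + t) hv', g2 (l, v, u) hv', hat, ht]
    · rw [g3 p hD]
      apply g3
      rintro ⟨z, hz, he⟩
      apply hD
      refine ⟨z + (0, 0, -t), ?_, ?_⟩
      · show ‖(z + (0, 0, -t)).2.1‖ < 1
        simpa using hz
      · rw [← hat, he, ← ha.add, neg_add_cancel, ha.zero]

end

end Pool.Agent.COR
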