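import Pool.Agent.COR.Defs
import Pool.Agent.SPI.Push

/-!
# COR/Lft: the transition map between two thick tori with the same core   (difficulty 3)

`exists_lft`.  `ς` is a periodic cutoff.  For `l₀ ∈ U`:
* `κ` is a local diffeomorphism at `(l₀, 0, 0)`, `κ' (l₀, 0, 0) = κ (l₀, 0, 0)`, so `g = (local inverse of κ at this point) ∘ κ'` is a local diffeomorphism at `(l₀, 0, 0)`
  with `κ (g q) = κ' q` for `q` near `(l₀, 0, 0)`, `g (l₀, 0, 0) = (l₀, 0, 0)` (`hκ.loc .. |>.localInverse`, `CSG.ld_congr`, ..); `g (l, 0, 0) = (l, 0, 0)` for `l` near `l₀` (local injectivity of `κ`).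
* Define for ALL `(l, v)`: `G (l, v)` = the point `(l', w, t')` with `|l' - l| < 1/2`, `|t'| < 1/2`, `‖w‖ < min R 1`, `κ (l', w, t') = κ' (l, v, 0)` if it exists (it is unique by `hκ.inj`),
  and `(l, 0, 0)` otherwise.  Near `(l₀, 0)`, `l₀ ∈ U`, `G (l, v) = g (l, v, 0)`: so `G` is smooth near `(l₀, 0)`, `G (l₀, 0) = (l₀, 0, 0)`.  `G (l + 1, v) = G (l, v) + (1, 0, 0)`.
* By compactness (`tsupport ς ∩ [0, 1]`, then periodicity) there is `ε > 0` such that `G` is smooth near every `(l, v)` with `l ∈ tsupport ς`, `‖v‖ ≤ 2 ε`, and `κ (G (l, v)) = κ' (l, v, 0)` there.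
* `lam (l, v) = l + ς l * cutb ε v * ((G (l, v)).1 - l)`, `om = ς l * cutb ε v • (G (l, v)).2.1`, `tau = ς l * cutb ε v * (G (l, v)).2.2` (`SPI.cutb`, `= 1` for `‖v‖ ≤ ε`, `0` for `‖v‖ ≥ 2 ε`):
  globally smooth (at a point with `l ∉ tsupport ς` or `‖v‖ > 2 ε` they are locally `l`, `0`, `0`; note that the functions are needed only up to the closed set `‖v‖ ≤ 2 ε`).
* for `ς l = 1`, `‖v‖ ≤ ε`: `κ' (l, v, t) = a t (κ' (l, v, 0)) = a t (κ (lam, om, tau)) = κ (lam, om, t + tau)` (equivariance).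
* invertibility of `dv om l` for `ς l = 1`: near `(l, 0, 0)`, `(l', v, t) ↦ (lam (l', v), om (l', v), t + tau (l', v))` is `g` (up to the second point), a local diffeomorphism, so its derivative at
  `(l, 0, 0)` is injective; if `dv om l w = 0` then the vector `(-(∂_v lam) w, w, -(∂_v tau) w)` is mapped to `0` (`∂_l (lam, om, tau) (l, 0) = (1, 0, 0)` as `ς = 1`; careful: `ς` may be non constant near `l`, but
  `G (l', 0) = (l', 0, 0)`, so the cut off functions have the same value `(l', 0, 0)` on the core, and the derivative in the direction `v` at `(l, 0)` is the one of `G`).  Hence `w = 0`.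
-/

open scoped Manifold ContDiff Topology
open Set Filter
open Complex (I)

namespace Pool.Agent.COR

open Pool.Agent.RBM (ThickT TwinP OnT)

section
variable {EP : Type*} [NormedAddCommGroup EP] [NormedSpace ℝ EP] {HP : Type*} [TopologicalSpace HP]
  {IP : ModelWithCorners ℝ EP HP} {P : Type*} [TopologicalSpace P] [ChartedSpace HP P]

theorem Lft_fderiv_inj {V W : Type*} [NormedAddCommGroup V] [NormedSpace ℝ V]
    [NormedAddCommGroup W] [NormedSpace ℝ W] {f : V → W} {x : V}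
    (hf : IsLocalDiffeomorphAt 𝓘(ℝ, V) 𝓘(ℝ, W) ∞ f x) {v : V} (hv : fderiv ℝ f x v = 0) :
    v = 0 := by
  have hn : (∞ : WithTop ℕ∞) ≠ 0 := by simp
  have h1 : DifferentiableAt ℝ f x := (contMDiffAt_iff_contDiffAt.1 hf.contMDiffAt).differentiableAt hn
  have h2 : DifferentiableAt ℝ hf.localInverse (f x) :=
    (contMDiffAt_iff_contDiffAt.1 hf.localInverse_contMDiffAt).differentiableAt hn
  have h3 : HasFDerivAt (hf.localInverse ∘ f) ((fderiv ℝ hf.localInverse (f x)).comp (fderiv ℝ f x)) x :=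
    h2.hasFDerivAt.comp x h1.hasFDerivAt
  have h4 : HasFDerivAt (hf.localInverse ∘ f) (ContinuousLinearMap.id ℝ V) x :=
    (hasFDerivAt_id x).congr_of_eventuallyEq hf.localInverse_eventuallyEq_left
  have h5 := h3.unique h4
  have h6 := congrArg (fun L : V →L[ℝ] V => L v) h5
  simp only [ContinuousLinearMap.comp_apply, hv, map_zero, ContinuousLinearMap.id_apply] at h6
  exact h6.symm

/-- the solution predicate -/
def LftSol (κ κ' : ℝ × ℂ × ℝ → P) (r : ℝ) (l : ℝ) (v : ℂ) (p : ℝ × ℂ × ℝ) : Prop :=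
  |p.1 - l| < 1 / 2 ∧ |p.2.2| < 1 / 2 ∧ ‖p.2.1‖ < r ∧ κ p = κ' (l, v, 0)

theorem Lft_uniq {κ κ' : ℝ × ℂ × ℝ → P} (hκ : ThickT IP κ) {r : ℝ} (hr : r ≤ 1) {l : ℝ} {v : ℂ}
    {p p' : ℝ × ℂ × ℝ} (h : LftSol κ κ' r l v p) (h' : LftSol κ κ' r l v p') : p = p' := by
  obtain ⟨x, w, t⟩ := p
  obtain ⟨x', w', t'⟩ := p'
  obtain ⟨h1, h2, h3, h4⟩ := h
  obtain ⟨h1', h2', h3', h4'⟩ := h'
  simp only at h1 h2 h3 h1' h2' h3'
  obtain ⟨e1, ⟨m, e2⟩, ⟨n, e3⟩⟩ := hκ.inj x w t x' w' t' (h3.trans_le hr) (h3'.trans_le hr) (h4.trans h4'.symm)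
  have key : ∀ m : ℤ, |(m : ℝ)| < 1 → m = 0 := by
    intro m hm
    have : |m| < 1 := by exact_mod_cast hm
    exact Int.abs_lt_one_iff.1 this
  have hm : m = 0 := by
    apply key
    rw [abs_lt] at *
    constructor <;> linarith [h1.1, h1.2, h1'.1, h1'.2]
  have hn : n = 0 := by
    apply key
    rw [abs_lt] at *
    constructor <;> linarith [h2.1, h2.2, h2'.1, h2'.2]
  subst hm hn
  simp only [Int.cast_zero, add_zero] at e2 e3
  rw [e1, e2, e3]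

omit [TopologicalSpace P] in
theorem Lft_int {κ : ℝ × ℂ × ℝ → P} (h : ∀ l v t, κ (l + 1, v, t) = κ (l, v, t)) (n : ℤ) (l : ℝ)
    (v : ℂ) (t : ℝ) : κ (l + n, v, t) = κ (l, v, t) := by
  have h1 : Function.Periodic (fun l => κ (l, v, t)) 1 := fun l => h l v t
  have h2 := h1.int_mul n l
  simpa using h2

omit [TopologicalSpace P] in
theorem Lft_shift {κ κ' : ℝ × ℂ × ℝ → P} (h : ∀ l v t, κ (l + 1, v, t) = κ (l, v, t))
    (h' : ∀ l v t, κ' (l + 1, v, t) = κ' (l, v, t)) {r : ℝ} {l : ℝ} {v : ℂ} (n : ℤ)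
    {p : ℝ × ℂ × ℝ} (hp : LftSol κ κ' r l v p) : LftSol κ κ' r (l + n) v (p + ((n : ℝ), 0, 0)) := by
  obtain ⟨x, w, t⟩ := p
  obtain ⟨h1, h2, h3, h4⟩ := hp
  have e : ((x, w, t) : ℝ × ℂ × ℝ) + ((n : ℝ), 0, 0) = (x + n, w, t) := by simp
  rw [e]
  refine ⟨?_, h2, h3, ?_⟩
  · simpa using h1
  · rw [Lft_int h, Lft_int h', h4]

open Classical in
/-- the local transition map -/
noncomputable def LftG (κ κ' : ℝ × ℂ × ℝ → P) (r : ℝ) (q : ℝ × ℂ) : ℝ × ℂ × ℝ :=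
  if h : ∃ p, LftSol κ κ' r q.1 q.2 p then h.choose else (q.1, 0, 0)

theorem LftG_eq {κ κ' : ℝ × ℂ × ℝ → P} (hκ : ThickT IP κ) {r : ℝ} (hr : r ≤ 1) {q : ℝ × ℂ}
    {p : ℝ × ℂ × ℝ} (h : LftSol κ κ' r q.1 q.2 p) : LftG κ κ' r q = p := by
  have h1 : ∃ p, LftSol κ κ' r q.1 q.2 p := ⟨p, h⟩
  unfold LftG
  rw [dif_pos h1]
  exact Lft_uniq hκ hr h1.choose_spec h

theorem LftG_shift {κ κ' : ℝ × ℂ × ℝ → P} (hκ : ThickT IP κ)
    (h' : ∀ l v t, κ' (l + 1, v, t) = κ' (l, v, t)) {r : ℝ} (hr : r ≤ 1) (q : ℝ × ℂ) (n : ℤ) :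
    LftG κ κ' r (q + ((n : ℝ), 0)) = LftG κ κ' r q + ((n : ℝ), 0, 0) := by
  obtain ⟨l, v⟩ := q
  have e : ((l, v) : ℝ × ℂ) + ((n : ℝ), 0) = (l + n, v) := by simp
  rw [e]
  by_cases h1 : ∃ p, LftSol κ κ' r l v p
  · obtain ⟨p, hp⟩ := h1
    rw [LftG_eq hκ hr (q := (l, v)) hp]
    exact LftG_eq hκ hr (q := (l + n, v)) (Lft_shift hκ.perl h' n hp)
  · have h2 : ¬ ∃ p, LftSol κ κ' r (l + n) v p := by
      rintro ⟨p, hp⟩
      apply h1
      have := Lft_shift hκ.perl h' (-n) hp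
      have e : l + (n : ℝ) + ((-n : ℤ) : ℝ) = l := by push_cast; ring
      rw [e] at this
      exact ⟨_, this⟩
    unfold LftG
    rw [dif_neg h1, dif_neg h2]
    simp

/-- the local map `g` near a point of the core -/
theorem Lft_local {a : ℝ → P → P} (ha : PTH.Act IP a) {κ κ' : ℝ × ℂ × ℝ → P} (hκ : ThickT IP κ)
    (heq : Equi a κ) (heq' : Equi a κ')
    {U : Set ℝ} (hU : IsOpen U)
    (hloc : ∀ l ∈ U, IsLocalDiffeomorphAt 𝓘(ℝ, ℝ × ℂ × ℝ) IP ∞ κ' (l, 0, 0))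
    (hcore : ∀ l ∈ U, κ' (l, 0, 0) = κ (l, 0, 0)) {r : ℝ} (hr : 0 < r) (hr1 : r ≤ 1) {l₀ : ℝ}
    (hl : l₀ ∈ U) :
    ∃ g : ℝ × ℂ × ℝ → ℝ × ℂ × ℝ,
      IsLocalDiffeomorphAt 𝓘(ℝ, ℝ × ℂ × ℝ) 𝓘(ℝ, ℝ × ℂ × ℝ) ∞ g (l₀, 0, 0) ∧
      (∀ᶠ s : ℝ × ℝ in 𝓝 (l₀, 0), g (s.1, 0, s.2) = (s.1, 0, s.2)) ∧
      (∀ᶠ q : ℝ × ℂ in 𝓝 (l₀, 0), LftSol κ κ' r q.1 q.2 (g (q.1, q.2, 0))) := by
  have h0 : ‖(0 : ℂ)‖ < 1 := by simp
  have hL := hκ.loc l₀ 0 0 h0
  have hinv : IsLocalDiffeomorphAt IP 𝓘(ℝ, ℝ × ℂ × ℝ) ∞ hL.localInverse (κ' (l₀, 0, 0)) := by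
    rw [hcore l₀ hl]
    exact hL.localInverse_isLocalDiffeomorphAt
  have hg0 : hL.localInverse (κ' (l₀, 0, 0)) = (l₀, 0, 0) := by
    rw [hcore l₀ hl]
    exact hL.localInverse_left_inv hL.localInverse_mem_target
  have hg : IsLocalDiffeomorphAt 𝓘(ℝ, ℝ × ℂ × ℝ) 𝓘(ℝ, ℝ × ℂ × ℝ) ∞ (hL.localInverse ∘ κ') (l₀, 0, 0) :=
    IsLocalDiffeomorphAt.comp (hf := hloc l₀ hl) (hg := hinv) ..
  refine ⟨hL.localInverse ∘ κ', hg, ?_, ?_⟩
  · have h1 : ∀ᶠ p : ℝ × ℂ × ℝ in 𝓝 (l₀, 0, 0), hL.localInverse (κ p) = p :=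
      hL.localInverse_eventuallyEq_left
    have hc : ContinuousAt (fun s : ℝ × ℝ => ((s.1, 0, s.2) : ℝ × ℂ × ℝ)) (l₀, 0) := by fun_prop
    have h2 := hc.eventually h1
    have h3 : ∀ᶠ s : ℝ × ℝ in 𝓝 (l₀, 0), s.1 ∈ U :=
      continuousAt_fst.eventually (hU.mem_nhds hl)
    filter_upwards [h2, h3] with s hs hs'
    show hL.localInverse (κ' (s.1, 0, s.2)) = _
    rw [heq', hcore _ hs', ← heq]
    exact hs
  · have hgc : ContinuousAt (hL.localInverse ∘ κ') (l₀, 0, 0) := CSG.ld_continuousAt hg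
    have hgv : (hL.localInverse ∘ κ') (l₀, 0, 0) = (l₀, 0, 0) := hg0
    have hc : ContinuousAt (fun q : ℝ × ℂ => ((q.1, q.2, 0) : ℝ × ℂ × ℝ)) (l₀, 0) := by fun_prop
    have hgc2 : ContinuousAt (fun q : ℝ × ℂ => (hL.localInverse ∘ κ') (q.1, q.2, 0)) (l₀, 0) :=
      ContinuousAt.comp (g := hL.localInverse ∘ κ') (f := fun q : ℝ × ℂ => ((q.1, q.2, 0) : ℝ × ℂ × ℝ)) hgc hc
    have hright : ∀ᶠ y in 𝓝 (κ (l₀, 0, 0)), κ (hL.localInverse y) = y :=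
      hL.localInverse_eventuallyEq_right
    have hκ'c : ContinuousAt (fun q : ℝ × ℂ => κ' (q.1, q.2, 0)) (l₀, 0) :=
      ContinuousAt.comp (g := κ') (f := fun q : ℝ × ℂ => ((q.1, q.2, 0) : ℝ × ℂ × ℝ))
        (CSG.ld_continuousAt (hloc l₀ hl)) hc
    have h4 : ∀ᶠ q : ℝ × ℂ in 𝓝 (l₀, 0), κ (hL.localInverse (κ' (q.1, q.2, 0))) = κ' (q.1, q.2, 0) := by
      have hr' : ∀ᶠ y in 𝓝 (κ' (l₀, 0, 0)), κ (hL.localInverse y) = y := by
        rw [hcore l₀ hl]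
        exact hright
      exact hκ'c.eventually hr'
    have hopen : ∀ᶠ q : ℝ × ℂ in 𝓝 (l₀, 0),
        |((hL.localInverse ∘ κ') (q.1, q.2, 0)).1 - q.1| < 1 / 2 ∧
        |((hL.localInverse ∘ κ') (q.1, q.2, 0)).2.2| < 1 / 2 ∧
        ‖((hL.localInverse ∘ κ') (q.1, q.2, 0)).2.1‖ < r := by
      have c1 : ContinuousAt (fun q : ℝ × ℂ => |((hL.localInverse ∘ κ') (q.1, q.2, 0)).1 - q.1|) (l₀, 0) :=
        (hgc2.fst.sub continuousAt_fst).abs
      have c2 : ContinuousAt (fun q : ℝ × ℂ => |((hL.localInverse ∘ κ') (q.1, q.2, 0)).2.2|) (l₀, 0) :=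
        hgc2.snd.snd.abs
      have c3 : ContinuousAt (fun q : ℝ × ℂ => ‖((hL.localInverse ∘ κ') (q.1, q.2, 0)).2.1‖) (l₀, 0) :=
        hgc2.snd.fst.norm
      refine (c1.eventually_lt_const ?_).and ((c2.eventually_lt_const ?_).and (c3.eventually_lt_const ?_))
      · show |((hL.localInverse ∘ κ') (l₀, 0, 0)).1 - l₀| < 1 / 2
        rw [hgv]; norm_num
      · show |((hL.localInverse ∘ κ') (l₀, 0, 0)).2.2| < 1 / 2
        rw [hgv]; norm_num
      · show ‖((hL.localInverse ∘ κ') (l₀, 0, 0)).2.1‖ < r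
        rw [hgv]; simpa using hr
    filter_upwards [h4, hopen] with q hq hq'
    exact ⟨hq'.1, hq'.2.1, hq'.2.2, hq⟩

theorem exists_lft {a : ℝ → P → P} (ha : PTH.Act IP a) {κ κ' : ℝ × ℂ × ℝ → P} (hκ : ThickT IP κ)
    (heq : Equi a κ) (heq' : Equi a κ') (hper' : ∀ l v t, κ' (l + 1, v, t) = κ' (l, v, t))
    {U : Set ℝ} (hU : IsOpen U) {ς : ℝ → ℝ} (hς : ContDiff ℝ ∞ ς) (hςp : ∀ l, ς (l + 1) = ς l)
    (hςU : tsupport ς ⊆ U)
    (hloc : ∀ l ∈ U, IsLocalDiffeomorphAt 𝓘(ℝ, ℝ × ℂ × ℝ) IP ∞ κ' (l, 0, 0))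
    (hcore : ∀ l ∈ U, κ' (l, 0, 0) = κ (l, 0, 0)) {R : ℝ} (hR : 0 < R) :
    ∃ ε : ℝ, 0 < ε ∧ ∃ (lam : ℝ × ℂ → ℝ) (om : ℝ × ℂ → ℂ) (tau : ℝ × ℂ → ℝ), ContDiff ℝ ∞ lam ∧
      ContDiff ℝ ∞ om ∧ ContDiff ℝ ∞ tau ∧ (∀ l v, lam (l + 1, v) = lam (l, v) + 1) ∧
      (∀ l v, om (l + 1, v) = om (l, v)) ∧ (∀ l v, tau (l + 1, v) = tau (l, v)) ∧
      (∀ l, lam (l, 0) = l ∧ om (l, 0) = 0 ∧ tau (l, 0) = 0) ∧
      (∀ l, ς l = 1 → ∀ v t, ‖v‖ ≤ ε → ‖om (l, v)‖ < R ∧ ‖om (l, v)‖ < 1 ∧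
        κ' (l, v, t) = κ (lam (l, v), om (l, v), t + tau (l, v))) ∧
      (∀ l, ς l = 1 → ∀ w, dv om l w = 0 → w = 0) ∧
      (∀ l, ς l = 0 → ∀ v, lam (l, v) = l ∧ om (l, v) = 0 ∧ tau (l, v) = 0) := by
  set r : ℝ := min R 1 with hr
  have hr0 : 0 < r := lt_min hR one_pos
  have hr1 : r ≤ 1 := min_le_right _ _
  set G : ℝ × ℂ → ℝ × ℂ × ℝ := LftG κ κ' r with hG
  -- the good set
  have hgood : ∀ l₀ ∈ U, ∀ᶠ q : ℝ × ℂ in 𝓝 (l₀, 0), ContDiffAt ℝ ∞ G q ∧ LftSol κ κ' r q.1 q.2 (G q) := by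
    intro l₀ hl
    obtain ⟨g, hg, hg1, hg2⟩ := Lft_local ha hκ heq heq' hU hloc hcore hr0 hr1 hl
    have h1 : ∀ᶠ q : ℝ × ℂ in 𝓝 (l₀, 0), G q = g (q.1, q.2, 0) := by
      filter_upwards [hg2] with q hq
      exact LftG_eq hκ hr1 hq
    have hc : ContinuousAt (fun q : ℝ × ℂ => ((q.1, q.2, 0) : ℝ × ℂ × ℝ)) (l₀, 0) := by fun_prop
    have h2 := hc.eventually (CSG.ld_eventually hg)
    filter_upwards [h1.eventually_nhds, h2, hg2] with q hq1 hq2 hq3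
    constructor
    · have h3 : ContDiffAt ℝ ∞ g (q.1, q.2, 0) := contMDiffAt_iff_contDiffAt.1 hq2.contMDiffAt
      have h4 : ContDiffAt ℝ ∞ (fun q : ℝ × ℂ => g (q.1, q.2, 0)) q := by
        have h5 : ContDiffAt ℝ ∞ (fun q : ℝ × ℂ => ((q.1, q.2, 0) : ℝ × ℂ × ℝ)) q := by fun_prop
        exact ContDiffAt.comp q (g := g) (f := fun q : ℝ × ℂ => ((q.1, q.2, 0) : ℝ × ℂ × ℝ)) h3 h5
      exact h4.congr_of_eventuallyEq hq1
    · rw [hq1.self_of_nhds]; exact hq3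
  set W : Set (ℝ × ℂ) := {q | ∀ᶠ q' in 𝓝 q, ContDiffAt ℝ ∞ G q' ∧ LftSol κ κ' r q'.1 q'.2 (G q')} with hW
  have hWopen : IsOpen W := isOpen_setOfPred_eventually_nhds
  have hcpt : IsCompact ((tsupport ς ∩ Icc 0 1) ×ˢ ({0} : Set ℂ)) :=
    (isCompact_Icc.inter_left (isClosed_tsupport ς)).prod isCompact_singleton
  have hsub : (tsupport ς ∩ Icc 0 1) ×ˢ ({0} : Set ℂ) ⊆ W := by
    rintro ⟨l, v⟩ ⟨⟨h1, _⟩, h2⟩
    have h2' : v = 0 := h2
    subst h2'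
    exact hgood l (hςU h1)
  obtain ⟨δ, hδ, hδW⟩ := hcpt.exists_thickening_subset_open hWopen hsub
  have hςn : ∀ (n : ℤ) l, ς (l + n) = ς l := by
    intro n l
    have h1 : Function.Periodic ς 1 := hςp
    have h2 := h1.int_mul n l
    simpa using h2
  have hts : ∀ (n : ℤ) l, l ∈ tsupport ς → l + n ∈ tsupport ς := by
    intro n l hl
    have h1 : Continuous (fun x : ℝ => x + n) := by fun_prop
    have h2 : MapsTo (fun x : ℝ => x + n) (Function.support ς) (Function.support ς) := by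
      intro x hx
      simp only [Function.mem_support] at hx ⊢
      rwa [hςn]
    exact map_mem_closure (f := fun x : ℝ => x + n) h1 hl h2
  have hmem : ∀ l ∈ tsupport ς, ∀ v : ℂ, ‖v‖ < δ → ContDiffAt ℝ ∞ G (l, v) ∧ LftSol κ κ' r l v (G (l, v)) := by
    intro l hl v hv
    have h1 : (Int.fract l, v) ∈ W := by
      apply hδW
      rw [Metric.mem_thickening_iff]
      refine ⟨(Int.fract l, 0), ⟨⟨?_, Int.fract_nonneg l, (Int.fract_lt_one l).le⟩, rfl⟩, ?_⟩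
      · have := hts (-⌊l⌋) l hl
        have e : l + ((-⌊l⌋ : ℤ) : ℝ) = Int.fract l := by
          push_cast; rw [Int.fract]; ring
        rwa [e] at this
      · rw [Prod.dist_eq]
        simpa using hv
    obtain ⟨h2, h3⟩ := h1.self_of_nhds
    have e : l = Int.fract l + (⌊l⌋ : ℝ) := (Int.fract_add_floor l).symm
    have e2 : ((l, v) : ℝ × ℂ) = (Int.fract l, v) + ((⌊l⌋ : ℝ), 0) := by
      simp
    have h4 : G (l, v) = G (Int.fract l, v) + ((⌊l⌋ : ℝ), 0, 0) := by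
      rw [e2]
      exact LftG_shift hκ hper' hr1 _ _
    constructor
    · have h5 : G = fun q => G (q - ((⌊l⌋ : ℝ), 0)) + ((⌊l⌋ : ℝ), 0, 0) := by
        funext q
        have := LftG_shift hκ hper' hr1 (q - ((⌊l⌋ : ℝ), 0)) ⌊l⌋
        rw [sub_add_cancel] at this
        exact this
      rw [h5]
      have h6 : ContDiffAt ℝ ∞ G ((l, v) - ((⌊l⌋ : ℝ), 0)) := by
        rw [e2, add_sub_cancel_right]; exact h2
      refine ContDiffAt.add ?_ contDiffAt_const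
      exact ContDiffAt.comp (l, v) (g := G) (f := fun q : ℝ × ℂ => q - ((⌊l⌋ : ℝ), 0)) h6
        (contDiffAt_id.sub contDiffAt_const)
    · have h7 := Lft_shift hκ.perl hper' ⌊l⌋ h3
      rw [← h4, ← e] at h7
      exact h7
  -- the cut off map
  set ε : ℝ := δ / 3 with hε
  have hε0 : 0 < ε := by positivity
  set H : ℝ × ℂ → ℝ × ℂ × ℝ := fun q => (ς q.1 * SPI.cutb ε q.2) • (G q - (q.1, 0, 0)) with hH
  have hHs : ContDiff ℝ ∞ H := by
    rw [contDiff_iff_contDiffAt]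
    rintro ⟨l, v⟩
    have hcut : ContDiff ℝ ∞ (fun q : ℝ × ℂ => ς q.1 * SPI.cutb ε q.2) :=
      (hς.comp contDiff_fst).mul ((SPI.cutb_smooth ε).comp contDiff_snd)
    by_cases h1 : l ∈ tsupport ς
    · by_cases h2 : ‖v‖ < δ
      · refine hcut.contDiffAt.smul ((hmem l h1 v h2).1.sub ?_)
        fun_prop
      · have h3 : ∀ᶠ q : ℝ × ℂ in 𝓝 (l, v), 2 * ε < ‖q.2‖ := by
          have hc : ContinuousAt (fun q : ℝ × ℂ => ‖q.2‖) (l, v) := by fun_prop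
          apply hc.eventually_const_lt
          show 2 * ε < ‖v‖
          rw [hε]; linarith [not_lt.1 h2]
        refine (contDiffAt_const (c := (0 : ℝ × ℂ × ℝ))).congr_of_eventuallyEq ?_
        filter_upwards [h3] with q hq
        show (ς q.1 * SPI.cutb ε q.2) • (G q - (q.1, 0, 0)) = 0
        rw [SPI.cutb_zero hε0 hq.le, mul_zero, zero_smul]
    · have h3 : ∀ᶠ q : ℝ × ℂ in 𝓝 (l, v), ς q.1 = 0 := by
        have h4 : ς =ᶠ[𝓝 l] 0 := notMem_tsupport_iff_eventuallyEq.1 h1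
        have h5 : ContinuousAt (fun q : ℝ × ℂ => q.1) (l, v) := continuousAt_fst
        exact h5.eventually h4
      refine (contDiffAt_const (c := (0 : ℝ × ℂ × ℝ))).congr_of_eventuallyEq ?_
      filter_upwards [h3] with q hq
      show (ς q.1 * SPI.cutb ε q.2) • (G q - (q.1, 0, 0)) = 0
      rw [hq, zero_mul, zero_smul]
  have hHper : ∀ l v, H (l + 1, v) = H (l, v) := by
    intro l v
    have h1 := LftG_shift hκ hper' hr1 (l, v) 1
    have h1' : G (l + 1, v) = G (l, v) + (1, 0, 0) := by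
      have e : ((l + 1, v) : ℝ × ℂ) = (l, v) + (((1 : ℤ) : ℝ), 0) := by simp
      rw [e, hG, h1]
      simp
    show (ς (l + 1) * SPI.cutb ε v) • (G (l + 1, v) - (l + 1, 0, 0)) =
      (ς l * SPI.cutb ε v) • (G (l, v) - (l, 0, 0))
    rw [hςp, h1']
    congr 1
    ext <;> simp
  have hH0 : ∀ l, H (l, 0) = 0 := by
    intro l
    show (ς l * SPI.cutb ε 0) • (G (l, 0) - (l, 0, 0)) = 0
    by_cases h1 : l ∈ tsupport ς
    · have h2 : G (l, 0) = (l, 0, 0) := by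
        apply LftG_eq hκ hr1
        refine ⟨by simp, by simp, by simpa using hr0, (hcore l (hςU h1)).symm⟩
      rw [h2, sub_self, smul_zero]
    · rw [image_eq_zero_of_notMem_tsupport h1, zero_mul, zero_smul]
  have hH1 : ∀ l v, ς l = 1 → ‖v‖ ≤ ε → H (l, v) = G (l, v) - (l, 0, 0) := by
    intro l v h1 h2
    show (ς l * SPI.cutb ε v) • (G (l, v) - (l, 0, 0)) = _
    rw [h1, SPI.cutb_one hε0 h2, mul_one, one_smul]
  refine ⟨ε, hε0, fun q => q.1 + (H q).1, fun q => (H q).2.1, fun q => (H q).2.2,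
    contDiff_fst.add hHs.fst, hHs.snd.fst, hHs.snd.snd, ?_, ?_, ?_, ?_, ?_, ?_, ?_⟩
  · intro l v
    simp only [hHper]; ring
  · intro l v
    simp only [hHper]
  · intro l v
    simp only [hHper]
  · intro l
    simp [hH0]
  · intro l hl v t hv
    have h1 : l ∈ tsupport ς := subset_tsupport ς (by simp [hl])
    obtain ⟨h2, h3, h4, h5, h6⟩ := hmem l h1 v (by rw [hε] at hv; linarith)
    have h7 := hH1 l v hl hv
    have e1 : l + (H (l, v)).1 = (G (l, v)).1 := by rw [h7]; simp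
    have e2 : (H (l, v)).2.1 = (G (l, v)).2.1 := by rw [h7]; simp
    have e3 : (H (l, v)).2.2 = (G (l, v)).2.2 := by rw [h7]; simp
    simp only [e1, e2, e3]
    refine ⟨h5.trans_le (min_le_left _ _), h5.trans_le hr1, ?_⟩
    rw [heq' l v t, ← h6, heq _ _ (t + _), ha.add]
    congr 1
    have := heq (G (l, v)).1 (G (l, v)).2.1 (G (l, v)).2.2
    exact this
  · intro l hl w hw
    have h1 : l ∈ tsupport ς := subset_tsupport ς (by simp [hl])
    obtain ⟨g, hg, hg1, hg2⟩ := Lft_local ha hκ heq heq' hU hloc hcore hr0 hr1 (hςU h1)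
    have hgs : DifferentiableAt ℝ g (l, 0, 0) :=
      (contMDiffAt_iff_contDiffAt.1 hg.contMDiffAt).differentiableAt (by simp)
    have hD := hgs.hasFDerivAt
    set D := fderiv ℝ g (l, 0, 0) with hDdef
    -- along the core and the circle
    have hA : D (1, 0, 0) = (1, 0, 0) ∧ D (0, 0, 1) = (0, 0, 1) := by
      have hj : HasFDerivAt (fun s : ℝ × ℝ => ((s.1, 0, s.2) : ℝ × ℂ × ℝ))
          ((ContinuousLinearMap.fst ℝ ℝ ℝ).prod
            ((0 : ℝ × ℝ →L[ℝ] ℂ).prod (ContinuousLinearMap.snd ℝ ℝ ℝ))) (l, 0) :=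
        hasFDerivAt_fst.prodMk ((hasFDerivAt_const _ _).prodMk hasFDerivAt_snd)
      have h2 : HasFDerivAt (fun s : ℝ × ℝ => g (s.1, 0, s.2)) (D.comp _) (l, 0) :=
        HasFDerivAt.comp (l, 0) (g := g) (f := fun s : ℝ × ℝ => ((s.1, 0, s.2) : ℝ × ℂ × ℝ)) hD hj
      have h3 := h2.unique (hj.congr_of_eventuallyEq hg1)
      constructor
      · have := congrArg (fun L : ℝ × ℝ →L[ℝ] ℝ × ℂ × ℝ => L (1, 0)) h3
        simpa using this
      · have := congrArg (fun L : ℝ × ℝ →L[ℝ] ℝ × ℂ × ℝ => L (0, 1)) h3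
        simpa using this
    -- in the plane direction
    have hB : (D (0, w, 0)).2.1 = 0 := by
      have hj : HasFDerivAt (fun v : ℂ => ((l, v, 0) : ℝ × ℂ × ℝ))
          ((0 : ℂ →L[ℝ] ℝ).prod ((ContinuousLinearMap.id ℝ ℂ).prod (0 : ℂ →L[ℝ] ℝ))) 0 :=
        (hasFDerivAt_const _ _).prodMk ((hasFDerivAt_id _).prodMk (hasFDerivAt_const _ _))
      have h2 : HasFDerivAt (fun v : ℂ => g (l, v, 0)) (D.comp _) 0 :=
        HasFDerivAt.comp (0 : ℂ) (g := g) (f := fun v : ℂ => ((l, v, 0) : ℝ × ℂ × ℝ)) hD hj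
      have h3 : HasFDerivAt (fun v : ℂ => (g (l, v, 0)).2.1) _ 0 := h2.snd.fst
      have h4 : (fun v : ℂ => (H (l, v)).2.1) =ᶠ[𝓝 0] fun v : ℂ => (g (l, v, 0)).2.1 := by
        have hc : ContinuousAt (fun v : ℂ => ((l, v) : ℝ × ℂ)) 0 := by fun_prop
        have h5 := hc.eventually hg2
        have h6 : ∀ᶠ v : ℂ in 𝓝 0, ‖v‖ < ε := by
          have hc : ContinuousAt (fun v : ℂ => ‖v‖) 0 := by fun_prop
          apply hc.eventually_lt_const
          simpa using hε0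
        filter_upwards [h5, h6] with v h5 h6
        rw [hH1 l v hl h6.le, hG, LftG_eq hκ hr1 h5]
        simp
      have h5 : dv (fun q => (H q).2.1) l w = (D (0, w, 0)).2.1 := by
        unfold dv
        rw [h4.fderiv_eq, h3.fderiv]
        simp
      rw [← h5]
      exact hw
    have hlin : D (-(D (0, w, 0)).1, w, -(D (0, w, 0)).2.2) = 0 := by
      have e : ((-(D (0, w, 0)).1, w, -(D (0, w, 0)).2.2) : ℝ × ℂ × ℝ) =
          (-(D (0, w, 0)).1) • ((1, 0, 0) : ℝ × ℂ × ℝ) + (0, w, 0) +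
          (-(D (0, w, 0)).2.2) • ((0, 0, 1) : ℝ × ℂ × ℝ) := by
        ext <;> simp
      rw [e, map_add, map_add, map_smul, map_smul, hA.1, hA.2]
      have e3 : D (0, w, 0) = ((D (0, w, 0)).1, 0, (D (0, w, 0)).2.2) := by
        rw [← hB]
      ext <;> simp [hB]
    have := Lft_fderiv_inj hg hlin
    have h7 := congrArg (fun p : ℝ × ℂ × ℝ => p.2.1) this
    simpa using h7
  · intro l hl v
    have : H (l, v) = 0 := by
      show (ς l * SPI.cutb ε v) • (G (l, v) - (l, 0, 0)) = 0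
      rw [hl, zero_mul, zero_smul]
    simp [this]

end

end Pool.Agent.COR
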