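import Pool.Agent.COR.Defs
import Pool.Agent.RSG.ExM

/-!
# COR/Lga: logarithm of a family of linear maps, arc and loop   (difficulty 3)

For a real linear map `L : ℂ → ℂ` put `α = (L 1 - i L i) / 2`, `β = (L 1 + i L i) / 2`.  Then `L w = α w + β w̄` and `‖α‖² - ‖β‖² = dt L` (`lin_decomp`).
`L = lin A b` with `α = exp A`, `b = β / α`, `‖b‖ < 1` if `dt L > 0`.

* `dt_lin`: `dt` of `w ↦ lin A b w` is `‖exp A‖² (1 - ‖b‖²)`.
* smooth logarithm: let `α : ℝ → ℂ` be smooth and nonzero on an open interval `J ∋ c`: `A₀ l = Complex.log (α c) + ∫_c^l α' / α` is smooth on `J`, `exp (A₀ l) = α l` (the derivative of `α exp (-A₀)` is `0`).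
* `exists_log_arc`: the determinant is positive on `|l - c| ≤ h'`, so (continuity) on an open interval `J` containing it.  `A_c = ς A₀`, `b_c = ς b₀` with a cutoff `ς` (`1` for `|x - c| ≤ h`, `0` for `|x - c| ≥ h'`; e.g.
  `1 - CSG.stp (h ^ 2) (h' ^ 2) ((x - c) ^ 2)`), zero outside `|x - c| < h'`; `A l = A_c (l - round (l - c))`, smooth because near the points `c + 1/2 + k` it is `0`.
* `exists_log_loop`: `α` is smooth, nonzero, periodic on `ℝ`: `A₀ (l + 1) - A₀ l` is a constant `2 π i m` (`exp` of it is `1`; its derivative is `0`).  `k = -m`, `A l = A₀ l + 2 π i k φ l`, `b l = b₀ l * ex (-2 k φ l)`: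
  `lin (A₀) (b₀) (w ex (kφ)) = e^{A₀} (w ex (kφ) + b₀ w̄ ex (-kφ)) = lin A b w` (note `conj (ex x) = ex (-x)`).
-/

open scoped Manifold ContDiff Topology
open Set Filter
open Complex (I)
open Pool.Agent.RSG (ex)

namespace Pool.Agent.COR

theorem lin_decomp (L : ℂ →L[ℝ] ℂ) (w : ℂ) :
    L w = (L 1 - I * L I) / 2 * w + (L 1 + I * L I) / 2 * (starRingEnd ℂ) w := by
  have h1 : w = w.re • (1 : ℂ) + w.im • I := by
    refine Complex.ext ?_ ?_ <;> simp
  have h2 : L w = (w.re : ℂ) * L 1 + (w.im : ℂ) * L I := by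
    conv_lhs => rw [h1]
    rw [map_add, map_smul, map_smul, Complex.real_smul, Complex.real_smul]
  have h3 : (starRingEnd ℂ) w = w.re - w.im * I := by
    refine Complex.ext ?_ ?_ <;> simp
  have h4 : w = w.re + w.im * I := (Complex.re_add_im w).symm
  rw [h2, h3]
  conv_rhs => rw [h4]
  simp only [Complex.add_re, Complex.ofReal_re, Complex.mul_re, Complex.I_re, mul_zero, Complex.ofReal_im,
    Complex.I_im, mul_one, sub_self, add_zero, Complex.add_im, Complex.mul_im, zero_add]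
  linear_combination ((w.im : ℂ) * L I) * Complex.I_mul_I

theorem dt_eq (L : ℂ →L[ℝ] ℂ) :
    dt L = ‖(L 1 - I * L I) / 2‖ ^ 2 - ‖(L 1 + I * L I) / 2‖ ^ 2 := by
  unfold dt
  rw [← Complex.normSq_eq_norm_sq, ← Complex.normSq_eq_norm_sq, Complex.normSq_apply, Complex.normSq_apply]
  have h2 : ((2 : ℂ)) = ((2 : ℝ) : ℂ) := by norm_num
  rw [h2, Complex.div_ofReal_re, Complex.div_ofReal_im, Complex.div_ofReal_re, Complex.div_ofReal_im]
  simp only [Complex.sub_re, Complex.sub_im, Complex.add_re, Complex.add_im, Complex.mul_re, Complex.mul_im,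
    Complex.I_re, Complex.I_im, Complex.conj_re, Complex.conj_im]
  ring

/-- a smooth logarithm of a smooth nonvanishing function -/
theorem Lga_log {α : ℝ → ℂ} (hα : ContDiff ℝ ∞ α) (hne : ∀ l, α l ≠ 0) :
    ∃ A₀ : ℝ → ℂ, ContDiff ℝ ∞ A₀ ∧ (∀ l, Complex.exp (A₀ l) = α l) ∧
      ∀ l, HasDerivAt A₀ (deriv α l / α l) l := by
  have hd : ContDiff ℝ ∞ (deriv α) := by
    have := (contDiff_infty_iff_deriv.1 hα).2
    exact this
  have hq : ContDiff ℝ ∞ fun l => deriv α l / α l := by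
    have h3 : ContDiff ℝ ∞ fun l => deriv α l * (α l)⁻¹ := hd.mul (hα.inv hne)
    have e : (fun l => deriv α l / α l) = fun l => deriv α l * (α l)⁻¹ := funext fun l => div_eq_mul_inv _ _
    rw [e]
    exact h3
  have hqc := hq.continuous
  have hder : ∀ l, HasDerivAt (fun l => Complex.log (α 0) + ∫ s in (0 : ℝ)..l, deriv α s / α s)
      (deriv α l / α l) l := by
    intro l
    have := intervalIntegral.integral_hasDerivAt_right (hqc.intervalIntegrable 0 l)
      (hqc.stronglyMeasurableAtFilter _ _) hqc.continuousAt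
    exact this.const_add _
  refine ⟨fun l => Complex.log (α 0) + ∫ s in (0 : ℝ)..l, deriv α s / α s, ?_, ?_, hder⟩
  · rw [contDiff_infty_iff_deriv]
    refine ⟨fun l => (hder l).differentiableAt, ?_⟩
    have e : deriv (fun l => Complex.log (α 0) + ∫ s in (0 : ℝ)..l, deriv α s / α s) =
        fun l => deriv α l / α l := funext fun l => (hder l).deriv
    rw [e]
    exact hq
  · intro l
    have hαd : ∀ x, HasDerivAt α (deriv α x) x := fun x =>
      ((hα.differentiable (by simp)) x).hasDerivAt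
    have hE : ∀ x, HasDerivAt (fun x => α x * Complex.exp (-(Complex.log (α 0) +
        ∫ s in (0 : ℝ)..x, deriv α s / α s))) 0 x := by
      intro x
      have h1 := ((hder x).neg.cexp)
      have h2 := (hαd x).mul h1
      refine h2.congr_deriv ?_
      have := hne x
      simp only [Pi.neg_apply]
      field_simp
      ring
    have hconst := is_const_of_deriv_eq_zero (f := fun x => α x * Complex.exp (-(Complex.log (α 0) +
        ∫ s in (0 : ℝ)..x, deriv α s / α s))) (fun x => (hE x).differentiableAt) (fun x => (hE x).deriv) l 0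
    simp only [intervalIntegral.integral_same, add_zero, Complex.exp_neg, Complex.exp_log (hne 0),
      mul_inv_cancel₀ (hne 0)] at hconst
    have h3 := Complex.exp_ne_zero (Complex.log (α 0) + ∫ s in (0 : ℝ)..l, deriv α s / α s)
    rw [← div_eq_mul_inv, div_eq_one_iff_eq h3] at hconst
    exact hconst.symm

/-- periodic extension of a function which vanishes far from `c` -/
theorem Lga_periodize {f : ℝ → ℂ} (hf : ContDiff ℝ ∞ f) {c h' : ℝ} (hh' : h' < 1 / 2)
    (h0 : ∀ l, h' ≤ |l - c| → f l = 0) :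
    ∃ F : ℝ → ℂ, ContDiff ℝ ∞ F ∧ (∀ l, F (l + 1) = F l) ∧ (∀ l, |l - c| ≤ 1 / 2 → F l = f l) ∧
      ∀ l, ∃ l', F l = f l' := by
  refine ⟨fun l => f (l - round (l - c)), ?_, ?_, ?_, fun l => ⟨_, rfl⟩⟩
  · rw [contDiff_iff_contDiffAt]
    intro l₀
    rcases lt_or_ge |l₀ - c - round (l₀ - c)| (1 / 2) with h | h
    · have hev : (fun l => f (l - round (l - c))) =ᶠ[𝓝 l₀] fun l => f (l - round (l₀ - c)) := by
        have hc : Continuous fun l : ℝ => |l - c - round (l₀ - c)| := by fun_prop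
        filter_upwards [hc.continuousAt.eventually_lt continuousAt_const h] with l hl
        have e : round (l - c) = round (l₀ - c) := by
          rw [abs_lt] at hl
          rw [round_eq, Int.floor_eq_iff]
          constructor
          · linarith [hl.1]
          · linarith [hl.2]
        rw [e]
      refine ContDiffAt.congr_of_eventuallyEq ?_ hev
      exact (hf.comp (contDiff_id.sub contDiff_const)).contDiffAt
    · have hev : (fun l => f (l - round (l - c))) =ᶠ[𝓝 l₀] fun _ => 0 := by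
        have hc : Continuous fun l : ℝ => |l - l₀| := by fun_prop
        have h00 : |l₀ - l₀| < 1 / 2 - h' := by
          rw [sub_self, abs_zero]
          linarith
        filter_upwards [hc.continuousAt.eventually_lt continuousAt_const h00] with l hl
        refine h0 _ ?_
        have h1 := round_le (l₀ - c) (round (l - c))
        have h2 : |l₀ - c - round (l - c)| ≤ |l - round (l - c) - c| + |l - l₀| := by
          have := abs_sub_abs_le_abs_sub (l₀ - c - round (l - c)) (l - round (l - c) - c)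
          have e : l₀ - c - round (l - c) - (l - round (l - c) - c) = -(l - l₀) := by ring
          rw [e, abs_neg] at this
          linarith
        linarith
      refine ContDiffAt.congr_of_eventuallyEq ?_ hev
      exact contDiffAt_const
  · intro l
    show f (l + 1 - round (l + 1 - c)) = f (l - round (l - c))
    have e : round (l + 1 - c) = round (l - c) + 1 := by
      rw [show l + 1 - c = l - c + 1 by ring, round_add_one]
    rw [e]
    congr 1
    push_cast
    ring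
  · intro l hl
    show f (l - round (l - c)) = f l
    rcases lt_or_eq_of_le hl with h | h
    · have e : round (l - c) = 0 := by
        rw [abs_lt] at h
        rw [round_eq, Int.floor_eq_iff]
        constructor
        · push_cast
          linarith [h.1]
        · push_cast
          linarith [h.2]
      rw [e, Int.cast_zero, sub_zero]
    · rw [h0 l (by linarith)]
      refine h0 _ ?_
      rcases abs_eq (show (0 : ℝ) ≤ 1 / 2 by norm_num) |>.1 h with h3 | h3
      · have e : round (l - c) = 1 := by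
          rw [h3, round_eq, Int.floor_eq_iff]
          norm_num
        rw [e, Int.cast_one, show l - 1 - c = -(1 / 2) by linarith, abs_neg, abs_of_pos (by norm_num)]
        exact hh'.le
      · have e : round (l - c) = 0 := by
          rw [h3, round_eq, Int.floor_eq_iff]
          norm_num
        rw [e, Int.cast_zero, sub_zero, h]
        exact hh'.le

theorem Lga_dv_eq {om : ℝ × ℂ → ℂ} (hom : ContDiff ℝ ∞ om) (l : ℝ) (w : ℂ) :
    dv om l w = fderiv ℝ om (l, 0) (0, w) := by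
  have h1 : HasFDerivAt om (fderiv ℝ om (l, 0)) (l, 0) := ((hom.differentiable (by simp)) (l, 0)).hasFDerivAt
  have h2 : HasFDerivAt (fun v : ℂ => (l, v)) (ContinuousLinearMap.inr ℝ ℝ ℂ) (0 : ℂ) :=
    hasFDerivAt_prodMk_right l 0
  have h3 := h1.comp (0 : ℂ) h2
  have h4 : dv om l = (fderiv ℝ om (l, 0)).comp (ContinuousLinearMap.inr ℝ ℝ ℂ) := h3.fderiv
  rw [h4]
  rfl

theorem Lga_dv_smooth {om : ℝ × ℂ → ℂ} (hom : ContDiff ℝ ∞ om) (w : ℂ) : ContDiff ℝ ∞ fun l => dv om l w := by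
  have e : (fun l => dv om l w) = fun l : ℝ => fderiv ℝ om (l, 0) (0, w) := funext fun l => Lga_dv_eq hom l w
  rw [e]
  have h1 : ContDiff ℝ ∞ (fderiv ℝ om) := hom.fderiv_right (by simp)
  have h2 : ContDiff ℝ ∞ fun l : ℝ => ((l, 0) : ℝ × ℂ) := contDiff_id.prodMk contDiff_const
  exact (h1.comp h2).clm_apply contDiff_const

/-- logarithm of a family of linear maps of positive determinant -/
theorem Lga_family {L : ℝ → ℂ →L[ℝ] ℂ} (h1 : ContDiff ℝ ∞ fun l => L l 1) (h2 : ContDiff ℝ ∞ fun l => L l I)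
    (hpos : ∀ l, 0 < dt (L l)) :
    ∃ A b : ℝ → ℂ, ContDiff ℝ ∞ A ∧ ContDiff ℝ ∞ b ∧ (∀ l, ‖b l‖ < 1) ∧
      (∀ l w, L l w = lin (A l) (b l) w) ∧
      (∀ l, Complex.exp (A l) = (L l 1 - I * L l I) / 2) ∧
      (∀ l, b l = ((L l 1 + I * L l I) / 2) / ((L l 1 - I * L l I) / 2)) ∧
      ∀ l, HasDerivAt A (deriv (fun l => (L l 1 - I * L l I) / 2) l / ((L l 1 - I * L l I) / 2)) l := by
  have hα : ContDiff ℝ ∞ fun l => (L l 1 - I * L l I) / 2 := (h1.sub (contDiff_const.mul h2)).div_const 2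
  have hβ : ContDiff ℝ ∞ fun l => (L l 1 + I * L l I) / 2 := (h1.add (contDiff_const.mul h2)).div_const 2
  have hlt : ∀ l, ‖(L l 1 + I * L l I) / 2‖ < ‖(L l 1 - I * L l I) / 2‖ := by
    intro l
    have h := hpos l
    rw [dt_eq] at h
    exact lt_of_pow_lt_pow_left₀ 2 (norm_nonneg _) (by linarith)
  have hne : ∀ l, (L l 1 - I * L l I) / 2 ≠ 0 := by
    intro l h
    have := hlt l
    rw [h, norm_zero] at this
    exact absurd this (not_lt.2 (norm_nonneg _))
  obtain ⟨A, hA, hexp, hder⟩ := Lga_log hα hne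
  refine ⟨A, fun l => ((L l 1 + I * L l I) / 2) / ((L l 1 - I * L l I) / 2), hA, ?_, ?_, ?_, hexp, fun l => rfl, hder⟩
  · have h3 : ContDiff ℝ ∞ fun l => ((L l 1 + I * L l I) / 2) * ((L l 1 - I * L l I) / 2)⁻¹ :=
      hβ.mul (hα.inv hne)
    have e : (fun l => ((L l 1 + I * L l I) / 2) / ((L l 1 - I * L l I) / 2)) =
        fun l => ((L l 1 + I * L l I) / 2) * ((L l 1 - I * L l I) / 2)⁻¹ := funext fun l => div_eq_mul_inv _ _
    rw [e]
    exact h3
  · intro l
    rw [norm_div, div_lt_one (norm_pos_iff.2 (hne l))]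
    exact hlt l
  · intro l w
    rw [lin_decomp (L l) w, lin, hexp l]
    have e : ∀ p q : ℂ, p ≠ 0 → p * w + q * (starRingEnd ℂ) w = p * (w + q / p * (starRingEnd ℂ) w) := by
      intro p q hp
      field_simp
    exact e _ _ (hne l)

theorem exists_log_arc {om : ℝ × ℂ → ℂ} (hom : ContDiff ℝ ∞ om) {c h h' : ℝ} (h0 : 0 < h)
    (hh : h < h') (hh' : h' < 1 / 2) (hpos : ∀ l, |l - c| ≤ h' → 0 < dt (dv om l)) :
    ∃ A b : ℝ → ℂ, ContDiff ℝ ∞ A ∧ ContDiff ℝ ∞ b ∧ (∀ l, A (l + 1) = A l) ∧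
      (∀ l, b (l + 1) = b l) ∧ (∀ l, ‖b l‖ < 1) ∧
      (∀ l, |l - c| ≤ h → ∀ w, dv om l w = lin (A l) (b l) w) ∧
      (∀ l, h' ≤ |l - c| → |l - c| ≤ 1 / 2 → A l = 0 ∧ b l = 0) := by
  obtain ⟨ς, hς⟩ : ∃ ς : ℝ → ℝ, ς = fun l => 1 - CSG.stp (h ^ 2) (h' ^ 2) ((l - c) ^ 2) := ⟨_, rfl⟩
  have hsq : h ^ 2 < h' ^ 2 := by nlinarith
  have ςs : ContDiff ℝ ∞ ς := by
    rw [hς]
    exact contDiff_const.sub ((CSG.stp_smooth _ _).comp ((contDiff_id.sub contDiff_const).pow 2))
  have ς1 : ∀ l, |l - c| ≤ h → ς l = 1 := by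
    intro l hl
    rw [hς]
    show 1 - CSG.stp (h ^ 2) (h' ^ 2) ((l - c) ^ 2) = 1
    rw [CSG.stp_zero hsq (by rw [← sq_abs (l - c)]; exact pow_le_pow_left₀ (abs_nonneg _) hl 2), sub_zero]
  have ς0 : ∀ l, h' ≤ |l - c| → ς l = 0 := by
    intro l hl
    rw [hς]
    show 1 - CSG.stp (h ^ 2) (h' ^ 2) ((l - c) ^ 2) = 0
    rw [CSG.stp_one hsq (by rw [← sq_abs (l - c)]; exact pow_le_pow_left₀ (by linarith) hl 2), sub_self]
  have ςn : ∀ l, 0 ≤ ς l := by
    intro l
    rw [hς]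
    show 0 ≤ 1 - CSG.stp (h ^ 2) (h' ^ 2) ((l - c) ^ 2)
    linarith [CSG.stp_le_one (h ^ 2) (h' ^ 2) ((l - c) ^ 2)]
  have ςl : ∀ l, ς l ≤ 1 := by
    intro l
    rw [hς]
    show 1 - CSG.stp (h ^ 2) (h' ^ 2) ((l - c) ^ 2) ≤ 1
    linarith [CSG.stp_nonneg (h ^ 2) (h' ^ 2) ((l - c) ^ 2)]
  obtain ⟨ψ, hψ⟩ : ∃ ψ : ℝ → ℝ, ψ = fun l => c + (l - c) * ς l := ⟨_, rfl⟩
  have ψs : ContDiff ℝ ∞ ψ := by
    rw [hψ]
    exact contDiff_const.add ((contDiff_id.sub contDiff_const).mul ςs)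
  have ψ1 : ∀ l, |l - c| ≤ h → ψ l = l := by
    intro l hl
    rw [hψ]
    show c + (l - c) * ς l = l
    rw [ς1 l hl]
    ring
  have ψb : ∀ l, |ψ l - c| ≤ h' := by
    intro l
    rw [hψ]
    show |c + (l - c) * ς l - c| ≤ h'
    rw [show c + (l - c) * ς l - c = (l - c) * ς l by ring, abs_mul, abs_of_nonneg (ςn l)]
    rcases le_or_gt |l - c| h' with h3 | h3
    · have := mul_le_mul h3 (ςl l) (ςn l) (by linarith)
      linarith
    · rw [ς0 l h3.le, mul_zero]
      linarith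
  obtain ⟨A₀, b₀, hA, hb, hb1, hL, -, -, -⟩ := Lga_family (L := fun l => dv om (ψ l))
    ((Lga_dv_smooth hom 1).comp ψs) ((Lga_dv_smooth hom I).comp ψs) (fun l => hpos _ (ψb l))
  have ςc : ContDiff ℝ ∞ fun l => (ς l : ℂ) := Complex.ofRealCLM.contDiff.comp ςs
  obtain ⟨A, A1, A2, A3, A4⟩ := Lga_periodize (c := c) (f := fun l => (ς l : ℂ) * A₀ l) (ςc.mul hA) hh'
    (fun l hl => by simp only [ς0 l hl, Complex.ofReal_zero, zero_mul])
  obtain ⟨b, b1, b2, b3, b4⟩ := Lga_periodize (c := c) (f := fun l => (ς l : ℂ) * b₀ l) (ςc.mul hb) hh'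
    (fun l hl => by simp only [ς0 l hl, Complex.ofReal_zero, zero_mul])
  refine ⟨A, b, A1, b1, A2, b2, ?_, ?_, ?_⟩
  · intro l
    obtain ⟨l', hl'⟩ := b4 l
    rw [hl', norm_mul, Complex.norm_real, Real.norm_eq_abs, abs_of_nonneg (ςn l')]
    have k1 := hb1 l'
    have k2 := ςl l'
    have k3 := ςn l'
    have k4 := norm_nonneg (b₀ l')
    nlinarith
  · intro l hl w
    rw [A3 l (by linarith), b3 l (by linarith)]
    have := hL l w
    rw [ψ1 l hl] at this
    rw [this, ς1 l hl, Complex.ofReal_one, one_mul, one_mul]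
  · intro l hl hl'
    rw [A3 l hl', b3 l hl', ς0 l hl]
    simp

theorem exists_log_loop {om : ℝ × ℂ → ℂ} (hom : ContDiff ℝ ∞ om)
    (hper : ∀ l v, om (l + 1, v) = om (l, v)) (hpos : ∀ l, 0 < dt (dv om l)) {φ : ℝ → ℝ}
    (hφ : ContDiff ℝ ∞ φ) (hφ1 : ∀ l, φ (l + 1) = φ l + 1) :
    ∃ (k : ℤ) (A b : ℝ → ℂ), ContDiff ℝ ∞ A ∧ ContDiff ℝ ∞ b ∧ (∀ l, A (l + 1) = A l) ∧
      (∀ l, b (l + 1) = b l) ∧ (∀ l, ‖b l‖ < 1) ∧
      (∀ l w, dv om l (w * ex (k * φ l)) = lin (A l) (b l) w) := by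
  have hdvp : ∀ l, dv om (l + 1) = dv om l := by
    intro l
    unfold dv
    congr 1
    funext v
    exact hper l v
  obtain ⟨A₀, b₀, hA, hb, hb1, hL, hexp, hbe, hder⟩ := Lga_family (L := fun l => dv om l)
    (Lga_dv_smooth hom 1) (Lga_dv_smooth hom I) hpos
  have hbp : ∀ l, b₀ (l + 1) = b₀ l := by
    intro l
    rw [hbe, hbe, hdvp]
  -- the difference is constant
  have hD : ∀ l, A₀ (l + 1) - A₀ l = A₀ (0 + 1) - A₀ 0 := by
    intro l
    have hd : ∀ x, HasDerivAt (fun x => A₀ (x + 1) - A₀ x) 0 x := by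
      intro x
      have k1 := (hder (x + 1)).comp_add_const x 1
      have k2 := k1.sub (hder x)
      refine k2.congr_deriv ?_
      have e1 : deriv (fun l => (dv om l 1 - I * dv om l I) / 2) (x + 1) =
          deriv (fun l => (dv om l 1 - I * dv om l I) / 2) x := by
        have e2 := deriv_comp_add_const (fun l => (dv om l 1 - I * dv om l I) / 2) 1 x
        rw [← e2]
        congr 1
        funext y
        show (dv om (y + 1) 1 - I * dv om (y + 1) I) / 2 = _
        rw [hdvp]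
      rw [e1, hdvp, sub_self]
    exact is_const_of_deriv_eq_zero (fun x => (hd x).differentiableAt) (fun x => (hd x).deriv) l 0
  obtain ⟨m, hm⟩ : ∃ m : ℤ, A₀ (0 + 1) - A₀ 0 = m * (2 * Real.pi * I) := by
    rw [← Complex.exp_eq_one_iff, Complex.exp_sub, hexp, hexp, hdvp]
    refine div_self ?_
    rw [← hexp]
    exact Complex.exp_ne_zero _
  have hAp : ∀ l, A₀ (l + 1) = A₀ l + m * (2 * Real.pi * I) := by
    intro l
    have h1 := hD l
    rw [hm] at h1
    rw [← h1]
    ring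
  have hφc : ContDiff ℝ ∞ fun l => (φ l : ℂ) := Complex.ofRealCLM.contDiff.comp hφ
  refine ⟨-m, fun l => A₀ l + ((-m : ℤ) : ℂ) * (φ l : ℂ) * (2 * Real.pi * I),
    fun l => b₀ l * ex (-2 * (((-m : ℤ) : ℝ) * φ l)), ?_, ?_, ?_, ?_, ?_, ?_⟩
  · exact hA.add ((contDiff_const.mul hφc).mul contDiff_const)
  · exact hb.mul (RSG.ex_smooth.comp (contDiff_const.mul (contDiff_const.mul hφ)))
  · intro l
    show A₀ (l + 1) + ((-m : ℤ) : ℂ) * (φ (l + 1) : ℂ) * (2 * Real.pi * I) =
      A₀ l + ((-m : ℤ) : ℂ) * (φ l : ℂ) * (2 * Real.pi * I)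
    rw [hAp, hφ1]
    push_cast
    ring
  · intro l
    show b₀ (l + 1) * ex (-2 * (((-m : ℤ) : ℝ) * φ (l + 1))) = b₀ l * ex (-2 * (((-m : ℤ) : ℝ) * φ l))
    rw [hbp, hφ1, show -2 * (((-m : ℤ) : ℝ) * (φ l + 1)) = -2 * (((-m : ℤ) : ℝ) * φ l) + ((2 * m : ℤ) : ℝ) by
      push_cast; ring, RSG.ex_add_int]
  · intro l
    show ‖b₀ l * ex (-2 * (((-m : ℤ) : ℝ) * φ l))‖ < 1
    rw [norm_mul, RSG.ex_norm, mul_one]
    exact hb1 l
  · intro l w
    show dv om l (w * ex (((-m : ℤ) : ℝ) * φ l)) = lin (A₀ l + ((-m : ℤ) : ℂ) * (φ l : ℂ) * (2 * Real.pi * I))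
      (b₀ l * ex (-2 * (((-m : ℤ) : ℝ) * φ l))) w
    rw [hL l]
    obtain ⟨x, hx⟩ : ∃ x : ℝ, x = ((-m : ℤ) : ℝ) * φ l := ⟨_, rfl⟩
    have e1 : Complex.exp (((-m : ℤ) : ℂ) * (φ l : ℂ) * (2 * Real.pi * I)) = ex x := by
      rw [hx, ex]
      congr 1
      push_cast
      ring
    rw [← hx, lin, lin, Complex.exp_add, e1, map_mul, ← RSG.ex_neg]
    have e2 : ex (-2 * x) = ex (-x) * ex (-x) := by
      rw [← RSG.ex_add]
      congr 1
      ring
    have e3 : ex x * ex (-x) = 1 := by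
      rw [← RSG.ex_add, add_neg_cancel, RSG.ex_zero]
    rw [e2]
    linear_combination (-(Complex.exp (A₀ l) * b₀ l * (starRingEnd ℂ) w * ex (-x))) * e3

end Pool.Agent.COR
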