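import Pool.Agent.COR.GRc
import Pool.Agent.COR.Kmv
import Pool.Agent.COR.Lft
import Pool.Agent.COR.Lga
import Pool.Agent.COR.Ger
import Pool.Agent.CSG.EeP

/-!
# COR/AdA: adapting the germ of a thick torus along an arc   (difficulty 3)

Let `b⁺ (l, v, t) = b (l - round (l - c), v, t)`, `U = {l | |l - round (l - c) - c| < h'}` (open: near `c + 1/2` nothing), `ς` a smooth periodic cutoff, `ς = 1` for `|l - c| ≤ h₁`, `tsupport ς ⊆ U`
(`ς l = CSG.stp` of `cos (2π (l - c))`: with `h < h₁ < h₂ < h'`: `ς l = stp (cos (2π h₂)) (cos (2π h₁)) (cos (2π (l - c)))`).  `exists_lft` (`κ' := b⁺`) gives `lam, om, tau`.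
`dt (dv om l)` is continuous and nonzero for `|l - c| ≤ h₁`, positive near `l₀` (choose `h₁ > |l₀ - c|`; compare with the germ in `PosAt` as in CorA), so positive for `|l - c| ≤ h₁`.
`exists_log_arc` (with `h < h₁`) gives `A, b'`.  Let `ς₂` be a second cutoff, `1` for `|l - c| ≤ h`, `0` for `h₁ ≤ |l - c|`.  `E (l, v) = ς₂ l • (om (l, v) - dv om l v)` (smooth, `dv E l = 0`, periodic).
`exists_germ` (`R = 1/2`; replace `lam` by `l + ς₂ l (lam - l)` and `tau` by `ς₂ l tau`): `H`, `H (l, v, t) = (lam, om, t + tau)` for `|l - c| ≤ h`, `‖v‖ ≤ ε`, and `H = id` over the `l` with `h' ≤ |l - c| ≤ 1/2` (all data are trivial there).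
`kap_move`: `F`; `κ' = F ∘ κ` (`TwinP_diffeo`, `ThickT_diffeo`).
-/

open scoped Manifold ContDiff Topology
open Set Filter
open Complex (I)
open Pool.Agent.RSG (E4 ex cj)

namespace Pool.Agent.COR

open Pool.Agent.RBM (ThickT TwinP OnT)

universe u

/-! ### cutoff functions -/

theorem AdA_rd {x : ℝ} (h : |x| ≤ 1 / 2) : |x - round x| = |x| := by
  have h1 : |x - round x| ≤ |x| := by
    have := round_le x 0
    simpa using this
  by_cases h0 : round x = 0
  · rw [h0]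
    simp
  · refine le_antisymm h1 ?_
    have h2 : (1 : ℝ) ≤ |(round x : ℝ)| := by
      have : (1 : ℤ) ≤ |round x| := Int.one_le_abs h0
      exact_mod_cast this
    have h3 : |(round x : ℝ)| ≤ |x| + |x - round x| := by
      have : (round x : ℝ) = x - (x - round x) := by ring
      calc |(round x : ℝ)| = |x - (x - round x)| := by rw [← this]
        _ ≤ |x| + |x - round x| := abs_sub _ _
    linarith

theorem AdA_cut {c h1 h2 : ℝ} (h0 : 0 < h1) (h12 : h1 < h2) (h2' : h2 < 1 / 2) :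
    ∃ ς : ℝ → ℝ, ContDiff ℝ ∞ ς ∧ (∀ l, ς (l + 1) = ς l) ∧ (∀ l, |l - c| ≤ h1 → ς l = 1) ∧
      ∀ l, ς l ≠ 0 → |(l - c) - round (l - c)| ≤ h2 := by
  have hpi := Real.pi_pos
  have hlt : ∀ a b : ℝ, 0 ≤ a → a < b → b ≤ 1 / 2 →
      Real.cos (2 * Real.pi * b) < Real.cos (2 * Real.pi * a) := by
    intro a b ha hab hb
    refine Real.cos_lt_cos_of_nonneg_of_le_pi (by positivity) (by nlinarith) (by nlinarith)
  have hcl := hlt h1 h2 h0.le h12 h2'.le
  refine ⟨fun l => CSG.stp (Real.cos (2 * Real.pi * h2)) (Real.cos (2 * Real.pi * h1))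
    (Real.cos (2 * Real.pi * (l - c))), ?_, ?_, ?_, ?_⟩
  · refine (CSG.stp_smooth _ _).comp ?_
    refine Real.contDiff_cos.comp ?_
    fun_prop
  · intro l
    simp only
    congr 1
    rw [show 2 * Real.pi * (l + 1 - c) = 2 * Real.pi * (l - c) + 2 * Real.pi by ring,
      Real.cos_add_two_pi]
  · intro l hl
    refine CSG.stp_one hcl ?_
    rcases eq_or_lt_of_le hl with he | hlt'
    · rw [← he, ← Real.cos_abs (2 * Real.pi * (l - c)), abs_mul,
        abs_of_pos (show 0 < 2 * Real.pi by positivity)]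
    · have := hlt |l - c| h1 (abs_nonneg _) hlt' (by linarith)
      rw [← Real.cos_abs (2 * Real.pi * (l - c)), abs_mul,
        abs_of_pos (show 0 < 2 * Real.pi by positivity)]
      exact this.le
  · intro l hl
    by_contra hcon
    push Not at hcon
    apply hl
    refine CSG.stp_zero hcl ?_
    have e1 : Real.cos (2 * Real.pi * (l - c)) =
        Real.cos (2 * Real.pi * |(l - c) - round (l - c)|) := by
      have e2 : Real.cos (2 * Real.pi * |(l - c) - round (l - c)|) =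
          Real.cos (2 * Real.pi * ((l - c) - round (l - c))) := by
        rw [← Real.cos_abs (2 * Real.pi * ((l - c) - round (l - c))), abs_mul,
          abs_of_pos (show 0 < 2 * Real.pi by positivity)]
      rw [e2, show 2 * Real.pi * ((l - c) - round (l - c)) =
        2 * Real.pi * (l - c) - (round (l - c) : ℤ) * (2 * Real.pi) by ring,
        Real.cos_sub_int_mul_two_pi]
    rw [e1]
    exact (hlt h2 _ (by linarith) hcon (abs_sub_round _)).le

/-! ### the derivative on the core -/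

theorem AdA_dv {om : ℝ × ℂ → ℂ} (hom : ContDiff ℝ ∞ om) (l : ℝ) :
    dv om l = (fderiv ℝ om (l, 0)).comp (ContinuousLinearMap.inr ℝ ℝ ℂ) := by
  unfold dv
  have h1 : HasFDerivAt (fun v : ℂ => ((l, v) : ℝ × ℂ)) (ContinuousLinearMap.inr ℝ ℝ ℂ) 0 :=
    hasFDerivAt_prodMk_right l 0
  have h2 : HasFDerivAt om (fderiv ℝ om (l, 0)) (l, 0) :=
    (hom.differentiable (by simp) (l, 0)).hasFDerivAt
  exact (HasFDerivAt.comp (0 : ℂ) h2 h1).fderiv

theorem AdA_dv_apply {om : ℝ × ℂ → ℂ} (hom : ContDiff ℝ ∞ om) (l : ℝ) (w : ℂ) :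
    dv om l w = fderiv ℝ om (l, 0) (0, w) := by
  rw [AdA_dv hom]
  rfl

theorem AdA_dv_smooth {om : ℝ × ℂ → ℂ} (hom : ContDiff ℝ ∞ om) :
    ContDiff ℝ ∞ fun q : ℝ × ℂ => dv om q.1 q.2 := by
  have h : (fun q : ℝ × ℂ => dv om q.1 q.2) =
      fun q : ℝ × ℂ => fderiv ℝ om (q.1, 0) (0, q.2) := by
    funext q
    exact AdA_dv_apply hom q.1 q.2
  rw [h]
  have h1 : ContDiff ℝ ∞ (fderiv ℝ om) := hom.fderiv_right (by simp)
  have h2 : ContDiff ℝ ∞ fun q : ℝ × ℂ => ((q.1, 0) : ℝ × ℂ) := contDiff_fst.prodMk contDiff_const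
  have h3 : ContDiff ℝ ∞ fun q : ℝ × ℂ => ((0, q.2) : ℝ × ℂ) := contDiff_const.prodMk contDiff_snd
  exact (h1.comp h2).clm_apply h3

theorem AdA_dt_cont {om : ℝ × ℂ → ℂ} (hom : ContDiff ℝ ∞ om) :
    Continuous fun l => dt (dv om l) := by
  have h1 : ∀ w : ℂ, Continuous fun l : ℝ => dv om l w := by
    intro w
    have := (AdA_dv_smooth hom).continuous
    exact this.comp (continuous_id.prodMk continuous_const)
  unfold dt
  exact Complex.continuous_im.comp ((Complex.continuous_conj.comp (h1 1)).mul (h1 I))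

theorem AdA_dt_ne {L : ℂ →L[ℝ] ℂ} (h : ∀ w, L w = 0 → w = 0) : dt L ≠ 0 := by
  intro h0
  unfold dt at h0
  set p := L 1 with hp
  set q := L I with hq
  have hpne : p ≠ 0 := fun hp0 => one_ne_zero (h 1 hp0)
  set x : ℝ := ((starRingEnd ℂ) p * q).re with hx
  have hpq : (starRingEnd ℂ) p * q = (x : ℂ) := by
    apply Complex.ext
    · simp [hx]
    · rw [h0]
      simp
  have hw : L ((x : ℝ) • (1 : ℂ) - (Complex.normSq p : ℝ) • I) = 0 := by
    rw [map_sub, map_smul, map_smul, ← hp, ← hq, Complex.real_smul, Complex.real_smul, ← hpq,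
      Complex.normSq_eq_conj_mul_self]
    ring
  have h1 := h _ hw
  have h2 := congrArg Complex.im h1
  simp at h2
  exact hpne h2

section
variable {EP : Type*} [NormedAddCommGroup EP] [NormedSpace ℝ EP] {HP : Type*} [TopologicalSpace HP]
  {IP : ModelWithCorners ℝ EP HP} {P : Type*} [TopologicalSpace P] [ChartedSpace HP P]

/-- the periodic extension -/
noncomputable def AdA_b (c : ℝ) (b : ℝ × ℂ × ℝ → P) (q : ℝ × ℂ × ℝ) : P :=
  b (q.1 - round (q.1 - c), q.2.1, q.2.2)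

theorem AdA_b_eq {c : ℝ} (b : ℝ × ℂ × ℝ → P) {l : ℝ} (h : |l - c| < 1 / 2) (v : ℂ) (t : ℝ) :
    AdA_b c b (l, v, t) = b (l, v, t) := by
  have : round (l - c) = 0 := by
    rw [round_eq_iff]
    rw [abs_lt] at h
    constructor
    · push_cast
      linarith [h.1]
    · push_cast
      linarith [h.2]
  unfold AdA_b
  simp only
  rw [this]
  simp

theorem AdA_b_ld {c h' : ℝ} {b : ℝ × ℂ × ℝ → P} (hh' : h' < 1 / 2)
    (hloc : ∀ l, |l - c| < h' → IsLocalDiffeomorphAt 𝓘(ℝ, ℝ × ℂ × ℝ) IP ∞ b (l, 0, 0)) {l : ℝ}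
    (hl : |(l - c) - round (l - c)| < h') :
    IsLocalDiffeomorphAt 𝓘(ℝ, ℝ × ℂ × ℝ) IP ∞ (AdA_b c b) (l, 0, 0) := by
  set m := round (l - c) with hm
  have hb := hloc (l - m) (by
    rw [show l - (m : ℝ) - c = (l - c) - m by ring]
    exact hl)
  have h2 : IsLocalDiffeomorphAt 𝓘(ℝ, ℝ × ℂ × ℝ) 𝓘(ℝ, ℝ × ℂ × ℝ) ∞
      (fun q : ℝ × ℂ × ℝ => (q.1 - m, q.2.1, q.2.2)) (l, 0, 0) :=
    CSG.ld_of_perm (f := (⟨fun q : ℝ × ℂ × ℝ => (q.1 - m, q.2.1, q.2.2),
      fun q : ℝ × ℂ × ℝ => (q.1 + m, q.2.1, q.2.2), fun q => by simp, fun q => by simp⟩ :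
      ℝ × ℂ × ℝ ≃ ℝ × ℂ × ℝ)) (by
        show ContDiff ℝ ∞ (fun q : ℝ × ℂ × ℝ => (q.1 - m, q.2.1, q.2.2))
        fun_prop) (by
        show ContDiff ℝ ∞ (fun q : ℝ × ℂ × ℝ => (q.1 + m, q.2.1, q.2.2))
        fun_prop) (l, 0, 0)
  have h3 : IsLocalDiffeomorphAt 𝓘(ℝ, ℝ × ℂ × ℝ) IP ∞
      (b ∘ fun q : ℝ × ℂ × ℝ => (q.1 - m, q.2.1, q.2.2)) (l, 0, 0) :=
    IsLocalDiffeomorphAt.comp (hf := h2) (hg := hb) ..
  refine CSG.ld_congr h3 ?_
  have hr := CSG.EeP_round (x := l - c) (lt_trans hl hh')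
  have hc : Continuous fun q : ℝ × ℂ × ℝ => q.1 - c := by fun_prop
  have hr' : ∀ᶠ q : ℝ × ℂ × ℝ in 𝓝 (l, 0, 0), round (q.1 - c) = round (l - c) :=
    (hc.continuousAt (x := (l, 0, 0))).eventually hr
  filter_upwards [hr'] with q hq
  unfold AdA_b
  rw [hq, ← hm]
  rfl

theorem adapt_arc [T2Space P] {a : ℝ → P → P} (ha : PTH.Act IP a) {κ b : ℝ × ℂ × ℝ → P}
    (hκ : ThickT IP κ) (heq : Equi a κ) (heqb : Equi a b) {c h h' : ℝ} (h0 : 0 < h) (hh : h < h')
    (hh' : h' < 1 / 2)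
    (hloc : ∀ l, |l - c| < h' → IsLocalDiffeomorphAt 𝓘(ℝ, ℝ × ℂ × ℝ) IP ∞ b (l, 0, 0))
    (hcore : ∀ l, |l - c| < h' → b (l, 0, 0) = κ (l, 0, 0)) {l₀ : ℝ} (hl₀ : |l₀ - c| < h')
    (hpos : PosAt κ b l₀) :
    ∃ κ' : ℝ × ℂ × ℝ → P, ThickT IP κ' ∧ Equi a κ' ∧ (∀ l t, κ' (l, 0, t) = κ (l, 0, t)) ∧
      (∃ ε : ℝ, 0 < ε ∧ ∀ l v t, |l - c| ≤ h → ‖v‖ ≤ ε → κ' (l, v, t) = b (l, v, t)) ∧
      (∀ l, h' ≤ |l - c| → |l - c| ≤ 1 / 2 → ∀ v t, ‖v‖ < 1 → κ' (l, v, t) = κ (l, v, t)) ∧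
      ∀ (X : Type u) [TopologicalSpace X] [ChartedSpace E4 X] (n j : ℤ),
        Nonempty (TwinP IP κ n j X) → Nonempty (TwinP IP κ' n j X) := by
  -- the radii
  obtain ⟨h₁, hm1, hm2⟩ := exists_between (max_lt hh hl₀)
  have hh1 : h < h₁ := (le_max_left _ _).trans_lt hm1
  have hl1 : |l₀ - c| < h₁ := (le_max_right _ _).trans_lt hm1
  obtain ⟨h₂, h12, h2h'⟩ := exists_between hm2
  have h1pos : 0 < h₁ := h0.trans hh1
  obtain ⟨ς, hς, hςp, hς1, hς0⟩ := AdA_cut (c := c) h1pos h12 (h2h'.trans hh')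
  obtain ⟨ς₂, hς₂, hς₂p, hς₂1, hς₂0⟩ := AdA_cut (c := c) (h1 := h) (h2 := (h + h₁) / 2) h0
    (by linarith) (by linarith)
  -- the periodic extension
  have hcd : Continuous fun l : ℝ => |(l - c) - round (l - c)| :=
    CSG.EeP_cont_round.comp (continuous_id.sub continuous_const)
  set U : Set ℝ := {l | |(l - c) - round (l - c)| < h'} with hUdef
  have hU : IsOpen U := isOpen_lt hcd continuous_const
  have hςU : tsupport ς ⊆ U := by
    have h1 : tsupport ς ⊆ {l | |(l - c) - round (l - c)| ≤ h₂} :=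
      closure_minimal (fun l hl => hς0 l hl) (isClosed_le hcd continuous_const)
    intro l hl
    have h2 : |(l - c) - round (l - c)| ≤ h₂ := h1 hl
    exact lt_of_le_of_lt h2 h2h'
  have hperb : ∀ l v t, AdA_b c b (l + 1, v, t) = AdA_b c b (l, v, t) := by
    intro l v t
    unfold AdA_b
    simp only
    rw [show l + 1 - c = (l - c) + 1 by ring, round_add_one]
    congr 2
    push_cast
    ring
  have heqb' : Equi a (AdA_b c b) := fun l v t => heqb _ _ _
  have hκper : ∀ (l : ℝ) (m : ℤ), κ (l - m, 0, 0) = κ (l, 0, 0) := by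
    intro l m
    have := RSG.GerM_per (f := fun x => κ (x, 0, 0)) (fun x => hκ.perl x 0 0) l (-m)
    rw [← this]
    push_cast
    rw [sub_eq_add_neg]
  obtain ⟨ε, hε, lam, om, tau, hlam, hom, htau, hlamp, homp, htaup, hz0, hmain, hinj, -⟩ :=
    exists_lft ha hκ heq heqb' hperb hU hς hςp hςU
      (fun l hl => AdA_b_ld hh' hloc hl)
      (fun l hl => by
        unfold AdA_b
        simp only
        have hl' : |(l - c) - round (l - c)| < h' := hl
        rw [hcore (l - round (l - c)) (by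
          rw [show l - (round (l - c) : ℝ) - c = (l - c) - round (l - c) by ring]
          exact hl'), hκper]) (R := 1) one_pos
  -- the determinant
  have hdt : ∀ l, |l - c| ≤ h₁ → dt (dv om l) ≠ 0 := fun l hl => AdA_dt_ne (hinj l (hς1 l hl))
  have hdt0 : 0 < dt (dv om l₀) := by
    obtain ⟨lam', om', tau', c1, c2, c3, e1, e2, e3, hev, hd⟩ := hpos
    have hz : om (l₀, 0) = 0 := (hz0 l₀).2.1
    have hom_eq : om =ᶠ[𝓝 (l₀, 0)] om' := by
      have o1 : ∀ᶠ q : ℝ × ℂ in 𝓝 (l₀, 0), |q.1 - c| < h₁ := by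
        have hc : Continuous fun q : ℝ × ℂ => |q.1 - c| := by fun_prop
        exact hc.continuousAt.eventually_lt continuousAt_const hl1
      have o2 : ∀ᶠ q : ℝ × ℂ in 𝓝 (l₀, 0), ‖q.2‖ < ε := by
        have hc : Continuous fun q : ℝ × ℂ => ‖q.2‖ := by fun_prop
        exact hc.continuousAt.eventually_lt continuousAt_const (by simpa using hε)
      have o3 : ∀ᶠ q : ℝ × ℂ in 𝓝 (l₀, 0), ‖om' q‖ < 1 := by
        have hc : ContinuousAt (fun q : ℝ × ℂ => ‖om' q‖) (l₀, 0) := c2.continuousAt.norm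
        exact hc.eventually_lt continuousAt_const (by rw [e2]; simp)
      filter_upwards [o1, o2, o3, hev] with q q1 q2 q3 q4
      have g1 := hmain q.1 (hς1 q.1 q1.le) q.2 0 q2.le
      have g2 := q4 0
      rw [AdA_b_eq b (lt_trans q1 (by linarith))] at g1
      exact (hκ.inj _ _ _ _ _ _ g1.2.1 q3 (g1.2.2.symm.trans g2)).1
    have hdv : dv om l₀ = dv om' l₀ := by
      unfold dv
      apply Filter.EventuallyEq.fderiv_eq
      have hc : ContinuousAt (fun v : ℂ => ((l₀, v) : ℝ × ℂ)) 0 := by fun_prop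
      exact hc.eventually hom_eq
    rw [hdv]
    exact hd
  have hdtpos : ∀ l, |l - c| ≤ h₁ → 0 < dt (dv om l) := by
    intro l hl
    by_contra hneg
    push Not at hneg
    have hconn : IsPreconnected (Set.Icc (c - h₁) (c + h₁)) := isPreconnected_Icc
    have hmem : ∀ x, |x - c| ≤ h₁ → x ∈ Set.Icc (c - h₁) (c + h₁) := by
      intro x hx
      rw [abs_le] at hx
      exact ⟨by linarith [hx.1], by linarith [hx.2]⟩
    obtain ⟨x, hx, hx0⟩ := hconn.intermediate_value (hmem l hl) (hmem l₀ hl1.le)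
      (AdA_dt_cont hom).continuousOn ⟨hneg, hdt0.le⟩
    refine hdt x ?_ hx0
    rw [abs_le]
    exact ⟨by linarith [hx.1], by linarith [hx.2]⟩
  obtain ⟨A, β, hA, hβ, hAp, hβp, hβ1, hAβ, hAβ0⟩ := exists_log_arc hom h0 hh1 (by linarith)
    hdtpos
  -- the germ
  set E : ℝ × ℂ → ℂ := fun q => (ς₂ q.1 : ℝ) • (om q - dv om q.1 q.2) with hE
  have hEs : ContDiff ℝ ∞ E := by
    exact (hς₂.comp contDiff_fst).smul (hom.sub (AdA_dv_smooth hom))
  have hdvp : ∀ l, dv om (l + 1) = dv om l := by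
    intro l
    unfold dv
    congr 1
    funext v
    exact homp l v
  have hEp : ∀ l v, E (l + 1, v) = E (l, v) := by
    intro l v
    simp only [hE]
    rw [hς₂p, homp, hdvp]
  have hE0 : ∀ l, E (l, 0) = 0 := by
    intro l
    simp only [hE]
    rw [(hz0 l).2.1, map_zero, sub_zero, smul_zero]
  have hE1 : ∀ l, dv E l = 0 := by
    intro l
    have h1 : HasFDerivAt (fun v : ℂ => om (l, v)) (dv om l) 0 := by
      have hd : Differentiable ℝ (fun v : ℂ => om (l, v)) :=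
        (hom.comp (contDiff_const.prodMk contDiff_id)).differentiable (by simp)
      exact (hd 0).hasFDerivAt
    have h2 : HasFDerivAt (fun v : ℂ => dv om l v) (dv om l) 0 := (dv om l).hasFDerivAt
    have h3 : HasFDerivAt (fun v : ℂ => E (l, v)) ((ς₂ l : ℝ) • (dv om l - dv om l)) 0 :=
      (h1.sub h2).const_smul (ς₂ l)
    rw [sub_self, smul_zero] at h3
    exact h3.fderiv
  set lam' : ℝ × ℂ → ℝ := fun q => q.1 + ς₂ q.1 * (lam q - q.1) with hlam'
  set tau' : ℝ × ℂ → ℝ := fun q => ς₂ q.1 * tau q with htau'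
  have hlams : ContDiff ℝ ∞ lam' :=
    contDiff_fst.add ((hς₂.comp contDiff_fst).mul (hlam.sub contDiff_fst))
  have htaus : ContDiff ℝ ∞ tau' := (hς₂.comp contDiff_fst).mul htau
  obtain ⟨ε', hε', H, hH, hH', hHl, hHt, hHε, hHR, hHid⟩ := exists_germ (A := A) (b := β) (E := E)
    (lam := lam') (tau := tau') hA hβ hEs hlams htaus hAp hβp hEp
    (by
      intro l v
      simp only [hlam']
      rw [hς₂p, hlamp]
      ring)
    (by
      intro l v
      simp only [htau']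
      rw [hς₂p, htaup]) hβ1 hE0 hE1
    (by
      intro l
      simp only [hlam']
      rw [(hz0 l).1]
      ring)
    (by
      intro l
      simp only [htau']
      rw [(hz0 l).2.2, mul_zero]) (R := 1 / 2) (by norm_num)
  obtain ⟨F, hF, hFκ, -, hFa⟩ := kap_move hκ hH hH' hHl hHt (R := 1 / 2) (by norm_num) hHR
  have hlin0 : ∀ A b : ℂ, lin A b 0 = 0 := by
    intro A b
    simp [lin]
  refine ⟨fun q => F (κ q), ThickT_diffeo F hF hκ, ?_, ?_, ⟨min ε ε', lt_min hε hε', ?_⟩, ?_, ?_⟩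
  · intro l v t
    show F (κ (l, v, t)) = a t (F (κ (l, v, 0)))
    rw [heq l v t, hFa a ha heq]
  · intro l t
    show F (κ (l, 0, t)) = κ (l, 0, t)
    rw [hFκ l 0 t (by simp), hHε l 0 t (by simpa using hε'.le), hlin0, hE0, zero_add]
    simp only [hlam', htau']
    rw [(hz0 l).1, (hz0 l).2.2, sub_self, mul_zero, add_zero, add_zero]
  · intro l v t hl hv
    show F (κ (l, v, t)) = b (l, v, t)
    have hςl : ς₂ l = 1 := hς₂1 l hl
    have hv1 : ‖v‖ ≤ ε := hv.trans (min_le_left _ _)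
    have hv2 : ‖v‖ ≤ ε' := hv.trans (min_le_right _ _)
    have g1 := hmain l (hς1 l (by linarith)) v t hv1
    by_cases hv3 : ‖v‖ < 1
    · rw [hFκ l v t hv3, hHε l v t hv2]
      simp only [hlam', htau', hE]
      rw [hςl, ← hAβ l hl v, one_smul, one_mul, one_mul, add_sub_cancel, add_sub_cancel,
        ← g1.2.2, AdA_b_eq b (by linarith)]
    · exfalso
      have hH1 : H (l, v, t) = (l, v, t) := hHR l v t (by linarith [not_lt.1 hv3])
      have hH2 := hHε l v t hv2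
      rw [hH1] at hH2
      simp only [hlam', htau', hE] at hH2
      rw [hςl, ← hAβ l hl v, one_smul, one_mul, one_mul, add_sub_cancel, add_sub_cancel] at hH2
      have hH3 : v = om (l, v) := congrArg (fun q : ℝ × ℂ × ℝ => q.2.1) hH2
      rw [hH3] at hv3
      exact hv3 g1.2.1
  · intro l hl1' hl2 v t hv
    show F (κ (l, v, t)) = κ (l, v, t)
    have hςl : ς₂ l = 0 := by
      by_contra hne
      have := hς₂0 l hne
      rw [AdA_rd hl2] at this
      linarith
    obtain ⟨hA0, hb0⟩ := hAβ0 l (by linarith) hl2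
    rw [hFκ l v t hv, hHid l hA0 hb0 (fun v => by simp only [hE]; rw [hςl, zero_smul])
      (fun v => by simp only [hlam']; rw [hςl, zero_mul, add_zero])
      (fun v => by simp only [htau']; rw [hςl, zero_mul])]
  · intro X _ _ n j hD
    obtain ⟨D⟩ := hD
    exact TwinP_diffeo F hF D

end

end Pool.Agent.COR
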