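import Pool.Agent.COR.Ori
import Pool.Agent.COR.Lft
import Pool.Agent.RSG.ExM

/-!
# COR/Coh: the two strands in a box have coherent orientations   (difficulty 3)

`strand b ε δ w c (l, v, t) = b (δ + cj ε v / 2, ε w (l - c), t)`: the standard thickening of the strand `z = δ`.
`sp_orient` gives `J`.  (1) `J κ` has constant sign on the points `(l, 0, 0)` (connected, `κ` local diffeomorphism there).  (2) Let `b̃ (l, v, t) = b (v, l, t)`: `J b̃` has constant sign at the points `(s, z, 0)`, `‖z‖ < 5`, `|s| < 1` (convex).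
`strand b ε δ w c = b̃ ∘ g`, `g (l, v, t) = (ε w (l - c), δ + cj ε v / 2, t)`, `det (fderiv g) = ε w * ε / 4 > 0` for `w > 0` (for both strands).  (3) For a strand `B` with `B (l, 0, 0) = κ (l, 0, 0)` near `l = l₀`: the transition map
`g₀ = (local inverse of κ) ∘ B` (as in Lft; by equivariance of both it has the form `(lam (l, v), om (l, v), t + tau (l, v))` near `(l₀, 0)` for all `t`), its derivative at `(l₀, 0, 0)` maps `(1, 0, 0)` to itself and `(0, 0, 1)` to itself, so its determinant is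
the one of `dv om l₀` (real `2 × 2` determinant, `= dt`; check with the basis `1, i`), and `J B = J κ * det`.  So `PosAt κ B l₀` iff `J κ`, `J B` have the same sign.  If they have different signs take the strand of `b̄ (z, s, t) = b (conj z, s, t)` :
`strand b̄ ε δ w c (l, v, t) = strand b ε δ w c (l, conj v, t)` for real `δ`.
-/

open scoped Manifold ContDiff Topology
open Set Filter
open Complex (I)
open Pool.Agent.RSG (E4 S3 cj)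

namespace Pool.Agent.COR

open Pool.Agent.RBM (ThickT TwinP OnT Box)

/-- standard thickening of a strand -/
noncomputable def strand {P : Type*} (b : ℂ × ℝ × ℝ → P) (ε δ w c : ℝ) (q : ℝ × ℂ × ℝ) : P :=
  b (δ + cj ε q.2.1 / 2, ε * (w * (q.1 - c)), q.2.2)

/-- reflected box -/
noncomputable def refl {P : Type*} (σ : ℝ) (b : ℂ × ℝ × ℝ → P) (q : ℂ × ℝ × ℝ) : P := b (cj σ q.1, q.2)

/-! ### determinants -/

theorem Coh_det_plane (A : ℂ →L[ℝ] ℂ) : LinearMap.det (A : ℂ →ₗ[ℝ] ℂ) = dt A := by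
  rw [← LinearMap.det_toMatrix Complex.basisOneI, Matrix.det_fin_two]
  simp only [LinearMap.toMatrix_apply, Complex.coe_basisOneI, Complex.coe_basisOneI_repr]
  simp [dt]
  ring

/-- `(x, w, t) ↦ (x + s α w, w, t + s β w)` -/
noncomputable def CohS (α β : ℂ →L[ℝ] ℝ) (s : ℝ) : (ℝ × ℂ × ℝ) →ₗ[ℝ] (ℝ × ℂ × ℝ) where
  toFun q := (q.1 + s * α q.2.1, q.2.1, q.2.2 + s * β q.2.1)
  map_add' q q' := by
    ext <;> simp <;> ring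
  map_smul' r q := by
    refine Prod.ext ?_ (Prod.ext rfl ?_)
    · show r * q.1 + s * α (r • q.2.1) = r * (q.1 + s * α q.2.1)
      rw [map_smul, smul_eq_mul]; ring
    · show r * q.2.2 + s * β (r • q.2.1) = r * (q.2.2 + s * β q.2.1)
      rw [map_smul, smul_eq_mul]; ring

theorem CohS_comp (α β : ℂ →L[ℝ] ℝ) (s s' : ℝ) : CohS α β s ∘ₗ CohS α β s' = CohS α β (s + s') := by
  apply LinearMap.ext
  intro q
  refine Prod.ext ?_ (Prod.ext ?_ ?_)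
  · show q.1 + s' * α q.2.1 + s * α q.2.1 = q.1 + (s + s') * α q.2.1
    ring
  · rfl
  · show q.2.2 + s' * β q.2.1 + s * β q.2.1 = q.2.2 + (s + s') * β q.2.1
    ring

theorem CohS_zero (α β : ℂ →L[ℝ] ℝ) : CohS α β 0 = LinearMap.id := by
  apply LinearMap.ext
  intro q
  refine Prod.ext ?_ (Prod.ext ?_ ?_)
  · show q.1 + 0 * α q.2.1 = q.1
    ring
  · rfl
  · show q.2.2 + 0 * β q.2.1 = q.2.2
    ring

theorem CohS_pos (α β : ℂ →L[ℝ] ℝ) : 0 < LinearMap.det (CohS α β 1) := by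
  have h1 : LinearMap.det (CohS α β (1 / 2)) * LinearMap.det (CohS α β (-(1 / 2))) = 1 := by
    rw [← LinearMap.det_comp, CohS_comp]
    norm_num
    rw [CohS_zero, LinearMap.det_id]
  have h2 : LinearMap.det (CohS α β 1) = LinearMap.det (CohS α β (1 / 2)) * LinearMap.det (CohS α β (1 / 2)) := by
    rw [← LinearMap.det_comp, CohS_comp]
    norm_num
  rw [h2]
  have h3 : LinearMap.det (CohS α β (1 / 2)) ≠ 0 := left_ne_zero_of_mul_eq_one h1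
  exact mul_self_pos.2 h3

theorem Coh_det {D : (ℝ × ℂ × ℝ) →L[ℝ] (ℝ × ℂ × ℝ)} {α β : ℂ →L[ℝ] ℝ} {A : ℂ →L[ℝ] ℂ}
    (h : ∀ x w t, D (x, w, t) = (x + α w, A w, t + β w)) (hD : 0 < LinearMap.det (D : (ℝ × ℂ × ℝ) →ₗ[ℝ] (ℝ × ℂ × ℝ))) :
    0 < dt A := by
  have h1 : (D : (ℝ × ℂ × ℝ) →ₗ[ℝ] (ℝ × ℂ × ℝ)) =
      (LinearMap.prodMap LinearMap.id (LinearMap.prodMap (A : ℂ →ₗ[ℝ] ℂ) LinearMap.id)) ∘ₗ CohS α β 1 := by
    apply LinearMap.ext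
    rintro ⟨x, w, t⟩
    show D (x, w, t) = (x + 1 * α w, A w, t + 1 * β w)
    rw [h, one_mul, one_mul]
  rw [h1, LinearMap.det_comp, LinearMap.det_prodMap, LinearMap.det_prodMap, LinearMap.det_id,
    one_mul, mul_one, Coh_det_plane] at hD
  exact (mul_pos_iff_of_pos_right (CohS_pos α β)).1 hD

/-! ### same orientation -/

theorem Coh_posAt {J : (ℝ × ℂ × ℝ → PTH.SP) → ℝ × ℂ × ℝ → ℝ}
    (hJ1 : ∀ Φ q, IsLocalDiffeomorphAt 𝓘(ℝ, ℝ × ℂ × ℝ) PTH.ISP ∞ Φ q → ContinuousAt (J Φ) q ∧ J Φ q ≠ 0)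
    (hJ2 : ∀ (Φ Ψ : ℝ × ℂ × ℝ → PTH.SP) (g : ℝ × ℂ × ℝ → ℝ × ℂ × ℝ) (q : ℝ × ℂ × ℝ),
      IsLocalDiffeomorphAt 𝓘(ℝ, ℝ × ℂ × ℝ) PTH.ISP ∞ Φ (g q) → ContDiffAt ℝ ∞ g q →
      Ψ =ᶠ[𝓝 q] Φ ∘ g →
      J Ψ q = J Φ (g q) * LinearMap.det ((fderiv ℝ g q : (ℝ × ℂ × ℝ) →L[ℝ] (ℝ × ℂ × ℝ)) :
        (ℝ × ℂ × ℝ) →ₗ[ℝ] (ℝ × ℂ × ℝ)))
    {a : ℝ → PTH.SP → PTH.SP} (ha : PTH.Act PTH.ISP a) {κ B : ℝ × ℂ × ℝ → PTH.SP}
    (hκ : ThickT PTH.ISP κ) (heq : Equi a κ) (heqB : Equi a B) {c : ℝ}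
    (hBl : IsLocalDiffeomorphAt 𝓘(ℝ, ℝ × ℂ × ℝ) PTH.ISP ∞ B (c, 0, 0))
    (hc : ∀ᶠ l in 𝓝 c, κ (l, 0, 0) = B (l, 0, 0))
    (hpos : 0 < J κ (c, 0, 0) * J B (c, 0, 0)) : PosAt κ B c := by
  have hn : (∞ : WithTop ℕ∞) ≠ 0 := by simp
  -- an open interval
  have hev : ∀ᶠ l in 𝓝 c, IsLocalDiffeomorphAt 𝓘(ℝ, ℝ × ℂ × ℝ) PTH.ISP ∞ B (l, 0, 0) := by
    have hcc : ContinuousAt (fun l : ℝ => ((l, 0, 0) : ℝ × ℂ × ℝ)) c := by fun_prop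
    exact hcc.eventually (CSG.ld_eventually hBl)
  obtain ⟨U, hUsub, hU, hcU⟩ := mem_nhds_iff.1 (hev.and hc)
  obtain ⟨g, hg, hg1, hg2⟩ := Lft_local ha hκ heq heqB hU (fun l hl => (hUsub hl).1)
    (fun l hl => (hUsub hl).2.symm) one_pos le_rfl hcU
  have hgs : ContDiffAt ℝ ∞ g (c, 0, 0) := contMDiffAt_iff_contDiffAt.1 hg.contMDiffAt
  have hgc : g (c, 0, 0) = (c, 0, 0) := hg1.self_of_nhds
  set lam : ℝ × ℂ → ℝ := fun q => (g (q.1, q.2, 0)).1 with hlam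
  set om : ℝ × ℂ → ℂ := fun q => (g (q.1, q.2, 0)).2.1 with hom
  set tau : ℝ × ℂ → ℝ := fun q => (g (q.1, q.2, 0)).2.2 with htau
  have hG : ContDiffAt ℝ ∞ (fun q : ℝ × ℂ => g (q.1, q.2, 0)) (c, 0) := by
    have h5 : ContDiffAt ℝ ∞ (fun q : ℝ × ℂ => ((q.1, q.2, 0) : ℝ × ℂ × ℝ)) (c, 0) := by fun_prop
    exact ContDiffAt.comp (c, (0 : ℂ)) (g := g) (f := fun q : ℝ × ℂ => ((q.1, q.2, 0) : ℝ × ℂ × ℝ)) hgs h5
  have hls : ContDiffAt ℝ ∞ lam (c, 0) := hG.fst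
  have hos : ContDiffAt ℝ ∞ om (c, 0) := hG.snd.fst
  have hts : ContDiffAt ℝ ∞ tau (c, 0) := hG.snd.snd
  have hl0 : lam (c, 0) = c := by
    show (g (c, 0, 0)).1 = c
    rw [hgc]
  have ho0 : om (c, 0) = 0 := by
    show (g (c, 0, 0)).2.1 = 0
    rw [hgc]
  have ht0 : tau (c, 0) = 0 := by
    show (g (c, 0, 0)).2.2 = 0
    rw [hgc]
  have hrep : ∀ᶠ q : ℝ × ℂ in 𝓝 (c, 0), ∀ t, B (q.1, q.2, t) = κ (lam q, om q, t + tau q) := by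
    filter_upwards [hg2] with q hq t
    obtain ⟨-, -, -, h6⟩ := hq
    rw [heqB q.1 q.2 t, ← h6, heq _ _ (t + _), ha.add]
    congr 1
    exact heq (lam q) (om q) (tau q)
  refine ⟨lam, om, tau, hls, hos, hts, hl0, ho0, ht0, hrep, ?_⟩
  -- the extended map
  set gt : ℝ × ℂ × ℝ → ℝ × ℂ × ℝ := fun q => (lam (q.1, q.2.1), om (q.1, q.2.1), q.2.2 + tau (q.1, q.2.1)) with hgt
  have hgt0 : gt (c, 0, 0) = (c, 0, 0) := by
    show (lam (c, 0), om (c, 0), 0 + tau (c, 0)) = ((c, 0, 0) : ℝ × ℂ × ℝ)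
    rw [hl0, ho0, ht0, add_zero]
  have hj : HasFDerivAt (fun q : ℝ × ℂ × ℝ => ((q.1, q.2.1) : ℝ × ℂ))
      ((ContinuousLinearMap.fst ℝ ℝ (ℂ × ℝ)).prod
        ((ContinuousLinearMap.fst ℝ ℂ ℝ).comp (ContinuousLinearMap.snd ℝ ℝ (ℂ × ℝ)))) (c, 0, 0) :=
    hasFDerivAt_fst.prodMk (hasFDerivAt_fst.comp _ hasFDerivAt_snd)
  have hjs : ContDiffAt ℝ ∞ (fun q : ℝ × ℂ × ℝ => ((q.1, q.2.1) : ℝ × ℂ)) (c, 0, 0) := by fun_prop
  have hgts : ContDiffAt ℝ ∞ gt (c, 0, 0) := by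
    have e1 : ContDiffAt ℝ ∞ (fun q : ℝ × ℂ × ℝ => lam (q.1, q.2.1)) (c, 0, 0) :=
      ContDiffAt.comp (c, (0 : ℂ), (0 : ℝ)) (g := lam) (f := fun q : ℝ × ℂ × ℝ => ((q.1, q.2.1) : ℝ × ℂ)) hls hjs
    have e2 : ContDiffAt ℝ ∞ (fun q : ℝ × ℂ × ℝ => om (q.1, q.2.1)) (c, 0, 0) :=
      ContDiffAt.comp (c, (0 : ℂ), (0 : ℝ)) (g := om) (f := fun q : ℝ × ℂ × ℝ => ((q.1, q.2.1) : ℝ × ℂ)) hos hjs
    have e3 : ContDiffAt ℝ ∞ (fun q : ℝ × ℂ × ℝ => tau (q.1, q.2.1)) (c, 0, 0) :=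
      ContDiffAt.comp (c, (0 : ℂ), (0 : ℝ)) (g := tau) (f := fun q : ℝ × ℂ × ℝ => ((q.1, q.2.1) : ℝ × ℂ)) hts hjs
    have e4 : ContDiffAt ℝ ∞ (fun q : ℝ × ℂ × ℝ => q.2.2) (c, 0, 0) := by fun_prop
    exact e1.prodMk (e2.prodMk (e4.add e3))
  have hBg : B =ᶠ[𝓝 (c, 0, 0)] κ ∘ gt := by
    have h7 : ContinuousAt (fun q : ℝ × ℂ × ℝ => ((q.1, q.2.1) : ℝ × ℂ)) (c, 0, 0) := by fun_prop
    filter_upwards [h7.eventually hrep] with q hq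
    exact hq q.2.2
  have hκl : IsLocalDiffeomorphAt 𝓘(ℝ, ℝ × ℂ × ℝ) PTH.ISP ∞ κ (gt (c, 0, 0)) := by
    rw [hgt0]; exact hκ.loc _ _ _ (by simp)
  have hdet := hJ2 κ B gt (c, 0, 0) hκl hgts hBg
  rw [hgt0] at hdet
  have hκ0 : J κ (c, 0, 0) ≠ 0 := (hJ1 κ _ (hκ.loc _ _ _ (by simp))).2
  have hdpos : 0 < LinearMap.det ((fderiv ℝ gt (c, 0, 0) : (ℝ × ℂ × ℝ) →L[ℝ] (ℝ × ℂ × ℝ)) :
        (ℝ × ℂ × ℝ) →ₗ[ℝ] (ℝ × ℂ × ℝ)) := by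
    rw [hdet, ← mul_assoc] at hpos
    exact (mul_pos_iff_of_pos_left (mul_self_pos.2 hκ0)).1 hpos
  -- the derivative
  set Dl := fderiv ℝ lam (c, 0) with hDl
  set Do := fderiv ℝ om (c, 0) with hDo
  set Dt := fderiv ℝ tau (c, 0) with hDt
  have hl' : HasFDerivAt lam Dl (c, 0) := (hls.differentiableAt hn).hasFDerivAt
  have ho' : HasFDerivAt om Do (c, 0) := (hos.differentiableAt hn).hasFDerivAt
  have ht' : HasFDerivAt tau Dt (c, 0) := (hts.differentiableAt hn).hasFDerivAt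
  have hcore : Dl (1, 0) = 1 ∧ Do (1, 0) = 0 ∧ Dt (1, 0) = 0 := by
    have hi : HasFDerivAt (fun l : ℝ => ((l, 0) : ℝ × ℂ)) (ContinuousLinearMap.inl ℝ ℝ ℂ) c :=
      hasFDerivAt_prodMk_left c 0
    have hev : ∀ᶠ l in 𝓝 c, g (l, 0, 0) = (l, 0, 0) := by
      have h7 : ContinuousAt (fun l : ℝ => ((l, 0) : ℝ × ℝ)) c := by fun_prop
      exact h7.eventually hg1
    have k1 : HasFDerivAt (fun l : ℝ => lam (l, 0)) (Dl.comp (ContinuousLinearMap.inl ℝ ℝ ℂ)) c :=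
      HasFDerivAt.comp c (g := lam) (f := fun l : ℝ => ((l, 0) : ℝ × ℂ)) hl' hi
    have k2 : HasFDerivAt (fun l : ℝ => om (l, 0)) (Do.comp (ContinuousLinearMap.inl ℝ ℝ ℂ)) c :=
      HasFDerivAt.comp c (g := om) (f := fun l : ℝ => ((l, 0) : ℝ × ℂ)) ho' hi
    have k3 : HasFDerivAt (fun l : ℝ => tau (l, 0)) (Dt.comp (ContinuousLinearMap.inl ℝ ℝ ℂ)) c :=
      HasFDerivAt.comp c (g := tau) (f := fun l : ℝ => ((l, 0) : ℝ × ℂ)) ht' hi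
    have m1 : HasFDerivAt (fun l : ℝ => lam (l, 0)) (ContinuousLinearMap.id ℝ ℝ) c := by
      refine (hasFDerivAt_id c).congr_of_eventuallyEq ?_
      filter_upwards [hev] with l hl
      show (g (l, 0, 0)).1 = l
      rw [hl]
    have m2 : HasFDerivAt (fun l : ℝ => om (l, 0)) (0 : ℝ →L[ℝ] ℂ) c := by
      refine (hasFDerivAt_const (0 : ℂ) c).congr_of_eventuallyEq ?_
      filter_upwards [hev] with l hl
      show (g (l, 0, 0)).2.1 = 0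
      rw [hl]
    have m3 : HasFDerivAt (fun l : ℝ => tau (l, 0)) (0 : ℝ →L[ℝ] ℝ) c := by
      refine (hasFDerivAt_const (0 : ℝ) c).congr_of_eventuallyEq ?_
      filter_upwards [hev] with l hl
      show (g (l, 0, 0)).2.2 = 0
      rw [hl]
    refine ⟨?_, ?_, ?_⟩
    · have := congrArg (fun L : ℝ →L[ℝ] ℝ => L 1) (k1.unique m1)
      simpa using this
    · have := congrArg (fun L : ℝ →L[ℝ] ℂ => L 1) (k2.unique m2)
      simpa using this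
    · have := congrArg (fun L : ℝ →L[ℝ] ℝ => L 1) (k3.unique m3)
      simpa using this
  have hgtd : HasFDerivAt gt ((Dl.comp ((ContinuousLinearMap.fst ℝ ℝ (ℂ × ℝ)).prod
        ((ContinuousLinearMap.fst ℝ ℂ ℝ).comp (ContinuousLinearMap.snd ℝ ℝ (ℂ × ℝ))))).prod
      ((Do.comp ((ContinuousLinearMap.fst ℝ ℝ (ℂ × ℝ)).prod
        ((ContinuousLinearMap.fst ℝ ℂ ℝ).comp (ContinuousLinearMap.snd ℝ ℝ (ℂ × ℝ))))).prod
      (((ContinuousLinearMap.snd ℝ ℂ ℝ).comp (ContinuousLinearMap.snd ℝ ℝ (ℂ × ℝ))) +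
        (Dt.comp ((ContinuousLinearMap.fst ℝ ℝ (ℂ × ℝ)).prod
        ((ContinuousLinearMap.fst ℝ ℂ ℝ).comp (ContinuousLinearMap.snd ℝ ℝ (ℂ × ℝ)))))))) (c, 0, 0) := by
    have e1 := HasFDerivAt.comp ((c, 0, 0) : ℝ × ℂ × ℝ) (g := lam)
      (f := fun q : ℝ × ℂ × ℝ => ((q.1, q.2.1) : ℝ × ℂ)) hl' hj
    have e2 := HasFDerivAt.comp ((c, 0, 0) : ℝ × ℂ × ℝ) (g := om)
      (f := fun q : ℝ × ℂ × ℝ => ((q.1, q.2.1) : ℝ × ℂ)) ho' hj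
    have e3 := HasFDerivAt.comp ((c, 0, 0) : ℝ × ℂ × ℝ) (g := tau)
      (f := fun q : ℝ × ℂ × ℝ => ((q.1, q.2.1) : ℝ × ℂ)) ht' hj
    have e4 : HasFDerivAt (fun q : ℝ × ℂ × ℝ => q.2.2)
      ((ContinuousLinearMap.snd ℝ ℂ ℝ).comp (ContinuousLinearMap.snd ℝ ℝ (ℂ × ℝ))) (c, 0, 0) :=
      hasFDerivAt_snd.comp _ hasFDerivAt_snd
    exact e1.prodMk (e2.prodMk (e4.add e3))
  rw [hgtd.fderiv] at hdpos
  have hdv : dv om c = Do.comp (ContinuousLinearMap.inr ℝ ℝ ℂ) := by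
    unfold dv
    have hi : HasFDerivAt (fun v : ℂ => ((c, v) : ℝ × ℂ)) (ContinuousLinearMap.inr ℝ ℝ ℂ) 0 :=
      hasFDerivAt_prodMk_right c 0
    exact (HasFDerivAt.comp (0 : ℂ) (g := om) (f := fun v : ℂ => ((c, v) : ℝ × ℂ)) ho' hi).fderiv
  rw [hdv]
  refine Coh_det (α := Dl.comp (ContinuousLinearMap.inr ℝ ℝ ℂ)) (β := Dt.comp (ContinuousLinearMap.inr ℝ ℝ ℂ)) ?_ hdpos
  intro x w t
  have split : ((x, w) : ℝ × ℂ) = x • (1, 0) + (0, w) := by ext <;> simp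
  have s1 : Dl (x, w) = x + Dl (0, w) := by
    rw [split, map_add, map_smul, hcore.1]; simp
  have s2 : Do (x, w) = Do (0, w) := by
    rw [split, map_add, map_smul, hcore.2.1]; simp
  have s3 : Dt (x, w) = Dt (0, w) := by
    rw [split, map_add, map_smul, hcore.2.2]; simp
  show (Dl (x, w), Do (x, w), t + Dt (x, w)) = (x + Dl (0, w), Do (0, w), t + Dt (0, w))
  rw [s1, s2, s3]

/-! ### the strands -/

theorem Coh_sign {f : ℝ → ℝ} {a b : ℝ} (hc : ContinuousOn f (uIcc a b)) (h0 : ∀ x ∈ uIcc a b, f x ≠ 0) :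
    0 < f a * f b := by
  by_contra hneg
  push Not at hneg
  have h1 := intermediate_value_uIcc hc
  have h2 : (0 : ℝ) ∈ uIcc (f a) (f b) := by
    rw [mem_uIcc]
    rcases mul_nonpos_iff.1 hneg with h | h
    · right; exact ⟨h.2, h.1⟩
    · left; exact h
  obtain ⟨x, hx, hx0⟩ := h1 h2
  exact h0 x hx hx0

theorem Coh_cj {σ ε : ℝ} (δ : ℝ) (v : ℂ) : cj σ (δ + cj ε v / 2) = δ + cj (σ * ε) v / 2 := by
  apply Complex.ext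
  · simp [cj]
  · simp [cj]
    ring

/-- the linear map `v ↦ cj τ v / 2` -/
noncomputable def CohC (τ : ℝ) : ℂ →L[ℝ] ℂ := LinearMap.toContinuousLinearMap
  { toFun := fun v => cj τ v / 2
    map_add' := fun v v' => by
      apply Complex.ext
      · simp [cj]; ring
      · simp [cj]; ring
    map_smul' := fun r v => by
      apply Complex.ext
      · simp [cj]; ring
      · simp [cj]; ring }

theorem CohC_apply (τ : ℝ) (v : ℂ) : CohC τ v = cj τ v / 2 := rfl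

theorem CohC_dt (τ : ℝ) : dt (CohC τ) = τ / 4 := by
  unfold dt
  rw [CohC_apply, CohC_apply]
  have h1 : cj τ 1 = 1 := by apply Complex.ext <;> simp [cj]
  have h2 : cj τ I = τ * I := by apply Complex.ext <;> simp [cj]
  rw [h1, h2]
  simp
  ring

/-- the linear part of the strand -/
noncomputable def CohL (s τ : ℝ) : (ℝ × ℂ × ℝ) →L[ℝ] (ℝ × ℂ × ℝ) :=
  (s • ContinuousLinearMap.id ℝ ℝ).prodMap ((CohC τ).prodMap (ContinuousLinearMap.id ℝ ℝ))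

theorem CohL_apply (s τ : ℝ) (q : ℝ × ℂ × ℝ) : CohL s τ q = (s * q.1, cj τ q.2.1 / 2, q.2.2) := rfl

theorem CohL_det (s τ : ℝ) :
    LinearMap.det (CohL s τ : (ℝ × ℂ × ℝ) →ₗ[ℝ] (ℝ × ℂ × ℝ)) = s * (τ / 4) := by
  have h1 : (CohL s τ : (ℝ × ℂ × ℝ) →ₗ[ℝ] (ℝ × ℂ × ℝ)) =
      LinearMap.prodMap (s • LinearMap.id) (LinearMap.prodMap (CohC τ : ℂ →ₗ[ℝ] ℂ) LinearMap.id) := rfl
  rw [h1, LinearMap.det_prodMap, LinearMap.det_prodMap, LinearMap.det_id, mul_one, Coh_det_plane,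
    CohC_dt, LinearMap.det_smul]
  simp

theorem Coh_strand {J : (ℝ × ℂ × ℝ → PTH.SP) → ℝ × ℂ × ℝ → ℝ}
    (hJ2 : ∀ (Φ Ψ : ℝ × ℂ × ℝ → PTH.SP) (g : ℝ × ℂ × ℝ → ℝ × ℂ × ℝ) (q : ℝ × ℂ × ℝ),
      IsLocalDiffeomorphAt 𝓘(ℝ, ℝ × ℂ × ℝ) PTH.ISP ∞ Φ (g q) → ContDiffAt ℝ ∞ g q →
      Ψ =ᶠ[𝓝 q] Φ ∘ g →
      J Ψ q = J Φ (g q) * LinearMap.det ((fderiv ℝ g q : (ℝ × ℂ × ℝ) →L[ℝ] (ℝ × ℂ × ℝ)) :
        (ℝ × ℂ × ℝ) →ₗ[ℝ] (ℝ × ℂ × ℝ)))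
    {b : ℂ × ℝ × ℝ → PTH.SP} {σ ε δ w c : ℝ} (hσ : σ = 1 ∨ σ = -1) (hε : ε = 1 ∨ ε = -1)
    (hw : 0 < w)
    (hbt : IsLocalDiffeomorphAt 𝓘(ℝ, ℝ × ℂ × ℝ) PTH.ISP ∞ (fun q : ℝ × ℂ × ℝ => b (q.2.1, q.1, q.2.2)) (0, (δ : ℂ), 0)) :
    IsLocalDiffeomorphAt 𝓘(ℝ, ℝ × ℂ × ℝ) PTH.ISP ∞ (strand (refl σ b) ε δ w c) (c, 0, 0) ∧
    J (strand (refl σ b) ε δ w c) (c, 0, 0) =
      J (fun q : ℝ × ℂ × ℝ => b (q.2.1, q.1, q.2.2)) (0, (δ : ℂ), 0) * (σ * w / 4) := by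
  set g : ℝ × ℂ × ℝ → ℝ × ℂ × ℝ := fun q => CohL (ε * w) (σ * ε) (q - (c, 0, 0)) + (0, (δ : ℂ), 0) with hg
  have hBg : strand (refl σ b) ε δ w c = (fun q : ℝ × ℂ × ℝ => b (q.2.1, q.1, q.2.2)) ∘ g := by
    funext q
    obtain ⟨l, v, t⟩ := q
    have e : g (l, v, t) = (ε * (w * (l - c)), cj σ (δ + cj ε v / 2), t) := by
      show CohL (ε * w) (σ * ε) ((l, v, t) - (c, 0, 0)) + (0, (δ : ℂ), 0) = _
      rw [CohL_apply, Coh_cj]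
      refine Prod.ext ?_ (Prod.ext ?_ ?_)
      · simp; ring
      · simp; ring
      · simp
    show b (cj σ (δ + cj ε v / 2), ε * (w * (l - c)), t) = b ((g (l, v, t)).2.1, (g (l, v, t)).1, (g (l, v, t)).2.2)
    rw [e]
  have hg0 : g (c, 0, 0) = (0, (δ : ℂ), 0) := by
    show CohL (ε * w) (σ * ε) ((c, 0, 0) - (c, 0, 0)) + (0, (δ : ℂ), 0) = _
    rw [sub_self, map_zero, zero_add]
  have hgd : ∀ q, HasFDerivAt g (CohL (ε * w) (σ * ε)) q := by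
    intro q
    have h1 : HasFDerivAt (fun q : ℝ × ℂ × ℝ => q - (c, 0, 0)) (ContinuousLinearMap.id ℝ _) q :=
      (hasFDerivAt_id q).sub_const _
    have h2 := (CohL (ε * w) (σ * ε)).hasFDerivAt.comp q h1
    rw [ContinuousLinearMap.comp_id] at h2
    exact h2.add_const _
  have hgs : ContDiff ℝ ∞ g :=
    ((CohL (ε * w) (σ * ε)).contDiff.comp (contDiff_id.sub contDiff_const)).add contDiff_const
  have hτ : σ * ε = 1 ∨ σ * ε = -1 := by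
    rcases hσ with rfl | rfl <;> rcases hε with rfl | rfl <;> norm_num
  have hεw : ε * w ≠ 0 := by
    rcases hε with rfl | rfl
    · simpa using hw.ne'
    · simpa using hw.ne'
  have hgl : IsLocalDiffeomorphAt 𝓘(ℝ, ℝ × ℂ × ℝ) 𝓘(ℝ, ℝ × ℂ × ℝ) ∞ g (c, 0, 0) := by
    refine CSG.ld_of_fderiv (Eventually.of_forall fun y => hgs.contDiffAt) rfl ?_
    rintro ⟨x, v, t⟩ hv
    rw [(hgd _).fderiv, CohL_apply] at hv
    have k1 : ε * w * x = 0 := congrArg Prod.fst hv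
    have k2 : cj (σ * ε) v / 2 = 0 := congrArg (fun p : ℝ × ℂ × ℝ => p.2.1) hv
    have k3 : t = 0 := congrArg (fun p : ℝ × ℂ × ℝ => p.2.2) hv
    have k4 : x = 0 := by
      rcases mul_eq_zero.1 k1 with h | h
      · exact absurd h hεw
      · exact h
    have k5 : v = 0 := by
      rw [← norm_eq_zero, ← RSG.cj_norm hτ v, norm_eq_zero]
      simpa using k2
    rw [k3, k4, k5]; rfl
  constructor
  · rw [hBg]
    refine IsLocalDiffeomorphAt.comp (hf := hgl) (hg := ?_) ..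
    rw [hg0]
    exact hbt
  · have h1 := hJ2 (fun q : ℝ × ℂ × ℝ => b (q.2.1, q.1, q.2.2)) (strand (refl σ b) ε δ w c) g (c, 0, 0)
      (by rw [hg0]; exact hbt) hgs.contDiffAt (by rw [hBg])
    rw [h1, (hgd _).fderiv, CohL_det, hg0]
    have : ε * ε = 1 := by rcases hε with rfl | rfl <;> norm_num
    congr 1
    linear_combination (w * σ / 4) * this

theorem coherent {a : ℝ → PTH.SP → PTH.SP} (ha : PTH.Act PTH.ISP a) {κ : ℝ × ℂ × ℝ → PTH.SP}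
    (hκ : ThickT PTH.ISP κ) (heq : Equi a κ) {b : ℂ × ℝ × ℝ → PTH.SP} (hb : Box PTH.ISP b 5)
    (heqb : EquiB a b) {ε₁ ε₂ w c₁ c₂ : ℝ} (h1 : ε₁ = 1 ∨ ε₁ = -1) (h2 : ε₂ = 1 ∨ ε₂ = -1) (hw : 0 < w)
    (hc₁ : ∀ᶠ l in 𝓝 c₁, κ (l, 0, 0) = strand b ε₁ 1 w c₁ (l, 0, 0))
    (hc₂ : ∀ᶠ l in 𝓝 c₂, κ (l, 0, 0) = strand b ε₂ (-1) w c₂ (l, 0, 0)) :
    ∃ σ : ℝ, (σ = 1 ∨ σ = -1) ∧ PosAt κ (strand (refl σ b) ε₁ 1 w c₁) c₁ ∧
      PosAt κ (strand (refl σ b) ε₂ (-1) w c₂) c₂ := by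
  obtain ⟨J, hJ1, hJ2⟩ := sp_orient
  set bt : ℝ × ℂ × ℝ → PTH.SP := fun q => b (q.2.1, q.1, q.2.2) with hbt
  -- `bt` is a local diffeomorphism
  have hbtl : ∀ x : ℝ, |x| < 5 → IsLocalDiffeomorphAt 𝓘(ℝ, ℝ × ℂ × ℝ) PTH.ISP ∞ bt (0, (x : ℂ), 0) := by
    intro x hx
    let sw : (ℝ × ℂ × ℝ) ≃ (ℂ × ℝ × ℝ) :=
      ⟨fun q => (q.2.1, q.1, q.2.2), fun q => (q.2.1, q.1, q.2.2), fun q => rfl, fun q => rfl⟩
    have hs1 : ContDiff ℝ ∞ sw := by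
      show ContDiff ℝ ∞ fun q : ℝ × ℂ × ℝ => ((q.2.1, q.1, q.2.2) : ℂ × ℝ × ℝ)
      fun_prop
    have hs2 : ContDiff ℝ ∞ sw.symm := by
      show ContDiff ℝ ∞ fun q : ℂ × ℝ × ℝ => ((q.2.1, q.1, q.2.2) : ℝ × ℂ × ℝ)
      fun_prop
    have hsl := CSG.ld_of_perm hs1 hs2 (0, (x : ℂ), 0)
    have hbl : IsLocalDiffeomorphAt 𝓘(ℝ, ℂ × ℝ × ℝ) PTH.ISP ∞ b (sw (0, (x : ℂ), 0)) :=
      hb.loc (x : ℂ) 0 0 (by simpa using hx) (by simp)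
    exact IsLocalDiffeomorphAt.comp (hf := hsl) (hg := hbl) ..
  have hκc : 0 < J κ (c₁, 0, 0) * J κ (c₂, 0, 0) := by
    have h3 : ∀ l : ℝ, ContinuousAt (fun l : ℝ => J κ (l, 0, 0)) l ∧ J κ (l, 0, 0) ≠ 0 := by
      intro l
      obtain ⟨h4, h5⟩ := hJ1 κ (l, 0, 0) (hκ.loc _ _ _ (by simp))
      refine ⟨?_, h5⟩
      have h6 : ContinuousAt (fun l : ℝ => ((l, 0, 0) : ℝ × ℂ × ℝ)) l := by fun_prop
      exact ContinuousAt.comp (g := J κ) (f := fun l : ℝ => ((l, 0, 0) : ℝ × ℂ × ℝ)) h4 h6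
    exact Coh_sign (f := fun l : ℝ => J κ (l, 0, 0)) (fun x _ => (h3 x).1.continuousWithinAt) (fun x _ => (h3 x).2)
  have hbc : 0 < J bt (0, ((1 : ℝ) : ℂ), 0) * J bt (0, ((-1 : ℝ) : ℂ), 0) := by
    have h3 : ∀ x : ℝ, |x| < 5 → ContinuousAt (fun x : ℝ => J bt (0, (x : ℂ), 0)) x ∧ J bt (0, (x : ℂ), 0) ≠ 0 := by
      intro x hx
      obtain ⟨h4, h5⟩ := hJ1 bt (0, (x : ℂ), 0) (hbtl x hx)
      refine ⟨?_, h5⟩
      have h6 : ContinuousAt (fun x : ℝ => ((0, (x : ℂ), 0) : ℝ × ℂ × ℝ)) x := by fun_prop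
      exact ContinuousAt.comp (g := J bt) (f := fun x : ℝ => ((0, (x : ℂ), 0) : ℝ × ℂ × ℝ)) h4 h6
    have h4 : ∀ x ∈ uIcc (1 : ℝ) (-1), |x| < 5 := by
      intro x hx
      rw [uIcc_of_ge (by norm_num)] at hx
      rw [abs_lt]
      constructor <;> linarith [hx.1, hx.2]
    exact Coh_sign (f := fun x : ℝ => J bt (0, (x : ℂ), 0))
      (fun x hx => (h3 x (h4 x hx)).1.continuousWithinAt) (fun x hx => (h3 x (h4 x hx)).2)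
  have hσ : ∃ σ : ℝ, (σ = 1 ∨ σ = -1) ∧ 0 < σ * (J κ (c₁, 0, 0) * J bt (0, ((1 : ℝ) : ℂ), 0)) := by
    have hne : J κ (c₁, 0, 0) * J bt (0, ((1 : ℝ) : ℂ), 0) ≠ 0 := by
      refine mul_ne_zero ?_ ?_
      · exact (hJ1 κ _ (hκ.loc _ _ _ (by simp))).2
      · exact (hJ1 bt _ (hbtl 1 (by norm_num))).2
    rcases lt_or_gt_of_ne hne with h | h
    · exact ⟨-1, Or.inr rfl, by linarith⟩
    · exact ⟨1, Or.inl rfl, by linarith⟩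
  obtain ⟨σ, hσ1, hσ2⟩ := hσ
  have hσ3 : 0 < σ * (J κ (c₂, 0, 0) * J bt (0, ((-1 : ℝ) : ℂ), 0)) := by
    have h3 := mul_pos hκc hbc
    have h4 : 0 < (σ * (J κ (c₂, 0, 0) * J bt (0, ((-1 : ℝ) : ℂ), 0))) *
        (σ * (J κ (c₁, 0, 0) * J bt (0, ((1 : ℝ) : ℂ), 0))) := by
      have h5 : σ * σ = 1 := by rcases hσ1 with rfl | rfl <;> norm_num
      have h6 : (σ * (J κ (c₂, 0, 0) * J bt (0, ((-1 : ℝ) : ℂ), 0))) *
        (σ * (J κ (c₁, 0, 0) * J bt (0, ((1 : ℝ) : ℂ), 0))) =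
        (σ * σ) * (J κ (c₁, 0, 0) * J κ (c₂, 0, 0) * (J bt (0, ((1 : ℝ) : ℂ), 0) * J bt (0, ((-1 : ℝ) : ℂ), 0))) := by
        ring
      rw [h6, h5, one_mul]
      exact h3
    exact (mul_pos_iff_of_pos_right hσ2).1 h4
  have key : ∀ (ε δ c : ℝ), (ε = 1 ∨ ε = -1) → |δ| < 5 →
      (∀ᶠ l in 𝓝 c, κ (l, 0, 0) = strand b ε δ w c (l, 0, 0)) →
      0 < σ * (J κ (c, 0, 0) * J bt (0, (δ : ℂ), 0)) → PosAt κ (strand (refl σ b) ε δ w c) c := by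
    intro ε δ c hε hδ hcc hs
    obtain ⟨k1, k2⟩ := Coh_strand hJ2 (c := c) hσ1 hε hw (hbtl δ hδ)
    refine Coh_posAt hJ1 hJ2 ha hκ heq ?_ k1 ?_ ?_
    · intro l v t
      exact heqb _ _ _
    · filter_upwards [hcc] with l hl
      rw [hl]
      show b (δ + cj ε 0 / 2, ε * (w * (l - c)), 0) = b (cj σ (δ + cj ε 0 / 2), ε * (w * (l - c)), 0)
      rw [Coh_cj, RSG.cj_zero, RSG.cj_zero]
    · rw [k2]
      have : J κ (c, 0, 0) * (J bt (0, (δ : ℂ), 0) * (σ * w / 4)) =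
          σ * (J κ (c, 0, 0) * J bt (0, (δ : ℂ), 0)) * (w / 4) := by ring
      rw [this]
      positivity
  exact ⟨σ, hσ1, key ε₁ 1 c₁ h1 (by norm_num) hc₁ hσ2, key ε₂ (-1) c₂ h2 (by norm_num) hc₂ hσ3⟩

end Pool.Agent.COR
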