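import Pool.Agent.COR.Cmp
import Pool.Agent.COR.Ger

/-!
# COR/Glu: making the thick torus equal to the given thickenings on the whole unit disc   (difficulty 3)

`T = tsupport ς` (closed, periodic, compact modulo `1`, contained in `U`).
* The compact set `b ({l ∈ T} × {‖v‖ ≤ 1} × ℝ)` does not meet the compact set `κ ({l ∉ U} × 0 × ℝ)` (`hoff` for `v ≠ 0`; for `v = 0`, `b (l, 0, t) = κ (l, 0, t)` and `hκ.inj`, `PerS U`).  So there is
  `ε' ∈ (0, ε]`, `ε' < 1`, such that `κ (l', v', t') ∉ b (T × {‖v‖ ≤ 1} × ℝ) ∪ Fc` for `l' ∉ U`, `‖v'‖ < ε'` (tube lemma / compactness of `{l' ∉ U} / Z`, e.g. by a sequence argument or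
  `IsCompact.eventually_forall_of_forall_eventually`; the set `b (T ..) ∪ Fc` is closed, `t` modulo 1).
* `exists_compress ε'` gives `g`; `c v = g (‖v‖²) • v`, `G l v = ((1 - ς l) * g (‖v‖²) + ς l) • v`.  `G l` is injective on the plane (radial, the radius `r ↦ ((1 - ς) g (r²) + ς) r` has positive derivative), `‖G l v‖ ≤ ‖v‖`,
  `G l v = v` near `0`, `‖G l v‖ < ε'` if `ς l = 0`, `‖v‖ < 1`.
* `κ' (l, v, t) = b (l, G l v, t)` if `l ∈ U`, `κ (l, c v, t)` if `l ∉ U`.  Both agree for `l ∈ U \ T` (`‖c v‖ < ε' ≤ ε`, `hgerm`); so near every `(l, v, t)`, `‖v‖ < 1`, one of the two formulas holds (`T` closed), and `κ'` is a local diffeomorphism: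
  composition with `(l, v, t) ↦ (l, G l v, t)`, which has injective derivative (`CSG.ld_of_fderiv`; in polar terms: radial derivative `(1 - ς)(g + 2 x g') + ς > 0`, angular factor `> 0`).
* injectivity (`‖v‖, ‖v'‖ < 1`): (a) `l, l' ∈ U`: `hinj`, `G` injective.  (b) `l, l' ∉ T`: both are `κ (·, c ·, ·)`: `hκ.inj`.  (c) `l ∈ T`, `l' ∉ U`: impossible by the choice of `ε'`.  (`l ∈ T`, `l' ∈ U`: case (a); `l ∉ T`, `l' ∉ U`: case (b).)
* `TwinP`: `germ` (`κ' = κ` for small `‖v‖`: for `l ∈ U`, `G l v = v`, `b (l, v, t) = κ (l, v, t)`; for `l ∉ U`, `c v = v`).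
-/

open scoped Manifold ContDiff Topology
open Set Filter
open Complex (I)
open Pool.Agent.RSG (E4 ex cj)

namespace Pool.Agent.COR

open Pool.Agent.RBM (ThickT TwinP OnT)

universe u

/-- the square of the norm -/
def Glu_X (v : ℂ) : ℝ := v.re ^ 2 + v.im ^ 2

theorem Glu_X_eq (v : ℂ) : Glu_X v = ‖v‖ ^ 2 := by
  rw [Complex.sq_norm, Complex.normSq_apply]
  unfold Glu_X
  ring

/-- the radial factor -/
noncomputable def Glu_h (g : ℝ → ℝ) (s x : ℝ) : ℝ := (1 - s) * g x + s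

/-- the map in the plane -/
noncomputable def Glu_G (g : ℝ → ℝ) (s : ℝ) (v : ℂ) : ℂ := Glu_h g s (Glu_X v) • v

/-- `g` compresses the unit disc into the disc of radius `ε` -/
structure GluC (g : ℝ → ℝ) (δ ε : ℝ) : Prop where
  smooth : ContDiff ℝ ∞ g
  pos : 0 < δ
  one : ∀ x, x ≤ δ → g x = 1
  bd : ∀ x, 0 < g x ∧ g x ≤ 1
  small : ∀ x, 0 ≤ x → x ≤ 1 → g x ^ 2 * x < ε ^ 2
  der : ∀ x, 0 ≤ x → 0 < g x + 2 * x * deriv g x

theorem Glu_h_pos {g : ℝ → ℝ} {δ ε : ℝ} (hg : GluC g δ ε) {s : ℝ} (hs : 0 ≤ s ∧ s ≤ 1) (x : ℝ) :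
    0 < Glu_h g s x := by
  have h1 := hg.bd x
  unfold Glu_h
  nlinarith [mul_nonneg hs.1 (sub_nonneg.2 h1.2)]

theorem Glu_h_le {g : ℝ → ℝ} {δ ε : ℝ} (hg : GluC g δ ε) {s : ℝ} (hs : 0 ≤ s ∧ s ≤ 1) (x : ℝ) :
    Glu_h g s x ≤ 1 := by
  have h1 := hg.bd x
  unfold Glu_h
  nlinarith [mul_nonneg (sub_nonneg.2 hs.2) (sub_nonneg.2 h1.2)]

theorem Glu_G_norm {g : ℝ → ℝ} {δ ε : ℝ} (hg : GluC g δ ε) {s : ℝ} (hs : 0 ≤ s ∧ s ≤ 1) (v : ℂ) :
    ‖Glu_G g s v‖ = Glu_h g s (‖v‖ ^ 2) * ‖v‖ := by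
  unfold Glu_G
  rw [norm_smul, Glu_X_eq, Real.norm_of_nonneg (Glu_h_pos hg hs _).le]

theorem Glu_G_le {g : ℝ → ℝ} {δ ε : ℝ} (hg : GluC g δ ε) {s : ℝ} (hs : 0 ≤ s ∧ s ≤ 1) (v : ℂ) :
    ‖Glu_G g s v‖ ≤ ‖v‖ := by
  rw [Glu_G_norm hg hs]
  have h1 := Glu_h_le hg hs (‖v‖ ^ 2)
  nlinarith [norm_nonneg v]

theorem Glu_G_small {g : ℝ → ℝ} {δ ε : ℝ} (hg : GluC g δ ε) (hε : 0 < ε) {v : ℂ} (hv : ‖v‖ < 1) :
    ‖Glu_G g 0 v‖ < ε := by
  rw [Glu_G_norm hg ⟨le_refl _, zero_le_one⟩]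
  have e : Glu_h g 0 (‖v‖ ^ 2) = g (‖v‖ ^ 2) := by
    unfold Glu_h
    ring
  rw [e]
  have h1 := hg.small (‖v‖ ^ 2) (by positivity) (by nlinarith [norm_nonneg v])
  have h2 : (g (‖v‖ ^ 2) * ‖v‖) ^ 2 < ε ^ 2 := by
    calc (g (‖v‖ ^ 2) * ‖v‖) ^ 2 = g (‖v‖ ^ 2) ^ 2 * ‖v‖ ^ 2 := by ring
      _ < ε ^ 2 := h1
  exact lt_of_pow_lt_pow_left₀ 2 hε.le h2

theorem Glu_G_one {g : ℝ → ℝ} {δ ε : ℝ} (hg : GluC g δ ε) (s : ℝ) {v : ℂ} (hv : ‖v‖ ^ 2 ≤ δ) :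
    Glu_G g s v = v := by
  unfold Glu_G Glu_h
  rw [Glu_X_eq, hg.one _ hv, mul_one, sub_add_cancel, one_smul]

theorem Glu_G_top (g : ℝ → ℝ) (v : ℂ) : Glu_G g 1 v = v := by
  unfold Glu_G Glu_h
  rw [sub_self, zero_mul, zero_add, one_smul]

theorem Glu_G_zero (g : ℝ → ℝ) (s : ℝ) : Glu_G g s 0 = 0 := by
  unfold Glu_G
  rw [smul_zero]

theorem Glu_mono {g : ℝ → ℝ} {δ ε : ℝ} (hg : GluC g δ ε) {s : ℝ} (hs : 0 ≤ s ∧ s ≤ 1) :
    StrictMonoOn (fun r : ℝ => Glu_h g s (r ^ 2) * r) (Ici 0) := by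
  have hd : ∀ r : ℝ, HasDerivAt (fun r : ℝ => Glu_h g s (r ^ 2) * r)
      (((1 - s) * (deriv g (r ^ 2) * (2 * r))) * r + Glu_h g s (r ^ 2) * 1) r := by
    intro r
    have h1 : HasDerivAt (fun r : ℝ => r ^ 2) (2 * r) r := by
      have := hasDerivAt_pow 2 r
      simpa using this
    have h2 : HasDerivAt g (deriv g (r ^ 2)) (r ^ 2) :=
      (hg.smooth.differentiable (by simp) _).hasDerivAt
    have h3 : HasDerivAt (fun r : ℝ => g (r ^ 2)) (deriv g (r ^ 2) * (2 * r)) r :=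
      HasDerivAt.comp (h₂ := g) (h := fun r : ℝ => r ^ 2) r h2 h1
    have h4 : HasDerivAt (fun r : ℝ => Glu_h g s (r ^ 2)) ((1 - s) * (deriv g (r ^ 2) * (2 * r))) r :=
      (h3.const_mul (1 - s)).add_const s
    exact h4.mul (hasDerivAt_id r)
  refine strictMonoOn_of_deriv_pos (convex_Ici 0)
    (fun r _ => (hd r).continuousAt.continuousWithinAt) (fun r _ => ?_)
  rw [(hd r).deriv]
  have h5 := hg.der (r ^ 2) (by positivity)
  unfold Glu_h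
  have h6 : (1 - s) * (deriv g (r ^ 2) * (2 * r)) * r + ((1 - s) * g (r ^ 2) + s) * 1 =
      (1 - s) * (g (r ^ 2) + 2 * r ^ 2 * deriv g (r ^ 2)) + s := by ring
  rw [h6]
  rcases eq_or_lt_of_le hs.2 with h | h
  · rw [h]
    norm_num
  · have := mul_pos (sub_pos.2 h) h5
    linarith [hs.1]

theorem Glu_G_inj {g : ℝ → ℝ} {δ ε : ℝ} (hg : GluC g δ ε) {s : ℝ} (hs : 0 ≤ s ∧ s ≤ 1) {v v' : ℂ}
    (h : Glu_G g s v = Glu_G g s v') : v = v' := by
  have h1 : ‖v‖ = ‖v'‖ := by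
    apply (Glu_mono hg hs).injOn (norm_nonneg v) (norm_nonneg v')
    change Glu_h g s (‖v‖ ^ 2) * ‖v‖ = Glu_h g s (‖v'‖ ^ 2) * ‖v'‖
    rw [← Glu_G_norm hg hs, ← Glu_G_norm hg hs, h]
  unfold Glu_G at h
  rw [Glu_X_eq, Glu_X_eq, h1] at h
  exact smul_right_injective ℂ (Glu_h_pos hg hs _).ne' h

/-- the map of `(l, v, t)` -/
noncomputable def Glu_P (g ς : ℝ → ℝ) (q : ℝ × ℂ × ℝ) : ℝ × ℂ × ℝ :=
  (q.1, Glu_G g (ς q.1) q.2.1, q.2.2)

theorem Glu_P_smooth {g ς : ℝ → ℝ} (hg : ContDiff ℝ ∞ g) (hς : ContDiff ℝ ∞ ς) :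
    ContDiff ℝ ∞ (Glu_P g ς) := by
  have h1 : ContDiff ℝ ∞ fun q : ℝ × ℂ × ℝ => q.1 := contDiff_fst
  have h2 : ContDiff ℝ ∞ fun q : ℝ × ℂ × ℝ => q.2.1 := contDiff_fst.comp contDiff_snd
  have h3 : ContDiff ℝ ∞ fun q : ℝ × ℂ × ℝ => q.2.2 := contDiff_snd.comp contDiff_snd
  have hre : ContDiff ℝ ∞ fun q : ℝ × ℂ × ℝ => q.2.1.re := Complex.reCLM.contDiff.comp h2
  have him : ContDiff ℝ ∞ fun q : ℝ × ℂ × ℝ => q.2.1.im := Complex.imCLM.contDiff.comp h2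
  have hX : ContDiff ℝ ∞ fun q : ℝ × ℂ × ℝ => Glu_X q.2.1 := (hre.pow 2).add (him.pow 2)
  have hs : ContDiff ℝ ∞ fun q : ℝ × ℂ × ℝ => ς q.1 := hς.comp h1
  have hh : ContDiff ℝ ∞ fun q : ℝ × ℂ × ℝ => Glu_h g (ς q.1) (Glu_X q.2.1) :=
    ((contDiff_const.sub hs).mul (hg.comp hX)).add hs
  exact h1.prodMk ((hh.smul h2).prodMk h3)

theorem Glu_P_line {g ς : ℝ → ℝ} (hg : ContDiff ℝ ∞ g) (q : ℝ × ℂ × ℝ) (w : ℂ) :
    HasDerivAt (fun τ : ℝ => Glu_G g (ς q.1) (q.2.1 + τ • w))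
      (((1 - ς q.1) * (deriv g (Glu_X q.2.1) * (2 * (q.2.1.re * w.re + q.2.1.im * w.im)))) • q.2.1 +
        Glu_h g (ς q.1) (Glu_X q.2.1) • w) 0 := by
  obtain ⟨l, v, t⟩ := q
  change HasDerivAt (fun τ : ℝ => Glu_h g (ς l) (Glu_X (v + τ • w)) • (v + τ • w))
    (((1 - ς l) * (deriv g (Glu_X v) * (2 * (v.re * w.re + v.im * w.im)))) • v +
      Glu_h g (ς l) (Glu_X v) • w) 0
  have h1 : HasDerivAt (fun τ : ℝ => v + τ • w) w 0 := by
    have := (hasDerivAt_id (0 : ℝ)).smul_const w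
    simpa using this.const_add v
  have h2 : HasDerivAt (fun τ : ℝ => Glu_X (v + τ • w)) (2 * (v.re * w.re + v.im * w.im)) 0 := by
    have e : (fun τ : ℝ => Glu_X (v + τ • w)) =
        fun τ : ℝ => (v.re + τ * w.re) ^ 2 + (v.im + τ * w.im) ^ 2 := by
      funext τ
      simp [Glu_X]
    rw [e]
    have a1 : HasDerivAt (fun τ : ℝ => v.re + τ * w.re) w.re 0 := by
      have := (hasDerivAt_id (0 : ℝ)).mul_const w.re
      simpa using this.const_add v.re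
    have a2 : HasDerivAt (fun τ : ℝ => v.im + τ * w.im) w.im 0 := by
      have := (hasDerivAt_id (0 : ℝ)).mul_const w.im
      simpa using this.const_add v.im
    have a3 := (a1.pow 2).add (a2.pow 2)
    convert! a3 using 1
    simp
    ring
  have h0 : Glu_X (v + (0 : ℝ) • w) = Glu_X v := by simp
  have h3 : HasDerivAt g (deriv g (Glu_X v)) (Glu_X (v + (0 : ℝ) • w)) := by
    rw [h0]
    exact (hg.differentiable (by simp) _).hasDerivAt
  have h4 : HasDerivAt (fun τ : ℝ => Glu_h g (ς l) (Glu_X (v + τ • w)))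
      ((1 - ς l) * (deriv g (Glu_X v) * (2 * (v.re * w.re + v.im * w.im)))) 0 :=
    ((h3.comp (0 : ℝ) h2).const_mul (1 - ς l)).add_const (ς l)
  have h5 := h4.smul h1
  convert! h5 using 1
  simp [add_comm]

theorem Glu_P_ld {g ς : ℝ → ℝ} {δ ε : ℝ} (hg : GluC g δ ε) (hς : ContDiff ℝ ∞ ς)
    (hς01 : ∀ l, 0 ≤ ς l ∧ ς l ≤ 1) (q : ℝ × ℂ × ℝ) :
    IsLocalDiffeomorphAt 𝓘(ℝ, ℝ × ℂ × ℝ) 𝓘(ℝ, ℝ × ℂ × ℝ) ∞ (Glu_P g ς) q := by
  have hsm := Glu_P_smooth hg.smooth hς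
  refine CSG.ld_of_fderiv (Eventually.of_forall fun y => hsm.contDiffAt) rfl ?_
  rintro ⟨dl, w, dt⟩ h0
  have hF : HasFDerivAt (Glu_P g ς) (fderiv ℝ (Glu_P g ς) q) q :=
    (hsm.differentiable (by simp) q).hasFDerivAt
  have hline : ∀ d : ℝ × ℂ × ℝ, HasDerivAt (fun τ : ℝ => Glu_P g ς (q + τ • d))
      (fderiv ℝ (Glu_P g ς) q d) 0 := by
    intro d
    have h1 : HasDerivAt (fun τ : ℝ => q + τ • d) d 0 := by
      have := (hasDerivAt_id (0 : ℝ)).smul_const d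
      simpa using this.const_add q
    have h2 : HasFDerivAt (Glu_P g ς) (fderiv ℝ (Glu_P g ς) q) (q + (0 : ℝ) • d) := by
      rw [zero_smul, add_zero]
      exact hF
    exact h2.comp_hasDerivAt (0 : ℝ) h1
  have hd := hline (dl, w, dt)
  rw [h0] at hd
  have e1 : dl = 0 := by
    have h3 : HasDerivAt (fun τ : ℝ => (Glu_P g ς (q + τ • (dl, w, dt))).1)
        ((0 : ℝ × ℂ × ℝ).1) 0 :=
      (ContinuousLinearMap.fst ℝ ℝ (ℂ × ℝ)).hasFDerivAt.comp_hasDerivAt (0 : ℝ) hd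
    have h3' : (fun τ : ℝ => (Glu_P g ς (q + τ • (dl, w, dt))).1) =
        fun τ : ℝ => q.1 + τ * dl := by
      funext τ
      simp [Glu_P]
    rw [h3'] at h3
    have h4 : HasDerivAt (fun τ : ℝ => q.1 + τ * dl) dl 0 := by
      have := (hasDerivAt_id (0 : ℝ)).mul_const dl
      simpa using this.const_add q.1
    exact h4.unique h3
  have e2 : dt = 0 := by
    have h3 : HasDerivAt (fun τ : ℝ => (Glu_P g ς (q + τ • (dl, w, dt))).2.2)
        ((0 : ℝ × ℂ × ℝ).2.2) 0 :=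
      ((ContinuousLinearMap.snd ℝ ℂ ℝ).comp
        (ContinuousLinearMap.snd ℝ ℝ (ℂ × ℝ))).hasFDerivAt.comp_hasDerivAt (0 : ℝ) hd
    have h3' : (fun τ : ℝ => (Glu_P g ς (q + τ • (dl, w, dt))).2.2) =
        fun τ : ℝ => q.2.2 + τ * dt := by
      funext τ
      simp [Glu_P]
    rw [h3'] at h3
    have h4 : HasDerivAt (fun τ : ℝ => q.2.2 + τ * dt) dt 0 := by
      have := (hasDerivAt_id (0 : ℝ)).mul_const dt
      simpa using this.const_add q.2.2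
    exact h4.unique h3
  subst e1 e2
  have e3 : HasDerivAt (fun τ : ℝ => Glu_G g (ς q.1) (q.2.1 + τ • w)) 0 0 := by
    have h3 : HasDerivAt (fun τ : ℝ => (Glu_P g ς (q + τ • ((0 : ℝ), w, (0 : ℝ)))).2.1)
        ((0 : ℝ × ℂ × ℝ).2.1) 0 :=
      ((ContinuousLinearMap.fst ℝ ℂ ℝ).comp
        (ContinuousLinearMap.snd ℝ ℝ (ℂ × ℝ))).hasFDerivAt.comp_hasDerivAt (0 : ℝ) hd
    have h5 : (fun τ : ℝ => (Glu_P g ς (q + τ • ((0 : ℝ), w, (0 : ℝ)))).2.1) =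
        fun τ : ℝ => Glu_G g (ς q.1) (q.2.1 + τ • w) := by
      funext τ
      simp [Glu_P]
    rw [h5] at h3
    exact h3
  have e4 := (Glu_P_line (ς := ς) hg.smooth q w).unique e3
  obtain ⟨l, v, t⟩ := q
  change ((1 - ς l) * (deriv g (Glu_X v) * (2 * (v.re * w.re + v.im * w.im)))) • v +
      Glu_h g (ς l) (Glu_X v) • w = 0 at e4
  have r1 := congrArg Complex.re e4
  have r2 := congrArg Complex.im e4
  simp only [Complex.add_re, Complex.add_im, Complex.real_smul, Complex.mul_re, Complex.mul_im,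
    Complex.ofReal_re, Complex.ofReal_im, zero_mul, sub_zero, add_zero, Complex.zero_re,
    Complex.zero_im] at r1 r2
  have hh := Glu_h_pos hg (hς01 l) (Glu_X v)
  have hX : 0 ≤ Glu_X v := by
    unfold Glu_X
    positivity
  have hder := hg.der _ hX
  have key : 0 < (1 - ς l) * (deriv g (Glu_X v) * 2 * Glu_X v) + Glu_h g (ς l) (Glu_X v) := by
    have h6 : (1 - ς l) * (deriv g (Glu_X v) * 2 * Glu_X v) + Glu_h g (ς l) (Glu_X v) =
        (1 - ς l) * (g (Glu_X v) + 2 * Glu_X v * deriv g (Glu_X v)) + ς l := by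
      unfold Glu_h
      ring
    rw [h6]
    rcases eq_or_lt_of_le (hς01 l).2 with h | h
    · rw [h]
      norm_num
    · have := mul_pos (sub_pos.2 h) hder
      linarith [(hς01 l).1]
  have hdot : v.re * w.re + v.im * w.im = 0 := by
    have h7 : ((1 - ς l) * (deriv g (Glu_X v) * 2 * Glu_X v) + Glu_h g (ς l) (Glu_X v)) *
        (v.re * w.re + v.im * w.im) = 0 := by
      have h8 : Glu_X v = v.re * v.re + v.im * v.im := by
        unfold Glu_X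
        ring
      generalize Glu_h g (ς l) (Glu_X v) = H at *
      generalize deriv g (Glu_X v) = D at *
      rw [h8]
      linear_combination v.re * r1 + v.im * r2
    exact (mul_eq_zero.1 h7).resolve_left key.ne'
  rw [hdot] at r1 r2
  have w1 : w.re = 0 := by
    have : Glu_h g (ς l) (Glu_X v) * w.re = 0 := by linarith
    exact (mul_eq_zero.1 this).resolve_left hh.ne'
  have w2 : w.im = 0 := by
    have : Glu_h g (ς l) (Glu_X v) * w.im = 0 := by linarith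
    exact (mul_eq_zero.1 this).resolve_left hh.ne'
  have hw : w = 0 := Complex.ext w1 w2
  rw [hw]
  rfl

section
variable {EP : Type*} [NormedAddCommGroup EP] [NormedSpace ℝ EP] {HP : Type*} [TopologicalSpace HP]
  {IP : ModelWithCorners ℝ EP HP} {P : Type*} [TopologicalSpace P] [ChartedSpace HP P]

theorem Glu_int {α : Type*} {f : ℝ → α} (h : ∀ x, f (x + 1) = f x) (x : ℝ) (m : ℤ) :
    f (x + m) = f x := by
  have h1 : Function.Periodic f 1 := h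
  have h2 := h1.int_mul m x
  rwa [mul_one] at h2

theorem Glu_U {U : Set ℝ} (hU : PerS U) (x : ℝ) (m : ℤ) : x + m ∈ U ↔ x ∈ U := by
  have h : ∀ x, (x + 1 ∈ U) = (x ∈ U) := fun x => propext (hU x)
  exact Eq.to_iff (Glu_int (f := fun x => x ∈ U) h x m)

theorem Glu_tub [T2Space P] {a : ℝ → P → P} (ha : PTH.Act IP a) {κ b : ℝ × ℂ × ℝ → P}
    (hκ : ThickT IP κ) (heqb : Equi a b) (hperb : ∀ l v t, b (l + 1, v, t) = b (l, v, t))
    {U : Set ℝ} (hU : IsOpen U) (hUp : PerS U) {T : Set ℝ} (hT : IsClosed T)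
    (hTp : ∀ l, l + 1 ∈ T ↔ l ∈ T) (hTU : T ⊆ U) {r : ℝ} (hr : 1 < r)
    (hloc : ∀ l ∈ U, ∀ v t, ‖v‖ < r → IsLocalDiffeomorphAt 𝓘(ℝ, ℝ × ℂ × ℝ) IP ∞ b (l, v, t))
    {ε : ℝ} (hε : 0 < ε)
    (hgerm : ∀ l ∈ U, ∀ v t, ‖v‖ ≤ ε → κ (l, v, t) = b (l, v, t))
    (hoff : ∀ l ∈ U, ∀ v t, v ≠ 0 → ‖v‖ < r → ∀ l' t', b (l, v, t) ≠ κ (l', 0, t')) {Fc : Set P}
    (hFc : IsClosed Fc) (hK : ∀ l, l ∉ U → ∀ t, κ (l, 0, t) ∉ Fc) :
    ∃ ε' : ℝ, 0 < ε' ∧ ε' ≤ ε ∧ ε' ≤ 1 ∧ ∀ l', l' ∉ U → ∀ v' t', ‖v'‖ < ε' →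
      κ (l', v', t') ∉ Fc ∧ ∀ l ∈ T, ∀ v t, ‖v‖ ≤ 1 → κ (l', v', t') ≠ b (l, v, t) := by
  have hpb : ∀ l v t, b (l, v, t + 1) = b (l, v, t) := by
    intro l v t
    rw [heqb l v (t + 1), heqb l v t, ha.add, ha.per]
  obtain ⟨S, hS⟩ : ∃ S : Set P, S = b '' ((T ∩ Icc 0 1) ×ˢ (Metric.closedBall (0 : ℂ) 1 ×ˢ Icc (0 : ℝ) 1)) :=
    ⟨_, rfl⟩
  have hSc : IsClosed S := by
    rw [hS]
    apply IsCompact.isClosed
    refine IsCompact.image_of_continuousOn ((isCompact_Icc.inter_left hT).prod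
      ((isCompact_closedBall _ _).prod isCompact_Icc)) ?_
    rintro ⟨l, v, t⟩ ⟨⟨hl, -⟩, hv, -⟩
    rw [mem_closedBall_zero_iff] at hv
    exact (CSG.ld_continuousAt (hloc l (hTU hl) v t (by linarith))).continuousWithinAt
  have hTi : ∀ (x : ℝ) (m : ℤ), x + m ∈ T ↔ x ∈ T := fun x m =>
    Eq.to_iff (Glu_int (f := fun x => x ∈ T) (fun x => propext (hTp x)) x m)
  have hSm : ∀ l ∈ T, ∀ v t, ‖v‖ ≤ 1 → b (l, v, t) ∈ S := by
    intro l hl v t hv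
    rw [hS]
    refine ⟨(Int.fract l, v, Int.fract t), ⟨⟨?_, Int.fract_nonneg _, (Int.fract_lt_one _).le⟩,
      mem_closedBall_zero_iff.2 hv, Int.fract_nonneg _, (Int.fract_lt_one _).le⟩, ?_⟩
    · rw [← hTi (Int.fract l) ⌊l⌋, Int.fract_add_floor]
      exact hl
    · have e1 := Glu_int (f := fun x => b (x, v, Int.fract t)) (fun x => hperb x v _) (Int.fract l) ⌊l⌋
      have e2 := Glu_int (f := fun x => b (l, v, x)) (fun x => hpb l v x) (Int.fract t) ⌊t⌋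
      simp only [Int.fract_add_floor] at e1 e2
      rw [← e1, ← e2]
  have hcore : ∀ l', l' ∉ U → ∀ t', κ (l', 0, t') ∉ S ∪ Fc := by
    rintro l' hl' t' (h | h)
    · rw [hS] at h
      obtain ⟨⟨l, v, t⟩, ⟨⟨hl, -⟩, hv, -⟩, he⟩ := h
      rw [mem_closedBall_zero_iff] at hv
      have hlU := hTU hl
      by_cases hv0 : v = 0
      · subst hv0
        rw [← hgerm l hlU 0 t (by rw [norm_zero]; exact hε.le)] at he
        obtain ⟨-, ⟨m, hm⟩, -⟩ := hκ.inj _ _ _ _ _ _ (by rw [norm_zero]; exact one_pos)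
          (by rw [norm_zero]; exact one_pos) he
        apply hl'
        rw [hm]
        exact (Glu_U hUp l m).2 hlU
      · exact hoff l hlU v t hv0 (by change ‖v‖ < r; linarith) l' t' he
    · exact hK l' hl' t' h
  obtain ⟨W, hW⟩ : ∃ W : Set ((ℝ × ℝ) × ℂ), W = {p | ‖p.2‖ < 1 ∧ κ (p.1.1, p.2, p.1.2) ∉ S ∪ Fc} :=
    ⟨_, rfl⟩
  have hWo : IsOpen W := by
    rw [isOpen_iff_mem_nhds]
    rintro ⟨⟨l, t⟩, v⟩ hp
    rw [hW] at hp
    obtain ⟨h1, h2⟩ := hp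
    have c1 : ContinuousAt (fun p : (ℝ × ℝ) × ℂ => κ (p.1.1, p.2, p.1.2)) ((l, t), v) := by
      have c2 : ContinuousAt κ (l, v, t) := CSG.ld_continuousAt (hκ.loc l v t h1)
      have c3 : ContinuousAt (fun p : (ℝ × ℝ) × ℂ => (p.1.1, p.2, p.1.2)) ((l, t), v) := by
        fun_prop
      exact ContinuousAt.comp (f := fun p : (ℝ × ℝ) × ℂ => (p.1.1, p.2, p.1.2)) c2 c3
    have c4 : ∀ᶠ p : (ℝ × ℝ) × ℂ in 𝓝 ((l, t), v), κ (p.1.1, p.2, p.1.2) ∉ S ∪ Fc :=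
      c1.eventually_mem ((hSc.union hFc).isOpen_compl.mem_nhds h2)
    have c5 : ∀ᶠ p : (ℝ × ℝ) × ℂ in 𝓝 ((l, t), v), ‖p.2‖ < 1 :=
      (continuous_snd.norm).continuousAt.eventually_lt continuousAt_const h1
    rw [hW]
    filter_upwards [c4, c5] with p hp1 hp2 using ⟨hp2, hp1⟩
  obtain ⟨u, v, hu, hv, hsu, htv, huv⟩ := generalized_tube_lemma
    (s := (Uᶜ ∩ Icc (0 : ℝ) 1) ×ˢ Icc (0 : ℝ) 1)
    (((isCompact_Icc.inter_left hU.isClosed_compl)).prod isCompact_Icc) (t := {(0 : ℂ)})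
    isCompact_singleton hWo (by
      rintro ⟨⟨l, t⟩, z⟩ ⟨⟨⟨hl, -⟩, -⟩, hz⟩
      rw [mem_singleton_iff] at hz
      change z = 0 at hz
      rw [hz, hW]
      refine ⟨by change ‖(0 : ℂ)‖ < 1; rw [norm_zero]; exact one_pos, ?_⟩
      exact hcore l hl t)
  obtain ⟨ε₁, hε₁, hball⟩ := Metric.isOpen_iff.1 hv 0 (htv rfl)
  refine ⟨min ε₁ (min ε 1), lt_min hε₁ (lt_min hε one_pos), (min_le_right _ _).trans (min_le_left _ _),
    (min_le_right _ _).trans (min_le_right _ _), ?_⟩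
  intro l' hl' v' t' hv'
  have hin : κ (l', v', t') ∉ S ∪ Fc := by
    have h1 : ((Int.fract l', Int.fract t'), v') ∈ W := by
      apply huv
      refine ⟨hsu ⟨⟨?_, Int.fract_nonneg _, (Int.fract_lt_one _).le⟩, Int.fract_nonneg _,
        (Int.fract_lt_one _).le⟩, hball ?_⟩
      · intro h
        apply hl'
        have := (Glu_U hUp (Int.fract l') ⌊l'⌋).2 h
        rwa [Int.fract_add_floor] at this
      · rw [mem_ball_zero_iff]
        exact lt_of_lt_of_le hv' (min_le_left _ _)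
    rw [hW] at h1
    have h2 := h1.2
    have e1 := Glu_int (f := fun x => κ (x, v', Int.fract t')) (fun x => hκ.perl x v' _)
      (Int.fract l') ⌊l'⌋
    have e2 := Glu_int (f := fun x => κ (l', v', x)) (fun x => hκ.pert l' v' x) (Int.fract t') ⌊t'⌋
    simp only [Int.fract_add_floor] at e1 e2
    rw [e2, e1]
    exact h2
  refine ⟨fun h => hin (Or.inr h), fun l hl v t hv he => hin (Or.inl ?_)⟩
  rw [he]
  exact hSm l hl v t hv

theorem adapt_glue [T2Space P] {a : ℝ → P → P} (ha : PTH.Act IP a) {κ b : ℝ × ℂ × ℝ → P}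
    (hκ : ThickT IP κ) (heq : Equi a κ) (heqb : Equi a b) (hperb : ∀ l v t, b (l + 1, v, t) = b (l, v, t))
    {U : Set ℝ} (hU : IsOpen U) (hUp : PerS U) {ς : ℝ → ℝ} (hς : ContDiff ℝ ∞ ς)
    (hςp : ∀ l, ς (l + 1) = ς l) (hς01 : ∀ l, 0 ≤ ς l ∧ ς l ≤ 1) (hςU : tsupport ς ⊆ U) {r : ℝ}
    (hr : 1 < r)
    (hloc : ∀ l ∈ U, ∀ v t, ‖v‖ < r → IsLocalDiffeomorphAt 𝓘(ℝ, ℝ × ℂ × ℝ) IP ∞ b (l, v, t))
    (hinj : ∀ l ∈ U, ∀ l' ∈ U, ∀ v v' t t', ‖v‖ < r → ‖v'‖ < r → b (l, v, t) = b (l', v', t') →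
      v = v' ∧ (∃ m : ℤ, l' = l + m) ∧ ∃ m : ℤ, t' = t + m) {ε : ℝ} (hε : 0 < ε)
    (hgerm : ∀ l ∈ U, ∀ v t, ‖v‖ ≤ ε → κ (l, v, t) = b (l, v, t))
    (hoff : ∀ l ∈ U, ∀ v t, v ≠ 0 → ‖v‖ < r → ∀ l' t', b (l, v, t) ≠ κ (l', 0, t')) {Fc : Set P}
    (hFc : IsClosed Fc) (hK : ∀ l, l ∉ U → ∀ t, κ (l, 0, t) ∉ Fc) :
    ∃ κ' : ℝ × ℂ × ℝ → P, ThickT IP κ' ∧ Equi a κ' ∧ (∀ l t, κ' (l, 0, t) = κ (l, 0, t)) ∧
      (∀ l v t, ς l = 1 → ‖v‖ < 1 → κ' (l, v, t) = b (l, v, t)) ∧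
      (∀ l ∈ U, ∀ v t, ‖v‖ < 1 → ∃ v', ‖v'‖ < 1 ∧ κ' (l, v, t) = b (l, v', t)) ∧
      (∀ l, l ∉ U → ∀ v t, ‖v‖ < 1 → κ' (l, v, t) ∉ Fc) ∧
      ∀ (X : Type u) [TopologicalSpace X] [ChartedSpace E4 X] (n j : ℤ),
        Nonempty (TwinP IP κ n j X) → Nonempty (TwinP IP κ' n j X) := by
  classical
  have hTper : ∀ l, l + 1 ∈ tsupport ς ↔ l ∈ tsupport ς := by
    intro l
    have h1 : (fun x : ℝ => ς (x + 1)) = ς := funext hςp
    have h2 := tsupport_comp_eq_preimage ς (Homeomorph.addRight (1 : ℝ))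
    have h3 : ς ∘ (Homeomorph.addRight (1 : ℝ)) = ς := h1
    rw [h3] at h2
    constructor
    · intro h
      rw [h2]
      exact h
    · intro h
      rw [h2] at h
      exact h
  obtain ⟨ε', hε', hε'1, hε'2, htub⟩ := Glu_tub ha hκ heqb hperb hU hUp (isClosed_tsupport ς) hTper hςU
    hr hloc hε hgerm hoff hFc hK
  obtain ⟨g, g1, ⟨δ, hδ, g2⟩, g3, g4, g5⟩ := exists_compress hε'
  have hg : GluC g δ ε' := ⟨g1, hδ, g2, g3, g4, g5⟩
  have hς0 : ∀ l, l ∉ tsupport ς → ς l = 0 := fun l hl => image_eq_zero_of_notMem_tsupport hl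
  have hpb : ∀ l v t, b (l, v, t + 1) = b (l, v, t) := by
    intro l v t
    rw [heqb l v (t + 1), heqb l v t, ha.add, ha.per]
  obtain ⟨κ', hκ'⟩ : ∃ κ' : ℝ × ℂ × ℝ → P, κ' = fun q =>
    if q.1 ∈ U then b (Glu_P g ς q) else κ (Glu_P g ς q) := ⟨_, rfl⟩
  have kU : ∀ l ∈ U, ∀ v t, κ' (l, v, t) = b (l, Glu_G g (ς l) v, t) := by
    intro l hl v t
    rw [hκ']
    exact if_pos hl
  have kT : ∀ l, l ∉ tsupport ς → ∀ v t, ‖v‖ < 1 → κ' (l, v, t) = κ (l, Glu_G g (ς l) v, t) := by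
    intro l hl v t hv
    by_cases h : l ∈ U
    · rw [kU l h, hgerm l h]
      rw [hς0 l hl]
      exact (Glu_G_small hg hε' hv).le.trans hε'1
    · rw [hκ']
      exact if_neg h
  have hnT : ∀ l, l ∉ U → l ∉ tsupport ς := fun l hl h => hl (hςU h)
  have hthick : ThickT IP κ' := by
    refine ⟨fun l v t => ?_, fun l v t => ?_, fun l v t hv => ?_, ?_⟩
    · by_cases h : l ∈ U
      · rw [kU _ ((hUp l).2 h), kU _ h, hperb, hςp]
      · have h' : l + 1 ∉ U := fun hh => h ((hUp l).1 hh)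
        rw [hκ']
        simp only [h, h', if_false, Glu_P]
        rw [hςp, hκ.perl]
    · by_cases h : l ∈ U
      · rw [kU _ h, kU _ h, hpb]
      · rw [hκ']
        simp only [h, if_false, Glu_P]
        rw [hκ.pert]
    · by_cases h : l ∈ U
      · have h1 : IsLocalDiffeomorphAt 𝓘(ℝ, ℝ × ℂ × ℝ) IP ∞ (b ∘ Glu_P g ς) (l, v, t) :=
          IsLocalDiffeomorphAt.comp (hf := Glu_P_ld hg hς hς01 (l, v, t))
            (hg := hloc l h _ t (lt_of_le_of_lt (Glu_G_le hg (hς01 l) v) (by linarith)))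
        refine CSG.ld_congr h1 ?_
        have h2 : ∀ᶠ q : ℝ × ℂ × ℝ in 𝓝 (l, v, t), q.1 ∈ U :=
          continuousAt_fst.eventually_mem (hU.mem_nhds h)
        filter_upwards [h2] with q hq
        exact kU q.1 hq q.2.1 q.2.2
      · have h1 : IsLocalDiffeomorphAt 𝓘(ℝ, ℝ × ℂ × ℝ) IP ∞ (κ ∘ Glu_P g ς) (l, v, t) :=
          IsLocalDiffeomorphAt.comp (hf := Glu_P_ld hg hς hς01 (l, v, t))
            (hg := hκ.loc l _ t (lt_of_le_of_lt (Glu_G_le hg (hς01 l) v) hv))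
        refine CSG.ld_congr h1 ?_
        have h2' : (tsupport ς)ᶜ ∈ 𝓝 l := (isClosed_tsupport ς).isOpen_compl.mem_nhds (hnT l h)
        have h2 : ∀ᶠ q : ℝ × ℂ × ℝ in 𝓝 (l, v, t), q.1 ∈ (tsupport ς)ᶜ :=
          (continuousAt_fst (p := ((l, v, t) : ℝ × ℂ × ℝ))).eventually_mem h2'
        have h3 : ∀ᶠ q : ℝ × ℂ × ℝ in 𝓝 (l, v, t), ‖q.2.1‖ < 1 :=
          (continuous_snd.fst.norm).continuousAt.eventually_lt continuousAt_const hv
        filter_upwards [h2, h3] with q hq hq'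
        exact kT q.1 hq q.2.1 q.2.2 hq'
    · intro l v t l' v' t' hv hv' he
      have hn := Glu_G_le hg (hς01 l) v
      have hn' := Glu_G_le hg (hς01 l') v'
      have hfin : ∀ m : ℤ, l' = l + m → Glu_G g (ς l) v = Glu_G g (ς l') v' → v = v' := by
        intro m hm hG
        rw [hm, Glu_int hςp] at hG
        exact Glu_G_inj hg (hς01 l) hG
      by_cases h : l ∈ U <;> by_cases h' : l' ∈ U
      · rw [kU l h, kU l' h'] at he
        obtain ⟨e1, ⟨m, e2⟩, e3⟩ := hinj l h l' h' _ _ _ _ (by linarith) (by linarith) he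
        exact ⟨hfin m e2 e1, ⟨m, e2⟩, e3⟩
      · by_cases hT : l ∈ tsupport ς
        · exfalso
          rw [kU l h, kT l' (hnT l' h') v' t' hv', hς0 l' (hnT l' h')] at he
          exact (htub l' h' _ t' (Glu_G_small hg hε' hv')).2 l hT _ t (by linarith) he.symm
        · exfalso
          rw [kT l hT v t hv, kT l' (hnT l' h') v' t' hv'] at he
          obtain ⟨-, ⟨m, e2⟩, -⟩ := hκ.inj _ _ _ _ _ _ (by linarith) (by linarith) he
          apply h'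
          rw [e2]
          exact (Glu_U hUp l m).2 h
      · by_cases hT : l' ∈ tsupport ς
        · exfalso
          rw [kU l' h', kT l (hnT l h) v t hv, hς0 l (hnT l h)] at he
          exact (htub l h _ t (Glu_G_small hg hε' hv)).2 l' hT _ t' (by linarith) he
        · exfalso
          rw [kT l' hT v' t' hv', kT l (hnT l h) v t hv] at he
          obtain ⟨-, ⟨m, e2⟩, -⟩ := hκ.inj _ _ _ _ _ _ (by linarith) (by linarith) he
          apply h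
          rw [← Glu_U hUp l m, ← e2]
          exact h'
      · rw [kT l (hnT l h) v t hv, kT l' (hnT l' h') v' t' hv'] at he
        obtain ⟨e1, ⟨m, e2⟩, e3⟩ := hκ.inj _ _ _ _ _ _ (by linarith) (by linarith) he
        exact ⟨hfin m e2 e1, ⟨m, e2⟩, e3⟩
  refine ⟨κ', hthick, ?_, ?_, ?_, ?_, ?_, ?_⟩
  · intro l v t
    by_cases h : l ∈ U
    · rw [kU l h, kU l h, heqb]
    · rw [hκ']
      simp only [h, if_false, Glu_P]
      rw [heq]
  · intro l t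
    by_cases h : l ∈ U
    · rw [kU l h, Glu_G_zero, hgerm l h 0 t (by rw [norm_zero]; exact hε.le)]
    · rw [kT l (hnT l h) 0 t (by rw [norm_zero]; exact one_pos), Glu_G_zero]
  · intro l v t h1 hv
    have hl : l ∈ U := by
      apply hςU
      apply subset_tsupport
      rw [Function.mem_support, h1]
      exact one_ne_zero
    rw [kU l hl, h1, Glu_G_top]
  · intro l hl v t hv
    exact ⟨Glu_G g (ς l) v, lt_of_le_of_lt (Glu_G_le hg (hς01 l) v) hv, kU l hl v t⟩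
  · intro l hl v t hv
    rw [kT l (hnT l hl) v t hv, hς0 l (hnT l hl)]
    exact (htub l hl _ t (Glu_G_small hg hε' hv)).1
  · rintro X _ _ n j ⟨D⟩
    have hη : 0 < min (min (Real.sqrt δ) ε) 1 :=
      lt_min (lt_min (Real.sqrt_pos.2 hδ) hε) one_pos
    refine germ hη hκ hthick ?_ D
    intro l v t hv
    have e1 : ‖v‖ < Real.sqrt δ := lt_of_lt_of_le hv ((min_le_left _ _).trans (min_le_left _ _))
    have e2 : ‖v‖ < ε := lt_of_lt_of_le hv ((min_le_left _ _).trans (min_le_right _ _))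
    have e3 : ‖v‖ < 1 := lt_of_lt_of_le hv (min_le_right _ _)
    have e4 : ‖v‖ ^ 2 ≤ δ := by
      have := Real.lt_sqrt (norm_nonneg v) |>.1 e1
      exact this.le
    by_cases h : l ∈ U
    · rw [kU l h, Glu_G_one hg _ e4, hgerm l h v t e2.le]
    · rw [kT l (hnT l h) v t e3, Glu_G_one hg _ e4]

end

end Pool.Agent.COR
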