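import Pool.Agent.COR.Kmv
import Pool.Agent.COR.Ger
import Pool.Agent.SPI.Push
import Pool.Agent.RBM.LdS
import Pool.Agent.RBM.TorP

/-!
# COR/Rep: reparametrisation of a thick torus   (difficulty 2)

`rep`: `H (l, v, t) = (l + χ v (φ l - l), v, t)`, `χ = SPI.cutb (1/8)` (`1` for `‖v‖ ≤ 1/8`, `0` for `‖v‖ ≥ 1/4`).  For each `v`, `l ↦ (1 - χ v) l + χ v φ l` is strictly increasing
(derivative `(1 - χ) + χ φ' > 0`) and a bijection of `ℝ` (it commutes with `l ↦ l + 1`, continuous: unbounded on both sides).  Smooth inverse: the derivative is injective, `CSG.ld_of_fderiv`,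
and a bijective local diffeomorphism has a smooth inverse (or `CSG.smooth_symm_of_family`-like; note that the parameter `v` is in `ℂ`).
`kap_move` (`R = 1/4`) gives `F`; `COR.TwinP_diffeo` gives a `TwinP` for `F ∘ κ`, and `F ∘ κ` and `κ (φ l, v, t)` agree for `‖v‖ < 1/8`: `COR.germ`
(`ThickT_diffeo` for `F ∘ κ`, `thick_rep` for the other one).
* `thick_rep`: `loc` by composition with the local diffeomorphism `(l, v, t) ↦ (φ l, v, t)` (`CSG.ld_of_fderiv`), `inj`: `φ l' = φ l + m = φ (l + m)` and `φ` is injective.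
-/

open scoped Manifold ContDiff Topology
open Set Filter
open Complex (I)
open Pool.Agent.RSG (E4 S4 ex c1 c2 ht fh)

namespace Pool.Agent.COR

open Pool.Agent.RBM (ThickT TwinP OnT)

universe u

theorem Rep_ld {f : ℝ × ℂ × ℝ → ℝ} (hf : ContDiff ℝ ∞ f)
    (hd : ∀ (l : ℝ) (v : ℂ) (t : ℝ), 0 < deriv (fun x => f (x, v, t)) l) (q : ℝ × ℂ × ℝ) :
    IsLocalDiffeomorphAt 𝓘(ℝ, ℝ × ℂ × ℝ) 𝓘(ℝ, ℝ × ℂ × ℝ) ∞ (fun q : ℝ × ℂ × ℝ => (f q, q.2)) q := by
  have hs : ContDiff ℝ ∞ (fun q : ℝ × ℂ × ℝ => (f q, q.2)) := hf.prodMk contDiff_snd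
  refine Pool.Agent.CSG.ld_of_fderiv (Eventually.of_forall fun y => hs.contDiffAt) rfl ?_
  intro w hw
  obtain ⟨l, v, t⟩ := q
  have h1 : HasFDerivAt f (fderiv ℝ f (l, v, t)) (l, v, t) :=
    (hf.differentiable (by simp) _).hasFDerivAt
  have h2 : HasFDerivAt (fun q : ℝ × ℂ × ℝ => (f q, q.2))
      ((fderiv ℝ f (l, v, t)).prod (ContinuousLinearMap.snd ℝ ℝ (ℂ × ℝ))) (l, v, t) :=
    h1.prodMk hasFDerivAt_snd
  rw [h2.fderiv] at hw
  have e1 : fderiv ℝ f (l, v, t) w = 0 := congrArg Prod.fst hw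
  have e2 : w.2 = 0 := congrArg Prod.snd hw
  have h3 : HasDerivAt (fun x : ℝ => (x, v, t)) ((1 : ℝ), (0 : ℂ × ℝ)) l :=
    (hasDerivAt_id l).prodMk (hasDerivAt_const l (v, t))
  have h4 : HasDerivAt (fun x : ℝ => f (x, v, t)) (fderiv ℝ f (l, v, t) ((1 : ℝ), (0 : ℂ × ℝ))) l :=
    HasFDerivAt.comp_hasDerivAt l h1 h3
  have h5 := hd l v t
  rw [h4.deriv] at h5
  have h6 : w = w.1 • ((1 : ℝ), (0 : ℂ × ℝ)) := by
    ext
    · simp
    · simp [e2]
    · simp [e2]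
  rw [h6, map_smul, smul_eq_mul] at e1
  rcases mul_eq_zero.mp e1 with h7 | h7
  · rw [h6, h7, zero_smul]
  · exact absurd h7 h5.ne'

theorem Rep_int {φ : ℝ → ℝ} (hφ1 : ∀ l, φ (l + 1) = φ l + 1) (l : ℝ) (m : ℤ) :
    φ (l + m) = φ l + m := by
  have h := Pool.Agent.RBM.TorP_per (f := fun x => φ x - x)
    (fun x => by simp only [hφ1]; ring) l m
  linarith

section
variable {EP : Type*} [NormedAddCommGroup EP] [NormedSpace ℝ EP] {HP : Type*} [TopologicalSpace HP]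
  {IP : ModelWithCorners ℝ EP HP} {P : Type*} [TopologicalSpace P] [ChartedSpace HP P]
  {κ : ℝ × ℂ × ℝ → P}

theorem thick_rep (hκ : ThickT IP κ) {φ : ℝ → ℝ} (hφ : ContDiff ℝ ∞ φ)
    (hφ1 : ∀ l, φ (l + 1) = φ l + 1) (hφ' : ∀ l, 0 < deriv φ l) :
    ThickT IP (fun q => κ (φ q.1, q.2)) := by
  refine ⟨?_, ?_, ?_, ?_⟩
  · intro l v t
    show κ (φ (l + 1), v, t) = κ (φ l, v, t)
    rw [hφ1, hκ.perl]
  · intro l v t
    exact hκ.pert (φ l) v t
  · intro l v t hv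
    have h1 : IsLocalDiffeomorphAt 𝓘(ℝ, ℝ × ℂ × ℝ) 𝓘(ℝ, ℝ × ℂ × ℝ) ∞
        (fun q : ℝ × ℂ × ℝ => (φ q.1, q.2)) (l, v, t) :=
      Rep_ld (f := fun q => φ q.1) (hφ.comp contDiff_fst) (fun l v t => hφ' l) (l, v, t)
    exact IsLocalDiffeomorphAt.comp (hf := h1) (hg := hκ.loc (φ l) v t hv)
  · intro l v t l' v' t' hv hv' he
    obtain ⟨e1, ⟨m, e2⟩, e3⟩ := hκ.inj (φ l) v t (φ l') v' t' hv hv' he
    refine ⟨e1, ⟨m, ?_⟩, e3⟩
    rw [← Rep_int hφ1] at e2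
    exact (strictMono_of_deriv_pos hφ').injective e2

theorem rep [T2Space P] (hκ : ThickT IP κ) {φ : ℝ → ℝ} (hφ : ContDiff ℝ ∞ φ)
    (hφ1 : ∀ l, φ (l + 1) = φ l + 1) (hφ' : ∀ l, 0 < deriv φ l) {X : Type u} [TopologicalSpace X]
    [ChartedSpace E4 X] {n j : ℤ} (D : TwinP IP κ n j X) :
    Nonempty (TwinP IP (fun q => κ (φ q.1, q.2)) n j X) := by
  obtain ⟨χ, hχ⟩ : ∃ χ : ℂ → ℝ, χ = SPI.cutb (1 / 8) := ⟨_, rfl⟩
  have hχs : ContDiff ℝ ∞ χ := by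
    rw [hχ]
    exact SPI.cutb_smooth (1 / 8)
  have hχ0 : ∀ v, 0 ≤ χ v := fun v => by rw [hχ]; exact SPI.cutb_nonneg _ _
  have hχ1 : ∀ v, χ v ≤ 1 := fun v => by rw [hχ]; exact SPI.cutb_le_one _ _
  have hχin : ∀ v, ‖v‖ < 1 / 8 → χ v = 1 := fun v hv => by
    rw [hχ]
    exact SPI.cutb_one (by norm_num) hv.le
  have hχout : ∀ v, 1 / 4 ≤ ‖v‖ → χ v = 0 := fun v hv => by
    rw [hχ]
    exact SPI.cutb_zero (by norm_num) (by linarith)
  obtain ⟨g, hg⟩ : ∃ g : ℂ → ℝ → ℝ, g = fun v l => l + χ v * (φ l - l) := ⟨_, rfl⟩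
  have hdφ : ∀ l, HasDerivAt φ (deriv φ l) l := fun l =>
    (hφ.differentiable (by simp) l).hasDerivAt
  have hgd : ∀ v l, HasDerivAt (g v) (1 + χ v * (deriv φ l - 1)) l := by
    intro v l
    rw [hg]
    exact (hasDerivAt_id l).add (((hdφ l).sub (hasDerivAt_id l)).const_mul (χ v))
  have hgpos : ∀ v l, 0 < deriv (g v) l := by
    intro v l
    rw [(hgd v l).deriv]
    have h0 := hχ0 v
    have h1 := hχ1 v
    have h2 := hφ' l
    rcases h0.eq_or_lt with h3 | h3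
    · rw [← h3]
      norm_num
    · have h4 := mul_pos h3 h2
      have : 1 + χ v * (deriv φ l - 1) = (1 - χ v) + χ v * deriv φ l := by ring
      rw [this]
      linarith
  have hgm : ∀ v, StrictMono (g v) := fun v => strictMono_of_deriv_pos (hgpos v)
  have hgc : ∀ v, Continuous (g v) := fun v =>
    continuous_iff_continuousAt.2 fun l => (hgd v l).continuousAt
  have hg1 : ∀ v l, g v (l + 1) = g v l + 1 := by
    intro v l
    rw [hg]
    simp only [hφ1]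
    ring
  have hgs : ∀ v y, ∃ l, g v l = y := by
    intro v y
    obtain ⟨N, hN⟩ := exists_nat_ge (|y - g v 0|)
    have hN2 := abs_le.mp hN
    have e1 := Rep_int (hg1 v) 0 (N : ℤ)
    have e2 := Rep_int (hg1 v) 0 (-(N : ℤ))
    push_cast at e1 e2
    have := mem_range_of_exists_le_of_exists_ge (hgc v) (c := y)
      ⟨0 + -(N : ℝ), by rw [e2]; linarith [hN2.1]⟩ ⟨0 + (N : ℝ), by rw [e1]; linarith [hN2.2]⟩
    exact this
  have hbij : Function.Bijective (fun q : ℝ × ℂ × ℝ => (g q.2.1 q.1, q.2)) := by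
    constructor
    · rintro ⟨l, v, t⟩ ⟨l', v', t'⟩ h
      simp only [Prod.mk.injEq] at h
      obtain ⟨h1, rfl, rfl⟩ := h
      rw [(hgm v).injective h1]
    · rintro ⟨y, v, t⟩
      obtain ⟨l, hl⟩ := hgs v y
      exact ⟨(l, v, t), by simp only [hl]⟩
  obtain ⟨H, hH⟩ : ∃ H : Equiv.Perm (ℝ × ℂ × ℝ), ∀ q, H q = (g q.2.1 q.1, q.2) :=
    ⟨Equiv.ofBijective _ hbij, fun q => rfl⟩
  have hHf : (H : ℝ × ℂ × ℝ → ℝ × ℂ × ℝ) = fun q => (g q.2.1 q.1, q.2) := funext hH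
  have hfs : ContDiff ℝ ∞ fun q : ℝ × ℂ × ℝ => g q.2.1 q.1 := by
    rw [hg]
    have a1 : ContDiff ℝ ∞ fun q : ℝ × ℂ × ℝ => χ q.2.1 := hχs.comp (contDiff_fst.comp contDiff_snd)
    have a2 : ContDiff ℝ ∞ fun q : ℝ × ℂ × ℝ => φ q.1 := hφ.comp contDiff_fst
    exact contDiff_fst.add (a1.mul (a2.sub contDiff_fst))
  have hHs : ContDiff ℝ ∞ H := by
    rw [hHf]
    exact hfs.prodMk contDiff_snd
  have hHld : ∀ q, IsLocalDiffeomorphAt 𝓘(ℝ, ℝ × ℂ × ℝ) 𝓘(ℝ, ℝ × ℂ × ℝ) ∞ H q := by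
    intro q
    rw [hHf]
    exact Rep_ld hfs (fun l v t => hgpos v l) q
  have hHs' : ContDiff ℝ ∞ H.symm := by
    rw [contDiff_iff_contDiffAt]
    intro y
    have h1 := Pool.Agent.RBM.ld_symm (hHld (H.symm y))
    rw [Equiv.apply_symm_apply] at h1
    exact h1.contMDiffAt.contDiffAt
  obtain ⟨F, hF, hFκ, -, -⟩ := kap_move hκ hHs hHs'
    (by
      intro l v t
      rw [hH, hH]
      show (g v (l + 1), v, t) = _
      rw [hg1]
      simp)
    (by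
      intro l v t u
      rw [hH, hH]
      simp) (R := 1 / 4) (by norm_num)
    (by
      intro l v t hv
      rw [hH]
      show (g v l, v, t) = _
      rw [hg]
      simp only [hχout v hv]
      simp)
  obtain ⟨D'⟩ := TwinP_diffeo F hF D
  refine germ (η := 1 / 8) (by norm_num) (ThickT_diffeo F hF hκ) (thick_rep hκ hφ hφ1 hφ') ?_ D'
  intro l v t hv
  show κ (φ l, v, t) = F (κ (l, v, t))
  rw [hFκ l v t (by linarith), hH]
  show _ = κ (g v l, v, t)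
  rw [hg]
  simp only [hχin v hv, one_mul, add_sub_cancel]

end

end Pool.Agent.COR
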