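import Pool.Agent.COR.AdA
import Pool.Agent.COR.Glu
import Pool.Agent.COR.Coh
import Pool.Agent.COR.Rep
import Pool.Agent.RSG.ExM

/-!
# COR/Bnd: from the core to a bundle   (difficulty 3)

`Win l`: `l` is in one of the windows `|l - 1/4 - k| < 1/16`, `|l - 3/4 - k| < 1/16` (as in `RBM.Bundle`).

Proof of `exists_bundle`.  Let `κ₀, j` be given by `hK`.  `exists_phi` gives `φ`; `κ₁ (l, v, t) = κ₀ (φ l, v, t)` (`thick_rep`, `rep`), core `K ∘ φ`; for `|u| < 3/32`: `κ₁ (1/4 + u, 0, 0) = b (1, 8 ε₁ u, 0) = strand b ε₁ 1 8 (1/4) (1/4 + u, 0, 0)`,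
similarly at `3/4` with `-1`.  `coherent` (`w = 8`) gives `σ`; put `b' = refl σ b`, `B₁ = strand b' ε₁ 1 8 (1/4)`, `B₂ = strand b' ε₂ (-1) 8 (3/4)` (note `cj σ 1 = 1`).
`adapt_arc` with `c = 1/4`, `h = 11/128`, `h' = 3/32`, `l₀ = 1/4`, gives `κ₂`; `adapt_arc` for `κ₂`, `B₂`, `c = 3/4` (`PosAt κ₂ B₂ (3/4)` follows from `PosAt κ₁ B₂ (3/4)`, as `κ₂ = κ₁` for `l` near `3/4`, `‖v‖ < 1`), gives `κ₃`, which
equals `B₁`, `B₂` on the arcs `|l - c| ≤ 11/128` for small `‖v‖` (`κ₃ = κ₂` near the first arc).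
`adapt_glue` with `U = {l | ∃ k : ℤ, |l - 1/4 - k| < 11/128 ∨ |l - 3/4 - k| < 11/128}`, `B (l, v, t) = B₁ (l - k, v, t)` or `B₂ (l - k, v, t)` accordingly (and arbitrary elsewhere, e.g. `B₁` of `l - round (l - 1/4)` if `|l - 1/4 - round (l - 1/4)| ≤ 1/4`,
`B₂` of `l - round (l - 3/4)` otherwise), `ς` a smooth periodic cutoff with `ς = 1` on the windows and support in `U` (e.g. `ς l = stp (cos (4π h₂)) (cos (4π h₁)) (cos (4π (l - 1/4)))`, `h₁ = 1/16`, `h₂ = 5/64`: `cos (4π (l - 1/4))` is large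
exactly near `1/4 + Z/2`), `r = 3/2`, `Fc' = Fc ∪ b ({‖z‖ ≤ 4, |s| ≤ 1/2})` (closed, `t` modulo 1).  Hypotheses: `hinj`: `b` is injective for `‖z‖ < 5`, `|s| < 1`, the two strands `±1 + v/2` are disjoint for `‖v‖ < 2`; `hoff`: if
`B (l, v, t) = κ (l', 0, t')` then, moving by the action, the point `K (φ l')` lies in the box, so `l'` is in a window of `φ` and (`TwoStrands.strand`, `off`; every `x` is modulo `1` in one of the four intervals `[f₁ (-1), f₁ 1]`, `[f₁ 1, f₂ (-1)]`, ..)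
the point is `b (±1, ..)`, so `v = 0`; `hK`: `hF` and `off` (`φ l` for `l ∉ U` lies, modulo `1`, in `[f₁ (11/16), f₂ (-11/16)] ∪ [f₂ (11/16), f₁ (-11/16) + 1]`; for the box part: on the strands `|s| ≥ 11/16 > 1/2`).
Result `κ'`.  `Bundle`: `box` of `fun q => b' (q.1, q.2.1 / 2, q.2.2)` with radius `4`; `strand₁`: `B₁ (1/4 + l, v, t) = b' (1 + cj ε₁ v / 2, 8 ε₁ l, t)`; `rest`: for `l ∈ U` not in a window `κ' = b' (.., s, ..)` with `|s| ≥ 1/2`; for `l ∉ U` by the choice of `Fc'`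
(`refl σ` preserves `‖z‖`).
-/

open scoped Manifold ContDiff Topology
open Set Filter
open Complex (I)
open Pool.Agent.RSG (E4 S3 cj)

namespace Pool.Agent.COR

open Pool.Agent.RBM (ThickT TwinP OnT Box Bundle)

universe u

/-- outside the windows -/
def OutW (l : ℝ) : Prop := ∀ k : ℤ, 1 / 16 ≤ |l - 1 / 4 - k| ∧ 1 / 16 ≤ |l - 3 / 4 - k|

/-- the box `b`, restricted to `|s| < 1/2` and reflected if `σ = -1` -/
noncomputable def half {P : Type*} (σ : ℝ) (b : ℂ × ℝ × ℝ → P) (q : ℂ × ℝ × ℝ) : P :=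
  b (cj σ q.1, q.2.1 / 2, q.2.2)

/-! ### affine maps -/

/-- the affine map of the strand -/
noncomputable def Bnd_g (σ ε δ w c : ℝ) (q : ℝ × ℂ × ℝ) : ℂ × ℝ × ℝ :=
  (cj σ (δ + cj ε q.2.1 / 2), ε * (w * (q.1 - c)), q.2.2)

theorem Bnd_strand {P : Type*} (b : ℂ × ℝ × ℝ → P) (σ ε δ w c : ℝ) :
    strand (refl σ b) ε δ w c = fun q => b (Bnd_g σ ε δ w c q) := rfl

theorem Bnd_sq {ε : ℝ} (h : ε = 1 ∨ ε = -1) : ε * ε = 1 := by
  rcases h with rfl | rfl <;> norm_num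

theorem Bnd_abs {ε : ℝ} (h : ε = 1 ∨ ε = -1) : |ε| = 1 := by
  rcases h with rfl | rfl <;> norm_num

theorem Bnd_g_ld {σ ε w : ℝ} (hσ : σ = 1 ∨ σ = -1) (hε : ε = 1 ∨ ε = -1) (hw : 0 < w) (δ c : ℝ)
    (q : ℝ × ℂ × ℝ) :
    IsLocalDiffeomorphAt 𝓘(ℝ, ℝ × ℂ × ℝ) 𝓘(ℝ, ℂ × ℝ × ℝ) ∞ (Bnd_g σ ε δ w c) q := by
  have hε2 := Bnd_sq hε
  have hc1 := RSG.cj_smooth σ
  have hc2 := RSG.cj_smooth ε
  have s1 : ContDiff ℝ ∞ (Bnd_g σ ε δ w c) := by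
    unfold Bnd_g
    fun_prop
  let g' : ℂ × ℝ × ℝ → ℝ × ℂ × ℝ := fun q =>
    (c + ε * q.2.1 / w, 2 * cj ε (cj σ q.1 - δ), q.2.2)
  have s2 : ContDiff ℝ ∞ g' := by
    unfold g'
    fun_prop
  refine RSG.ld_two (Eventually.of_forall fun y => s1.contMDiff y)
    (Eventually.of_forall fun y => s2.contMDiff y) (Eventually.of_forall fun y => ?_)
    (Eventually.of_forall fun y => ?_)
  · obtain ⟨l, v, t⟩ := y
    simp only [g', Bnd_g]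
    rw [RSG.cj_cj hσ, add_sub_cancel_left]
    refine Prod.ext ?_ (Prod.ext ?_ rfl)
    · simp only
      have e1 : ε * (ε * (w * (l - c))) = w * (l - c) := by rw [← mul_assoc, hε2, one_mul]
      rw [e1, mul_div_cancel_left₀ _ hw.ne']
      ring
    · simp only
      have : cj ε v / 2 = ((1 / 2 : ℝ) : ℂ) * cj ε v := by push_cast; ring
      rw [this, RSG.cj_real_mul, RSG.cj_cj hε]
      push_cast
      ring
  · obtain ⟨z, s, t⟩ := y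
    simp only [g', Bnd_g]
    refine Prod.ext ?_ (Prod.ext ?_ rfl)
    · simp only
      have : (2 : ℂ) * cj ε (cj σ z - δ) = ((2 : ℝ) : ℂ) * cj ε (cj σ z - δ) := by push_cast; ring
      rw [this, RSG.cj_real_mul, RSG.cj_cj hε]
      push_cast
      rw [mul_div_cancel_left₀ _ (by norm_num), add_sub_cancel, RSG.cj_cj hσ]
    · simp only
      have e1 : w * (c + ε * s / w - c) = ε * s := by
        rw [add_sub_cancel_left, mul_div_cancel₀ _ hw.ne']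
      rw [e1, ← mul_assoc, hε2, one_mul]

theorem Bnd_norm {σ ε : ℝ} (hσ : σ = 1 ∨ σ = -1) (hε : ε = 1 ∨ ε = -1) {δ : ℝ}
    (hδ : |δ| ≤ 1) (v : ℂ) : ‖cj σ (δ + cj ε v / 2)‖ ≤ 1 + ‖v‖ / 2 := by
  rw [RSG.cj_norm hσ]
  refine (norm_add_le _ _).trans ?_
  rw [norm_div, RSG.cj_norm hε]
  simp only [Complex.norm_real, Real.norm_eq_abs, Complex.norm_ofNat]
  linarith

/-! ### integer translations -/

theorem Bnd_int {P : Type*} {f : ℝ → P} (h : ∀ l, f (l + 1) = f l) (l : ℝ) (m : ℤ) :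
    f (l + m) = f l := by
  have : Function.Periodic f 1 := h
  simpa using this.int_mul m l

theorem Bnd_round {x : ℝ} {k : ℤ} (h : |x - k| < 1 / 2) : round x = k := by
  rw [round_eq_iff]
  rw [abs_lt] at h
  constructor <;> linarith [h.1, h.2]

/-! ### the open set `U` -/

/-- the arcs -/
def Bnd_U : Set ℝ := {l | ∃ k : ℤ, |l - 1 / 4 - k| < 11 / 128 ∨ |l - 3 / 4 - k| < 11 / 128}

theorem Bnd_U_open : IsOpen Bnd_U := by
  have : Bnd_U = ⋃ k : ℤ, ({l : ℝ | |l - 1 / 4 - k| < 11 / 128} ∪ {l : ℝ | |l - 3 / 4 - k| < 11 / 128}) := by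
    ext l
    simp [Bnd_U]
  rw [this]
  refine isOpen_iUnion fun k => IsOpen.union ?_ ?_
  · exact isOpen_lt (by fun_prop) continuous_const
  · exact isOpen_lt (by fun_prop) continuous_const

theorem Bnd_U_per : PerS Bnd_U := by
  intro l
  constructor
  · rintro ⟨k, hk⟩
    refine ⟨k - 1, ?_⟩
    push_cast
    have e1 : l - 1 / 4 - (k - 1) = l + 1 - 1 / 4 - k := by ring
    have e2 : l - 3 / 4 - (k - 1) = l + 1 - 3 / 4 - k := by ring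
    rw [e1, e2]
    exact hk
  · rintro ⟨k, hk⟩
    refine ⟨k + 1, ?_⟩
    push_cast
    have e1 : l + 1 - 1 / 4 - (k + 1) = l - 1 / 4 - k := by ring
    have e2 : l + 1 - 3 / 4 - (k + 1) = l - 3 / 4 - k := by ring
    rw [e1, e2]
    exact hk

/-! ### the cutoff -/

/-- the cutoff -/
noncomputable def Bnd_s (l : ℝ) : ℝ :=
  CSG.stp (Real.cos (4 * Real.pi * (5 / 64))) (Real.cos (4 * Real.pi * (1 / 16)))
    (Real.cos (4 * Real.pi * (l - 1 / 4)))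

theorem Bnd_coslt : Real.cos (4 * Real.pi * (5 / 64)) < Real.cos (4 * Real.pi * (1 / 16)) := by
  have := Real.pi_pos
  apply Real.cos_lt_cos_of_nonneg_of_le_pi <;> nlinarith

theorem Bnd_s_smooth : ContDiff ℝ ∞ Bnd_s := by
  unfold Bnd_s
  have h1 := CSG.stp_smooth (Real.cos (4 * Real.pi * (5 / 64))) (Real.cos (4 * Real.pi * (1 / 16)))
  exact h1.comp (Real.contDiff_cos.comp (by fun_prop))

theorem Bnd_cos (l : ℝ) (k : ℤ) : Real.cos (4 * Real.pi * (l - 1 / 4)) =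
    Real.cos (4 * Real.pi * (l - 1 / 4 - k)) ∧ Real.cos (4 * Real.pi * (l - 1 / 4)) =
    Real.cos (4 * Real.pi * (l - 3 / 4 - k)) := by
  constructor
  · have : 4 * Real.pi * (l - 1 / 4) = 4 * Real.pi * (l - 1 / 4 - k) + (2 * k : ℤ) * (2 * Real.pi) := by
      push_cast; ring
    rw [this, Real.cos_add_int_mul_two_pi]
  · have : 4 * Real.pi * (l - 1 / 4) = 4 * Real.pi * (l - 3 / 4 - k) +
        (2 * k + 1 : ℤ) * (2 * Real.pi) := by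
      push_cast; ring
    rw [this, Real.cos_add_int_mul_two_pi]

theorem Bnd_s_per (l : ℝ) : Bnd_s (l + 1) = Bnd_s l := by
  unfold Bnd_s
  rw [(Bnd_cos (l + 1) 1).1]
  push_cast
  congr 3
  ring

/-- every `l` has one of the two distances at most `1/4` -/
theorem Bnd_near (l : ℝ) : ∃ k : ℤ, |l - 1 / 4 - k| ≤ 1 / 4 ∨ |l - 3 / 4 - k| ≤ 1 / 4 := by
  rcases le_total |l - 1 / 4 - round (l - 1 / 4)| (1 / 4) with h | h
  · exact ⟨round (l - 1 / 4), Or.inl h⟩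
  · have h2 := abs_sub_round (l - 1 / 4)
    rcases le_total 0 (l - 1 / 4 - round (l - 1 / 4)) with h3 | h3
    · refine ⟨round (l - 1 / 4), Or.inr ?_⟩
      rw [abs_of_nonneg h3] at h h2
      rw [abs_le]
      constructor <;> linarith
    · refine ⟨round (l - 1 / 4) - 1, Or.inr ?_⟩
      rw [abs_of_nonpos h3] at h h2
      push_cast
      rw [abs_le]
      constructor <;> linarith

theorem Bnd_cos_one {x : ℝ} (h : |x| ≤ 1 / 16) :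
    Real.cos (4 * Real.pi * (1 / 16)) ≤ Real.cos (4 * Real.pi * x) := by
  have := Real.pi_pos
  rw [← Real.cos_abs (4 * Real.pi * x), abs_mul, abs_of_pos (by positivity : 0 < 4 * Real.pi)]
  apply Real.cos_le_cos_of_nonneg_of_le_pi
  · positivity
  · nlinarith
  · nlinarith

theorem Bnd_cos_zero {x : ℝ} (h : |x| ≤ 1 / 4) (h2 : 5 / 64 ≤ |x|) :
    Real.cos (4 * Real.pi * x) ≤ Real.cos (4 * Real.pi * (5 / 64)) := by
  have := Real.pi_pos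
  rw [← Real.cos_abs (4 * Real.pi * x), abs_mul, abs_of_pos (by positivity : 0 < 4 * Real.pi)]
  apply Real.cos_le_cos_of_nonneg_of_le_pi
  · positivity
  · nlinarith
  · nlinarith

theorem Bnd_s_one {l : ℝ} (h : ∃ k : ℤ, |l - 1 / 4 - k| ≤ 1 / 16 ∨ |l - 3 / 4 - k| ≤ 1 / 16) :
    Bnd_s l = 1 := by
  unfold Bnd_s
  apply CSG.stp_one Bnd_coslt
  obtain ⟨k, hk | hk⟩ := h
  · rw [(Bnd_cos l k).1]
    exact Bnd_cos_one hk
  · rw [(Bnd_cos l k).2]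
    exact Bnd_cos_one hk

/-- the closed support -/
def Bnd_T : Set ℝ := {l | Real.cos (4 * Real.pi * (5 / 64)) ≤ Real.cos (4 * Real.pi * (l - 1 / 4))}

theorem Bnd_T_sub : Bnd_T ⊆ Bnd_U := by
  intro l hl
  have := Real.pi_pos
  have hlt : Real.cos (4 * Real.pi * (11 / 128)) < Real.cos (4 * Real.pi * (5 / 64)) := by
    apply Real.cos_lt_cos_of_nonneg_of_le_pi <;> nlinarith
  have key : ∀ x : ℝ, |x| ≤ 1 / 4 → Real.cos (4 * Real.pi * (5 / 64)) ≤ Real.cos (4 * Real.pi * x) →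
      |x| < 11 / 128 := by
    intro x hx h1
    by_contra h2
    push Not at h2
    have h3 : Real.cos (4 * Real.pi * x) ≤ Real.cos (4 * Real.pi * (11 / 128)) := by
      rw [← Real.cos_abs (4 * Real.pi * x), abs_mul, abs_of_pos (by positivity : 0 < 4 * Real.pi)]
      apply Real.cos_le_cos_of_nonneg_of_le_pi
      · positivity
      · nlinarith
      · nlinarith
    linarith
  have hl' : Real.cos (4 * Real.pi * (5 / 64)) ≤ Real.cos (4 * Real.pi * (l - 1 / 4)) := hl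
  obtain ⟨k, hk | hk⟩ := Bnd_near l
  · rw [(Bnd_cos l k).1] at hl'
    exact ⟨k, Or.inl (key _ hk hl')⟩
  · rw [(Bnd_cos l k).2] at hl'
    exact ⟨k, Or.inr (key _ hk hl')⟩

theorem Bnd_tsupp : tsupport Bnd_s ⊆ Bnd_U := by
  refine Set.Subset.trans ?_ Bnd_T_sub
  apply closure_minimal
  · intro l hl
    by_contra h
    apply hl
    unfold Bnd_s
    apply CSG.stp_zero Bnd_coslt
    have : ¬ (Real.cos (4 * Real.pi * (5 / 64)) ≤ Real.cos (4 * Real.pi * (l - 1 / 4))) := h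
    push Not at this
    exact this.le
  · exact isClosed_le continuous_const (by fun_prop)


/-! ### the curve in the box -/

section
variable {EP : Type*} [NormedAddCommGroup EP] [NormedSpace ℝ EP] {HP : Type*} [TopologicalSpace HP]
  {IP : ModelWithCorners ℝ EP HP} {P : Type*} [TopologicalSpace P] [ChartedSpace HP P]

theorem Bnd_where {b : ℂ × ℝ × ℝ → P} (hb : Box IP b 5) {K : ℝ → P} {f₁ f₂ : ℝ → ℝ} {ε₁ ε₂ : ℝ}
    (hs : TwoStrands b K f₁ f₂ ε₁ ε₂) (hK : ∀ l, K (l + 1) = K l) {x : ℝ} {z : ℂ} {s t : ℝ}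
    (hz : ‖z‖ < 5) (hs1 : |s| < 1) (h : K x = b (z, s, t)) :
    ∃ (m : ℤ) (u : ℝ), |u| < 1 ∧ |s| = |u| ∧
      ((z = 1 ∧ x = f₁ u + m) ∨ (z = -1 ∧ x = f₂ u + m)) := by
  obtain ⟨y, m, hy, hy1, hy2⟩ : ∃ (y : ℝ) (m : ℤ), x = y + m ∧ f₁ (-1) < y ∧ y ≤ f₁ (-1) + 1 := by
    refine ⟨x - ⌈x - (f₁ (-1) + 1)⌉, ⌈x - (f₁ (-1) + 1)⌉, by ring, ?_, ?_⟩
    · have := Int.ceil_lt_add_one (x - (f₁ (-1) + 1))
      linarith
    · have := Int.le_ceil (x - (f₁ (-1) + 1))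
      linarith
  have hKy : K y = b (z, s, t) := by
    rw [← h, hy]
    exact (Bnd_int hK y m).symm
  rcases lt_or_ge y (f₁ 1) with h1 | h1
  · obtain ⟨u, hu, hu2⟩ := intermediate_value_Ioo (by norm_num : (-1 : ℝ) ≤ 1)
      hs.smooth₁.continuous.continuousOn ⟨hy1, h1⟩
    have hu1 : |u| < 1 := abs_lt.2 hu
    have h2 := hs.strand₁ u hu1
    rw [hu2, hKy] at h2
    have h3 := hb.inj z s t 1 (ε₁ * u) 0 hz hs1 (by norm_num)
      (by rw [abs_mul, Bnd_abs hs.sign₁, one_mul]; exact hu1) h2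
    refine ⟨m, u, hu1, ?_, Or.inl ⟨h3.1, by rw [hy, hu2]⟩⟩
    rw [h3.2.1, abs_mul, Bnd_abs hs.sign₁, one_mul]
  rcases le_or_gt y (f₂ (-1)) with h2 | h2
  · exact absurd hKy (hs.off y (Or.inl ⟨h1, h2⟩) z s t hz hs1)
  rcases lt_or_ge y (f₂ 1) with h3 | h3
  · obtain ⟨u, hu, hu2⟩ := intermediate_value_Ioo (by norm_num : (-1 : ℝ) ≤ 1)
      hs.smooth₂.continuous.continuousOn ⟨h2, h3⟩
    have hu1 : |u| < 1 := abs_lt.2 hu
    have h4 := hs.strand₂ u hu1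
    rw [hu2, hKy] at h4
    have h5 := hb.inj z s t (-1) (ε₂ * u) 0 hz hs1 (by norm_num)
      (by rw [abs_mul, Bnd_abs hs.sign₂, one_mul]; exact hu1) h4
    refine ⟨m, u, hu1, ?_, Or.inr ⟨h5.1, by rw [hy, hu2]⟩⟩
    rw [h5.2.1, abs_mul, Bnd_abs hs.sign₂, one_mul]
  · exact absurd hKy (hs.off y (Or.inr ⟨h3, hy2⟩) z s t hz hs1)

theorem Bnd_phi_int {φ : ℝ → ℝ} (h : ∀ l, φ (l + 1) = φ l + 1) (l : ℝ) (k : ℤ) :
    φ (l + k) = φ l + k := by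
  have := Bnd_int (f := fun l => φ l - l) (fun l => by simp only [h l]; ring) l k
  linarith

theorem Bnd_out {φ f₁ f₂ : ℝ → ℝ} (h1 : ∀ l, φ (l + 1) = φ l + 1) (hm : StrictMono φ)
    (hm1 : StrictMono f₁) (hm2 : StrictMono f₂)
    (p1 : ∀ u, |u| ≤ 3 / 32 → φ (1 / 4 + u) = f₁ (8 * u))
    (p2 : ∀ u, |u| ≤ 3 / 32 → φ (3 / 4 + u) = f₂ (8 * u)) {l : ℝ} (hl : l ∉ Bnd_U) :
    ∃ (y : ℝ) (k : ℤ), φ l = y + k ∧
      ((f₁ (1 / 2) ≤ y ∧ y ≤ f₂ (-(1 / 2))) ∨ (f₂ (1 / 2) ≤ y ∧ y ≤ f₁ (-(1 / 2)) + 1)) := by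
  have a1 : φ (1 / 4 + 11 / 128) = f₁ (8 * (11 / 128)) := p1 _ (by rw [abs_of_pos] <;> norm_num)
  have a2 : φ (1 / 4 + -(11 / 128)) = f₁ (8 * -(11 / 128)) :=
    p1 _ (by rw [abs_neg, abs_of_pos] <;> norm_num)
  have a3 : φ (3 / 4 + 11 / 128) = f₂ (8 * (11 / 128)) := p2 _ (by rw [abs_of_pos] <;> norm_num)
  have a4 : φ (3 / 4 + -(11 / 128)) = f₂ (8 * -(11 / 128)) :=
    p2 _ (by rw [abs_neg, abs_of_pos] <;> norm_num)
  have b1 : f₁ (1 / 2) < f₁ (8 * (11 / 128)) := hm1 (by norm_num)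
  have b2 : f₁ (8 * -(11 / 128)) < f₁ (-(1 / 2)) := hm1 (by norm_num)
  have b3 : f₂ (1 / 2) < f₂ (8 * (11 / 128)) := hm2 (by norm_num)
  have b4 : f₂ (8 * -(11 / 128)) < f₂ (-(1 / 2)) := hm2 (by norm_num)
  have hl' : ∀ k : ℤ, 11 / 128 ≤ |l - 1 / 4 - k| ∧ 11 / 128 ≤ |l - 3 / 4 - k| := by
    intro k
    by_contra hk
    apply hl
    refine ⟨k, ?_⟩
    by_contra h
    push Not at h
    exact hk h
  set k := round (l - 1 / 4) with hk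
  have h2 := abs_sub_round (l - 1 / 4)
  rw [← hk] at h2
  have c1 := (hl' k).1
  have c2 := (hl' k).2
  have c3 := (hl' (k - 1)).2
  push_cast at c3
  rw [abs_le] at h2
  rcases le_total 0 (l - 1 / 4 - k) with h3 | h3
  · rw [abs_of_nonneg h3] at c1
    have c4 : l - 3 / 4 - k ≤ 0 := by linarith [h2.2]
    rw [abs_of_nonpos c4] at c2
    refine ⟨φ (l - k), k, ?_, Or.inl ⟨?_, ?_⟩⟩
    · rw [← Bnd_phi_int h1, sub_add_cancel]
    · have := hm.monotone (show 1 / 4 + 11 / 128 ≤ l - k by linarith)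
      linarith
    · have := hm.monotone (show l - k ≤ 3 / 4 + -(11 / 128) by linarith)
      linarith
  · rw [abs_of_nonpos h3] at c1
    have c4 : 0 ≤ l - 3 / 4 - (k - 1) := by linarith [h2.1]
    rw [abs_of_nonneg c4] at c3
    refine ⟨φ (l - (k - 1 : ℤ)), k - 1, ?_, Or.inr ⟨?_, ?_⟩⟩
    · rw [← Bnd_phi_int h1, sub_add_cancel]
    · have := hm.monotone (show 3 / 4 + 11 / 128 ≤ l - (k - 1 : ℤ) by push_cast; linarith)
      linarith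
    · have := hm.monotone (show l - (k - 1 : ℤ) ≤ 1 / 4 + -(11 / 128) + 1 by push_cast; linarith)
      rw [h1] at this
      linarith

/-- the part of the box which the torus has to avoid -/
def Bnd_S (b : ℂ × ℝ × ℝ → P) : Set P :=
  {p | ∃ (z : ℂ) (s t : ℝ), ‖z‖ ≤ 4 ∧ |s| ≤ 1 / 2 ∧ p = b (z, s, t)}

theorem Bnd_S_closed [T2Space P] {b : ℂ × ℝ × ℝ → P} (hb : Box IP b 5) : IsClosed (Bnd_S b) := by
  have e : Bnd_S b = b '' (Metric.closedBall (0 : ℂ) 4 ×ˢ (Icc (-(1 / 2) : ℝ) (1 / 2) ×ˢ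
      Icc (0 : ℝ) 1)) := by
    ext p
    constructor
    · rintro ⟨z, s, t, hz, hs, rfl⟩
      refine ⟨(z, s, Int.fract t), ⟨by simpa using hz, abs_le.1 hs, Int.fract_nonneg t,
        (Int.fract_lt_one t).le⟩, ?_⟩
      have h := Bnd_int (f := fun t => b (z, s, t)) (fun t => hb.per z s t) (Int.fract t) ⌊t⌋
      rw [← h, Int.fract_add_floor]
    · rintro ⟨⟨z, s, t⟩, ⟨hz, hs, -⟩, rfl⟩
      exact ⟨z, s, t, by simpa using hz, abs_le.2 hs, rfl⟩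
  rw [e]
  refine IsCompact.isClosed (IsCompact.image_of_continuousOn ?_ ?_)
  · exact (isCompact_closedBall 0 4).prod (isCompact_Icc.prod isCompact_Icc)
  · rintro ⟨z, s, t⟩ ⟨hz, hs, -⟩
    have h1 : ‖z‖ < 5 := by
      have : ‖z‖ ≤ 4 := by simpa using hz
      linarith
    have h2 : |s| < 1 := by
      have := abs_le.2 hs
      linarith
    exact (hb.loc z s t h1 h2).contMDiffAt.continuousAt.continuousWithinAt

/-! ### adaptation on both arcs -/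

theorem Bnd_far {κ κ' : ℝ × ℂ × ℝ → P} (hκ : ThickT IP κ) (hκ' : ThickT IP κ') {c h' : ℝ}
    (hc : ∀ l, h' ≤ |l - c| → |l - c| ≤ 1 / 2 → ∀ v t, ‖v‖ < 1 → κ' (l, v, t) = κ (l, v, t)) (l : ℝ)
    (hl : ∀ k : ℤ, h' ≤ |l - c - k|) (v : ℂ) (t : ℝ) (hv : ‖v‖ < 1) :
    κ' (l, v, t) = κ (l, v, t) := by
  have h1 := Bnd_int (f := fun l => κ (l, v, t)) (fun l => hκ.perl l v t) (l - round (l - c))
    (round (l - c))
  have h2 := Bnd_int (f := fun l => κ' (l, v, t)) (fun l => hκ'.perl l v t) (l - round (l - c))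
    (round (l - c))
  simp only [sub_add_cancel] at h1 h2
  rw [h1, h2]
  have e : l - round (l - c) - c = l - c - round (l - c) := by ring
  apply hc
  · rw [e]; exact hl _
  · rw [e]; exact abs_sub_round _
  · exact hv

theorem Bnd_two [T2Space P] {a : ℝ → P → P} (ha : PTH.Act IP a) {κ B₁ B₂ : ℝ × ℂ × ℝ → P}
    (hκ : ThickT IP κ) (heq : Equi a κ) (heq₁ : Equi a B₁) (heq₂ : Equi a B₂)
    (hloc₁ : ∀ l, |l - 1 / 4| < 3 / 32 → IsLocalDiffeomorphAt 𝓘(ℝ, ℝ × ℂ × ℝ) IP ∞ B₁ (l, 0, 0))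
    (hloc₂ : ∀ l, |l - 3 / 4| < 3 / 32 → IsLocalDiffeomorphAt 𝓘(ℝ, ℝ × ℂ × ℝ) IP ∞ B₂ (l, 0, 0))
    (hcore₁ : ∀ l, |l - 1 / 4| < 3 / 32 → B₁ (l, 0, 0) = κ (l, 0, 0))
    (hcore₂ : ∀ l, |l - 3 / 4| < 3 / 32 → B₂ (l, 0, 0) = κ (l, 0, 0))
    (hpos₁ : PosAt κ B₁ (1 / 4)) (hpos₂ : PosAt κ B₂ (3 / 4)) :
    ∃ κ' : ℝ × ℂ × ℝ → P, ThickT IP κ' ∧ Equi a κ' ∧ (∀ l t, κ' (l, 0, t) = κ (l, 0, t)) ∧
      (∃ ε : ℝ, 0 < ε ∧ ∀ l v t, ‖v‖ ≤ ε → (|l - 1 / 4| ≤ 11 / 128 → κ' (l, v, t) = B₁ (l, v, t)) ∧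
        (|l - 3 / 4| ≤ 11 / 128 → κ' (l, v, t) = B₂ (l, v, t))) ∧
      ∀ (X : Type u) [TopologicalSpace X] [ChartedSpace E4 X] (n j : ℤ),
        Nonempty (TwinP IP κ n j X) → Nonempty (TwinP IP κ' n j X) := by
  obtain ⟨κ₂, k1, k2, k3, ⟨e₁, he₁, k4⟩, k5, k6⟩ := adapt_arc ha hκ heq heq₁ (c := 1 / 4)
    (h := 11 / 128) (h' := 3 / 32) (by norm_num) (by norm_num) (by norm_num) hloc₁ hcore₁
    (l₀ := 1 / 4) (by norm_num) hpos₁
  have far₂ : ∀ l : ℝ, (∀ k : ℤ, 3 / 32 ≤ |l - 1 / 4 - k|) → ∀ v t, ‖v‖ < 1 →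
      κ₂ (l, v, t) = κ (l, v, t) := fun l hl v t hv => Bnd_far hκ k1 k5 l hl v t hv
  -- separation of the arcs
  have sep : ∀ l : ℝ, |l - 3 / 4| < 1 / 8 → ∀ k : ℤ, 3 / 32 ≤ |l - 1 / 4 - k| := by
    intro l hl k
    rw [abs_lt] at hl
    rcases le_or_gt k 0 with hk | hk
    · have : (k : ℝ) ≤ 0 := by exact_mod_cast hk
      rw [abs_of_pos] <;> linarith [hl.1, hl.2]
    · have : (1 : ℝ) ≤ k := by exact_mod_cast hk
      rw [abs_of_neg] <;> linarith [hl.1, hl.2]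
  have sep' : ∀ l : ℝ, |l - 1 / 4| < 1 / 8 → ∀ k : ℤ, 3 / 32 ≤ |l - 3 / 4 - k| := by
    intro l hl k
    rw [abs_lt] at hl
    rcases le_or_gt 0 k with hk | hk
    · have : (0 : ℝ) ≤ k := by exact_mod_cast hk
      rw [abs_of_neg] <;> linarith [hl.1, hl.2]
    · have : (k : ℝ) ≤ -1 := by
        have : k ≤ -1 := by omega
        exact_mod_cast this
      rw [abs_of_pos] <;> linarith [hl.1, hl.2]
  have hpos₂' : PosAt κ₂ B₂ (3 / 4) := by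
    obtain ⟨lam, om, tau, p1, p2, p3, p4, p5, p6, p7, p8⟩ := hpos₂
    refine ⟨lam, om, tau, p1, p2, p3, p4, p5, p6, ?_, p8⟩
    have q1 : ∀ᶠ q in 𝓝 ((3 / 4 : ℝ), (0 : ℂ)), |lam q - 3 / 4| < 1 / 8 := by
      have : ContinuousAt (fun q => |lam q - 3 / 4|) ((3 / 4 : ℝ), (0 : ℂ)) :=
        (p1.continuousAt.sub continuousAt_const).abs
      apply this.eventually_lt continuousAt_const
      rw [p4]
      norm_num
    have q2 : ∀ᶠ q in 𝓝 ((3 / 4 : ℝ), (0 : ℂ)), ‖om q‖ < 1 := by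
      have : ContinuousAt (fun q => ‖om q‖) ((3 / 4 : ℝ), (0 : ℂ)) := p2.continuousAt.norm
      apply this.eventually_lt continuousAt_const
      rw [p5]
      norm_num
    filter_upwards [p7, q1, q2] with q h1 h2 h3 t
    rw [h1 t, far₂ _ (sep _ h2) _ _ h3]
  obtain ⟨κ₃, m1, m2, m3, ⟨e₂, he₂, m4⟩, m5, m6⟩ := adapt_arc ha k1 k2 heq₂ (c := 3 / 4)
    (h := 11 / 128) (h' := 3 / 32) (by norm_num) (by norm_num) (by norm_num) hloc₂
    (fun l hl => by rw [hcore₂ l hl, k3]) (l₀ := 3 / 4) (by norm_num) hpos₂'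
  refine ⟨κ₃, m1, m2, fun l t => by rw [m3, k3], ⟨min (min e₁ e₂) (1 / 2), ?_, ?_⟩, ?_⟩
  · exact lt_min (lt_min he₁ he₂) (by norm_num)
  · intro l v t hv
    have v1 : ‖v‖ ≤ e₁ := hv.trans ((min_le_left _ _).trans (min_le_left _ _))
    have v2 : ‖v‖ ≤ e₂ := hv.trans ((min_le_left _ _).trans (min_le_right _ _))
    have v3 : ‖v‖ < 1 := lt_of_le_of_lt (hv.trans (min_le_right _ _)) (by norm_num)
    constructor
    · intro hl
      have h1 : |l - 1 / 4| < 1 / 8 := lt_of_le_of_lt hl (by norm_num)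
      rw [Bnd_far k1 m1 m5 l (sep' l h1) v t v3]
      exact k4 l v t hl v1
    · intro hl
      exact m4 l v t hl v2
  · intro X _ _ n j hD
    exact m6 X n j (k6 X n j hD)

end


/-! ### the thickening over the arcs -/

section
variable {EP : Type*} [NormedAddCommGroup EP] [NormedSpace ℝ EP] {HP : Type*} [TopologicalSpace HP]
  {IP : ModelWithCorners ℝ EP HP} {P : Type*} [TopologicalSpace P] [ChartedSpace HP P]

open Classical in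
/-- the thickening over the arcs -/
noncomputable def Bnd_B (b : ℂ × ℝ × ℝ → P) (σ ε₁ ε₂ : ℝ) (q : ℝ × ℂ × ℝ) : P :=
  if |q.1 - 1 / 4 - round (q.1 - 1 / 4)| ≤ 1 / 4 then
    strand (refl σ b) ε₁ 1 8 (1 / 4) (q.1 - round (q.1 - 1 / 4), q.2)
  else strand (refl σ b) ε₂ (-1) 8 (3 / 4) (q.1 - round (q.1 - 3 / 4), q.2)

theorem Bnd_B1 (b : ℂ × ℝ × ℝ → P) (σ ε₁ ε₂ : ℝ) {l : ℝ} {k : ℤ} (h : |l - 1 / 4 - k| < 11 / 128)
    (v : ℂ) (t : ℝ) :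
    Bnd_B b σ ε₁ ε₂ (l, v, t) = strand (refl σ b) ε₁ 1 8 (1 / 4) (l - k, v, t) := by
  have hr : round (l - 1 / 4) = k := Bnd_round (lt_trans h (by norm_num))
  unfold Bnd_B
  simp only
  rw [hr, if_pos (h.le.trans (by norm_num))]

theorem Bnd_B2 (b : ℂ × ℝ × ℝ → P) (σ ε₁ ε₂ : ℝ) {l : ℝ} {k : ℤ} (h : |l - 3 / 4 - k| < 11 / 128)
    (v : ℂ) (t : ℝ) :
    Bnd_B b σ ε₁ ε₂ (l, v, t) = strand (refl σ b) ε₂ (-1) 8 (3 / 4) (l - k, v, t) := by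
  have hr : round (l - 3 / 4) = k := Bnd_round (lt_trans h (by norm_num))
  have hn : ¬ |l - 1 / 4 - round (l - 1 / 4)| ≤ 1 / 4 := by
    intro h2
    set m := round (l - 1 / 4)
    rw [abs_lt] at h
    rw [abs_le] at h2
    rcases le_or_gt m k with hm | hm
    · have : (m : ℝ) ≤ k := by exact_mod_cast hm
      linarith [h.1, h.2, h2.1, h2.2]
    · have : (k : ℝ) + 1 ≤ m := by exact_mod_cast hm
      linarith [h.1, h.2, h2.1, h2.2]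
  unfold Bnd_B
  simp only
  rw [hr, if_neg hn]

/-- the type of a point over the arcs -/
def Bnd_ty (ε₁ ε₂ l δ ε c : ℝ) (k : ℤ) : Prop :=
  ((δ = 1 ∧ ε = ε₁ ∧ c = 1 / 4) ∨ (δ = -1 ∧ ε = ε₂ ∧ c = 3 / 4)) ∧ |l - c - k| < 11 / 128

theorem Bnd_ty_ex (ε₁ ε₂ : ℝ) {l : ℝ} (hl : l ∈ Bnd_U) : ∃ δ ε c k, Bnd_ty ε₁ ε₂ l δ ε c k := by
  obtain ⟨k, hk | hk⟩ := hl
  · exact ⟨1, ε₁, 1 / 4, k, Or.inl ⟨rfl, rfl, rfl⟩, hk⟩
  · exact ⟨-1, ε₂, 3 / 4, k, Or.inr ⟨rfl, rfl, rfl⟩, hk⟩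

theorem Bnd_ty_eq (b : ℂ × ℝ × ℝ → P) (σ : ℝ) {ε₁ ε₂ l δ ε c : ℝ} {k : ℤ}
    (h : Bnd_ty ε₁ ε₂ l δ ε c k) (v : ℂ) (t : ℝ) :
    Bnd_B b σ ε₁ ε₂ (l, v, t) = b (cj σ (δ + cj ε v / 2), ε * (8 * (l - k - c)), t) := by
  rcases h with ⟨⟨rfl, rfl, rfl⟩ | ⟨rfl, rfl, rfl⟩, hk⟩
  · rw [Bnd_B1 b σ _ ε₂ hk]
    rfl
  · rw [Bnd_B2 b σ ε₁ _ hk]
    rfl

theorem Bnd_ty_sgn {ε₁ ε₂ l δ ε c : ℝ} {k : ℤ} (h1 : ε₁ = 1 ∨ ε₁ = -1) (h2 : ε₂ = 1 ∨ ε₂ = -1)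
    (h : Bnd_ty ε₁ ε₂ l δ ε c k) : (ε = 1 ∨ ε = -1) ∧ |δ| = 1 := by
  rcases h with ⟨⟨rfl, rfl, rfl⟩ | ⟨rfl, rfl, rfl⟩, hk⟩
  · exact ⟨h1, by norm_num⟩
  · exact ⟨h2, by norm_num⟩

/-- the coordinates are in the box -/
theorem Bnd_ty_box {σ ε₁ ε₂ l δ ε c : ℝ} {k : ℤ} (hσ : σ = 1 ∨ σ = -1) (h1 : ε₁ = 1 ∨ ε₁ = -1)
    (h2 : ε₂ = 1 ∨ ε₂ = -1) (h : Bnd_ty ε₁ ε₂ l δ ε c k) {v : ℂ} {r : ℝ} (hv : ‖v‖ < r) :
    ‖cj σ (δ + cj ε v / 2)‖ < 1 + r / 2 ∧ |ε * (8 * (l - k - c))| = 8 * |l - c - k| ∧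
      |ε * (8 * (l - k - c))| < 1 := by
  obtain ⟨hε, hδ⟩ := Bnd_ty_sgn h1 h2 h
  have e1 : |ε * (8 * (l - k - c))| = 8 * |l - c - k| := by
    rw [abs_mul, Bnd_abs hε, one_mul, abs_mul, abs_of_pos (by norm_num : (0 : ℝ) < 8)]
    congr 2
    ring
  refine ⟨?_, e1, ?_⟩
  · have := Bnd_norm hσ hε hδ.le v
    linarith
  · rw [e1]
    have := h.2
    linarith

theorem Bnd_main_B [T2Space P] {a : ℝ → P → P} (ha : PTH.Act IP a) {b : ℂ × ℝ × ℝ → P}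
    (hb : Box IP b 5) (heqb : EquiB a b) {σ ε₁ ε₂ : ℝ} (hσ : σ = 1 ∨ σ = -1)
    (h1 : ε₁ = 1 ∨ ε₁ = -1) (h2 : ε₂ = 1 ∨ ε₂ = -1) :
    Equi a (Bnd_B b σ ε₁ ε₂) ∧ (∀ l v t, Bnd_B b σ ε₁ ε₂ (l + 1, v, t) = Bnd_B b σ ε₁ ε₂ (l, v, t)) ∧
    (∀ l ∈ Bnd_U, ∀ v t, ‖v‖ < 3 / 2 →
      IsLocalDiffeomorphAt 𝓘(ℝ, ℝ × ℂ × ℝ) IP ∞ (Bnd_B b σ ε₁ ε₂) (l, v, t)) ∧
    (∀ l ∈ Bnd_U, ∀ l' ∈ Bnd_U, ∀ v v' t t', ‖v‖ < 3 / 2 → ‖v'‖ < 3 / 2 →
      Bnd_B b σ ε₁ ε₂ (l, v, t) = Bnd_B b σ ε₁ ε₂ (l', v', t') →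
      v = v' ∧ (∃ m : ℤ, l' = l + m) ∧ ∃ m : ℤ, t' = t + m) := by
  refine ⟨?_, ?_, ?_, ?_⟩
  · intro l v t
    unfold Bnd_B strand refl
    simp only
    split_ifs
    · exact heqb _ _ _
    · exact heqb _ _ _
  · intro l v t
    unfold Bnd_B
    simp only
    have e1 : l + 1 - 1 / 4 = l - 1 / 4 + 1 := by ring
    have e2 : l + 1 - 3 / 4 = l - 3 / 4 + 1 := by ring
    rw [e1, e2, round_add_one, round_add_one]
    push_cast
    have e3 : l - 1 / 4 + 1 - (round (l - 1 / 4) + 1) = l - 1 / 4 - (round (l - 1 / 4) : ℝ) := by ring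
    have e4 : l + 1 - (round (l - 1 / 4) + 1) = l - (round (l - 1 / 4) : ℝ) := by ring
    have e5 : l + 1 - (round (l - 3 / 4) + 1) = l - (round (l - 3 / 4) : ℝ) := by ring
    rw [e3, e4, e5]
  · intro l hl v t hv
    obtain ⟨δ, ε, c, k, hty⟩ := Bnd_ty_ex ε₁ ε₂ hl
    obtain ⟨hε, hδ⟩ := Bnd_ty_sgn h1 h2 hty
    obtain ⟨q1, q2, q3⟩ := Bnd_ty_box hσ h1 h2 hty hv
    have hloc := hb.loc (cj σ (δ + cj ε v / 2)) (ε * (8 * (l - k - c))) t (by linarith) q3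
    have hg := Bnd_g_ld hσ hε (by norm_num : (0 : ℝ) < 8) δ (c + k) (l, v, t)
    have e0 : Bnd_g σ ε δ 8 (c + k) (l, v, t) =
        (cj σ (δ + cj ε v / 2), ε * (8 * (l - k - c)), t) := by
      simp only [Bnd_g]
      rw [show l - (c + k) = l - k - c by ring]
    have hcomp : IsLocalDiffeomorphAt 𝓘(ℝ, ℝ × ℂ × ℝ) IP ∞
        (b ∘ Bnd_g σ ε δ 8 (c + k)) (l, v, t) := by
      rw [← e0] at hloc
      exact IsLocalDiffeomorphAt.comp (hf := hg) (hg := hloc) ..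
    refine CSG.ld_congr hcomp ?_
    have hopen : ∀ᶠ q : ℝ × ℂ × ℝ in 𝓝 (l, v, t), |q.1 - c - k| < 11 / 128 := by
      have : ContinuousAt (fun q : ℝ × ℂ × ℝ => |q.1 - c - k|) (l, v, t) := by fun_prop
      exact this.eventually_lt continuousAt_const hty.2
    filter_upwards [hopen] with q hq
    obtain ⟨l', v', t'⟩ := q
    rw [Bnd_ty_eq b σ (δ := δ) (ε := ε) (c := c) (k := k) ⟨hty.1, hq⟩]
    simp only [Function.comp_apply, Bnd_g]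
    rw [show l' - (c + k) = l' - k - c by ring]
  · intro l hl l' hl' v v' t t' hv hv' he
    obtain ⟨δ, ε, c, k, hty⟩ := Bnd_ty_ex ε₁ ε₂ hl
    obtain ⟨δ', ε', c', k', hty'⟩ := Bnd_ty_ex ε₁ ε₂ hl'
    obtain ⟨hε, hδ⟩ := Bnd_ty_sgn h1 h2 hty
    obtain ⟨hε', hδ'⟩ := Bnd_ty_sgn h1 h2 hty'
    obtain ⟨q1, q2, q3⟩ := Bnd_ty_box hσ h1 h2 hty hv
    obtain ⟨q1', q2', q3'⟩ := Bnd_ty_box hσ h1 h2 hty' hv'
    rw [Bnd_ty_eq b σ hty, Bnd_ty_eq b σ hty'] at he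
    obtain ⟨r1, r2, r3⟩ := hb.inj _ _ _ _ _ _ (by linarith) q3 (by linarith) q3' he
    have r4 : (δ : ℂ) + cj ε v / 2 = δ' + cj ε' v' / 2 := by
      rw [← RSG.cj_cj hσ (δ + cj ε v / 2), r1, RSG.cj_cj hσ]
    have hdd : δ = δ' := by
      by_contra hne
      have h3 : |δ - δ'| = 2 := by
        rcases hty.1 with ⟨rfl, -, -⟩ | ⟨rfl, -, -⟩ <;>
          rcases hty'.1 with ⟨rfl, -, -⟩ | ⟨rfl, -, -⟩
        · exact absurd rfl hne
        · norm_num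
        · norm_num
        · exact absurd rfl hne
      have h4 : ((δ - δ' : ℝ) : ℂ) = cj ε' v' / 2 - cj ε v / 2 := by
        push_cast
        linear_combination r4
      have h5 : |δ - δ'| ≤ ‖v'‖ / 2 + ‖v‖ / 2 := by
        rw [← Real.norm_eq_abs, ← Complex.norm_real, h4]
        refine (norm_sub_le _ _).trans ?_
        rw [norm_div, norm_div, RSG.cj_norm hε, RSG.cj_norm hε']
        simp
      linarith
    have hall : ε = ε' ∧ c = c' := by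
      rcases hty.1 with ⟨p1, p2, p3⟩ | ⟨p1, p2, p3⟩ <;>
        rcases hty'.1 with ⟨p1', p2', p3'⟩ | ⟨p1', p2', p3'⟩
      · exact ⟨by rw [p2, p2'], by rw [p3, p3']⟩
      · rw [p1, p1'] at hdd; norm_num at hdd
      · rw [p1, p1'] at hdd; norm_num at hdd
      · exact ⟨by rw [p2, p2'], by rw [p3, p3']⟩
    obtain ⟨rfl, rfl⟩ := hall
    subst hdd
    refine ⟨?_, ⟨k' - k, ?_⟩, r3⟩
    · have r5 : cj ε v = cj ε v' := by linear_combination 2 * r4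
      rw [← RSG.cj_cj hε v, r5, RSG.cj_cj hε]
    · have hne : ε ≠ 0 := by rcases hε with rfl | rfl <;> norm_num
      have := mul_left_cancel₀ hne r2
      push_cast
      linarith

end

theorem exists_bundle {a : ℝ → PTH.SP → PTH.SP} (ha : PTH.Act PTH.ISP a) {K : ℝ → PTH.SP}
    {κ₀ : ℝ × ℂ × ℝ → PTH.SP} (hκ₀ : ThickT PTH.ISP κ₀) (heq₀ : Equi a κ₀) (hK₀ : ∀ l, κ₀ (l, 0, 0) = K l)
    {b : ℂ × ℝ × ℝ → PTH.SP} (hb : Box PTH.ISP b 5) (heqb : EquiB a b) {f₁ f₂ : ℝ → ℝ} {ε₁ ε₂ : ℝ}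
    (hs : TwoStrands b K f₁ f₂ ε₁ ε₂) {Fc : Set PTH.SP} (hFc : IsClosed Fc)
    (hF : ∀ l, (f₁ (1 / 2) ≤ l ∧ l ≤ f₂ (-(1 / 2))) ∨ (f₂ (1 / 2) ≤ l ∧ l ≤ f₁ (-(1 / 2)) + 1) →
      ∀ t, a t (K l) ∉ Fc) :
    ∃ (κ : ℝ × ℂ × ℝ → PTH.SP) (φ : ℝ → ℝ) (σ : ℝ), (σ = 1 ∨ σ = -1) ∧ Equi a κ ∧
      Bundle PTH.ISP κ (half σ b) ε₁ ε₂ ∧ ContDiff ℝ ∞ φ ∧ (∀ l, φ (l + 1) = φ l + 1) ∧
      (∀ l, 0 < deriv φ l) ∧ (∀ l, κ (l, 0, 0) = K (φ l)) ∧
      (∀ u, |u| ≤ 1 / 16 → φ (1 / 4 + u) = f₁ (8 * u)) ∧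
      (∀ u, |u| ≤ 1 / 16 → φ (3 / 4 + u) = f₂ (8 * u)) ∧
      (∀ l v t, ‖v‖ < 1 → OutW l → κ (l, v, t) ∉ Fc ∨
        ∃ (z : ℂ) (s t' : ℝ), ‖z‖ < 4 ∧ 1 / 2 ≤ |s| ∧ |s| < 1 ∧ κ (l, v, t) = b (z, s, t')) ∧
      ∀ (X : Type u) [TopologicalSpace X] [ChartedSpace E4 X] (n j : ℤ),
        Nonempty (TwinP PTH.ISP κ₀ n j X) → Nonempty (TwinP PTH.ISP κ n j X) := by
  obtain ⟨φ, f1, f2, f3, f4, f5⟩ := exists_phi hs.smooth₁ hs.smooth₂ hs.deriv₁ hs.deriv₂ hs.ord₁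
    hs.ord₂
  have hm : StrictMono φ := strictMono_of_deriv_pos f3
  have hm1 : StrictMono f₁ := strictMono_of_deriv_pos hs.deriv₁
  have hm2 : StrictMono f₂ := strictMono_of_deriv_pos hs.deriv₂
  have s1 := hs.sign₁
  have s2 := hs.sign₂
  -- the reparametrised torus
  have hκ₁ := thick_rep hκ₀ f1 f2 f3
  set κ₁ : ℝ × ℂ × ℝ → PTH.SP := fun q => κ₀ (φ q.1, q.2) with hκ₁d
  have heq₁ : Equi a κ₁ := fun l v t => heq₀ (φ l) v t
  have hcore : ∀ l, κ₁ (l, 0, 0) = K (φ l) := fun l => hK₀ (φ l)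
  have hKp : ∀ l, K (l + 1) = K l := fun l => by rw [← hK₀, ← hK₀]; exact hκ₀.perl l 0 0
  have cj0 : ∀ ε : ℝ, cj ε 0 = 0 := RSG.cj_zero
  have cjr : ∀ σ δ : ℝ, cj σ (δ : ℂ) = δ := by
    intro σ δ
    simp [cj, Complex.ext_iff]
  have core₁ : ∀ l, |l - 1 / 4| ≤ 3 / 32 → ∀ σ, strand (refl σ b) ε₁ 1 8 (1 / 4) (l, 0, 0) =
      κ₁ (l, 0, 0) := by
    intro l hl σ
    have h1 := f4 (l - 1 / 4) hl
    rw [add_sub_cancel] at h1
    rw [hcore, h1, hs.strand₁]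
    · simp only [strand, refl, cj0, zero_div, add_zero, cjr]
      norm_num
    · rw [abs_mul, abs_of_pos (by norm_num : (0 : ℝ) < 8)]
      linarith
  have core₂ : ∀ l, |l - 3 / 4| ≤ 3 / 32 → ∀ σ, strand (refl σ b) ε₂ (-1) 8 (3 / 4) (l, 0, 0) =
      κ₁ (l, 0, 0) := by
    intro l hl σ
    have h1 := f5 (l - 3 / 4) hl
    rw [add_sub_cancel] at h1
    rw [hcore, h1, hs.strand₂]
    · simp only [strand, refl, cj0, zero_div, add_zero, cjr]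
      norm_num
    · rw [abs_mul, abs_of_pos (by norm_num : (0 : ℝ) < 8)]
      linarith
  have hstr : ∀ ε δ w c q, strand b ε δ w c q = strand (refl 1 b) ε δ w c q := by
    intro ε δ w c q
    have h1 : ∀ z : ℂ, cj 1 z = z := fun z => by simp [cj, Complex.ext_iff]
    simp only [strand, refl, h1]
  have ev : ∀ c : ℝ, ∀ᶠ l in 𝓝 c, |l - c| ≤ 3 / 32 := by
    intro c
    have : ContinuousAt (fun l : ℝ => |l - c|) c := by fun_prop
    have h2 : ∀ᶠ l in 𝓝 c, |l - c| < 3 / 32 := by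
      apply this.eventually_lt continuousAt_const
      simp
    exact h2.mono fun l hl => hl.le
  obtain ⟨σ, hσ, hp₁, hp₂⟩ := coherent ha hκ₁ heq₁ hb heqb s1 s2 (w := 8) (by norm_num)
    (c₁ := 1 / 4) (c₂ := 3 / 4)
    ((ev (1 / 4)).mono fun l hl => by rw [hstr]; exact (core₁ l hl 1).symm)
    ((ev (3 / 4)).mono fun l hl => by rw [hstr]; exact (core₂ l hl 1).symm)
  -- the thickenings
  have eqS : ∀ ε δ w c, Equi a (strand (refl σ b) ε δ w c) := fun ε δ w c l v t => heqb _ _ _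
  have locS : ∀ (ε δ c : ℝ), (ε = 1 ∨ ε = -1) → |δ| = 1 → ∀ l, |l - c| < 3 / 32 →
      IsLocalDiffeomorphAt 𝓘(ℝ, ℝ × ℂ × ℝ) PTH.ISP ∞ (strand (refl σ b) ε δ 8 c) (l, 0, 0) := by
    intro ε δ c hε hδ l hl
    have hg := Bnd_g_ld hσ hε (by norm_num : (0 : ℝ) < 8) δ c (l, 0, 0)
    rw [Bnd_strand]
    have hloc : IsLocalDiffeomorphAt 𝓘(ℝ, ℂ × ℝ × ℝ) PTH.ISP ∞ b (Bnd_g σ ε δ 8 c (l, 0, 0)) := by
      apply hb.loc
      · have := Bnd_norm hσ hε hδ.le 0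
        simp only [norm_zero] at this
        linarith
      · rw [abs_mul, Bnd_abs hε, abs_mul, abs_of_pos (by norm_num : (0 : ℝ) < 8)]
        linarith
    exact IsLocalDiffeomorphAt.comp (hf := hg) (hg := hloc) ..
  obtain ⟨κ₃, m1, m2, m3, ⟨ε, hε, m4⟩, m5⟩ := Bnd_two.{u} ha hκ₁ heq₁ (eqS ε₁ 1 8 (1 / 4))
    (eqS ε₂ (-1) 8 (3 / 4)) (locS ε₁ 1 (1 / 4) s1 (by norm_num))
    (locS ε₂ (-1) (3 / 4) s2 (by norm_num)) (fun l hl => core₁ l hl.le σ)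
    (fun l hl => core₂ l hl.le σ) hp₁ hp₂
  -- the core of `κ₃`
  have hcore₃ : ∀ l t, κ₃ (l, 0, t) = a t (K (φ l)) := by
    intro l t
    rw [m2 l 0 t, m3, hcore]
  have hback : ∀ l t z s t', κ₃ (l, 0, t) = b (z, s, t') → K (φ l) = b (z, s, t' - t) := by
    intro l t z s t' h
    rw [hcore₃] at h
    have h1 : a (-t) (a t (K (φ l))) = K (φ l) := by
      rw [← ha.add, neg_add_cancel, ha.zero]
    rw [← h1, h, heqb, ← ha.add, heqb z s (t' - t)]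
    congr 1
    ring
  obtain ⟨hB1, hB2, hB3, hB4⟩ := Bnd_main_B ha hb heqb hσ s1 s2
  have hoff : ∀ l ∈ Bnd_U, ∀ v t, v ≠ 0 → ‖v‖ < 3 / 2 → ∀ l' t',
      Bnd_B b σ ε₁ ε₂ (l, v, t) ≠ κ₃ (l', 0, t') := by
    intro l hl v t hv0 hv l' t' he
    obtain ⟨δ, ε, c, k, hty⟩ := Bnd_ty_ex ε₁ ε₂ hl
    obtain ⟨hε, hδ⟩ := Bnd_ty_sgn s1 s2 hty
    obtain ⟨q1, q2, q3⟩ := Bnd_ty_box hσ s1 s2 hty hv
    rw [Bnd_ty_eq b σ hty] at he
    have h1 := hback l' t' _ _ _ he.symm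
    obtain ⟨m, u, hu, hu2, hz⟩ := Bnd_where hb hs hKp (by linarith) q3 h1
    have hz' : ∃ δ' : ℝ, |δ'| = 1 ∧ cj σ (δ + cj ε v / 2) = δ' := by
      rcases hz with ⟨hz, -⟩ | ⟨hz, -⟩
      · exact ⟨1, by norm_num, by rw [hz]; norm_num⟩
      · exact ⟨-1, by norm_num, by rw [hz]; norm_num⟩
    obtain ⟨δ', hδ', hz'⟩ := hz'
    have h2 : (δ : ℂ) + cj ε v / 2 = δ' := by
      rw [← RSG.cj_cj hσ (δ + cj ε v / 2), hz', cjr]
    have h3 : ((δ' - δ : ℝ) : ℂ) = cj ε v / 2 := by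
      push_cast
      linear_combination -h2
    have h4 : |δ' - δ| = ‖v‖ / 2 := by
      rw [← Real.norm_eq_abs, ← Complex.norm_real, h3, norm_div, RSG.cj_norm hε]
      simp
    have h5 : δ' = δ := by
      rcases eq_or_eq_neg_of_abs_eq (hδ'.trans (by norm_num : (1 : ℝ) = 1)) with h | h <;>
        rcases eq_or_eq_neg_of_abs_eq (hδ.trans (by norm_num : (1 : ℝ) = 1)) with h' | h' <;>
        rw [h, h'] at h4 ⊢ <;> norm_num at h4
      · linarith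
      · linarith
    rw [h5, sub_self, abs_zero] at h4
    apply hv0
    have : ‖v‖ = 0 := by linarith
    exact norm_eq_zero.1 this
  have hgerm : ∀ l ∈ Bnd_U, ∀ v t, ‖v‖ ≤ ε → κ₃ (l, v, t) = Bnd_B b σ ε₁ ε₂ (l, v, t) := by
    rintro l ⟨k, hk | hk⟩ v t hv
    · rw [Bnd_B1 b σ ε₁ ε₂ hk, ← (m4 (l - k) v t hv).1 (by
        rw [show l - k - 1 / 4 = l - 1 / 4 - k by ring]; exact hk.le)]
      have := Bnd_int (f := fun l => κ₃ (l, v, t)) (fun l => m1.perl l v t) (l - k) k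
      simp only [sub_add_cancel] at this
      exact this
    · rw [Bnd_B2 b σ ε₁ ε₂ hk, ← (m4 (l - k) v t hv).2 (by
        rw [show l - k - 3 / 4 = l - 3 / 4 - k by ring]; exact hk.le)]
      have := Bnd_int (f := fun l => κ₃ (l, v, t)) (fun l => m1.perl l v t) (l - k) k
      simp only [sub_add_cancel] at this
      exact this
  have hKF : ∀ l, l ∉ Bnd_U → ∀ t, κ₃ (l, 0, t) ∉ Fc ∪ Bnd_S b := by
    intro l hl t
    rintro (h | ⟨z, s, t', hz, hs', h⟩)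
    · rw [hcore₃] at h
      obtain ⟨y, k, hy, hy2⟩ := Bnd_out f2 hm hm1 hm2 f4 f5 hl
      rw [hy, Bnd_int hKp] at h
      exact hF y hy2 t h
    · have h1 := hback l t _ _ _ h
      obtain ⟨m, u, hu, hu2, hz⟩ := Bnd_where hb hs hKp (by linarith) (by linarith) h1
      have hu3 : |u| ≤ 1 / 2 := hu2 ▸ hs'
      have hu4 : |u / 8| ≤ 1 / 16 := by
        rw [abs_div, abs_of_pos (by norm_num : (0 : ℝ) < 8)]
        linarith
      have e8 : 8 * (u / 8) = u := by ring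
      rcases hz with ⟨-, hz⟩ | ⟨-, hz⟩
      · have h2 := f4 (u / 8) (hu4.trans (by norm_num))
        rw [e8] at h2
        rw [← h2, ← Bnd_phi_int f2] at hz
        have h3 := hm.injective hz
        apply hl
        refine ⟨m, Or.inl ?_⟩
        rw [h3, show 1 / 4 + u / 8 + (m : ℝ) - 1 / 4 - m = u / 8 by ring]
        linarith
      · have h2 := f5 (u / 8) (hu4.trans (by norm_num))
        rw [e8] at h2
        rw [← h2, ← Bnd_phi_int f2] at hz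
        have h3 := hm.injective hz
        apply hl
        refine ⟨m, Or.inr ?_⟩
        rw [h3, show 3 / 4 + u / 8 + (m : ℝ) - 3 / 4 - m = u / 8 by ring]
        linarith
  obtain ⟨κ, n1, n2, n3, n4, n5, n6, n7⟩ := adapt_glue.{u} ha m1 m2 hB1 hB2 Bnd_U_open Bnd_U_per
    Bnd_s_smooth Bnd_s_per (fun l => ⟨CSG.stp_nonneg _ _ _, CSG.stp_le_one _ _ _⟩) Bnd_tsupp
    (r := 3 / 2) (by norm_num) hB3 hB4 hε hgerm hoff (hFc.union (Bnd_S_closed hb)) hKF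
  -- the windows
  have win₁ : ∀ l v t, |l| < 1 / 16 → ‖v‖ < 1 →
      κ (1 / 4 + l, v, t) = b (cj σ (1 + cj ε₁ v / 2), ε₁ * (8 * l), t) := by
    intro l v t hl hv
    have hk : |1 / 4 + l - 1 / 4 - ((0 : ℤ) : ℝ)| < 11 / 128 := by
      rw [show 1 / 4 + l - 1 / 4 - ((0 : ℤ) : ℝ) = l by push_cast; ring]
      linarith
    rw [n4 _ v t (Bnd_s_one ⟨0, Or.inl (by
      rw [show 1 / 4 + l - 1 / 4 - ((0 : ℤ) : ℝ) = l by push_cast; ring]; exact hl.le)⟩) hv,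
      Bnd_B1 b σ ε₁ ε₂ hk]
    simp only [strand, refl]
    rw [show 1 / 4 + l - ((0 : ℤ) : ℝ) - 1 / 4 = l by push_cast; ring]
    norm_num
  have win₂ : ∀ l v t, |l| < 1 / 16 → ‖v‖ < 1 →
      κ (3 / 4 + l, v, t) = b (cj σ (-1 + cj ε₂ v / 2), ε₂ * (8 * l), t) := by
    intro l v t hl hv
    have hk : |3 / 4 + l - 3 / 4 - ((0 : ℤ) : ℝ)| < 11 / 128 := by
      rw [show 3 / 4 + l - 3 / 4 - ((0 : ℤ) : ℝ) = l by push_cast; ring]
      linarith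
    rw [n4 _ v t (Bnd_s_one ⟨0, Or.inr (by
      rw [show 3 / 4 + l - 3 / 4 - ((0 : ℤ) : ℝ) = l by push_cast; ring]; exact hl.le)⟩) hv,
      Bnd_B2 b σ ε₁ ε₂ hk]
    simp only [strand, refl]
    rw [show 3 / 4 + l - ((0 : ℤ) : ℝ) - 3 / 4 = l by push_cast; ring]
    norm_num
  -- over the arcs, outside the windows
  have hmid : ∀ l v t, ‖v‖ < 1 → OutW l → l ∈ Bnd_U → ∃ (z : ℂ) (s : ℝ), ‖z‖ < 4 ∧ 1 / 2 ≤ |s| ∧
      |s| < 1 ∧ κ (l, v, t) = b (z, s, t) := by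
    intro l v t hv ho hl
    obtain ⟨v', hv', he⟩ := n5 l hl v t hv
    obtain ⟨δ, ε, c, k, hty⟩ := Bnd_ty_ex ε₁ ε₂ hl
    obtain ⟨q1, q2, q3⟩ := Bnd_ty_box hσ s1 s2 hty hv'
    rw [Bnd_ty_eq b σ hty] at he
    refine ⟨_, _, ?_, ?_, q3, he⟩
    · linarith
    · rw [q2]
      have : 1 / 16 ≤ |l - c - k| := by
        rcases hty.1 with ⟨-, -, rfl⟩ | ⟨-, -, rfl⟩
        · exact (ho k).1
        · exact (ho k).2
      linarith
  refine ⟨κ, φ, σ, hσ, n2, ?_, f1, f2, f3, ?_, fun u hu => f4 u (hu.trans (by norm_num)),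
    fun u hu => f5 u (hu.trans (by norm_num)), ?_, ?_⟩
  · refine ⟨n1, ⟨?_, ?_, ?_⟩, s1, s2, ?_, ?_, ?_⟩
    · intro z s t
      exact hb.per _ _ _
    · intro z s t hz hs'
      have hg : IsLocalDiffeomorphAt 𝓘(ℝ, ℂ × ℝ × ℝ) 𝓘(ℝ, ℂ × ℝ × ℝ) ∞
          (fun q : ℂ × ℝ × ℝ => ((cj σ q.1, q.2.1 / 2, q.2.2) : ℂ × ℝ × ℝ)) (z, s, t) := by
        have hc1 := RSG.cj_smooth σ
        refine RSG.ld_two (g := fun q : ℂ × ℝ × ℝ => ((cj σ q.1, 2 * q.2.1, q.2.2) : ℂ × ℝ × ℝ))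
          (Eventually.of_forall fun y => ?_) (Eventually.of_forall fun y => ?_)
          (Eventually.of_forall fun y => ?_) (Eventually.of_forall fun y => ?_)
        · apply ContDiffAt.contMDiffAt
          apply ContDiff.contDiffAt
          fun_prop
        · apply ContDiffAt.contMDiffAt
          apply ContDiff.contDiffAt
          fun_prop
        · obtain ⟨z, s, t⟩ := y
          simp only
          rw [RSG.cj_cj hσ, mul_div_cancel₀ _ (by norm_num : (2 : ℝ) ≠ 0)]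
        · obtain ⟨z, s, t⟩ := y
          simp only
          rw [RSG.cj_cj hσ, mul_div_cancel_left₀ _ (by norm_num : (2 : ℝ) ≠ 0)]
      have hloc : IsLocalDiffeomorphAt 𝓘(ℝ, ℂ × ℝ × ℝ) PTH.ISP ∞ b
          ((fun q : ℂ × ℝ × ℝ => ((cj σ q.1, q.2.1 / 2, q.2.2) : ℂ × ℝ × ℝ)) (z, s, t)) := by
        apply hb.loc
        · simp only; rw [RSG.cj_norm hσ]; linarith
        · simp only; rw [abs_div, abs_of_pos (by norm_num : (0 : ℝ) < 2)]; linarith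
      exact IsLocalDiffeomorphAt.comp (hf := hg) (hg := hloc) ..
    · intro z s t z' s' t' hz hs' hz' hs'' h
      obtain ⟨r1, r2, r3⟩ := hb.inj _ _ _ _ _ _ (by rw [RSG.cj_norm hσ]; linarith)
        (by rw [abs_div, abs_of_pos (by norm_num : (0 : ℝ) < 2)]; linarith)
        (by rw [RSG.cj_norm hσ]; linarith)
        (by rw [abs_div, abs_of_pos (by norm_num : (0 : ℝ) < 2)]; linarith) h
      refine ⟨?_, by linarith, r3⟩
      rw [← RSG.cj_cj hσ z, r1, RSG.cj_cj hσ]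
    · intro l v t hl hv
      rw [win₁ l v t hl hv]
      simp only [half]
      congr 3
      ring
    · intro l v t hl hv
      rw [win₂ l v t hl hv]
      simp only [half]
      congr 3
      ring
    · intro l v t hv ho z s t' hz hs' he
      by_cases hl : l ∈ Bnd_U
      · obtain ⟨z', s'', p1, p2, p3, p4⟩ := hmid l v t hv ho hl
        rw [p4] at he
        have := hb.inj _ _ _ _ _ _ (by linarith) p3 (by rw [RSG.cj_norm hσ]; linarith)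
          (by rw [abs_div, abs_of_pos (by norm_num : (0 : ℝ) < 2)]; linarith) he
        rw [this.2.1, abs_div, abs_of_pos (by norm_num : (0 : ℝ) < 2)] at p2
        linarith
      · apply n6 l hl v t hv
        right
        refine ⟨cj σ z, s / 2, t', ?_, ?_, he⟩
        · rw [RSG.cj_norm hσ]; exact hz.le
        · rw [abs_div, abs_of_pos (by norm_num : (0 : ℝ) < 2)]; linarith
  · intro l
    rw [n3, hcore₃, ha.zero]
  · intro l v t hv ho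
    by_cases hl : l ∈ Bnd_U
    · obtain ⟨z', s'', p1, p2, p3, p4⟩ := hmid l v t hv ho hl
      exact Or.inr ⟨z', s'', t, p1, p2, p3, p4⟩
    · left
      intro h
      exact n6 l hl v t hv (Or.inl h)
  · intro X _ _ n j hD
    obtain ⟨D⟩ := hD
    exact n7 X n j (m5 X n j (rep hκ₀ f1 f2 f3 D))

end Pool.Agent.COR
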