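import Pool.Agent.COR.Defs

/-!
# COR/Cmp: monotone functions with prescribed pieces   (difficulty 2)

* `exists_prim`: a smooth function has a smooth primitive: `c x = ∫_0^x p` (`intervalIntegral.integral_hasDerivAt_right`, `contDiff_infty_iff_deriv`).
* `exists_compress`: the map `v ↦ g (‖v‖²) v` is the identity near `0` and maps the unit disc into the disc of radius `ε`, with increasing radial part.  Put `x = ‖v‖²`; let `h x` be the primitive of
  `p x = 1 - (1 - m) stp (ε²/4) (ε²/2) x` with `m = ε² / 8` (or smaller than `1`; if `ε ≥ 1` replace `ε` by `1/2`), so `h x = x` for `x ≤ ε²/4`, `h' ≥ m > 0` (for `m ≤ 1`), `h x ≤ ε²/2 + m (x - ..)`, so `h x < ε²` for `x ≤ 1`,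
  and `h > 0` on `x > 0`.  `g x = 1` for `x ≤ ε²/8`, `g x = sqrt (h x / x)` otherwise.  `g x ^ 2 * x = h x`; differentiate: `g (g + 2 x g') = h' > 0`.
* `exists_connect`: let `p = χ₁ f' + χ₂ g' + c χ₃` with smooth cutoffs: `χ₁ = 1` on `x ≤ a`, `0` for `x ≥ a + δ`, `χ₂ = 1` on `x ≥ b`, `0` for `x ≤ b - δ`, `χ₃ = (1 - χ₁)(1 - χ₂) ≥ 0`, positive on `(a, b)`; for `δ` small `f' > 0` on `[a, a + δ]`, `g' > 0` on
  `[b - δ, b]` and `∫_a^{a+δ} |f'| + ∫_{b-δ}^b |g'| < g b - f a`; choose `c > 0` such that `∫_a^b p = g b - f a` (`∫_a^b χ₃ > 0`).  `φ x = f a + ∫_a^x p`.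
* `exists_phi`: with `F₁ l = f₁ (8 (l - 1/4))`, `F₂ l = f₂ (8 (l - 3/4))`, `F₃ l = F₁ (l - 1) + 1`: connect `F₁` (`l ≤ 11/32 + 1/64`) with `F₂` (`l ≥ 21/32 - 1/64`) to `G`, then `G` (`l ≤ 27/32 + 1/64`) with `F₃` (`l ≥ 37/32 - 1/64`) to `G'`; `φ l = G' (l - k) + k`
  for `k = ⌊l - 3/16⌋` (then `l - k ∈ [3/16, 19/16)`; near the ends of this interval `G'` is `F₁`, resp. `F₃ = F₁ (· - 1) + 1`, so `φ` is smooth and `φ (l + 1) = φ l + 1`).
-/

open scoped Manifold ContDiff Topology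
open Set Filter

namespace Pool.Agent.COR

open Pool.Agent.CSG (stp)

theorem exists_prim {p : ℝ → ℝ} (hp : ContDiff ℝ ∞ p) :
    ∃ c : ℝ → ℝ, ContDiff ℝ ∞ c ∧ c 0 = 0 ∧ ∀ x, HasDerivAt c (p x) x := by
  have h1 : ∀ x, HasDerivAt (fun u => ∫ t in (0 : ℝ)..u, p t) (p x) x := fun x =>
    (hp.continuous.integral_hasStrictDerivAt 0 x).hasDerivAt
  refine ⟨fun u => ∫ t in (0 : ℝ)..u, p t, ?_, ?_, h1⟩
  · rw [contDiff_infty_iff_deriv]
    refine ⟨fun x => (h1 x).differentiableAt, ?_⟩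
    have h2 : deriv (fun u => ∫ t in (0 : ℝ)..u, p t) = p := by
      funext x
      exact (h1 x).deriv
    rw [h2]
    exact hp
  · simp

/-- zero derivative on a convex set -/
theorem Cmp_const {f f' : ℝ → ℝ} {s : Set ℝ} (hs : Convex ℝ s) (hf : ∀ x, HasDerivAt f (f' x) x)
    (h0 : ∀ x ∈ s, f' x = 0) {x y : ℝ} (hx : x ∈ s) (hy : y ∈ s) : f y = f x := by
  have h1 := Convex.norm_image_sub_le_of_norm_hasDerivWithin_le (f := f) (f' := f') (C := 0)
    (s := s) (fun x _ => (hf x).hasDerivWithinAt) (fun x hx => by rw [h0 x hx, norm_zero]) hs hx hy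
  rw [zero_mul] at h1
  have h2 := norm_le_zero_iff.1 h1
  linarith

theorem Cmp_Q {δ : ℝ} (hδ : 0 < δ) : ∃ Q : ℝ → ℝ, ContDiff ℝ ∞ Q ∧ (∀ x, x ≤ δ → Q x = 0) ∧
    (∀ x, 0 ≤ Q x) ∧ (∀ x, HasDerivAt Q (stp δ (2 * δ) x / x) x) ∧
      ∀ x, x * Real.exp (-Q x) ≤ 2 * δ := by
  have hδ2 : δ < 2 * δ := by linarith
  have hp : ContDiff ℝ ∞ fun x => stp δ (2 * δ) x / x := by
    rw [contDiff_iff_contDiffAt]
    intro x
    rcases lt_or_ge x δ with hx | hx
    · refine (contDiffAt_const (c := (0 : ℝ))).congr_of_eventuallyEq ?_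
      filter_upwards [Iio_mem_nhds hx] with y hy
      rw [Pool.Agent.CSG.stp_zero hδ2 (le_of_lt hy), zero_div]
    · have hx0 : x ≠ 0 := by
        intro h
        linarith
      exact (Pool.Agent.CSG.stp_smooth _ _).contDiffAt.div contDiffAt_id hx0
  obtain ⟨Q, hQ, hQ0, hQd⟩ := exists_prim hp
  have hp0 : ∀ x, 0 ≤ stp δ (2 * δ) x / x := by
    intro x
    rcases le_or_gt x 0 with hx | hx
    · rw [Pool.Agent.CSG.stp_zero hδ2 (by linarith), zero_div]
    · exact div_nonneg (Pool.Agent.CSG.stp_nonneg _ _ _) hx.le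
  have hmono : Monotone Q := monotone_of_deriv_nonneg (fun x => (hQd x).differentiableAt)
    (fun x => by rw [(hQd x).deriv]; exact hp0 x)
  have hz : ∀ x, x ≤ δ → Q x = 0 := by
    intro x hx
    rw [← hQ0]
    refine Cmp_const (s := Iic δ) (convex_Iic δ) hQd ?_ (mem_Iic.2 hδ.le) (mem_Iic.2 hx)
    intro y hy
    rw [Pool.Agent.CSG.stp_zero hδ2 (mem_Iic.1 hy), zero_div]
  have hn : ∀ x, 0 ≤ Q x := by
    intro x
    rcases le_total x δ with hx | hx
    · rw [hz x hx]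
    · rw [← hz δ le_rfl]
      exact hmono hx
  have hsmall : ∀ x, x ≤ 2 * δ → x * Real.exp (-Q x) ≤ 2 * δ := by
    intro x hx
    have h1 : Real.exp (-Q x) ≤ 1 := Real.exp_le_one_iff.2 (by linarith [hn x])
    have h2 := Real.exp_pos (-Q x)
    rcases le_or_gt x 0 with h3 | h3
    · nlinarith
    · nlinarith
  refine ⟨Q, hQ, hz, hn, hQd, fun x => ?_⟩
  rcases le_or_gt x (2 * δ) with hx | hx
  · exact hsmall x hx
  · have hd : ∀ y, HasDerivAt (fun y => y * Real.exp (-Q y))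
        (1 * Real.exp (-Q y) + y * (Real.exp (-Q y) * (-(stp δ (2 * δ) y / y)))) y := fun y =>
      (hasDerivAt_id y).mul ((hQd y).neg.exp)
    have h1 : x * Real.exp (-Q x) = (2 * δ) * Real.exp (-Q (2 * δ)) := by
      refine Cmp_const (s := Ici (2 * δ)) (convex_Ici _) hd ?_ (mem_Ici.2 le_rfl)
        (mem_Ici.2 hx.le)
      intro y hy
      have hy' : 2 * δ ≤ y := hy
      have hy0 : y ≠ 0 := by
        intro h
        linarith
      rw [Pool.Agent.CSG.stp_one hδ2 hy']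
      field_simp
      ring
    rw [h1]
    exact hsmall _ le_rfl

theorem Cmp_xp {δ : ℝ} (hδ : 0 < δ) (x : ℝ) : x * (stp δ (2 * δ) x / x) = stp δ (2 * δ) x := by
  rcases eq_or_ne x 0 with h | h
  · rw [h, Pool.Agent.CSG.stp_zero (by linarith) hδ.le]
    simp
  · field_simp

theorem exists_compress {ε : ℝ} (hε : 0 < ε) :
    ∃ g : ℝ → ℝ, ContDiff ℝ ∞ g ∧ (∃ δ : ℝ, 0 < δ ∧ ∀ x, x ≤ δ → g x = 1) ∧ (∀ x, 0 < g x ∧ g x ≤ 1) ∧
      (∀ x, 0 ≤ x → x ≤ 1 → g x ^ 2 * x < ε ^ 2) ∧ (∀ x, 0 ≤ x → 0 < g x + 2 * x * deriv g x) := by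
  have hε4 : 0 < ε ^ 4 := by positivity
  have hδ : 0 < ε ^ 4 / 4 := by positivity
  obtain ⟨Q, hQ, hz, hn, hd, hb⟩ := Cmp_Q hδ
  have hgd : ∀ x, HasDerivAt (fun x => Real.exp (-Q x / 4))
      (Real.exp (-Q x / 4) * (-(stp (ε ^ 4 / 4) (2 * (ε ^ 4 / 4)) x / x) / 4)) x := fun x =>
    ((hd x).neg.div_const 4).exp
  refine ⟨fun x => Real.exp (-Q x / 4), ?_, ⟨_, hδ, ?_⟩, ?_, ?_, ?_⟩
  · exact (hQ.neg.div_const 4).exp
  · intro x hx
    simp only [hz x hx]
    simp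
  · intro x
    refine ⟨Real.exp_pos _, Real.exp_le_one_iff.2 ?_⟩
    have := hn x
    linarith
  · intro x h0 h1
    have e1 : (Real.exp (-Q x / 4)) ^ 4 = Real.exp (-Q x) := by
      rw [← Real.exp_nat_mul]
      congr 1
      push_cast
      ring
    have e2 : ((Real.exp (-Q x / 4)) ^ 2 * x) ^ 2 = (x * Real.exp (-Q x)) * x := by
      rw [← e1]
      ring
    have e3 : ((Real.exp (-Q x / 4)) ^ 2 * x) ^ 2 < (ε ^ 2) ^ 2 := by
      rw [e2]
      have h2 := hb x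
      have h3 : (ε ^ 2) ^ 2 = ε ^ 4 := by ring
      rw [h3]
      have h4 : 0 ≤ x * Real.exp (-Q x) := mul_nonneg h0 (Real.exp_pos _).le
      nlinarith
    exact lt_of_pow_lt_pow_left₀ 2 (by positivity) e3
  · intro x h0
    rw [(hgd x).deriv]
    have e1 := Cmp_xp hδ x
    have e2 : Real.exp (-Q x / 4) + 2 * x * (Real.exp (-Q x / 4) *
        (-(stp (ε ^ 4 / 4) (2 * (ε ^ 4 / 4)) x / x) / 4)) =
        Real.exp (-Q x / 4) * (1 - stp (ε ^ 4 / 4) (2 * (ε ^ 4 / 4)) x / 2) := by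
      linear_combination (-(Real.exp (-Q x / 4)) / 2) * e1
    simp only [e2]
    have e3 := Pool.Agent.CSG.stp_le_one (ε ^ 4 / 4) (2 * (ε ^ 4 / 4)) x
    exact mul_pos (Real.exp_pos _) (by linarith)

theorem Cmp_K {N η : ℝ} (hN : 0 < N) (hη : 0 < η) : ∃ K : ℝ → ℝ, ContDiff ℝ ∞ K ∧
    (∀ v, v ≤ 0 → K v = v) ∧ (∀ v, 0 < deriv K v) ∧ (∀ v, v ≤ N → K v < η) ∧
      ∀ v, 0 ≤ v → 0 ≤ K v := by
  have hδ : 0 < η ^ 2 / (4 * N) := by positivity
  obtain ⟨Q, hQ, hz, hn, hd, hb⟩ := Cmp_Q hδ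
  have hKd : ∀ x, HasDerivAt (fun x => x * Real.exp (-Q x / 2))
      (1 * Real.exp (-Q x / 2) + x * (Real.exp (-Q x / 2) *
        (-(stp (η ^ 2 / (4 * N)) (2 * (η ^ 2 / (4 * N))) x / x) / 2))) x := fun x =>
    (hasDerivAt_id x).mul (((hd x).neg.div_const 2).exp)
  have hK0 : ∀ v, v ≤ 0 → v * Real.exp (-Q v / 2) = v := by
    intro v hv
    rw [hz v (by linarith)]
    simp
  have hK1 : ∀ v, 0 ≤ v → 0 ≤ v * Real.exp (-Q v / 2) := fun v hv =>
    mul_nonneg hv (Real.exp_pos _).le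
  refine ⟨fun x => x * Real.exp (-Q x / 2), ?_, hK0, ?_, ?_, hK1⟩
  · exact contDiff_id.mul ((hQ.neg.div_const 2).exp)
  · intro x
    rw [(hKd x).deriv]
    have e1 := Cmp_xp hδ x
    have e2 : 1 * Real.exp (-Q x / 2) + x * (Real.exp (-Q x / 2) *
        (-(stp (η ^ 2 / (4 * N)) (2 * (η ^ 2 / (4 * N))) x / x) / 2)) =
        Real.exp (-Q x / 2) * (1 - stp (η ^ 2 / (4 * N)) (2 * (η ^ 2 / (4 * N))) x / 2) := by
      linear_combination (-(Real.exp (-Q x / 2)) / 2) * e1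
    rw [e2]
    have e3 := Pool.Agent.CSG.stp_le_one (η ^ 2 / (4 * N)) (2 * (η ^ 2 / (4 * N))) x
    exact mul_pos (Real.exp_pos _) (by linarith)
  · intro v hv
    rcases le_or_gt v 0 with h0 | h0
    · change v * Real.exp (-Q v / 2) < η
      rw [hK0 v h0]
      linarith
    · have e1 : (Real.exp (-Q v / 2)) ^ 2 = Real.exp (-Q v) := by
        rw [← Real.exp_nat_mul]
        congr 1
        push_cast
        ring
      have e2 : (v * Real.exp (-Q v / 2)) ^ 2 = (v * Real.exp (-Q v)) * v := by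
        rw [← e1]
        ring
      have e3 : (v * Real.exp (-Q v / 2)) ^ 2 < η ^ 2 := by
        rw [e2]
        have h2 := hb v
        have h4 : 0 ≤ v * Real.exp (-Q v) := mul_nonneg h0.le (Real.exp_pos _).le
        have h5 : 2 * (η ^ 2 / (4 * N)) * N = η ^ 2 / 2 := by
          field_simp
          ring
        have h6 : (v * Real.exp (-Q v)) * v ≤ 2 * (η ^ 2 / (4 * N)) * N :=
          mul_le_mul h2 hv h0.le (by positivity)
        have h7 : 0 < η ^ 2 := by positivity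
        linarith
      exact lt_of_pow_lt_pow_left₀ 2 hη.le e3

theorem Cmp_A {f : ℝ → ℝ} (hf : ContDiff ℝ ∞ f) {a b M : ℝ} (hab : a < b)
    (hfa : ∀ x ≤ a, 0 < deriv f x) (hM : f a < M) :
    ∃ F : ℝ → ℝ, ContDiff ℝ ∞ F ∧ (∀ x ≤ a, F x = f x) ∧ (∀ x ≤ b, 0 < deriv F x) ∧
      ∀ x, a ≤ x → x ≤ b → F x < M := by
  have hc : Continuous (deriv f) := hf.continuous_deriv (by simp)
  have h1 : ∀ᶠ x in 𝓝 a, 0 < deriv f x ∧ f x < M :=
    (hc.continuousAt.eventually (lt_mem_nhds (hfa a le_rfl))).and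
      (hf.continuous.continuousAt.eventually (gt_mem_nhds hM))
  obtain ⟨η, hη, hball⟩ := Metric.eventually_nhds_iff.1 h1
  obtain ⟨K, hK, hK0, hKd, hKb, hKn⟩ := Cmp_K (N := b - a) (η := η) (by linarith) hη
  have hk : ContDiff ℝ ∞ fun x => a + K (x - a) := contDiff_const.add (hK.comp (contDiff_id.sub contDiff_const))
  have hkd : ∀ x, HasDerivAt (fun x => a + K (x - a)) (deriv K (x - a)) x := by
    intro x
    have h2 : HasDerivAt K (deriv K (x - a)) (x - a) :=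
      (hK.differentiable (by simp)).differentiableAt.hasDerivAt
    have h3 := (h2.comp x ((hasDerivAt_id x).sub_const a)).const_add a
    simpa using h3
  have hfd : ∀ y, HasDerivAt f (deriv f y) y := fun y =>
    (hf.differentiable (by simp)).differentiableAt.hasDerivAt
  refine ⟨fun x => f (a + K (x - a)), hf.comp hk, ?_, ?_, ?_⟩
  · intro x hx
    simp only [hK0 (x - a) (by linarith)]
    congr 1
    ring
  · intro x hx
    have h3 : HasDerivAt (fun x => f (a + K (x - a)))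
        (deriv f (a + K (x - a)) * deriv K (x - a)) x := (hfd _).comp x (hkd x)
    rw [h3.deriv]
    refine mul_pos ?_ (hKd _)
    rcases le_or_gt x a with h4 | h4
    · apply hfa
      rw [hK0 (x - a) (by linarith)]
      linarith
    · have h5 := hKb (x - a) (by linarith)
      have h6 := hKn (x - a) (by linarith)
      refine (hball ?_).1
      rw [Real.dist_eq, abs_of_nonneg (by linarith)]
      linarith
  · intro x hx1 hx2
    have h5 := hKb (x - a) (by linarith)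
    have h6 := hKn (x - a) (by linarith)
    refine (hball ?_).2
    rw [Real.dist_eq, abs_of_nonneg (by linarith)]
    linarith

theorem Cmp_B {g : ℝ → ℝ} (hg : ContDiff ℝ ∞ g) {a b M : ℝ} (hab : a < b)
    (hgb : ∀ x, b ≤ x → 0 < deriv g x) (hM : M < g b) :
    ∃ G : ℝ → ℝ, ContDiff ℝ ∞ G ∧ (∀ x, b ≤ x → G x = g x) ∧ (∀ x, a ≤ x → 0 < deriv G x) ∧
      ∀ x, a ≤ x → x ≤ b → M < G x := by
  have hd : ∀ (u : ℝ → ℝ), ContDiff ℝ ∞ u → ∀ x, HasDerivAt (fun x => -u (-x)) (deriv u (-x)) x := by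
    intro u hu x
    have h2 : HasDerivAt u (deriv u (-x)) (-x) :=
      (hu.differentiable (by simp)).differentiableAt.hasDerivAt
    have h3 := (h2.comp x (hasDerivAt_neg x)).neg
    have e : -(deriv u (-x) * -1) = deriv u (-x) := by ring
    rw [e] at h3
    exact h3
  obtain ⟨F, hF, h1, h2, h3⟩ := Cmp_A (f := fun x => -g (-x)) (a := -b) (b := -a) (M := -M)
    (hg.comp contDiff_neg).neg (by linarith)
    (fun x hx => by rw [(hd g hg x).deriv]; exact hgb _ (by linarith))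
    (by simp only [neg_neg]; linarith)
  refine ⟨fun x => -F (-x), (hF.comp contDiff_neg).neg, ?_, ?_, ?_⟩
  · intro x hx
    have h4 := h1 (-x) (by linarith)
    simp only [neg_neg] at h4
    linarith
  · intro x hx
    rw [(hd F hF x).deriv]
    exact h2 _ (by linarith)
  · intro x hx1 hx2
    have h4 := h3 (-x) (by linarith) (by linarith)
    linarith

theorem exists_connect {f g : ℝ → ℝ} (hf : ContDiff ℝ ∞ f) (hg : ContDiff ℝ ∞ g) {a b : ℝ}
    (hab : a < b) (hfa : ∀ x ≤ a, 0 < deriv f x) (hgb : ∀ x, b ≤ x → 0 < deriv g x)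
    (h : f a < g b) :
    ∃ φ : ℝ → ℝ, ContDiff ℝ ∞ φ ∧ (∀ x, 0 < deriv φ x) ∧ (∀ x ≤ a, φ x = f x) ∧
      (∀ x, b ≤ x → φ x = g x) := by
  obtain ⟨F, hF, hF1, hF2, hF3⟩ := Cmp_A (M := (f a + g b) / 2) hf hab hfa (by linarith)
  obtain ⟨G, hG, hG1, hG2, hG3⟩ := Cmp_B (M := (f a + g b) / 2) hg hab hgb (by linarith)
  have hs := Pool.Agent.CSG.stp_smooth a b
  have hD : ∀ u : ℝ → ℝ, ContDiff ℝ ∞ u → ∀ x, HasDerivAt u (deriv u x) x := fun u hu x =>
    (hu.differentiable (by simp)).differentiableAt.hasDerivAt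
  refine ⟨fun x => F x + stp a b x * (G x - F x), hF.add (hs.mul (hG.sub hF)), ?_, ?_, ?_⟩
  · intro x
    have h1 : HasDerivAt (fun x => F x + stp a b x * (G x - F x))
        (deriv F x + (deriv (stp a b) x * (G x - F x) + stp a b x * (deriv G x - deriv F x))) x :=
      (hD F hF x).add ((hD _ hs x).mul ((hD G hG x).sub (hD F hF x)))
    rw [h1.deriv]
    have h2 := Pool.Agent.CSG.stp_nonneg a b x
    have h3 := Pool.Agent.CSG.stp_le_one a b x
    have h4 : 0 ≤ deriv (stp a b) x * (G x - F x) := by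
      rcases lt_or_ge x a with h5 | h5
      · have h6 : stp a b =ᶠ[𝓝 x] fun _ => 0 := by
          filter_upwards [Iio_mem_nhds h5] with y hy
          exact Pool.Agent.CSG.stp_zero hab (le_of_lt hy)
        rw [h6.deriv_eq, deriv_const, zero_mul]
      · rcases lt_or_ge b x with h6 | h6
        · have h7 : stp a b =ᶠ[𝓝 x] fun _ => 1 := by
            filter_upwards [Ioi_mem_nhds h6] with y hy
            exact Pool.Agent.CSG.stp_one hab (le_of_lt hy)
          rw [h7.deriv_eq, deriv_const, zero_mul]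
        · have h7 := hF3 x h5 h6
          have h8 := hG3 x h5 h6
          exact mul_nonneg (Pool.Agent.CSG.stp_deriv_nonneg hab x) (by linarith)
    have h5 : 0 < (1 - stp a b x) * deriv F x + stp a b x * deriv G x := by
      rcases le_or_gt x a with h6 | h6
      · rw [Pool.Agent.CSG.stp_zero hab h6]
        have := hF2 x (by linarith)
        linarith
      · rcases le_or_gt b x with h7 | h7
        · rw [Pool.Agent.CSG.stp_one hab h7]
          have := hG2 x (by linarith)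
          linarith
        · have h8 := hF2 x h7.le
          have h9 := hG2 x h6.le
          have h10 := Pool.Agent.CSG.stp_lt_one hab h7
          have h11 : 0 < (1 - stp a b x) * deriv F x := mul_pos (by linarith) h8
          have h12 : 0 ≤ stp a b x * deriv G x := mul_nonneg h2 h9.le
          linarith
    nlinarith
  · intro x hx
    change F x + stp a b x * (G x - F x) = f x
    rw [Pool.Agent.CSG.stp_zero hab hx, hF1 x hx]
    ring
  · intro x hx
    change F x + stp a b x * (G x - F x) = g x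
    rw [Pool.Agent.CSG.stp_one hab hx, hG1 x hx]
    ring

theorem exists_phi {f₁ f₂ : ℝ → ℝ} (h₁ : ContDiff ℝ ∞ f₁) (h₂ : ContDiff ℝ ∞ f₂)
    (d₁ : ∀ u, 0 < deriv f₁ u) (d₂ : ∀ u, 0 < deriv f₂ u) (o₁ : f₁ 1 < f₂ (-1))
    (o₂ : f₂ 1 < f₁ (-1) + 1) :
    ∃ φ : ℝ → ℝ, ContDiff ℝ ∞ φ ∧ (∀ l, φ (l + 1) = φ l + 1) ∧ (∀ l, 0 < deriv φ l) ∧
      (∀ u, |u| ≤ 3 / 32 → φ (1 / 4 + u) = f₁ (8 * u)) ∧
      (∀ u, |u| ≤ 3 / 32 → φ (3 / 4 + u) = f₂ (8 * u)) := by
  have m₁ : StrictMono f₁ := strictMono_of_deriv_pos d₁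
  have m₂ : StrictMono f₂ := strictMono_of_deriv_pos d₂
  -- affine reparametrisations
  have hD : ∀ u : ℝ → ℝ, ContDiff ℝ ∞ u → ∀ x, HasDerivAt u (deriv u x) x := fun u hu x =>
    (hu.differentiable (by simp)).differentiableAt.hasDerivAt
  have hA : ∀ (u : ℝ → ℝ), ContDiff ℝ ∞ u → (∀ x, 0 < deriv u x) → ∀ (q r : ℝ),
      ContDiff ℝ ∞ (fun l => u (8 * (l - q)) + r) ∧ ∀ l, 0 < deriv (fun l => u (8 * (l - q)) + r) l := by
    intro u hu hd q r
    refine ⟨(hu.comp (contDiff_const.mul (contDiff_id.sub contDiff_const))).add contDiff_const,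
      fun l => ?_⟩
    have h1 : HasDerivAt (fun l : ℝ => 8 * (l - q)) 8 l := by
      have h3 := ((hasDerivAt_id l).sub_const q).const_mul (8 : ℝ)
      simpa using h3
    have h2 : HasDerivAt (fun l => u (8 * (l - q)) + r) (deriv u (8 * (l - q)) * 8) l :=
      ((hD u hu (8 * (l - q))).comp l h1).add_const r
    rw [h2.deriv]
    have := hd (8 * (l - q))
    linarith
  obtain ⟨a1, a2⟩ := hA f₁ h₁ d₁ (1 / 4) 0
  obtain ⟨b1, b2⟩ := hA f₂ h₂ d₂ (3 / 4) 0
  obtain ⟨c1, c2⟩ := hA f₁ h₁ d₁ (5 / 4) 1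
  obtain ⟨G, hG, hGd, hG1, hG2⟩ := exists_connect (a := 11 / 32) (b := 21 / 32) a1 b1 (by norm_num)
    (fun x _ => a2 x) (fun x _ => b2 x) (by
      have e1 : f₁ (8 * (11 / 32 - 1 / 4)) < f₁ 1 := m₁ (by norm_num)
      have e2 : f₂ (-1) < f₂ (8 * (21 / 32 - 3 / 4)) := m₂ (by norm_num)
      linarith)
  obtain ⟨Ψ, hΨ, hΨd, hΨ1, hΨ2⟩ := exists_connect (a := 27 / 32) (b := 37 / 32) hG c1 (by norm_num)
    (fun x _ => hGd x) (fun x _ => c2 x) (by
      have e1 : f₂ (8 * (27 / 32 - 3 / 4)) < f₂ 1 := m₂ (by norm_num)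
      have e2 : f₁ (-1) < f₁ (8 * (37 / 32 - 5 / 4)) := m₁ (by norm_num)
      have e3 := hG2 (27 / 32) (by norm_num)
      rw [e3]
      linarith)
  -- the overlap
  have hov : ∀ l, 5 / 32 ≤ l → l ≤ 11 / 32 → Ψ (l + 1) = Ψ l + 1 := by
    intro l g1 g2
    rw [hΨ2 (l + 1) (by linarith), hΨ1 l (by linarith), hG1 l g2]
    have e1 : 8 * (l + 1 - 5 / 4) = 8 * (l - 1 / 4) := by ring
    rw [e1]
    ring
  have hloc : ∀ (k : ℤ) (l : ℝ), 5 / 32 < l - k → l - k < 19 / 16 →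
      Ψ (l - ⌊l - 3 / 16⌋) + ⌊l - 3 / 16⌋ = Ψ (l - k) + k := by
    intro k l g1 g2
    rcases le_or_gt (3 / 16) (l - k) with g3 | g3
    · have e1 : ⌊l - 3 / 16⌋ = k := by
        rw [Int.floor_eq_iff]
        constructor <;> linarith
      rw [e1]
    · have e1 : ⌊l - 3 / 16⌋ = k - 1 := by
        rw [Int.floor_eq_iff]
        push_cast
        constructor <;> linarith
      rw [e1]
      push_cast
      have e2 : l - ((k : ℝ) - 1) = (l - k) + 1 := by ring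
      rw [e2, hov (l - k) g1.le (by linarith)]
      ring
  have hev : ∀ l₀ : ℝ, (fun l : ℝ => Ψ (l - ⌊l - 3 / 16⌋) + ⌊l - 3 / 16⌋) =ᶠ[𝓝 l₀]
      fun l => Ψ (l - ⌊l₀ - 3 / 16⌋) + ⌊l₀ - 3 / 16⌋ := by
    intro l₀
    have g1 := Int.floor_le (l₀ - 3 / 16)
    have g2 := Int.lt_floor_add_one (l₀ - 3 / 16)
    have c : ContinuousAt (fun l : ℝ => l - (⌊l₀ - 3 / 16⌋ : ℝ)) l₀ := by fun_prop
    filter_upwards [c.eventually (lt_mem_nhds (show (5 / 32 : ℝ) < l₀ - ⌊l₀ - 3 / 16⌋ by linarith)),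
      c.eventually (gt_mem_nhds (show l₀ - ⌊l₀ - 3 / 16⌋ < (19 / 16 : ℝ) by linarith))] with l g3 g4
    exact hloc _ l g3 g4
  refine ⟨fun l => Ψ (l - ⌊l - 3 / 16⌋) + ⌊l - 3 / 16⌋, ?_, ?_, ?_, ?_, ?_⟩
  · rw [contDiff_iff_contDiffAt]
    intro l₀
    refine ContDiffAt.congr_of_eventuallyEq ?_ (hev l₀)
    exact ((hΨ.comp (contDiff_id.sub contDiff_const)).add contDiff_const).contDiffAt
  · intro l
    have e1 : ⌊l + 1 - 3 / 16⌋ = ⌊l - 3 / 16⌋ + 1 := by
      rw [← Int.floor_add_one]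
      congr 1
      ring
    simp only [e1]
    push_cast
    have e2 : l + 1 - ((⌊l - 3 / 16⌋ : ℝ) + 1) = l - ⌊l - 3 / 16⌋ := by ring
    rw [e2]
    ring
  · intro l₀
    rw [(hev l₀).deriv_eq]
    have h1 : HasDerivAt (fun l : ℝ => l - (⌊l₀ - 3 / 16⌋ : ℝ)) 1 l₀ :=
      (hasDerivAt_id l₀).sub_const _
    have h2 : HasDerivAt (fun l => Ψ (l - ⌊l₀ - 3 / 16⌋) + (⌊l₀ - 3 / 16⌋ : ℝ))
        (deriv Ψ (l₀ - ⌊l₀ - 3 / 16⌋) * 1) l₀ :=
      ((hD Ψ hΨ (l₀ - ⌊l₀ - 3 / 16⌋)).comp l₀ h1).add_const _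
    rw [h2.deriv, mul_one]
    exact hΨd _
  · intro u hu
    rw [abs_le] at hu
    obtain ⟨u1, u2⟩ := hu
    rcases le_or_gt (3 / 16) (1 / 4 + u) with g3 | g3
    · have e1 : ⌊1 / 4 + u - 3 / 16⌋ = (0 : ℤ) := by
        rw [Int.floor_eq_iff]
        push_cast
        constructor <;> linarith
      simp only [e1]
      push_cast
      rw [sub_zero, add_zero, hΨ1 _ (by linarith), hG1 _ (by linarith), add_zero]
      congr 1
      ring
    · have e1 : ⌊1 / 4 + u - 3 / 16⌋ = (-1 : ℤ) := by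
        rw [Int.floor_eq_iff]
        push_cast
        constructor <;> linarith
      simp only [e1]
      push_cast
      have e2 : 1 / 4 + u - (-1) = (1 / 4 + u) + 1 := by ring
      rw [e2, hov _ (by linarith) (by linarith), hΨ1 _ (by linarith), hG1 _ (by linarith), add_zero]
      have e3 : 8 * (1 / 4 + u - 1 / 4) = 8 * u := by ring
      rw [e3]
      ring
  · intro u hu
    rw [abs_le] at hu
    obtain ⟨u1, u2⟩ := hu
    have e1 : ⌊3 / 4 + u - 3 / 16⌋ = (0 : ℤ) := by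
      rw [Int.floor_eq_iff]
      push_cast
      constructor <;> linarith
    simp only [e1]
    push_cast
    rw [sub_zero, add_zero, hΨ1 _ (by linarith), hG2 _ (by linarith), add_zero]
    congr 1
    ring

end Pool.Agent.COR
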