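import Pool.Agent.COR.GRc
import Pool.Agent.COR.Kmv
import Pool.Agent.COR.Lft
import Pool.Agent.COR.Lga
import Pool.Agent.COR.Ger
import Pool.Agent.RSG.LDc
import Pool.Agent.RSG.ExM

/-!
# COR/CorA: two thick tori with the same core   (difficulty 3)

`core_pos`: assume that the transition map has positive determinant at some `l₀`.  `exists_lft` with `U = ℝ`, `ς = 1`, gives `lam, om, tau` (globally), with `dv om l` injective for all `l`; `dt (dv om l)` is continuous,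
nonzero (`dt L = 0` implies that `L 1, L i` are dependent, so `L` is not injective), and positive at `l₀` (compare with the germ in `PosAt`: both `om`s agree near `(l₀, 0)` because `κ` is injective near the point,
modulo integers; continuity at `(l₀, 0)`), so positive everywhere (intermediate value theorem).
`exists_log_loop` gives `k, A, b`.  For `κ'' (l, v, t) = κ' (l, v ex (k φ l), t)`: `κ'' (l, v, t) = κ (lam'' (l, v), om'' (l, v), t + tau'' (l, v))` with `lam'' (l, v) = lam (l, v ex (kφ l))` etc., for `‖v‖ ≤ ε`; put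
`E (l, v) = om'' (l, v) - lin (A l) (b l) v`: `E (l, 0) = 0`, `dv E l = 0`.  `exists_germ` (`R = 1/2`) gives `H`, `kap_move` gives `F` with `F (κ q) = κ (H q)`, so `F ∘ κ = κ''` for small `‖v‖`.
`TwinP_diffeo`, `ThickT_diffeo`, `germ`.  (`κ''` is thick: compose with the diffeomorphism `(l, v, t) ↦ (l, v ex (k φ l), t)`.)
`core_eq`: if `dt > 0` is false everywhere use `κ' (l, conj v, t)`: its `om` is `om (l, conj v)`, the determinant changes the sign.
-/

open scoped Manifold ContDiff Topology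
open Set Filter
open Complex (I)
open Pool.Agent.RSG (E4 ex cj ex_add ex_add_int ex_norm ex_smooth ex_zero)

namespace Pool.Agent.COR

open Pool.Agent.RBM (ThickT TwinP OnT)

universe u

theorem CorA_dv {om : ℝ × ℂ → ℂ} (hom : ContDiff ℝ ∞ om) (l : ℝ) (c : ℂ) :
    HasFDerivAt (fun v : ℂ => om (l, v)) ((fderiv ℝ om (l, c)).comp (ContinuousLinearMap.inr ℝ ℝ ℂ)) c := by
  have h1 : HasFDerivAt om (fderiv ℝ om (l, c)) (l, c) :=
    ((hom.differentiable (by simp)) (l, c)).hasFDerivAt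
  exact h1.comp c (hasFDerivAt_prodMk_right l c)

theorem CorA_dv_eq {om : ℝ × ℂ → ℂ} (hom : ContDiff ℝ ∞ om) (l : ℝ) :
    dv om l = (fderiv ℝ om (l, 0)).comp (ContinuousLinearMap.inr ℝ ℝ ℂ) :=
  (CorA_dv hom l 0).fderiv

theorem CorA_cont {om : ℝ × ℂ → ℂ} (hom : ContDiff ℝ ∞ om) :
    Continuous fun l => dt (dv om l) := by
  have h1 : Continuous fun l : ℝ => fderiv ℝ om (l, (0 : ℂ)) :=
    (hom.continuous_fderiv (by simp)).comp (by fun_prop)
  have h2 : ∀ w : ℂ, Continuous fun l => dv om l w := by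
    intro w
    have : (fun l => dv om l w) = fun l => fderiv ℝ om (l, (0 : ℂ)) (0, w) := by
      funext l
      rw [CorA_dv_eq hom]
      rfl
    rw [this]
    exact h1.clm_apply continuous_const
  unfold dt
  exact Complex.continuous_im.comp ((Complex.continuous_conj.comp (h2 1)).mul (h2 I))

theorem CorA_dt_ne {L : ℂ →L[ℝ] ℂ} (h : ∀ w, L w = 0 → w = 0) : dt L ≠ 0 := by
  intro h0
  have hL1 : L 1 ≠ 0 := fun h1 => one_ne_zero (h 1 h1)
  have hn : Complex.normSq (L 1) ≠ 0 := fun h1 => hL1 (Complex.normSq_eq_zero.1 h1)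
  set r : ℝ := ((starRingEnd ℂ) (L 1) * L I).re with hr
  have e1 : (starRingEnd ℂ) (L 1) * L I = (r : ℂ) := by
    apply Complex.ext
    · simp [hr]
    · simpa [dt] using h0
  have e2 : L I = ((r / Complex.normSq (L 1) : ℝ) : ℂ) * L 1 := by
    have e3 : (starRingEnd ℂ) (L 1) * L 1 = (Complex.normSq (L 1) : ℂ) := by
      rw [mul_comm, Complex.mul_conj]
    have hc : (starRingEnd ℂ) (L 1) ≠ 0 := by
      intro h1
      apply hL1
      have := congrArg (starRingEnd ℂ) h1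
      simpa using this
    apply mul_left_cancel₀ hc
    rw [e1]
    have : (starRingEnd ℂ) (L 1) * (((r / Complex.normSq (L 1) : ℝ) : ℂ) * L 1) =
        ((r / Complex.normSq (L 1) : ℝ) : ℂ) * ((starRingEnd ℂ) (L 1) * L 1) := by ring
    rw [this, e3, ← Complex.ofReal_mul, div_mul_cancel₀ _ hn]
  have e4 : L (I - (r / Complex.normSq (L 1)) • (1 : ℂ)) = 0 := by
    rw [map_sub, map_smul, e2, Complex.real_smul, sub_self]
  have e5 := h _ e4
  have e6 := congrArg Complex.im e5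
  simp at e6

section
variable {EP : Type*} [NormedAddCommGroup EP] [NormedSpace ℝ EP] {HP : Type*} [TopologicalSpace HP]
  {IP : ModelWithCorners ℝ EP HP} {P : Type*} [TopologicalSpace P] [ChartedSpace HP P]

theorem CorA_pos_of {κ κ' : ℝ × ℂ × ℝ → P} (hκ : ThickT IP κ) {l₀ : ℝ} (hpos : PosAt κ κ' l₀)
    {ε : ℝ} (hε : 0 < ε) {lam : ℝ × ℂ → ℝ} {om : ℝ × ℂ → ℂ} {tau : ℝ × ℂ → ℝ}
    (h : ∀ l v t, ‖v‖ ≤ ε → ‖om (l, v)‖ < 1 ∧
        κ' (l, v, t) = κ (lam (l, v), om (l, v), t + tau (l, v))) : 0 < dt (dv om l₀) := by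
  obtain ⟨lam', om', tau', -, h2, -, -, h5, -, h7, h8⟩ := hpos
  have hev : ∀ᶠ q : ℝ × ℂ in 𝓝 (l₀, 0), om q = om' q := by
    have A1 : ∀ᶠ q : ℝ × ℂ in 𝓝 (l₀, 0), ‖om' q‖ < 1 := by
      have : ContinuousAt (fun q => ‖om' q‖) (l₀, 0) := h2.continuousAt.norm
      refine this.eventually_lt continuousAt_const ?_
      rw [h5, norm_zero]
      exact one_pos
    have A2 : ∀ᶠ q : ℝ × ℂ in 𝓝 (l₀, 0), ‖q.2‖ < ε := by
      have : ContinuousAt (fun q : ℝ × ℂ => ‖q.2‖) (l₀, 0) := by fun_prop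
      refine this.eventually_lt continuousAt_const ?_
      simpa using hε
    filter_upwards [A1, A2, h7] with q b1 b2 b3
    obtain ⟨c1, c2⟩ := h q.1 q.2 0 b2.le
    have := b3 0
    rw [c2] at this
    exact (hκ.inj _ _ _ _ _ _ c1 b1 this).1
  have hev2 : (fun v : ℂ => om (l₀, v)) =ᶠ[𝓝 0] fun v : ℂ => om' (l₀, v) := by
    have hc : ContinuousAt (fun v : ℂ => ((l₀, v) : ℝ × ℂ)) 0 := by fun_prop
    exact hc.eventually hev
  have : dv om l₀ = dv om' l₀ := hev2.fderiv_eq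
  rw [this]
  exact h8

omit [TopologicalSpace P] [ChartedSpace HP P] in
theorem CorA_posAt {κ κ' : ℝ × ℂ × ℝ → P} {l₀ : ℝ}
    {ε : ℝ} (hε : 0 < ε) {lam : ℝ × ℂ → ℝ} {om : ℝ × ℂ → ℂ} {tau : ℝ × ℂ → ℝ}
    (hlam : ContDiff ℝ ∞ lam) (hom : ContDiff ℝ ∞ om) (htau : ContDiff ℝ ∞ tau)
    (h0 : lam (l₀, 0) = l₀ ∧ om (l₀, 0) = 0 ∧ tau (l₀, 0) = 0)
    (h : ∀ l v t, ‖v‖ ≤ ε → κ' (l, v, t) = κ (lam (l, v), om (l, v), t + tau (l, v)))
    (hpos : 0 < dt (dv om l₀)) : PosAt κ κ' l₀ := by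
  refine ⟨lam, om, tau, hlam.contDiffAt, hom.contDiffAt, htau.contDiffAt, h0.1, h0.2.1, h0.2.2,
    ?_, hpos⟩
  have A2 : ∀ᶠ q : ℝ × ℂ in 𝓝 (l₀, 0), ‖q.2‖ < ε := by
    have : ContinuousAt (fun q : ℝ × ℂ => ‖q.2‖) (l₀, 0) := by fun_prop
    refine this.eventually_lt continuousAt_const ?_
    simpa using hε
  filter_upwards [A2] with q b2 t
  exact h q.1 q.2 t b2.le

/-- a thick torus composed with a fibre preserving diffeomorphism -/
theorem CorA_thick {κ : ℝ × ℂ × ℝ → P} (hκ : ThickT IP κ) {g g' : ℝ × ℂ → ℂ}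
    (hg : ContDiff ℝ ∞ g) (hg' : ContDiff ℝ ∞ g') (h1 : ∀ l v, g' (l, g (l, v)) = v)
    (h2 : ∀ l v, g (l, g' (l, v)) = v) (hn : ∀ l v, ‖g (l, v)‖ = ‖v‖)
    (hper : ∀ (l : ℝ) (v : ℂ) (m : ℤ), g (l + m, v) = g (l, v)) :
    ThickT IP (fun q => κ (q.1, g (q.1, q.2.1), q.2.2)) where
  perl := by
    intro l v t
    have := hper l v 1
    rw [Int.cast_one] at this
    show κ (l + 1, g (l + 1, v), t) = κ (l, g (l, v), t)
    rw [this, hκ.perl]
  pert := fun l v t => hκ.pert _ _ _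
  loc := by
    intro l v t hv
    have hs : ContDiff ℝ ∞ (fun q : ℝ × ℂ × ℝ => ((q.1, g (q.1, q.2.1), q.2.2) : ℝ × ℂ × ℝ)) := by
      have : ContDiff ℝ ∞ (fun q : ℝ × ℂ × ℝ => g (q.1, q.2.1)) := hg.comp (by fun_prop)
      fun_prop
    have hs' : ContDiff ℝ ∞ (fun q : ℝ × ℂ × ℝ => ((q.1, g' (q.1, q.2.1), q.2.2) : ℝ × ℂ × ℝ)) := by
      have : ContDiff ℝ ∞ (fun q : ℝ × ℂ × ℝ => g' (q.1, q.2.1)) := hg'.comp (by fun_prop)
      fun_prop
    have hT : IsLocalDiffeomorphAt 𝓘(ℝ, ℝ × ℂ × ℝ) 𝓘(ℝ, ℝ × ℂ × ℝ) ∞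
        (fun q : ℝ × ℂ × ℝ => ((q.1, g (q.1, q.2.1), q.2.2) : ℝ × ℂ × ℝ)) (l, v, t) := by
      refine Pool.Agent.RSG.ld_two
        (g := fun q : ℝ × ℂ × ℝ => ((q.1, g' (q.1, q.2.1), q.2.2) : ℝ × ℂ × ℝ)) ?_ ?_ ?_ ?_
      · exact Eventually.of_forall fun y => hs.contMDiff y
      · exact Eventually.of_forall fun y => hs'.contMDiff y
      · exact Eventually.of_forall fun y => by simp only [h1]
      · exact Eventually.of_forall fun y => by simp only [h2]
    exact IsLocalDiffeomorphAt.comp (hf := hT) (hg := hκ.loc l (g (l, v)) t (by rw [hn]; exact hv))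
  inj := by
    intro l v t l' v' t' hv hv' he
    obtain ⟨a1, ⟨m, hm⟩, a3⟩ := hκ.inj _ _ _ _ _ _ (by rw [hn]; exact hv) (by rw [hn]; exact hv') he
    refine ⟨?_, ⟨m, hm⟩, a3⟩
    rw [hm, hper] at a1
    have := congrArg (fun w => g' (l, w)) a1
    simpa only [h1] using this

theorem CorA_tw {κ : ℝ × ℂ × ℝ → P} (hκ : ThickT IP κ) (k : ℤ) {φ : ℝ → ℝ}
    (hφ : ContDiff ℝ ∞ φ) (hφ1 : ∀ l, φ (l + 1) = φ l + 1) :
    ThickT IP (fun q => κ (q.1, q.2.1 * ex (k * φ q.1), q.2.2)) := by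
  have hφm : ∀ (l : ℝ) (m : ℤ), φ (l + m) = φ l + m := by
    intro l m
    induction m using Int.induction_on with
    | zero => simp
    | succ i ih =>
      have := hφ1 (l + (i : ℤ))
      rw [ih] at this
      push_cast at this ⊢
      rw [← add_assoc, this]
      ring
    | pred i ih =>
      have := hφ1 (l + ((-(i : ℤ) - 1 : ℤ) : ℝ))
      have e : l + ((-(i : ℤ) - 1 : ℤ) : ℝ) + 1 = l + ((-(i : ℤ) : ℤ) : ℝ) := by push_cast; ring
      rw [e, ih] at this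
      push_cast at this ⊢
      linarith
  have he : ∀ s : ℝ, ContDiff ℝ ∞ (fun q : ℝ × ℂ => q.2 * ex (s * φ q.1)) := by
    intro s
    refine contDiff_snd.mul (ex_smooth.comp ?_)
    exact contDiff_const.mul (hφ.comp contDiff_fst)
  refine CorA_thick (g := fun q => q.2 * ex (k * φ q.1)) (g' := fun q => q.2 * ex ((-k) * φ q.1))
    hκ (he k) (he (-k)) ?_ ?_ ?_ ?_
  · intro l v
    show v * ex (k * φ l) * ex ((-k) * φ l) = v
    rw [mul_assoc, ← ex_add, show (k : ℝ) * φ l + -k * φ l = 0 by ring, ex_zero, mul_one]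
  · intro l v
    show v * ex ((-k) * φ l) * ex (k * φ l) = v
    rw [mul_assoc, ← ex_add, show -(k : ℝ) * φ l + k * φ l = 0 by ring, ex_zero, mul_one]
  · intro l v
    show ‖v * ex (k * φ l)‖ = ‖v‖
    rw [norm_mul, ex_norm, mul_one]
  · intro l v m
    show v * ex (k * φ (l + m)) = v * ex (k * φ l)
    rw [hφm, show (k : ℝ) * (φ l + m) = k * φ l + ((k * m : ℤ) : ℝ) by push_cast; ring, ex_add_int]

theorem CorA_mir {κ : ℝ × ℂ × ℝ → P} (hκ : ThickT IP κ) :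
    ThickT IP (fun q => κ (q.1, (starRingEnd ℂ) q.2.1, q.2.2)) := by
  have h : ContDiff ℝ ∞ (fun q : ℝ × ℂ => (starRingEnd ℂ) q.2) :=
    (Complex.conjCLE.contDiff).comp contDiff_snd
  refine CorA_thick (g := fun q => (starRingEnd ℂ) q.2) (g' := fun q => (starRingEnd ℂ) q.2)
    hκ h h ?_ ?_ ?_ ?_
  · intro l v; simp
  · intro l v; simp
  · intro l v; simp
  · intro l v m; rfl

theorem core_pos [T2Space P] {a : ℝ → P → P} (ha : PTH.Act IP a) {κ κ' : ℝ × ℂ × ℝ → P}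
    (hκ : ThickT IP κ) (heq : Equi a κ) (hκ' : ThickT IP κ') (heq' : Equi a κ')
    (hcore : ∀ l, κ' (l, 0, 0) = κ (l, 0, 0)) {l₀ : ℝ} (hpos : PosAt κ κ' l₀) {φ : ℝ → ℝ}
    (hφ : ContDiff ℝ ∞ φ) (hφ1 : ∀ l, φ (l + 1) = φ l + 1) :
    ∃ k : ℤ, ∀ (X : Type u) [TopologicalSpace X] [ChartedSpace E4 X] (n j : ℤ),
      Nonempty (TwinP IP κ n j X) →
        Nonempty (TwinP IP (fun q => κ' (q.1, q.2.1 * ex (k * φ q.1), q.2.2)) n j X) := by
  obtain ⟨ε₁, hε₁, lam, om, tau, hlam, hom, htau, plam, pom, ptau, h0, h1, h2, -⟩ :=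
    exists_lft (U := univ) (ς := fun _ => 1) ha hκ heq heq' hκ'.perl isOpen_univ contDiff_const
      (fun _ => rfl) (subset_univ _) (fun l _ => hκ'.loc l 0 0 (by simp)) (fun l _ => hcore l)
      (R := 1 / 2) (by norm_num)
  have hrep : ∀ l v t, ‖v‖ ≤ ε₁ → ‖om (l, v)‖ < 1 ∧
      κ' (l, v, t) = κ (lam (l, v), om (l, v), t + tau (l, v)) :=
    fun l v t hv => (h1 l rfl v t hv).2
  have hp0 : 0 < dt (dv om l₀) := CorA_pos_of hκ hpos hε₁ hrep
  have hpall : ∀ l, 0 < dt (dv om l) := by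
    intro l
    by_contra hl
    obtain ⟨l', hl'⟩ := mem_range_of_exists_le_of_exists_ge (CorA_cont hom) ⟨l, not_lt.1 hl⟩
      ⟨l₀, hp0.le⟩
    exact CorA_dt_ne (h2 l' rfl) hl'
  obtain ⟨k, A, b, hA, hb, pA, pb, hb1, hAb⟩ := exists_log_loop hom pom hpall hφ hφ1
  refine ⟨k, ?_⟩
  -- twisted data
  let tw : ℝ × ℂ → ℝ × ℂ := fun q => (q.1, q.2 * ex (k * φ q.1))
  have htw : ContDiff ℝ ∞ tw := by
    refine contDiff_fst.prodMk (contDiff_snd.mul (ex_smooth.comp ?_))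
    exact contDiff_const.mul (hφ.comp contDiff_fst)
  have twp : ∀ l v, tw (l + 1, v) = (l + 1, (tw (l, v)).2) := by
    intro l v
    show (l + 1, v * ex (k * φ (l + 1))) = (l + 1, v * ex (k * φ l))
    rw [hφ1, show (k : ℝ) * (φ l + 1) = k * φ l + (k : ℤ) by push_cast; ring, ex_add_int]
  have tw0 : ∀ l, tw (l, 0) = (l, 0) := by
    intro l
    show (l, (0 : ℂ) * ex (k * φ l)) = (l, 0)
    rw [zero_mul]
  let E : ℝ × ℂ → ℂ := fun q => om (tw q) - lin (A q.1) (b q.1) q.2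
  have hlin : ContDiff ℝ ∞ (fun q : ℝ × ℂ => lin (A q.1) (b q.1) q.2) := by
    unfold lin
    have e1 : ContDiff ℝ ∞ (fun q : ℝ × ℂ => Complex.exp (A q.1)) :=
      Complex.contDiff_exp.comp (hA.comp contDiff_fst)
    have e2 : ContDiff ℝ ∞ (fun q : ℝ × ℂ => (starRingEnd ℂ) q.2) :=
      (Complex.conjCLE.contDiff).comp contDiff_snd
    exact e1.mul (contDiff_snd.add ((hb.comp contDiff_fst).mul e2))
  have hE : ContDiff ℝ ∞ E := (hom.comp htw).sub hlin
  have hEp : ∀ l v, E (l + 1, v) = E (l, v) := by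
    intro l v
    show om (tw (l + 1, v)) - lin (A (l + 1)) (b (l + 1)) v = om (tw (l, v)) - lin (A l) (b l) v
    rw [twp, pom, pA, pb]
  have hlp : ∀ l v, lam (tw (l + 1, v)) = lam (tw (l, v)) + 1 := by
    intro l v
    rw [twp, plam]
  have htp : ∀ l v, tau (tw (l + 1, v)) = tau (tw (l, v)) := by
    intro l v
    rw [twp, ptau]
  have hlin0 : ∀ a b : ℂ, lin a b 0 = 0 := by
    intro a b
    simp [lin]
  have hE0 : ∀ l, E (l, 0) = 0 := by
    intro l
    show om (tw (l, 0)) - lin (A l) (b l) 0 = 0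
    rw [tw0, (h0 l).2.1, hlin0, sub_zero]
  have hE1 : ∀ l, dv E l = 0 := by
    intro l
    have c1 : HasFDerivAt (fun v : ℂ => v * ex (k * φ l))
        (ContinuousLinearMap.mul ℝ ℂ (ex (k * φ l))) 0 := by
      have := (ContinuousLinearMap.mul ℝ ℂ (ex (k * φ l))).hasFDerivAt (x := (0 : ℂ))
      refine this.congr_of_eventuallyEq (Eventually.of_forall fun v => ?_)
      simp [mul_comm]
    have c2 : HasFDerivAt (fun v : ℂ => om (l, v * ex (k * φ l)))
        ((dv om l).comp (ContinuousLinearMap.mul ℝ ℂ (ex (k * φ l)))) 0 := by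
      have d1 : HasFDerivAt (fun v : ℂ => om (l, v)) (dv om l) ((0 : ℂ) * ex (k * φ l)) := by
        rw [zero_mul, CorA_dv_eq hom]
        exact CorA_dv hom l 0
      exact d1.comp (0 : ℂ) c1
    let Ll : ℂ →L[ℝ] ℂ := (ContinuousLinearMap.mul ℝ ℂ (Complex.exp (A l))).comp
      (ContinuousLinearMap.id ℝ ℂ + (ContinuousLinearMap.mul ℝ ℂ (b l)).comp
        (Complex.conjCLE : ℂ →L[ℝ] ℂ))
    have hLl : ∀ w, Ll w = lin (A l) (b l) w := by
      intro w
      simp [Ll, lin]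
      ring
    have c3 : HasFDerivAt (fun v : ℂ => lin (A l) (b l) v) Ll 0 := by
      refine (Ll.hasFDerivAt (x := (0 : ℂ))).congr_of_eventuallyEq
        (Eventually.of_forall fun v => (hLl v).symm)
    have c4 : HasFDerivAt (fun v : ℂ => E (l, v))
        ((dv om l).comp (ContinuousLinearMap.mul ℝ ℂ (ex (k * φ l))) - Ll) 0 := c2.sub c3
    have : dv E l = (dv om l).comp (ContinuousLinearMap.mul ℝ ℂ (ex (k * φ l))) - Ll := c4.fderiv
    rw [this]
    refine ContinuousLinearMap.ext fun w => ?_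
    show dv om l (ex (k * φ l) * w) - Ll w = 0
    rw [hLl, mul_comm, hAb, sub_self]
  obtain ⟨ε₂, hε₂, H, hH, hH', Hl, Ht, hHs, hHid, -⟩ := exists_germ (lam := fun q => lam (tw q))
    (tau := fun q => tau (tw q)) hA hb hE (hlam.comp htw) (htau.comp htw) pA pb hEp hlp htp hb1
    hE0 hE1 (fun l => by show lam (tw (l, 0)) = l; rw [tw0]; exact (h0 l).1)
    (fun l => by show tau (tw (l, 0)) = 0; rw [tw0]; exact (h0 l).2.2) (R := 1 / 2) (by norm_num)
  obtain ⟨F, hF, hFκ, -, -⟩ := kap_move hκ hH hH' Hl Ht (R := 1 / 2) (by norm_num) hHid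
  intro X _ _ n j hX
  obtain ⟨D⟩ := hX
  obtain ⟨D'⟩ := TwinP_diffeo F hF D
  have hη : 0 < min (min ε₁ ε₂) 1 := lt_min (lt_min hε₁ hε₂) one_pos
  refine germ hη (ThickT_diffeo F hF hκ) (CorA_tw hκ' k hφ hφ1) ?_ D'
  intro l v t hv
  have hv1 : ‖v‖ < 1 := lt_of_lt_of_le hv (min_le_right _ _)
  have hv2 : ‖v‖ ≤ ε₂ := (lt_of_lt_of_le hv ((min_le_left _ _).trans (min_le_right _ _))).le
  have hv3 : ‖v * ex (k * φ l)‖ ≤ ε₁ := by
    rw [norm_mul, ex_norm, mul_one]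
    exact (lt_of_lt_of_le hv ((min_le_left _ _).trans (min_le_left _ _))).le
  show κ' (l, v * ex (k * φ l), t) = F (κ (l, v, t))
  rw [hFκ l v t hv1, hHs l v t hv2, (hrep l _ t hv3).2]
  have : lin (A l) (b l) v + E (l, v) = om (tw (l, v)) := by
    show lin (A l) (b l) v + (om (tw (l, v)) - lin (A l) (b l) v) = om (tw (l, v))
    ring
  rw [this]

theorem core_eq [T2Space P] {a : ℝ → P → P} (ha : PTH.Act IP a) {κ κ' : ℝ × ℂ × ℝ → P}
    (hκ : ThickT IP κ) (heq : Equi a κ) (hκ' : ThickT IP κ') (heq' : Equi a κ')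
    (hcore : ∀ l, κ' (l, 0, 0) = κ (l, 0, 0)) {φ : ℝ → ℝ}
    (hφ : ContDiff ℝ ∞ φ) (hφ1 : ∀ l, φ (l + 1) = φ l + 1) :
    ∃ (k : ℤ) (σ : ℝ), (σ = 1 ∨ σ = -1) ∧
      ∀ (X : Type u) [TopologicalSpace X] [ChartedSpace E4 X] (n j : ℤ),
        Nonempty (TwinP IP κ n j X) →
          Nonempty (TwinP IP (fun q => κ' (q.1, cj σ (q.2.1 * ex (k * φ q.1)), q.2.2)) n j X) := by
  obtain ⟨ε₁, hε₁, lam, om, tau, hlam, hom, htau, plam, pom, ptau, h0, h1, h2, -⟩ :=
    exists_lft (U := univ) (ς := fun _ => 1) ha hκ heq heq' hκ'.perl isOpen_univ contDiff_const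
      (fun _ => rfl) (subset_univ _) (fun l _ => hκ'.loc l 0 0 (by simp)) (fun l _ => hcore l)
      (R := 1 / 2) (by norm_num)
  have hrep : ∀ l v t, ‖v‖ ≤ ε₁ → κ' (l, v, t) = κ (lam (l, v), om (l, v), t + tau (l, v)) :=
    fun l v t hv => (h1 l rfl v t hv).2.2
  have hne : dt (dv om 0) ≠ 0 := CorA_dt_ne (h2 0 rfl)
  have hcj1 : ∀ v, cj 1 v = v := by
    intro v
    apply Complex.ext <;> simp [cj]
  have hcjm : ∀ v, cj (-1) v = (starRingEnd ℂ) v := by
    intro v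
    apply Complex.ext <;> simp [cj]
  rcases lt_or_gt_of_ne hne with hneg | hpos
  · -- mirror image
    let κm : ℝ × ℂ × ℝ → P := fun q => κ' (q.1, (starRingEnd ℂ) q.2.1, q.2.2)
    have hκm : ThickT IP κm := CorA_mir hκ'
    have heqm : Equi a κm := fun l v t => heq' l ((starRingEnd ℂ) v) t
    have hcorem : ∀ l, κm (l, 0, 0) = κ (l, 0, 0) := by
      intro l
      show κ' (l, (starRingEnd ℂ) 0, 0) = κ (l, 0, 0)
      rw [map_zero, hcore]
    let cc : ℝ × ℂ → ℝ × ℂ := fun q => (q.1, (starRingEnd ℂ) q.2)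
    have hcc : ContDiff ℝ ∞ cc := contDiff_fst.prodMk ((Complex.conjCLE.contDiff).comp contDiff_snd)
    have cc0 : ∀ l, cc (l, 0) = (l, 0) := by
      intro l
      show (l, (starRingEnd ℂ) 0) = (l, 0)
      rw [map_zero]
    have hdv : dv (fun q => om (cc q)) 0 = (dv om 0).comp (Complex.conjCLE : ℂ →L[ℝ] ℂ) := by
      have d1 : HasFDerivAt (fun v : ℂ => om (0, v)) (dv om 0) ((Complex.conjCLE : ℂ →L[ℝ] ℂ) 0) := by
        rw [map_zero, CorA_dv_eq hom]
        exact CorA_dv hom 0 0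
      exact (d1.comp (0 : ℂ) (Complex.conjCLE : ℂ →L[ℝ] ℂ).hasFDerivAt).fderiv
    have hdt : 0 < dt (dv (fun q => om (cc q)) 0) := by
      rw [hdv]
      have : dt ((dv om 0).comp (Complex.conjCLE : ℂ →L[ℝ] ℂ)) = - dt (dv om 0) := by
        unfold dt
        have e1 : ((dv om 0).comp (Complex.conjCLE : ℂ →L[ℝ] ℂ)) 1 = dv om 0 1 := by
          show dv om 0 ((starRingEnd ℂ) 1) = dv om 0 1
          rw [map_one]
        have e2 : ((dv om 0).comp (Complex.conjCLE : ℂ →L[ℝ] ℂ)) I = - dv om 0 I := by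
          show dv om 0 ((starRingEnd ℂ) I) = - dv om 0 I
          rw [Complex.conj_I, map_neg]
        rw [e1, e2, mul_neg, Complex.neg_im]
      rw [this]
      linarith
    have hpm : PosAt κ κm 0 := by
      refine CorA_posAt hε₁ (hlam.comp hcc) (hom.comp hcc) (htau.comp hcc) ?_ ?_ hdt
      · show lam (cc (0, 0)) = 0 ∧ om (cc (0, 0)) = 0 ∧ tau (cc (0, 0)) = 0
        rw [cc0]
        exact h0 0
      · intro l v t hv
        exact hrep l ((starRingEnd ℂ) v) t (by rw [RCLike.norm_conj]; exact hv)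
    obtain ⟨k, hk⟩ := core_pos ha hκ heq hκm heqm hcorem hpm hφ hφ1
    refine ⟨k, -1, Or.inr rfl, ?_⟩
    intro X _ _ n j hX
    have := hk X n j hX
    have e : (fun q : ℝ × ℂ × ℝ => κ' (q.1, cj (-1) (q.2.1 * ex (k * φ q.1)), q.2.2)) =
        fun q => κm (q.1, q.2.1 * ex (k * φ q.1), q.2.2) := by
      funext q
      rw [hcjm]
    rw [e]
    exact this
  · have hpm : PosAt κ κ' 0 := CorA_posAt hε₁ hlam hom htau (h0 0) hrep hpos
    obtain ⟨k, hk⟩ := core_pos ha hκ heq hκ' heq' hcore hpm hφ hφ1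
    refine ⟨k, 1, Or.inl rfl, ?_⟩
    intro X _ _ n j hX
    have := hk X n j hX
    have e : (fun q : ℝ × ℂ × ℝ => κ' (q.1, cj 1 (q.2.1 * ex (k * φ q.1)), q.2.2)) =
        fun q => κ' (q.1, q.2.1 * ex (k * φ q.1), q.2.2) := by
      funext q
      rw [hcj1]
    rw [e]
    exact this

end

end Pool.Agent.COR
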