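import Pool.Agent.COR.Rep
import Pool.Agent.RSG.BaQ
import Pool.Agent.RSG.Base
import Pool.Agent.RSG.MirM

/-!
# COR/Frm: change of the framing and of the orientation of a thick torus   (difficulty 3)

`frame`: `κ' (l, v, t) = κ (l, v ex (k l), t)`.  Let `Ψ : {fh ≠ 0} → {fh ≠ 0}`, `Ψ z = (c1 z u^(-k), c2 z u^(-k), ht z)`, `u = fh z / ‖fh z‖` (so `c1 (Ψ z) = c1 z * ex (-k θ)` with
`fh z = ‖fh z‖ ex θ`); `‖c1‖, ‖c2‖, ht, fh` are preserved.  A `TwinP` for `κ'`, `n`, `j` is a `TwinP` for `κ`, `n`, `j + k n`: `A' = A`, `Q' z = Q (Ψ z)`.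
Check of `glue`: let `c1 z = ‖c1 z‖ ex (m' + (1 - j') t)`, `c2 z = ‖c2 z‖ ex (m' - j' t)`, `fh z = ‖fh z‖ ex (l - n t)`, `j' = j + k n`.  Then
`c1 (Ψ z) = .. ex (m' - k l + k n t + (1 - j') t) = .. ex (m + (1 - j) t)` with `m = m' - k l`, `c2 (Ψ z) = .. ex (m - j t)`, so `Q (Ψ z) = A (κ' (l, r ex m, t)) = A (κ (l, r ex (m + k l), t)) = A (κ (l, r ex m', t))`.
`Ψ` is a bijection of `{fh ≠ 0}` (inverse: `k → -k`) and a local diffeomorphism (smooth with smooth inverse; use `RSG.pG` / `RSG.pS4` and the lemmas of RSG/Sph, SphA, SphB, PGm: `c1_smooth`, `c2_smooth`, ..).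
Squad RSG has similar modules (MirM, RevM, GlkM, FneQ..); the twin map `pG` of RSG/Fn.lean may help: `pG u w f` is the point with directions `u`, `w` and `fh = f`.

`mirror`: `κ' (l, v, t) = κ (l + 1/2, conj v, t)`: a `TwinP` for `κ`, `n`, `j` gives one for `κ'`, `n`, `1 - j`: `A' = A`, `Q' z = Q (Ψ z)`, `Ψ z = (conj (c2 z), conj (c1 z), - ht z)` (`fh (Ψ z) = - fh z`).
Check of `glue`: `c1 z = .. ex (m + j t)`, `c2 z = .. ex (m - (1 - j) t)`, `fh z = .. ex (l - n t)`: `c1 (Ψ z) = .. ex (-m + (1 - j) t)`, `c2 (Ψ z) = .. ex (-m - j t)`, `fh (Ψ z) = .. ex (l + 1/2 - n t)`, so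
`Q (Ψ z) = A (κ (l + 1/2, r ex (-m), t)) = A (κ' (l, r ex m, t))`.
`mirror0`: the same for `κ (l, conj v, t)`: `rep` with `φ l = l - 1/2` applied to `κ'`.
-/

open scoped Manifold ContDiff Topology
open Set Filter
open Complex (I)
open Pool.Agent.RSG (E4 S4 ex c1 c2 ht fh)

namespace Pool.Agent.COR

open Pool.Agent.RBM (ThickT TwinP OnT)

universe u

section
variable {EP : Type*} [NormedAddCommGroup EP] [NormedSpace ℝ EP] {HP : Type*} [TopologicalSpace HP]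
  {IP : ModelWithCorners ℝ EP HP} {P : Type*} [TopologicalSpace P] [ChartedSpace HP P]
  {κ : ℝ × ℂ × ℝ → P} {X : Type u} [TopologicalSpace X] [ChartedSpace E4 X] {n j : ℤ}

omit [TopologicalSpace P] in
theorem Frm_on (κ : ℝ × ℂ × ℝ → P) (k : ℤ) (p : P) :
    OnT (fun q => κ (q.1, q.2.1 * ex (k * q.1), q.2.2)) p ↔ OnT κ p := by
  unfold OnT
  simp only [zero_mul]

theorem frame (hκ : ThickT IP κ) (k : ℤ)
    (D : TwinP IP (fun q => κ (q.1, q.2.1 * ex (k * q.1), q.2.2)) n j X) :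
    Nonempty (TwinP IP κ n (j + k * n) X) := by
  have hf6 : ∀ (i : ℤ) {z : S4}, fh z ≠ 0 → fh (Pool.Agent.RSG.bQ i z) ≠ 0 := by
    intro i z hz
    rw [(Pool.Agent.RSG.bQ_spec i hz).2.2.2.2.2]
    exact hz
  refine ⟨{ A := D.A
            Q := fun z => D.Q (Pool.Agent.RSG.bQ (-k) z)
            A_loc := ?_
            A_inj := ?_
            Q_loc := ?_
            Q_inj := ?_
            glue := ?_
            disj := ?_
            cover := ?_ }⟩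
  · intro p hp
    exact D.A_loc p (fun h => hp ((Frm_on κ k p).1 h))
  · intro p p' hp hp' he
    exact D.A_inj p p' (fun h => hp ((Frm_on κ k p).1 h)) (fun h => hp' ((Frm_on κ k p').1 h)) he
  · intro z hz
    exact IsLocalDiffeomorphAt.comp (hf := Pool.Agent.RSG.bQ_ld (-k) hz) (g := D.Q)
      (hg := D.Q_loc _ (hf6 _ hz))
  · intro z z' hz hz' he
    have h1 := D.Q_inj _ _ (hf6 _ hz) (hf6 _ hz') he
    have h2 := Pool.Agent.RSG.bQ_comp (-k) hz
    have h3 := Pool.Agent.RSG.bQ_comp (-k) hz'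
    rw [← h2, h1, h3]
  · intro z l m t hf h1 h2 e1 e2 e3
    obtain ⟨b1, b2, b3, b4, b5, b6⟩ := Pool.Agent.RSG.bQ_spec (-k) hf
    have p3 : 0 < ‖fh z‖ := norm_pos_iff.2 hf
    have hω : fh z / ‖fh z‖ = ex (l - n * t) := by
      have h3 : (‖fh z‖ : ℂ) ≠ 0 := by exact_mod_cast p3.ne'
      rw [div_eq_iff h3]
      exact e3.trans (mul_comm _ _)
    have g1 : c1 (Pool.Agent.RSG.bQ (-k) z) ≠ 0 := by
      rw [← norm_pos_iff, b4]; exact norm_pos_iff.2 h1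
    have g2 : c2 (Pool.Agent.RSG.bQ (-k) z) ≠ 0 := by
      rw [← norm_pos_iff, b5]; exact norm_pos_iff.2 h2
    have key := D.glue (Pool.Agent.RSG.bQ (-k) z) l (m - k * l) t (hf6 _ hf) g1 g2
      (by
        rw [b4, b1, hω, Pool.Agent.RSG.Base_zpow]
        conv_lhs => rw [e1]
        rw [mul_assoc, ← Pool.Agent.RSG.ex_add]
        congr 2
        push_cast
        ring)
      (by
        rw [b5, b2, hω, Pool.Agent.RSG.Base_zpow]
        conv_lhs => rw [e2]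
        rw [mul_assoc, ← Pool.Agent.RSG.ex_add]
        congr 2
        push_cast
        ring)
      (by rw [b6]; exact e3)
    rw [key, b4, b5]
    show D.A (κ (l, ((2 * ‖c1 z‖ * ‖c2 z‖ : ℝ) : ℂ) * ex (m - k * l) * ex (k * l), t)) = _
    rw [mul_assoc, ← Pool.Agent.RSG.ex_add, sub_add_cancel]
  · intro z p hf hz hp
    obtain ⟨b1, b2, b3, b4, b5, b6⟩ := Pool.Agent.RSG.bQ_spec (-k) hf
    refine D.disj _ p (hf6 _ hf) ?_ (fun h => hp ((Frm_on κ k p).1 h))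
    rw [b1, b2]
    exact hz.imp (fun h => by rw [h, zero_mul]) (fun h => by rw [h, zero_mul])
  · intro q
    rcases D.cover q with ⟨p, h1, h2⟩ | ⟨z, h1, h2⟩
    · exact Or.inl ⟨p, fun h => h1 ((Frm_on κ k p).2 h), h2⟩
    · refine Or.inr ⟨Pool.Agent.RSG.bQ k z, hf6 _ h1, ?_⟩
      rw [Pool.Agent.RSG.bQ_comp k h1]
      exact h2

/-- the symmetry of the twin which exchanges the spheres -/
noncomputable def Frm_sw (z : S4) : S4 :=
  Pool.Agent.RSG.pS4 ((starRingEnd ℂ) (c2 z)) ((starRingEnd ℂ) (c1 z)) (-ht z)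

theorem Frm_coord (z : S4) : c1 (Frm_sw z) = (starRingEnd ℂ) (c2 z) ∧
    c2 (Frm_sw z) = (starRingEnd ℂ) (c1 z) ∧ ht (Frm_sw z) = -ht z := by
  refine Pool.Agent.RSG.pS4_c ?_
  rw [RCLike.norm_conj, RCLike.norm_conj, neg_sq]
  have h1 := Pool.Agent.RSG.S4_sq z
  linarith

theorem Frm_fh (z : S4) : fh (Frm_sw z) = -fh z := by
  obtain ⟨h1, h2, h3⟩ := Frm_coord z
  unfold fh
  rw [h1, h2, h3, RCLike.norm_conj, RCLike.norm_conj]
  apply Complex.ext
  · simp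
  · simp

theorem Frm_inv (z : S4) : Frm_sw (Frm_sw z) = z := by
  obtain ⟨h1, h2, h3⟩ := Frm_coord z
  obtain ⟨h4, h5, h6⟩ := Frm_coord (Frm_sw z)
  refine Pool.Agent.RSG.S4_ext ?_ ?_ ?_
  · rw [h4, h2, Complex.conj_conj]
  · rw [h5, h1, Complex.conj_conj]
  · rw [h6, h3, neg_neg]

theorem Frm_smooth (z : S4) : ContMDiffAt (𝓡 4) (𝓡 4) ∞ Frm_sw z := by
  have hc : ContMDiff 𝓘(ℝ, ℂ) 𝓘(ℝ, ℂ) ∞ (fun w : ℂ => (starRingEnd ℂ) w) :=
    contMDiff_iff_contDiff.2 Complex.conjCLE.contDiff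
  have hn : ContMDiff 𝓘(ℝ, ℝ) 𝓘(ℝ, ℝ) ∞ (fun w : ℝ => -w) :=
    contMDiff_iff_contDiff.2 contDiff_neg
  refine Pool.Agent.RSG.pS4_smooth (hc.contMDiffAt.comp z (Pool.Agent.RSG.c2_smooth z))
    (hc.contMDiffAt.comp z (Pool.Agent.RSG.c1_smooth z))
    (hn.contMDiffAt.comp z (Pool.Agent.RSG.ht_smooth z)) ?_
  rw [RCLike.norm_conj, RCLike.norm_conj, neg_sq]
  have h1 := Pool.Agent.RSG.S4_sq z
  linarith

theorem Frm_ld (z : S4) : IsLocalDiffeomorphAt (𝓡 4) (𝓡 4) ∞ Frm_sw z :=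
  Pool.Agent.RSG.ld_two (g := Frm_sw) (Eventually.of_forall Frm_smooth)
    (Eventually.of_forall Frm_smooth) (Eventually.of_forall Frm_inv)
    (Eventually.of_forall Frm_inv)

omit [TopologicalSpace P] in
theorem Frm_on' (κ : ℝ × ℂ × ℝ → P) (p : P) :
    OnT (fun q => κ (q.1 + 1 / 2, (starRingEnd ℂ) q.2.1, q.2.2)) p ↔ OnT κ p := by
  unfold OnT
  simp only [map_zero]
  constructor
  · rintro ⟨l, t, h⟩
    exact ⟨_, t, h⟩
  · rintro ⟨l, t, h⟩
    exact ⟨l - 1 / 2, t, by rw [sub_add_cancel]; exact h⟩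

theorem mirror (hκ : ThickT IP κ) (D : TwinP IP κ n j X) :
    Nonempty (TwinP IP (fun q => κ (q.1 + 1 / 2, (starRingEnd ℂ) q.2.1, q.2.2)) n (1 - j) X) := by
  have hf6 : ∀ {z : S4}, fh z ≠ 0 → fh (Frm_sw z) ≠ 0 := by
    intro z hz
    rw [Frm_fh]
    exact neg_ne_zero.2 hz
  refine ⟨{ A := D.A
            Q := fun z => D.Q (Frm_sw z)
            A_loc := ?_
            A_inj := ?_
            Q_loc := ?_
            Q_inj := ?_
            glue := ?_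
            disj := ?_
            cover := ?_ }⟩
  · intro p hp
    exact D.A_loc p (fun h => hp ((Frm_on' κ p).2 h))
  · intro p p' hp hp' he
    exact D.A_inj p p' (fun h => hp ((Frm_on' κ p).2 h)) (fun h => hp' ((Frm_on' κ p').2 h)) he
  · intro z hz
    exact IsLocalDiffeomorphAt.comp (hf := Frm_ld z) (g := D.Q) (hg := D.Q_loc _ (hf6 hz))
  · intro z z' hz hz' he
    have h1 := D.Q_inj _ _ (hf6 hz) (hf6 hz') he
    rw [← Frm_inv z, h1, Frm_inv]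
  · intro z l m t hf h1 h2 e1 e2 e3
    obtain ⟨b1, b2, b3⟩ := Frm_coord z
    have n1 : ‖c1 (Frm_sw z)‖ = ‖c2 z‖ := by rw [b1, RCLike.norm_conj]
    have n2 : ‖c2 (Frm_sw z)‖ = ‖c1 z‖ := by rw [b2, RCLike.norm_conj]
    have key := D.glue (Frm_sw z) (l + 1 / 2) (-m) t (hf6 hf)
      (by rw [b1]; exact (map_ne_zero _).2 h2) (by rw [b2]; exact (map_ne_zero _).2 h1)
      (by
        rw [n1, b1, Pool.Agent.RSG.MirM_conj_ex e2]
        congr 2
        push_cast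
        ring)
      (by
        rw [n2, b2, Pool.Agent.RSG.MirM_conj_ex e1]
        congr 2
        push_cast
        ring)
      (by
        rw [Frm_fh, norm_neg]
        conv_lhs => rw [e3]
        rw [show l + 1 / 2 - n * t = (l - n * t) + 1 / 2 by ring, Pool.Agent.RSG.ex_add _ (1 / 2),
          Pool.Agent.RSG.ex_half]
        ring)
    rw [key, n1, n2]
    show _ = D.A (κ (l + 1 / 2, (starRingEnd ℂ) (((2 * ‖c1 z‖ * ‖c2 z‖ : ℝ) : ℂ) * ex m), t))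
    rw [map_mul, Complex.conj_ofReal, Pool.Agent.RSG.ex_neg,
      show 2 * ‖c2 z‖ * ‖c1 z‖ = 2 * ‖c1 z‖ * ‖c2 z‖ by ring]
  · intro z p hf hz hp
    obtain ⟨b1, b2, b3⟩ := Frm_coord z
    refine D.disj _ p (hf6 hf) ?_ (fun h => hp ((Frm_on' κ p).2 h))
    rw [b1, b2]
    rcases hz with h | h
    · exact Or.inr (by rw [h, map_zero])
    · exact Or.inl (by rw [h, map_zero])
  · intro q
    rcases D.cover q with ⟨p, h1, h2⟩ | ⟨z, h1, h2⟩
    · exact Or.inl ⟨p, fun h => h1 ((Frm_on' κ p).1 h), h2⟩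
    · refine Or.inr ⟨Frm_sw z, hf6 h1, ?_⟩
      rw [Frm_inv]
      exact h2

theorem Frm_thick (hκ : ThickT IP κ) :
    ThickT IP (fun q => κ (q.1 + 1 / 2, (starRingEnd ℂ) q.2.1, q.2.2)) where
  perl := fun l v t => by
    show κ (l + 1 + 1 / 2, (starRingEnd ℂ) v, t) = κ (l + 1 / 2, (starRingEnd ℂ) v, t)
    rw [show l + 1 + 1 / 2 = (l + 1 / 2) + 1 by ring]
    exact hκ.perl _ _ _
  pert := fun l v t => hκ.pert _ _ _
  loc := fun l v t hv => by
    have hg : ContDiff ℝ ∞ (fun q : ℝ × ℂ × ℝ => (q.1 + 1 / 2, (starRingEnd ℂ) q.2.1, q.2.2)) :=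
      (contDiff_fst.add contDiff_const).prodMk
        ((Complex.conjCLE.contDiff.comp (contDiff_fst.comp contDiff_snd)).prodMk
          (contDiff_snd.comp contDiff_snd))
    have hg' : ContDiff ℝ ∞ (fun q : ℝ × ℂ × ℝ => (q.1 - 1 / 2, (starRingEnd ℂ) q.2.1, q.2.2)) :=
      (contDiff_fst.sub contDiff_const).prodMk
        ((Complex.conjCLE.contDiff.comp (contDiff_fst.comp contDiff_snd)).prodMk
          (contDiff_snd.comp contDiff_snd))
    have h1 : IsLocalDiffeomorphAt 𝓘(ℝ, ℝ × ℂ × ℝ) 𝓘(ℝ, ℝ × ℂ × ℝ) ∞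
        (fun q : ℝ × ℂ × ℝ => (q.1 + 1 / 2, (starRingEnd ℂ) q.2.1, q.2.2)) (l, v, t) := by
      refine Pool.Agent.RSG.ld_two
        (g := fun q : ℝ × ℂ × ℝ => (q.1 - 1 / 2, (starRingEnd ℂ) q.2.1, q.2.2))
        (Eventually.of_forall fun y => contMDiffAt_iff_contDiffAt.2 hg.contDiffAt)
        (Eventually.of_forall fun y => contMDiffAt_iff_contDiffAt.2 hg'.contDiffAt)
        (Eventually.of_forall fun y => ?_) (Eventually.of_forall fun y => ?_)
      · obtain ⟨a, b, c⟩ := y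
        simp
      · obtain ⟨a, b, c⟩ := y
        simp
    exact IsLocalDiffeomorphAt.comp (hf := h1) (g := κ)
      (hg := hκ.loc (l + 1 / 2) ((starRingEnd ℂ) v) t (by rw [RCLike.norm_conj]; exact hv))
  inj := fun l v t l' v' t' hv hv' he => by
    obtain ⟨h1, ⟨m, hm⟩, h3⟩ := hκ.inj (l + 1 / 2) ((starRingEnd ℂ) v) t (l' + 1 / 2)
      ((starRingEnd ℂ) v') t' (by rw [RCLike.norm_conj]; exact hv)
      (by rw [RCLike.norm_conj]; exact hv') he
    refine ⟨?_, ⟨m, by linarith⟩, h3⟩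
    have h4 := congrArg (starRingEnd ℂ) h1
    rwa [Complex.conj_conj, Complex.conj_conj] at h4

theorem mirror0 [T2Space P] (hκ : ThickT IP κ) (D : TwinP IP κ n j X) :
    Nonempty (TwinP IP (fun q => κ (q.1, (starRingEnd ℂ) q.2.1, q.2.2)) n (1 - j) X) := by
  obtain ⟨D1⟩ := mirror hκ D
  have h1 : ∀ l : ℝ, HasDerivAt (fun l : ℝ => l - 1 / 2) 1 l := fun l =>
    (hasDerivAt_id l).sub_const _
  obtain ⟨D2⟩ := rep (Frm_thick hκ) (φ := fun l => l - 1 / 2) (contDiff_id.sub contDiff_const)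
    (fun l => by ring) (fun l => by rw [(h1 l).deriv]; exact one_pos) D1
  have e : (fun q : ℝ × ℂ × ℝ => (fun q : ℝ × ℂ × ℝ =>
      κ (q.1 + 1 / 2, (starRingEnd ℂ) q.2.1, q.2.2)) ((fun l : ℝ => l - 1 / 2) q.1, q.2)) =
      fun q => κ (q.1, (starRingEnd ℂ) q.2.1, q.2.2) := by
    funext q
    show κ (q.1 - 1 / 2 + 1 / 2, (starRingEnd ℂ) q.2.1, q.2.2) = _
    rw [sub_add_cancel]
  rw [e] at D2
  exact ⟨D2⟩

end

end Pool.Agent.COR
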