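import Pool.Agent.COR.CorA
import Pool.Agent.COR.Frm

/-!
# COR/CorB: `Carries` depends only on the core   (difficulty 2)

`core_eq` with `φ l = l`.  `σ = 1`: `frame` for `κ'`.  `σ = -1`: `κ̄ (l, v, t) = κ' (l, conj v, t)` is thick; `frame` for `κ̄`, then `mirror0` for `κ̄` (`conj (conj v) = v`).
`cj 1 v = v`, `cj (-1) v = conj v`.
-/

open scoped Manifold ContDiff Topology
open Set Filter
open Complex (I)
open Pool.Agent.RSG (E4 ex cj)

namespace Pool.Agent.COR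

open Pool.Agent.RBM (ThickT TwinP OnT)

section
variable {EP : Type*} [NormedAddCommGroup EP] [NormedSpace ℝ EP] {HP : Type*} [TopologicalSpace HP]
  {IP : ModelWithCorners ℝ EP HP} {P : Type*} [TopologicalSpace P] [ChartedSpace HP P]

theorem CorB_cj_one (v : ℂ) : cj 1 v = v := by
  apply Complex.ext <;> simp [cj]

theorem CorB_cj_neg (v : ℂ) : cj (-1) v = (starRingEnd ℂ) v := by
  apply Complex.ext <;> simp [cj]

theorem CorB_thick {κ : ℝ × ℂ × ℝ → P} (hκ : ThickT IP κ) :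
    ThickT IP (fun q : ℝ × ℂ × ℝ => κ (q.1, (starRingEnd ℂ) q.2.1, q.2.2)) := by
  refine ⟨fun l v t => hκ.perl _ _ _, fun l v t => hκ.pert _ _ _, ?_, ?_⟩
  · intro l v t hv
    have h1 := hκ.loc l ((starRingEnd ℂ) v) t (by rwa [RCLike.norm_conj])
    have hs : ContDiff ℝ ∞ (fun q : ℝ × ℂ × ℝ => (q.1, (starRingEnd ℂ) q.2.1, q.2.2)) := by
      have hc : ContDiff ℝ ∞ (fun v : ℂ => (starRingEnd ℂ) v) := by
        have := (Complex.conjCLE : ℂ ≃L[ℝ] ℂ).contDiff (n := ∞)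
        exact this
      exact contDiff_fst.prodMk ((hc.comp (contDiff_fst.comp contDiff_snd)).prodMk
        (contDiff_snd.comp contDiff_snd))
    have h2 : IsLocalDiffeomorphAt 𝓘(ℝ, ℝ × ℂ × ℝ) 𝓘(ℝ, ℝ × ℂ × ℝ) ∞
        (fun q : ℝ × ℂ × ℝ => (q.1, (starRingEnd ℂ) q.2.1, q.2.2)) (l, v, t) :=
      CSG.ld_of_perm (f := (⟨fun q : ℝ × ℂ × ℝ => (q.1, (starRingEnd ℂ) q.2.1, q.2.2),
        fun q : ℝ × ℂ × ℝ => (q.1, (starRingEnd ℂ) q.2.1, q.2.2), fun q => by simp,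
        fun q => by simp⟩ : ℝ × ℂ × ℝ ≃ ℝ × ℂ × ℝ)) hs hs (l, v, t)
    exact IsLocalDiffeomorphAt.comp (hf := h2) (hg := h1) ..
  · intro l v t l' v' t' hv hv' he
    obtain ⟨e1, e2, e3⟩ := hκ.inj _ _ _ _ _ _ (by rwa [RCLike.norm_conj])
      (by rwa [RCLike.norm_conj]) he
    exact ⟨(starRingEnd ℂ).injective e1, e2, e3⟩

theorem carries_core [T2Space P] {a : ℝ → P → P} (ha : PTH.Act IP a) {K : ℝ → P} {n : ℤ}
    {X : Type*} [TopologicalSpace X] [ChartedSpace E4 X] (h : PTH.Carries IP a n K X)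
    {κ : ℝ × ℂ × ℝ → P} (hκ : ThickT IP κ) (heq : Equi a κ) (hcore : ∀ l, κ (l, 0, 0) = K l) :
    ∃ j : ℤ, Nonempty (TwinP IP κ n j X) := by
  obtain ⟨κ0, j0, h0, heq0, hcore0, hD⟩ := h
  obtain ⟨k, σ, hσ, hk⟩ := core_eq ha h0 heq0 hκ heq (fun l => (hcore l).trans (hcore0 l).symm)
    (φ := fun l => l) contDiff_id (fun l => rfl)
  obtain ⟨D⟩ := hk X n j0 hD
  rcases hσ with rfl | rfl
  · simp only [CorB_cj_one] at D
    exact ⟨_, frame hκ k D⟩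
  · simp only [CorB_cj_neg] at D
    have hb := CorB_thick hκ
    obtain ⟨D1⟩ := frame hb k D
    obtain ⟨D2⟩ := mirror0 hb D1
    simp only [Complex.conj_conj] at D2
    exact ⟨_, ⟨D2⟩⟩

end

end Pool.Agent.COR
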