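import Pool.Agent.PTH.Defs
import Pool.Agent.CSG.Radial
import Pool.Agent.CSG.FunBasic
import Pool.Agent.CSG.LDa
import Pool.Agent.CSG.LDb
import Pool.Agent.CSG.GamAbs

/-!
# COR/Defs: the core of a thick torus, definitions

`lin A b w = e^A (w + b w̄)`, `‖b‖ < 1`: the real linear maps of the plane of positive determinant, with a
logarithm.  `dt L` is the determinant of the real linear map `L`.
`Equi a κ`: `κ` is equivariant.
`PosAt κ κ' l`: at the point `(l, 0, 0)` the local diffeomorphisms `κ` and `κ'` (with the same core) have the same orientation.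
`TwoStrands b K f₁ f₂ ε₁ ε₂`: in the box `b` the curve `K` consists of the two straight strands `z = ±1`, parametrised by the increasing
functions `f₁`, `f₂`.
-/

open scoped Manifold ContDiff Topology
open Complex (I)
open Pool.Agent.RSG (E4 cj)

namespace Pool.Agent.COR

/-- `e^A (w + b w̄)` -/
noncomputable def lin (A b w : ℂ) : ℂ := Complex.exp A * (w + b * (starRingEnd ℂ) w)

/-- determinant of a real linear map of the plane -/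
noncomputable def dt (L : ℂ →L[ℝ] ℂ) : ℝ := ((starRingEnd ℂ) (L 1) * L I).im

/-- `S` is invariant under integer translations -/
def PerS (S : Set ℝ) : Prop := ∀ l, l + 1 ∈ S ↔ l ∈ S

/-- derivative in the plane direction, on the core -/
noncomputable def dv (om : ℝ × ℂ → ℂ) (l : ℝ) : ℂ →L[ℝ] ℂ := fderiv ℝ (fun v : ℂ => om (l, v)) 0

section
variable {EP : Type*} [NormedAddCommGroup EP] [NormedSpace ℝ EP] {HP : Type*} [TopologicalSpace HP]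
  (IP : ModelWithCorners ℝ EP HP) {P : Type*} [TopologicalSpace P] [ChartedSpace HP P]

/-- equivariant -/
def Equi (a : ℝ → P → P) (κ : ℝ × ℂ × ℝ → P) : Prop := ∀ l v t, κ (l, v, t) = a t (κ (l, v, 0))

/-- `κ' (l', v, t) = κ (lam (l', v), om (l', v), t + tau (l', v))` for `(l', v)` near `(l, 0)`, with a map of positive determinant -/
def PosAt (κ κ' : ℝ × ℂ × ℝ → P) (l : ℝ) : Prop :=
  ∃ (lam : ℝ × ℂ → ℝ) (om : ℝ × ℂ → ℂ) (tau : ℝ × ℂ → ℝ), ContDiffAt ℝ ∞ lam (l, 0) ∧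
    ContDiffAt ℝ ∞ om (l, 0) ∧ ContDiffAt ℝ ∞ tau (l, 0) ∧ lam (l, 0) = l ∧ om (l, 0) = 0 ∧
    tau (l, 0) = 0 ∧
    (∀ᶠ q : ℝ × ℂ in 𝓝 (l, 0), ∀ t, κ' (q.1, q.2, t) = κ (lam q, om q, t + tau q)) ∧
    0 < dt (dv om l)

/-- embedded `disc × interval × circle`: `‖z‖ < r`, `|s| < h` -/
structure BBox (b : ℂ × ℝ × ℝ → P) (r h : ℝ) : Prop where
  per : ∀ (z : ℂ) (s t : ℝ), b (z, s, t + 1) = b (z, s, t)
  loc : ∀ (z : ℂ) (s t : ℝ), ‖z‖ < r → |s| < h → IsLocalDiffeomorphAt 𝓘(ℝ, ℂ × ℝ × ℝ) IP ∞ b (z, s, t)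
  inj : ∀ (z : ℂ) (s t : ℝ) (z' : ℂ) (s' t' : ℝ), ‖z‖ < r → |s| < h → ‖z'‖ < r → |s'| < h →
    b (z, s, t) = b (z', s', t') → z = z' ∧ s = s' ∧ ∃ m : ℤ, t' = t + m

/-- equivariant box -/
def EquiB (a : ℝ → P → P) (b : ℂ × ℝ × ℝ → P) : Prop := ∀ z s t, b (z, s, t) = a t (b (z, s, 0))

/-- In the box `b` (radius `5`, `|s| < 1`) the curve `K` consists of two straight strands. -/
structure TwoStrands (b : ℂ × ℝ × ℝ → P) (K : ℝ → P) (f₁ f₂ : ℝ → ℝ) (ε₁ ε₂ : ℝ) : Prop where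
  smooth₁ : ContDiff ℝ ∞ f₁
  smooth₂ : ContDiff ℝ ∞ f₂
  deriv₁ : ∀ u, 0 < deriv f₁ u
  deriv₂ : ∀ u, 0 < deriv f₂ u
  sign₁ : ε₁ = 1 ∨ ε₁ = -1
  sign₂ : ε₂ = 1 ∨ ε₂ = -1
  ord₁ : f₁ 1 < f₂ (-1)
  ord₂ : f₂ 1 < f₁ (-1) + 1
  strand₁ : ∀ u, |u| < 1 → K (f₁ u) = b (1, ε₁ * u, 0)
  strand₂ : ∀ u, |u| < 1 → K (f₂ u) = b (-1, ε₂ * u, 0)
  off : ∀ l, (f₁ 1 ≤ l ∧ l ≤ f₂ (-1)) ∨ (f₂ 1 ≤ l ∧ l ≤ f₁ (-1) + 1) →
    ∀ (z : ℂ) (s t : ℝ), ‖z‖ < 5 → |s| < 1 → K l ≠ b (z, s, t)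

end

end Pool.Agent.COR
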