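import Pool.Agent.COR.Defs

/-!
# COR/GRa: linear germs   (difficulty 2)

`exists_lin`: `CSG.radial` (CSG/Radial.lean) with `F = ℂ` and the equivalences `L l τ w = lin (T τ * A l) (T τ * b l) w`,
`T = Real.smoothTransition` (so that `L l τ` is invertible for ALL real `τ`; `T 0 = 0`, `T 1 = 1`).
* inverse of `w ↦ e^A (w + b w̄)`, `‖b‖ < 1`: with `u = e^(-A) z`, `w = (u - b ū) / (1 - ‖b‖²)`.  (Build a `LinearEquiv`
  and use `LinearEquiv.toContinuousLinearEquiv`.)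
* bounds: `‖lin A b w‖ ≤ exp ‖A‖ * 2 * ‖w‖`, `‖(lin A b)⁻¹ z‖ ≤ exp ‖A‖ * 2 / (1 - q²) * ‖z‖`; `|T τ - T τ'| ≤ C₀ |τ - τ'|`
  (`CSG.smoothTransition_lip`), `‖lin (T A) (T b) w - lin (T' A) (T' b) w‖ ≤ (‖A‖ e^‖A‖ * 2 + e^‖A‖) |T - T'| ‖w‖`.
* smoothness of `(l, τ, w) ↦ L l τ w`: `fun_prop` / composition, `Complex.conjCLE.contDiff`.
The family `f` of `CSG.radial` is `f l w = L l (θ w) w`; `θ w = 1` for `‖w‖ ≤ r₀`, `0` for `‖w‖ ≥ R`; it depends only on `A l, b l`.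
-/

open scoped Manifold ContDiff Topology
open Set Filter
open Complex (I)

namespace Pool.Agent.COR

theorem GRa_star (b : ℂ) : b * (starRingEnd ℂ) b = ((‖b‖ ^ 2 : ℝ) : ℂ) := by
  rw [Complex.mul_conj, Complex.normSq_eq_norm_sq]

/-- the inverse of `lin A b` -/
noncomputable def GRa_inv (A b z : ℂ) : ℂ :=
  (Complex.exp (-A) * z - b * (starRingEnd ℂ) (Complex.exp (-A) * z)) / ((1 - ‖b‖ ^ 2 : ℝ) : ℂ)

theorem GRa_left {A b : ℂ} (hb : ‖b‖ < 1) (w : ℂ) : GRa_inv A b (lin A b w) = w := by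
  have h0 : Complex.exp (-A) * Complex.exp A = 1 := by
    rw [← Complex.exp_add, neg_add_cancel, Complex.exp_zero]
  have h1 : ((1 - ‖b‖ ^ 2 : ℝ) : ℂ) ≠ 0 := by
    have : (0 : ℝ) < 1 - ‖b‖ ^ 2 := by nlinarith [norm_nonneg b]
    exact_mod_cast this.ne'
  have h2 : Complex.exp (-A) * lin A b w = w + b * (starRingEnd ℂ) w := by
    rw [lin, ← mul_assoc, h0, one_mul]
  rw [GRa_inv, h2, div_eq_iff h1, map_add, map_mul, Complex.conj_conj]
  push_cast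
  have h3 := GRa_star b
  push_cast at h3
  linear_combination (-w) * h3

theorem GRa_right {A b : ℂ} (hb : ‖b‖ < 1) (z : ℂ) : lin A b (GRa_inv A b z) = z := by
  have h0 : Complex.exp A * Complex.exp (-A) = 1 := by
    rw [← Complex.exp_add, add_neg_cancel, Complex.exp_zero]
  have h1 : ((1 - ‖b‖ ^ 2 : ℝ) : ℂ) ≠ 0 := by
    have : (0 : ℝ) < 1 - ‖b‖ ^ 2 := by nlinarith [norm_nonneg b]
    exact_mod_cast this.ne'
  have h2 : GRa_inv A b z + b * (starRingEnd ℂ) (GRa_inv A b z) = Complex.exp (-A) * z := by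
    unfold GRa_inv
    generalize Complex.exp (-A) * z = u
    rw [map_div₀, Complex.conj_ofReal, map_sub, map_mul, Complex.conj_conj, ← mul_div_assoc,
      ← add_div, div_eq_iff h1]
    push_cast
    have h3 := GRa_star b
    push_cast at h3
    linear_combination (-u) * h3
  rw [lin, h2, ← mul_assoc, h0, one_mul]

/-- `lin` as a linear equivalence -/
noncomputable def GRa_le (A b : ℂ) (hb : ‖b‖ < 1) : ℂ ≃ₗ[ℝ] ℂ where
  toFun := lin A b
  map_add' := fun v w => by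
    simp only [lin, map_add]
    ring
  map_smul' := fun c w => by
    simp only [lin, Complex.real_smul, map_mul, Complex.conj_ofReal, RingHom.id_apply]
    ring
  invFun := GRa_inv A b
  left_inv := GRa_left hb
  right_inv := GRa_right hb

theorem GRa_T (τ : ℝ) : 0 ≤ Real.smoothTransition τ ∧ Real.smoothTransition τ ≤ 1 :=
  ⟨Real.smoothTransition.nonneg τ, Real.smoothTransition.le_one τ⟩

theorem GRa_mul {T : ℝ} (h0 : 0 ≤ T) (h1 : T ≤ 1) (z : ℂ) : ‖(T : ℂ) * z‖ ≤ ‖z‖ := by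
  rw [norm_mul, Complex.norm_real, Real.norm_eq_abs, abs_of_nonneg h0]
  nlinarith [norm_nonneg z]

theorem GRa_exp {z : ℂ} {C : ℝ} (h : ‖z‖ ≤ C) : ‖Complex.exp z‖ ≤ Real.exp C := by
  rw [Complex.norm_exp]
  exact Real.exp_le_exp.2 ((Complex.re_le_norm z).trans h)

theorem GRa_b1 {A b : ℂ} {C : ℝ} (hA : ‖A‖ ≤ C) (hb : ‖b‖ ≤ 1) (w : ℂ) :
    ‖lin A b w‖ ≤ 2 * Real.exp C * ‖w‖ := by
  rw [lin, norm_mul]
  have h1 : ‖w + b * (starRingEnd ℂ) w‖ ≤ 2 * ‖w‖ := by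
    refine (norm_add_le _ _).trans ?_
    rw [norm_mul, Complex.norm_conj]
    nlinarith [norm_nonneg w]
  have h2 := GRa_exp hA
  calc ‖Complex.exp A‖ * ‖w + b * (starRingEnd ℂ) w‖ ≤ Real.exp C * (2 * ‖w‖) :=
        mul_le_mul h2 h1 (norm_nonneg _) (Real.exp_pos _).le
    _ = 2 * Real.exp C * ‖w‖ := by ring

theorem GRa_b2 {A b : ℂ} {C q : ℝ} (hA : ‖A‖ ≤ C) (hq : q < 1) (hb : ‖b‖ ≤ q) (z : ℂ) :
    ‖GRa_inv A b z‖ ≤ 2 * Real.exp C / (1 - q) * ‖z‖ := by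
  have h0 : 0 < 1 - q := by linarith
  have hb1 : ‖b‖ ≤ 1 := by linarith
  have h1 : 1 - q ≤ 1 - ‖b‖ ^ 2 := by nlinarith [norm_nonneg b]
  have h2 : ‖Complex.exp (-A) * z‖ ≤ Real.exp C * ‖z‖ := by
    rw [norm_mul]
    exact mul_le_mul_of_nonneg_right (GRa_exp (by rw [norm_neg]; exact hA)) (norm_nonneg _)
  have h3 : ‖Complex.exp (-A) * z - b * (starRingEnd ℂ) (Complex.exp (-A) * z)‖ ≤
      2 * (Real.exp C * ‖z‖) := by
    refine (norm_sub_le _ _).trans ?_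
    rw [norm_mul b, Complex.norm_conj]
    nlinarith [norm_nonneg (Complex.exp (-A) * z)]
  rw [GRa_inv, norm_div, Complex.norm_real, Real.norm_eq_abs, abs_of_pos (by linarith)]
  have h4 : 0 ≤ 2 * (Real.exp C * ‖z‖) := by positivity
  calc _ ≤ 2 * (Real.exp C * ‖z‖) / (1 - q) := div_le_div₀ h4 h3 h0 h1
    _ = 2 * Real.exp C / (1 - q) * ‖z‖ := by ring

theorem GRa_b3 {A b : ℂ} {C : ℝ} (hC : 0 ≤ C) (hA : ‖A‖ ≤ C) (hb : ‖b‖ ≤ 1) (w : ℂ) {s s' : ℝ}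
    (hs : 0 ≤ s) (hs1 : s ≤ 1) (hs' : 0 ≤ s') (hs1' : s' ≤ 1) :
    ‖lin (s * A) (s * b) w - lin (s' * A) (s' * b) w‖ ≤
      (2 * C * Real.exp C + Real.exp C) * ‖w‖ * |s - s'| := by
  have hd : ∀ x : ℝ, HasDerivAt (fun x : ℝ => lin (x * A) (x * b) w)
      (Complex.exp (x * A) * A * (w + x * b * (starRingEnd ℂ) w) +
        Complex.exp (x * A) * (b * (starRingEnd ℂ) w)) x := by
    intro x
    have h1 : HasDerivAt (fun x : ℝ => (x : ℂ)) 1 x := (hasDerivAt_id x).ofReal_comp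
    have h2 : HasDerivAt (fun x : ℝ => (x : ℂ) * A) A x := by
      have := h1.mul_const A
      rwa [one_mul] at this
    have h3 : HasDerivAt (fun x : ℝ => (x : ℂ) * b * (starRingEnd ℂ) w)
        (b * (starRingEnd ℂ) w) x := by
      have := (h1.mul_const b).mul_const ((starRingEnd ℂ) w)
      rwa [one_mul] at this
    have h4 := h2.cexp.mul (h3.const_add w)
    exact h4
  have hbd : ∀ x ∈ Icc (0 : ℝ) 1, ‖Complex.exp (x * A) * A * (w + x * b * (starRingEnd ℂ) w) +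
        Complex.exp (x * A) * (b * (starRingEnd ℂ) w)‖ ≤
        (2 * C * Real.exp C + Real.exp C) * ‖w‖ := by
    intro x hx
    have e1 : ‖Complex.exp (x * A)‖ ≤ Real.exp C := GRa_exp ((GRa_mul hx.1 hx.2 A).trans hA)
    have e2 : ‖w + x * b * (starRingEnd ℂ) w‖ ≤ 2 * ‖w‖ := by
      refine (norm_add_le _ _).trans ?_
      rw [norm_mul, Complex.norm_conj]
      have := (GRa_mul hx.1 hx.2 b).trans hb
      nlinarith [norm_nonneg w]
    have e3 : ‖b * (starRingEnd ℂ) w‖ ≤ ‖w‖ := by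
      rw [norm_mul, Complex.norm_conj]
      nlinarith [norm_nonneg w]
    refine (norm_add_le _ _).trans ?_
    rw [norm_mul, norm_mul, norm_mul (Complex.exp (x * A)) (b * (starRingEnd ℂ) w)]
    have e4 : ‖Complex.exp (x * A)‖ * ‖A‖ ≤ Real.exp C * C :=
      mul_le_mul e1 hA (norm_nonneg _) (Real.exp_pos _).le
    have e5 : ‖Complex.exp (x * A)‖ * ‖A‖ * ‖w + x * b * (starRingEnd ℂ) w‖ ≤
        Real.exp C * C * (2 * ‖w‖) :=
      mul_le_mul e4 e2 (norm_nonneg _) (by positivity)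
    have e6 : ‖Complex.exp (x * A)‖ * ‖b * (starRingEnd ℂ) w‖ ≤ Real.exp C * ‖w‖ :=
      mul_le_mul e1 e3 (norm_nonneg _) (Real.exp_pos _).le
    linarith
  have h := (convex_Icc (0 : ℝ) 1).norm_image_sub_le_of_norm_hasDerivWithin_le
    (fun x hx => (hd x).hasDerivWithinAt) hbd ⟨hs', hs1'⟩ ⟨hs, hs1⟩
  rw [Real.norm_eq_abs] at h
  exact h

theorem exists_lin {A b : ℝ → ℂ} (hA : ContDiff ℝ ∞ A) (hb : ContDiff ℝ ∞ b) {CA q : ℝ}
    (hCA : ∀ l, ‖A l‖ ≤ CA) (hq : q < 1) (hbq : ∀ l, ‖b l‖ ≤ q) {R : ℝ} (hR : 0 < R) :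
    ∃ r₀ : ℝ, 0 < r₀ ∧ ∃ f : ℝ → Equiv.Perm ℂ, (ContDiff ℝ ∞ fun q : ℂ × ℝ => f q.2 q.1) ∧
      (ContDiff ℝ ∞ fun q : ℂ × ℝ => (f q.2).symm q.1) ∧
      (∀ l w, ‖w‖ ≤ r₀ → f l w = lin (A l) (b l) w) ∧ (∀ l w, R ≤ ‖w‖ → f l w = w) ∧
      (∀ l l', A l = A l' → b l = b l' → f l = f l') ∧ (∀ l, A l = 0 → b l = 0 → ∀ w, f l w = w) := by
  have hC0 : 0 ≤ CA := (norm_nonneg _).trans (hCA 0)
  have hTb : ∀ l τ, ‖(Real.smoothTransition τ : ℂ) * b l‖ ≤ q := fun l τ =>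
    (GRa_mul (GRa_T τ).1 (GRa_T τ).2 _).trans (hbq l)
  have hTA : ∀ l τ, ‖(Real.smoothTransition τ : ℂ) * A l‖ ≤ CA := fun l τ =>
    (GRa_mul (GRa_T τ).1 (GRa_T τ).2 _).trans (hCA l)
  let L : ℝ → ℝ → ℂ ≃L[ℝ] ℂ := fun l τ =>
    (GRa_le ((Real.smoothTransition τ : ℂ) * A l) ((Real.smoothTransition τ : ℂ) * b l)
      ((hTb l τ).trans_lt hq)).toContinuousLinearEquiv
  have hLa : ∀ l τ w, L l τ w =
      lin ((Real.smoothTransition τ : ℂ) * A l) ((Real.smoothTransition τ : ℂ) * b l) w :=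
    fun l τ w => rfl
  have hLs : ∀ l τ w, (L l τ).symm w =
      GRa_inv ((Real.smoothTransition τ : ℂ) * A l) ((Real.smoothTransition τ : ℂ) * b l) w :=
    fun l τ w => rfl
  obtain ⟨C₀, hC₀, hlip⟩ := CSG.smoothTransition_lip
  have h1q : 0 < 1 - q := by linarith
  have n1 : 0 ≤ 2 * Real.exp CA := by positivity
  have n2 : 0 ≤ 2 * Real.exp CA / (1 - q) := by positivity
  have n3 : 0 ≤ (2 * CA * Real.exp CA + Real.exp CA) * C₀ := by positivity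
  have hLsm : ContDiff ℝ ∞ fun q : ℝ × ℝ × ℂ => L q.1 q.2.1 q.2.2 := by
    have t1 : ContDiff ℝ ∞ (fun q : ℝ × ℝ × ℂ => ((Real.smoothTransition q.2.1 : ℝ) : ℂ)) :=
      Complex.ofRealCLM.contDiff.comp
        (Real.smoothTransition.contDiff.comp (contDiff_fst.comp contDiff_snd))
    have t2 : ContDiff ℝ ∞ (fun q : ℝ × ℝ × ℂ => A q.1) := hA.comp contDiff_fst
    have t3 : ContDiff ℝ ∞ (fun q : ℝ × ℝ × ℂ => b q.1) := hb.comp contDiff_fst
    have t4 : ContDiff ℝ ∞ (fun q : ℝ × ℝ × ℂ => q.2.2) := contDiff_snd.comp contDiff_snd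
    have t5 : ContDiff ℝ ∞ (fun q : ℝ × ℝ × ℂ => (starRingEnd ℂ) q.2.2) :=
      Complex.conjCLE.contDiff.comp t4
    exact (t1.mul t2).cexp.mul (t4.add ((t1.mul t3).mul t5))
  obtain ⟨r₀, hr₀, -, θ, f, -, -, hθ1, hθ0, hf, hs, hs'⟩ := CSG.radial L hLsm
    (by
      intro t z
      rw [hLa, Real.smoothTransition.zero]
      simp [lin])
    (2 * Real.exp CA + 2 * Real.exp CA / (1 - q) + (2 * CA * Real.exp CA + Real.exp CA) * C₀)
    (by
      intro t τ z _ _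
      rw [hLa]
      refine (GRa_b1 (hTA t τ) ((hTb t τ).trans hq.le) z).trans ?_
      exact mul_le_mul_of_nonneg_right (by linarith) (norm_nonneg _))
    (by
      intro t τ z _ _
      rw [hLs]
      refine (GRa_b2 (hTA t τ) hq (hTb t τ) z).trans ?_
      exact mul_le_mul_of_nonneg_right (by linarith) (norm_nonneg _))
    (by
      intro t τ τ' z _ _ _ _
      rw [hLa, hLa]
      refine (GRa_b3 hC0 (hCA t) ((hbq t).trans hq.le) z (GRa_T τ).1 (GRa_T τ).2 (GRa_T τ').1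
        (GRa_T τ').2).trans ?_
      have e1 := hlip τ τ'
      have e2 : 0 ≤ (2 * CA * Real.exp CA + Real.exp CA) * ‖z‖ := by positivity
      have e3 := mul_le_mul_of_nonneg_left e1 e2
      refine e3.trans ?_
      have e4 : 0 ≤ |τ - τ'| * ‖z‖ := by positivity
      have e5 : (2 * CA * Real.exp CA + Real.exp CA) * C₀ * (|τ - τ'| * ‖z‖) ≤
        (2 * Real.exp CA + 2 * Real.exp CA / (1 - q) +
          (2 * CA * Real.exp CA + Real.exp CA) * C₀) * (|τ - τ'| * ‖z‖) :=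
        mul_le_mul_of_nonneg_right (by linarith) e4
      calc _ = (2 * CA * Real.exp CA + Real.exp CA) * C₀ * (|τ - τ'| * ‖z‖) := by ring
        _ ≤ _ := e5
        _ = _ := by ring) R hR
  refine ⟨r₀, hr₀, f, hs, hs', ?_, ?_, ?_, ?_⟩
  · intro l w hw
    rw [hf, hθ1 w hw, hLa, Real.smoothTransition.one]
    simp
  · intro l w hw
    rw [hf, hθ0 w hw, hLa, Real.smoothTransition.zero]
    simp [lin]
  · intro l l' h1 h2
    apply Equiv.ext
    intro w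
    rw [hf, hf, hLa, hLa, h1, h2]
  · intro l h1 h2 w
    rw [hf, hLa, h1, h2]
    simp [lin]

end Pool.Agent.COR
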