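import Pool.Agent.COR.GRa
import Pool.Agent.SPI.Push

/-!
# COR/GRb: germs of fibre diffeomorphisms   (difficulty 3)

`exists_fib`.  `A`, `b` are periodic and continuous, so bounded, `‖b l‖ ≤ q < 1` (compactness of `[0, 1]`).  Let `f⁰` be the family of
`exists_lin` (with radius `R / 2` in place of `R`), `r₀` its radius.  Let `M l` be the inverse of the linear map `lin (A l) (b l)`:
`M l z = (u - b l * conj u) / (1 - ‖b l‖²)`, `u = exp (-A l) z`.  Let `e l w = M l (E (l, w))` (smooth, periodic, `e l 0 = 0`,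
`fderiv (e l) 0 = 0`) and `g_ε l w = cutb ε w • e l w` (`SPI.cutb`, `= 1` for `‖w‖ ≤ ε`, `0` for `‖w‖ ≥ 2 ε`).
* `g_ε l` is `1/2`-Lipschitz for small `ε`: by compactness (`l ∈ [0,1]`, `‖w‖ ≤ 1`) and periodicity there is `C` with `‖fderiv (e l) w‖ ≤ C ‖w‖`, `‖e l w‖ ≤ C ‖w‖²`
  for `‖w‖ ≤ 1` (the map `(l,w) ↦ fderiv (e l) w` is smooth and vanishes at `w = 0`; mean value inequality), and `|cutb ε w - cutb ε w'| ≤ C'/ε ‖w - w'‖`
  (`SPI.cutb_lip`); on the ball `‖w‖ ≤ 3 ε` the Lipschitz constant of `g_ε l` is `≤ C' / ε * 9 C ε² + 3 C ε`; points outside the ball: `g_ε l = 0` for `‖w‖ ≥ 2 ε`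
  (treat `w'` outside `3 ε`, `w` inside `2 ε` by the bound `‖g_ε l w‖ ≤ C 4 ε²` and `‖w - w'‖ ≥ ε`; or use `fderiv` everywhere and
  `Convex.lipschitzOnWith..` on `univ`).
* `h l w = w + g_ε l w` is a smooth family of permutations with smooth inverse (`SPI.exists_perm_of_lip`), `= w` for `‖w‖ ≥ 2 ε`.
* `f l = f⁰ l ∘ h l`: for `‖w‖ ≤ ε`, `‖h l w‖ ≤ r₀` (small `ε`), `f l w = lin (A l) (b l) (w + M l (E (l, w))) = lin .. w + E (l, w)`.
* `‖w‖ ≥ R`: `h l w = w` (`2 ε ≤ R`), `f⁰ l w = w`.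
* periodicity and the trivial case: clear from the formulas (`exists_perm_of_lip` gives `h l w = w + g l w`; `Equiv.ext`).
-/

open scoped Manifold ContDiff Topology
open Set Filter
open Complex (I)

namespace Pool.Agent.COR

/-- inverse of `lin` -/
noncomputable def GRbI (A b z : ℂ) : ℂ :=
  (1 - ‖b‖ ^ 2)⁻¹ • (Complex.exp (-A) * z - b * (starRingEnd ℂ) (Complex.exp (-A) * z))

theorem GRbI_lin {A b : ℂ} (hb : ‖b‖ < 1) (z : ℂ) : lin A b (GRbI A b z) = z := by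
  have h1 : (0 : ℝ) < 1 - ‖b‖ ^ 2 := by
    have := norm_nonneg b
    nlinarith
  have h2 : ((1 - ‖b‖ ^ 2 : ℝ) : ℂ) ≠ 0 := Complex.ofReal_ne_zero.2 h1.ne'
  have h3 : b * (starRingEnd ℂ) b = ((‖b‖ ^ 2 : ℝ) : ℂ) := by
    rw [Complex.mul_conj, Complex.normSq_eq_norm_sq]
  have h4 : Complex.exp A * Complex.exp (-A) = 1 := by
    rw [← Complex.exp_add, add_neg_cancel, Complex.exp_zero]
  unfold lin GRbI
  generalize hu : Complex.exp (-A) * z = u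
  rw [Complex.real_smul, map_mul, Complex.conj_ofReal, map_sub, map_mul, Complex.conj_conj,
    Complex.ofReal_inv]
  have h5 : (((1 - ‖b‖ ^ 2 : ℝ) : ℂ))⁻¹ * (u - b * (starRingEnd ℂ) u) +
      b * ((((1 - ‖b‖ ^ 2 : ℝ) : ℂ))⁻¹ * ((starRingEnd ℂ) u - (starRingEnd ℂ) b * u)) = u := by
    have h6 : (((1 - ‖b‖ ^ 2 : ℝ) : ℂ))⁻¹ * (u - b * (starRingEnd ℂ) u) +
      b * ((((1 - ‖b‖ ^ 2 : ℝ) : ℂ))⁻¹ * ((starRingEnd ℂ) u - (starRingEnd ℂ) b * u)) =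
      (((1 - ‖b‖ ^ 2 : ℝ) : ℂ))⁻¹ * ((1 - b * (starRingEnd ℂ) b) * u) := by ring
    rw [h6, h3]
    have h7 : (1 - ((‖b‖ ^ 2 : ℝ) : ℂ)) = ((1 - ‖b‖ ^ 2 : ℝ) : ℂ) := by push_cast; ring
    rw [h7, ← mul_assoc, inv_mul_cancel₀ h2, one_mul]
  rw [h5, ← hu, ← mul_assoc, h4, one_mul]

theorem GRb_lin_add (A b x y : ℂ) : lin A b (x + y) = lin A b x + lin A b y := by
  unfold lin
  rw [map_add]
  ring

theorem GRbI_sub (A b x y : ℂ) : GRbI A b (x - y) = GRbI A b x - GRbI A b y := by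
  unfold GRbI
  rw [← smul_sub]
  congr 1
  rw [mul_sub, map_sub]
  ring

theorem GRbI_zero (A b : ℂ) : GRbI A b 0 = 0 := by
  unfold GRbI
  simp

theorem GRbI_norm {A b : ℂ} {CA q : ℝ} (hA : ‖A‖ ≤ CA) (hq : q < 1) (hb : ‖b‖ ≤ q) (z : ℂ) :
    ‖GRbI A b z‖ ≤ ((1 - q ^ 2)⁻¹ * (Real.exp CA * 2)) * ‖z‖ := by
  have hb0 := norm_nonneg b
  have h1 : (0 : ℝ) < 1 - q ^ 2 := by nlinarith
  have h2 : 1 - q ^ 2 ≤ 1 - ‖b‖ ^ 2 := by nlinarith
  have h3 : ‖Complex.exp (-A) * z‖ ≤ Real.exp CA * ‖z‖ := by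
    rw [norm_mul, Complex.norm_exp]
    apply mul_le_mul_of_nonneg_right _ (norm_nonneg z)
    apply Real.exp_le_exp.2
    rw [Complex.neg_re]
    have := Complex.abs_re_le_norm A
    have := neg_abs_le A.re
    linarith
  unfold GRbI
  rw [norm_smul, norm_inv, Real.norm_eq_abs, abs_of_pos (lt_of_lt_of_le h1 h2)]
  have h4 : ‖Complex.exp (-A) * z - b * (starRingEnd ℂ) (Complex.exp (-A) * z)‖ ≤
      Real.exp CA * 2 * ‖z‖ := by
    refine (norm_sub_le _ _).trans ?_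
    rw [norm_mul b, Complex.norm_conj]
    have h5 : ‖b‖ * ‖Complex.exp (-A) * z‖ ≤ 1 * ‖Complex.exp (-A) * z‖ :=
      mul_le_mul_of_nonneg_right (by linarith) (norm_nonneg _)
    linarith
  calc (1 - ‖b‖ ^ 2)⁻¹ * ‖Complex.exp (-A) * z - b * (starRingEnd ℂ) (Complex.exp (-A) * z)‖
      ≤ (1 - q ^ 2)⁻¹ * (Real.exp CA * 2 * ‖z‖) := by
        apply mul_le_mul _ h4 (norm_nonneg _) (by positivity)
        exact inv_anti₀ h1 h2
    _ = _ := by ring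

theorem GRbI_smooth {A b : ℝ → ℂ} {E : ℝ × ℂ → ℂ} (hA : ContDiff ℝ ∞ A) (hb : ContDiff ℝ ∞ b)
    (hE : ContDiff ℝ ∞ E) (hb1 : ∀ l, ‖b l‖ < 1) :
    ContDiff ℝ ∞ fun q : ℂ × ℝ => GRbI (A q.2) (b q.2) (E (q.2, q.1)) := by
  unfold GRbI
  have e1 : ContDiff ℝ ∞ fun q : ℂ × ℝ => A q.2 := hA.comp contDiff_snd
  have e2 : ContDiff ℝ ∞ fun q : ℂ × ℝ => b q.2 := hb.comp contDiff_snd
  have e3 : ContDiff ℝ ∞ fun q : ℂ × ℝ => E (q.2, q.1) :=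
    hE.comp (contDiff_snd.prodMk contDiff_fst)
  have e4 : ContDiff ℝ ∞ fun q : ℂ × ℝ => Complex.exp (-A q.2) * E (q.2, q.1) :=
    (e1.neg.cexp).mul e3
  have e5 : ContDiff ℝ ∞ fun q : ℂ × ℝ => (starRingEnd ℂ) (Complex.exp (-A q.2) * E (q.2, q.1)) :=
    Complex.conjCLE.contDiff.comp e4
  have e6 : ContDiff ℝ ∞ fun q : ℂ × ℝ => (1 - ‖b q.2‖ ^ 2)⁻¹ := by
    apply (contDiff_const.sub (e2.norm_sq ℝ)).inv
    intro q
    have := hb1 q.2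
    have := norm_nonneg (b q.2)
    nlinarith
  exact e6.smul (e4.sub (e2.mul e5))

theorem GRb_fract {E : ℝ × ℂ → ℂ} (hEp : ∀ l v, E (l + 1, v) = E (l, v)) (l : ℝ) (v : ℂ) :
    E (l, v) = E (Int.fract l, v) := by
  have h : Function.Periodic (fun l => E (l, v)) 1 := fun l => hEp l v
  have h1 := h.sub_int_mul_eq (x := l) ⌊l⌋
  simp only [mul_one] at h1
  exact h1.symm

theorem GRb_E {E : ℝ × ℂ → ℂ} (hE : ContDiff ℝ ∞ E)
    (hEp : ∀ l v, E (l + 1, v) = E (l, v)) (hE1 : ∀ l, dv E l = 0) :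
    ∃ C : ℝ, 0 ≤ C ∧ ∀ (l ρ : ℝ), ρ ≤ 1 → ∀ w w' : ℂ, ‖w‖ ≤ ρ → ‖w'‖ ≤ ρ →
      ‖E (l, w) - E (l, w')‖ ≤ C * ρ * ‖w - w'‖ := by
  let D : ℝ × ℂ → (ℂ →L[ℝ] ℂ) := fun q => (fderiv ℝ E q).comp (ContinuousLinearMap.inr ℝ ℝ ℂ)
  have hD : ContDiff ℝ ∞ D := by
    have h1 : ContDiff ℝ ∞ (fderiv ℝ E) := hE.fderiv_right le_rfl
    exact h1.clm_comp contDiff_const
  have hDd : ∀ l w, HasFDerivAt (fun v : ℂ => E (l, v)) (D (l, w)) w := by
    intro l w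
    have h1 : HasFDerivAt E (fderiv ℝ E (l, w)) (l, w) :=
      (hE.differentiable (by simp) (l, w)).hasFDerivAt
    have h2 : HasFDerivAt (fun v : ℂ => ((l, v) : ℝ × ℂ)) (ContinuousLinearMap.inr ℝ ℝ ℂ) w := by
      exact hasFDerivAt_prodMk_right l w
    exact h1.comp w h2
  have hD0 : ∀ l, D (l, 0) = 0 := by
    intro l
    rw [← (hDd l 0).fderiv]
    exact hE1 l
  obtain ⟨K, hK⟩ := LocallyLipschitzOn.exists_lipschitzOnWith_of_compact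
    (s := Icc (0 : ℝ) 1 ×ˢ Metric.closedBall (0 : ℂ) 1)
    (isCompact_Icc.prod (isCompact_closedBall 0 1))
    ((hD.of_le (by simp)).locallyLipschitz.locallyLipschitzOn (s := _))
  have hbd : ∀ l ∈ Icc (0 : ℝ) 1, ∀ w : ℂ, ‖w‖ ≤ 1 → ‖D (l, w)‖ ≤ K * ‖w‖ := by
    intro l hl w hw
    have h1 := hK.dist_le_mul (l, w) ⟨hl, by simpa using hw⟩ (l, 0) ⟨hl, by simp⟩
    rw [hD0, dist_zero_right] at h1
    refine h1.trans_eq ?_
    rw [Prod.dist_eq, dist_self, dist_zero_right, max_eq_right (norm_nonneg w)]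
  refine ⟨K, K.2, fun l ρ hρ w w' hw hw' => ?_⟩
  rw [GRb_fract hEp l w, GRb_fract hEp l w']
  have hl : Int.fract l ∈ Icc (0 : ℝ) 1 := ⟨Int.fract_nonneg l, (Int.fract_lt_one l).le⟩
  have h1 := (convex_closedBall (0 : ℂ) ρ).norm_image_sub_le_of_norm_hasFDerivWithin_le
    (f := fun v : ℂ => E (Int.fract l, v)) (f' := fun v => D (Int.fract l, v)) (C := K * ρ)
    (fun v _ => (hDd _ v).hasFDerivWithinAt) (fun v hv => by
      have hv' : ‖v‖ ≤ ρ := by simpa using hv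
      refine (hbd _ hl v (hv'.trans hρ)).trans ?_
      exact mul_le_mul_of_nonneg_left hv' K.2)
    (x := w') (y := w) (by simpa using hw') (by simpa using hw)
  exact h1

theorem GRb_bdd {A : ℝ → ℂ} (hA : Continuous A) (hAp : ∀ l, A (l + 1) = A l) :
    ∃ l0, ∀ l, ‖A l‖ ≤ ‖A l0‖ := by
  have hper : Function.Periodic (fun l => ‖A l‖) 1 := fun l => by simp only [hAp]
  obtain ⟨l0, -, h⟩ := isCompact_Icc.exists_isMaxOn (s := Icc (0 : ℝ) 1) ⟨0, by simp⟩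
    (f := fun l => ‖A l‖) hA.norm.continuousOn
  refine ⟨l0, fun l => ?_⟩
  have h1 := hper.sub_int_mul_eq (x := l) ⌊l⌋
  simp only [mul_one] at h1
  rw [← h1]
  exact h (show l - ⌊l⌋ ∈ Icc (0 : ℝ) 1 from ⟨Int.fract_nonneg l, (Int.fract_lt_one l).le⟩)

/-- a cut off map which is quadratically small at the origin -/
theorem GRb_cut {e : ℂ → ℂ} {K C' ε : ℝ} (hK : 0 ≤ K) (hC' : 0 < C') (hε : 0 < ε)
    (he : ∀ ρ ≤ 1, ∀ w w' : ℂ, ‖w‖ ≤ ρ → ‖w'‖ ≤ ρ → ‖e w - e w'‖ ≤ K * ρ * ‖w - w'‖)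
    (he0 : e 0 = 0)
    (hcut : ∀ (δ : ℝ), 0 < δ → ∀ x y : ℂ, |SPI.cutb δ x - SPI.cutb δ y| ≤ C' / δ * ‖x - y‖)
    (h1 : 3 * ε ≤ 1) (h2 : (9 * C' * K + 9 * K) * ε ≤ 1 / 2) (x y : ℂ) :
    ‖SPI.cutb ε x • e x - SPI.cutb ε y • e y‖ ≤ 1 / 2 * ‖x - y‖ := by
  have hsz : ∀ w : ℂ, ‖w‖ ≤ 3 * ε → ‖e w‖ ≤ K * (3 * ε) * ‖w‖ := by
    intro w hw
    have := he (3 * ε) h1 w 0 hw (by rw [norm_zero]; positivity)
    rwa [he0, sub_zero, sub_zero] at this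
  have hcase : ∀ x y : ℂ, ‖x‖ ≤ 3 * ε →
      ‖SPI.cutb ε x • e x - SPI.cutb ε y • e y‖ ≤ 1 / 2 * ‖x - y‖ := by
    intro x y hx
    by_cases hy : ‖y‖ ≤ 3 * ε
    · have e1 : SPI.cutb ε x • e x - SPI.cutb ε y • e y =
          (SPI.cutb ε x - SPI.cutb ε y) • e x + SPI.cutb ε y • (e x - e y) := by
        rw [sub_smul, smul_sub]
        abel
      rw [e1]
      refine (norm_add_le _ _).trans ?_
      rw [norm_smul, norm_smul, Real.norm_eq_abs, Real.norm_eq_abs,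
        abs_of_nonneg (SPI.cutb_nonneg ε y)]
      have a1 : |SPI.cutb ε x - SPI.cutb ε y| * ‖e x‖ ≤
          (C' / ε * ‖x - y‖) * (K * (3 * ε) * (3 * ε)) := by
        apply mul_le_mul (hcut ε hε x y) _ (norm_nonneg _) (by positivity)
        refine (hsz x hx).trans ?_
        exact mul_le_mul_of_nonneg_left hx (by positivity)
      have a2 : SPI.cutb ε y * ‖e x - e y‖ ≤ 1 * (K * (3 * ε) * ‖x - y‖) := by
        apply mul_le_mul (SPI.cutb_le_one ε y) (he (3 * ε) h1 x y hx hy) (norm_nonneg _)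
          (by norm_num)
      have a3 : (C' / ε * ‖x - y‖) * (K * (3 * ε) * (3 * ε)) = 9 * C' * K * ε * ‖x - y‖ := by
        field_simp
        ring
      rw [a3] at a1
      have a4 : 9 * C' * K * ε * ‖x - y‖ + 1 * (K * (3 * ε) * ‖x - y‖) ≤
          ((9 * C' * K + 9 * K) * ε) * ‖x - y‖ := by
        have : 0 ≤ K * ε * ‖x - y‖ := by positivity
        nlinarith
      have a5 : ((9 * C' * K + 9 * K) * ε) * ‖x - y‖ ≤ 1 / 2 * ‖x - y‖ :=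
        mul_le_mul_of_nonneg_right h2 (norm_nonneg _)
      linarith
    · rw [SPI.cutb_zero hε (by linarith : 2 * ε ≤ ‖y‖), zero_smul, sub_zero]
      by_cases hx2 : ‖x‖ ≤ 2 * ε
      · have a1 : ε ≤ ‖x - y‖ := by
          have := norm_sub_norm_le y x
          rw [norm_sub_rev] at this
          linarith
        rw [norm_smul, Real.norm_eq_abs, abs_of_nonneg (SPI.cutb_nonneg ε x)]
        have a2 : SPI.cutb ε x * ‖e x‖ ≤ 1 * (K * (3 * ε) * (2 * ε)) := by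
          apply mul_le_mul (SPI.cutb_le_one ε x) _ (norm_nonneg _) (by norm_num)
          exact (hsz x hx).trans (mul_le_mul_of_nonneg_left hx2 (by positivity))
        have a3 : 1 * (K * (3 * ε) * (2 * ε)) ≤ ((9 * C' * K + 9 * K) * ε) * ε := by
          have b1 : 0 ≤ K * ε * ε := by positivity
          have b2 : 0 ≤ C' * (K * ε * ε) := by positivity
          nlinarith
        have a4 : ((9 * C' * K + 9 * K) * ε) * ε ≤ 1 / 2 * ε :=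
          mul_le_mul_of_nonneg_right h2 hε.le
        linarith
      · rw [SPI.cutb_zero hε (by linarith : 2 * ε ≤ ‖x‖), zero_smul, norm_zero]
        positivity
  by_cases hx : ‖x‖ ≤ 3 * ε
  · exact hcase x y hx
  · by_cases hy : ‖y‖ ≤ 3 * ε
    · rw [norm_sub_rev, norm_sub_rev x y]
      exact hcase y x hy
    · rw [SPI.cutb_zero hε (by linarith : 2 * ε ≤ ‖x‖), SPI.cutb_zero hε (by linarith : 2 * ε ≤ ‖y‖),
        zero_smul, zero_smul, sub_zero, norm_zero]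
      positivity

theorem exists_fib {A b : ℝ → ℂ} {E : ℝ × ℂ → ℂ} (hA : ContDiff ℝ ∞ A) (hb : ContDiff ℝ ∞ b)
    (hE : ContDiff ℝ ∞ E) (hAp : ∀ l, A (l + 1) = A l) (hbp : ∀ l, b (l + 1) = b l)
    (hEp : ∀ l v, E (l + 1, v) = E (l, v)) (hb1 : ∀ l, ‖b l‖ < 1)
    (hE0 : ∀ l, E (l, 0) = 0) (hE1 : ∀ l, dv E l = 0) {R : ℝ} (hR : 0 < R) :
    ∃ ε : ℝ, 0 < ε ∧ ∃ f : ℝ → Equiv.Perm ℂ, (ContDiff ℝ ∞ fun q : ℂ × ℝ => f q.2 q.1) ∧
      (ContDiff ℝ ∞ fun q : ℂ × ℝ => (f q.2).symm q.1) ∧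
      (∀ l w, ‖w‖ ≤ ε → f l w = lin (A l) (b l) w + E (l, w)) ∧ (∀ l w, R ≤ ‖w‖ → f l w = w) ∧
      (∀ l, f (l + 1) = f l) ∧
      (∀ l, A l = 0 → b l = 0 → (∀ v, E (l, v) = 0) → ∀ w, f l w = w) := by
  obtain ⟨l1, hl1⟩ := GRb_bdd hA.continuous hAp
  obtain ⟨l2, hl2⟩ := GRb_bdd hb.continuous hbp
  obtain ⟨r₀, hr₀, f0, hf0, hf0', hf1, hf2, hf3, hf4⟩ := exists_lin hA hb hl1 (hb1 l2) hl2 hR
  obtain ⟨C, hC0, hC⟩ := GRb_E hE hEp hE1
  obtain ⟨C', hC', hcut⟩ := SPI.cutb_lip (E := ℂ)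
  set CM : ℝ := (1 - ‖b l2‖ ^ 2)⁻¹ * (Real.exp ‖A l1‖ * 2) with hCM
  have hb2 : 0 < 1 - ‖b l2‖ ^ 2 := by
    have := hb1 l2
    have := norm_nonneg (b l2)
    nlinarith
  have hCM0 : 0 ≤ CM := by positivity
  set K : ℝ := CM * C with hKdef
  have hK0 : 0 ≤ K := by positivity
  let e : ℝ → ℂ → ℂ := fun l w => GRbI (A l) (b l) (E (l, w))
  have he : ∀ l, ∀ ρ ≤ 1, ∀ w w' : ℂ, ‖w‖ ≤ ρ → ‖w'‖ ≤ ρ → ‖e l w - e l w'‖ ≤ K * ρ * ‖w - w'‖ := by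
    intro l ρ hρ w w' hw hw'
    change ‖GRbI (A l) (b l) (E (l, w)) - GRbI (A l) (b l) (E (l, w'))‖ ≤ _
    rw [← GRbI_sub]
    refine (GRbI_norm (hl1 l) (hb1 l2) (hl2 l) _).trans ?_
    calc CM * ‖E (l, w) - E (l, w')‖ ≤ CM * (C * ρ * ‖w - w'‖) :=
          mul_le_mul_of_nonneg_left (hC l ρ hρ w w' hw hw') hCM0
      _ = _ := by ring
  have he0 : ∀ l, e l 0 = 0 := by
    intro l
    change GRbI (A l) (b l) (E (l, 0)) = 0
    rw [hE0, GRbI_zero]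
  have hC1 : 0 < 9 * C' * K + 9 * K + 1 := by positivity
  obtain ⟨ε, hε, hε1, hε2, hε3, hε4⟩ : ∃ ε : ℝ, 0 < ε ∧ 3 * ε ≤ 1 ∧
      (9 * C' * K + 9 * K) * ε ≤ 1 / 2 ∧ 2 * ε ≤ R ∧ 2 * ε ≤ r₀ := by
    refine ⟨min (min (1 / 3) (R / 2)) (min (r₀ / 2) ((9 * C' * K + 9 * K + 1)⁻¹ / 2)), ?_, ?_, ?_,
      ?_, ?_⟩
    · positivity
    · have : min (min (1 / 3) (R / 2)) (min (r₀ / 2) ((9 * C' * K + 9 * K + 1)⁻¹ / 2)) ≤ 1 / 3 :=
        (min_le_left _ _).trans (min_le_left _ _)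
      linarith
    · have h1 : min (min (1 / 3) (R / 2)) (min (r₀ / 2) ((9 * C' * K + 9 * K + 1)⁻¹ / 2)) ≤
          (9 * C' * K + 9 * K + 1)⁻¹ / 2 := (min_le_right _ _).trans (min_le_right _ _)
      have h2 : 0 ≤ 9 * C' * K + 9 * K := by positivity
      calc (9 * C' * K + 9 * K) * _ ≤ (9 * C' * K + 9 * K) * ((9 * C' * K + 9 * K + 1)⁻¹ / 2) :=
            mul_le_mul_of_nonneg_left h1 h2
        _ ≤ (9 * C' * K + 9 * K + 1) * ((9 * C' * K + 9 * K + 1)⁻¹ / 2) := by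
            apply mul_le_mul_of_nonneg_right (by linarith)
            positivity
        _ = 1 / 2 := by
            field_simp
    · have : min (min (1 / 3) (R / 2)) (min (r₀ / 2) ((9 * C' * K + 9 * K + 1)⁻¹ / 2)) ≤ R / 2 :=
        (min_le_left _ _).trans (min_le_right _ _)
      linarith
    · have : min (min (1 / 3) (R / 2)) (min (r₀ / 2) ((9 * C' * K + 9 * K + 1)⁻¹ / 2)) ≤ r₀ / 2 :=
        (min_le_right _ _).trans (min_le_left _ _)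
      linarith
  have hlip : ∀ l x y, ‖SPI.cutb ε x • e l x - SPI.cutb ε y • e l y‖ ≤ 1 / 2 * ‖x - y‖ :=
    fun l x y => GRb_cut hK0 hC' hε (he l) (he0 l) hcut hε1 hε2 x y
  have hsm : ContDiff ℝ ∞ fun q : ℂ × ℝ => SPI.cutb ε q.1 • e q.2 q.1 :=
    ((SPI.cutb_smooth ε).comp contDiff_fst).smul (GRbI_smooth hA hb hE hb1)
  obtain ⟨h, hh1, hh2, hh3⟩ := SPI.exists_perm_of_lip (fun l w => SPI.cutb ε w • e l w) hsm hlip
  refine ⟨ε, hε, fun l => (h l).trans (f0 l), ?_, ?_, ?_, ?_, ?_, ?_⟩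
  · exact hf0.comp (hh1.prodMk contDiff_snd)
  · exact hh2.comp (hf0'.prodMk contDiff_snd)
  · intro l w hw
    change f0 l (h l w) = _
    have h1 : h l w = w + e l w := by
      rw [hh3, SPI.cutb_one hε hw, one_smul]
    have h2 : ‖h l w‖ ≤ r₀ := by
      have h3 := hlip l w 0
      rw [he0, smul_zero, sub_zero, sub_zero] at h3
      rw [hh3]
      refine (norm_add_le _ _).trans ?_
      linarith
    rw [hf1 l _ h2, h1, GRb_lin_add]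
    congr 1
    exact GRbI_lin (hb1 l) _
  · intro l w hw
    change f0 l (h l w) = _
    rw [hh3, SPI.cutb_zero hε (by linarith : 2 * ε ≤ ‖w‖), zero_smul, add_zero, hf2 l w hw]
  · intro l
    have h1 : h (l + 1) = h l := by
      apply Equiv.ext
      intro w
      rw [hh3, hh3]
      change w + SPI.cutb ε w • GRbI (A (l + 1)) (b (l + 1)) (E (l + 1, w)) = _
      rw [hAp, hbp, hEp]
    change (h (l + 1)).trans (f0 (l + 1)) = (h l).trans (f0 l)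
    rw [h1, hf3 (l + 1) l (hAp l) (hbp l)]
  · intro l hAl hbl hEl w
    change f0 l (h l w) = w
    have h1 : h l w = w := by
      rw [hh3]
      change w + SPI.cutb ε w • GRbI (A l) (b l) (E (l, w)) = w
      rw [hEl, GRbI_zero, smul_zero, add_zero]
    rw [h1, hf4 l hAl hbl w]

end Pool.Agent.COR
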