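import Pool.Agent.COR.GRb

/-!
# COR/GRc: germs of diffeomorphisms along the core   (difficulty 3)

`exists_germ`.  Let `ε₀`, `f` be as in `exists_fib` (with the same `R`).  `H₂ (l, v, t) = (l, f l v, t)`.  Put `e₁ (l, w) = lam (l, (f l)⁻¹ w) - l`, `e₃ (l, w) = tau (l, (f l)⁻¹ w)`
(smooth, periodic in `l`, `0` at `w = 0`: `f l 0 = 0`).  With `χ = cutb δ` (`SPI.cutb`): `H₁ (l, w, t) = (l + χ w e₁ (l, w), w, t + χ w e₃ (l, w))`, `H = H₁ ∘ H₂`.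
* For small `δ`: for each `w` the map `l ↦ l + χ w e₁ (l, w)` has derivative `≥ 1/2` (`|∂_l e₁ (l, w)| ≤ C ‖w‖` for `‖w‖ ≤ 1`, compactness and periodicity), so it is an
  increasing bijection of `ℝ` (it is `l` + a bounded function).  Hence `H₁` is bijective; it is smooth with invertible derivative, so the inverse is smooth:
  `H₁ = Sh ∘ Mn`, `Mn (l, w, t) = (l + χ w e₁ (l, w), w, t)` and the shear `Sh (l', w, t) = (l', w, t + χ w e₃ (Mn⁻¹ (l', w)))` (explicit inverse).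
  For the smoothness of `Mn⁻¹`: `CSG.ld_of_fderiv` (the derivative of `Mn` is injective: `(dl, dw) ↦ ((1 + ∂_l (χ e₁)) dl + .. dw, dw)`), or apply `CSG.smooth_symm_of_family`-like arguments;
  a bijective local diffeomorphism has a smooth inverse (see the proof of `CSG.smooth_symm_of_family`, `RSG.exists_diffeo`).
* For `‖v‖ ≤ ε` (small): `‖f l v‖ ≤ δ`, so `χ = 1` and `H (l, v, t) = (lam (l, v), f l v, t + tau (l, v))`.
* `R ≤ ‖v‖`: `f l v = v`, and `2 δ ≤ R`: `χ = 0`.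
* trivial data at `l`: `f l = id`, `e₁ (l, ·) = 0`, `e₃ (l, ·) = 0`.
-/

open scoped Manifold ContDiff Topology
open Set Filter
open Complex (I)

namespace Pool.Agent.COR

/-- a smooth periodic family which vanishes at `w = 0` is `O(‖w‖)` -/
theorem GRc_bd {F : Type*} [NormedAddCommGroup F] [NormedSpace ℝ F] {G : ℝ × ℂ → F}
    (hG : ContDiff ℝ ∞ G) (hp : ∀ l w, G (l + 1, w) = G (l, w)) (h0 : ∀ l, G (l, 0) = 0) :
    ∃ C : ℝ, 0 < C ∧ ∀ l w, ‖w‖ ≤ 1 → ‖G (l, w)‖ ≤ C * ‖w‖ := by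
  have hK : IsCompact (Icc (0 : ℝ) 1 ×ˢ Metric.closedBall (0 : ℂ) 1) :=
    isCompact_Icc.prod (isCompact_closedBall _ _)
  have hc : Continuous (fderiv ℝ G) := hG.continuous_fderiv (by simp)
  obtain ⟨C, hC⟩ := hK.exists_bound_of_continuousOn hc.continuousOn
  have hper : ∀ (l : ℝ) (w : ℂ), G (l, w) = G (Int.fract l, w) := by
    intro l w
    have h1 : Function.Periodic (fun x : ℝ => G (x, w)) 1 := fun x => hp x w
    have h2 := h1.int_mul ⌊l⌋ (Int.fract l)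
    have h3 : Int.fract l + (⌊l⌋ : ℝ) * 1 = l := by rw [mul_one]; exact Int.fract_add_floor l
    simp only [h3] at h2
    exact h2
  refine ⟨max C 1, lt_max_of_lt_right one_pos, fun l w hw => ?_⟩
  rw [hper]
  have hl : Int.fract l ∈ Icc (0 : ℝ) 1 := ⟨Int.fract_nonneg l, (Int.fract_lt_one l).le⟩
  have hconv : Convex ℝ (Icc (0 : ℝ) 1 ×ˢ Metric.closedBall (0 : ℂ) 1) :=
    (convex_Icc _ _).prod (convex_closedBall _ _)
  have h1 := hconv.norm_image_sub_le_of_norm_fderiv_le (𝕜 := ℝ) (f := G)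
    (fun x _ => hG.differentiable (by simp) x) hC (x := (Int.fract l, 0)) (y := (Int.fract l, w))
    ⟨hl, by simp⟩ ⟨hl, by simpa using hw⟩
  rw [h0, sub_zero] at h1
  have h2 : ‖((Int.fract l, w) : ℝ × ℂ) - (Int.fract l, 0)‖ = ‖w‖ := by
    rw [Prod.mk_sub_mk, sub_self, sub_zero, Prod.norm_mk, norm_zero]
    exact max_eq_right (norm_nonneg w)
  rw [h2] at h1
  exact h1.trans (mul_le_mul_of_nonneg_right (le_max_left _ _) (norm_nonneg w))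

/-- Lipschitz bound in `l` -/
theorem GRc_lip {e : ℝ × ℂ → ℝ} (he : ContDiff ℝ ∞ e) (hp : ∀ l w, e (l + 1, w) = e (l, w))
    (h0 : ∀ l, e (l, 0) = 0) :
    ∃ C : ℝ, 0 < C ∧ ∀ l l' w, ‖w‖ ≤ 1 → |e (l, w) - e (l', w)| ≤ C * ‖w‖ * |l - l'| := by
  have hG : ContDiff ℝ ∞ (fun q : ℝ × ℂ => fderiv ℝ e q ((1, 0) : ℝ × ℂ)) := by
    have h1 : ContDiff ℝ ∞ (fderiv ℝ e) := he.fderiv_right (by exact le_rfl)
    exact h1.clm_apply contDiff_const
  have hd : ∀ l w, HasDerivAt (fun x : ℝ => e (x, w)) (fderiv ℝ e (l, w) ((1, 0) : ℝ × ℂ)) l := by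
    intro l w
    have h1 : HasFDerivAt e (fderiv ℝ e (l, w)) (l, w) := (he.differentiable (by simp) (l, w)).hasFDerivAt
    have h2 : HasDerivAt (fun x : ℝ => ((x, w) : ℝ × ℂ)) ((1, 0) : ℝ × ℂ) l :=
      (hasDerivAt_id l).prodMk (hasDerivAt_const l w)
    exact h1.comp_hasDerivAt l h2
  have hp' : ∀ l w, fderiv ℝ e (l + 1, w) ((1, 0) : ℝ × ℂ) = fderiv ℝ e (l, w) ((1, 0) : ℝ × ℂ) := by
    intro l w
    have h1 := hd (l + 1) w
    have h2 : HasDerivAt (fun x : ℝ => e (x + 1, w)) (fderiv ℝ e (l + 1, w) ((1, 0) : ℝ × ℂ)) l :=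
      h1.comp_add_const l 1
    have h3 : (fun x : ℝ => e (x + 1, w)) = fun x => e (x, w) := by
      funext x
      exact hp x w
    rw [h3] at h2
    exact h2.unique (hd l w)
  have h0' : ∀ l, fderiv ℝ e (l, 0) ((1, 0) : ℝ × ℂ) = 0 := by
    intro l
    have h1 := hd l 0
    have h3 : (fun x : ℝ => e (x, 0)) = fun _ => (0 : ℝ) := by
      funext x
      exact h0 x
    rw [h3] at h1
    exact h1.unique (hasDerivAt_const l (0 : ℝ))
  obtain ⟨C, hC0, hC⟩ := GRc_bd hG hp' h0'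
  refine ⟨C, hC0, fun l l' w hw => ?_⟩
  have h1 := (convex_univ (𝕜 := ℝ) (E := ℝ)).norm_image_sub_le_of_norm_deriv_le (𝕜 := ℝ)
    (f := fun x : ℝ => e (x, w)) (C := C * ‖w‖) (fun x _ => (hd x w).differentiableAt)
    (fun x _ => by rw [(hd x w).deriv]; exact hC x w hw) (mem_univ l') (mem_univ l)
  exact h1

/-- the permutation `Mn (l, w) = (l + h (l, w), w)` -/
theorem GRc_Mn {h : ℝ × ℂ → ℝ} (hh : ContDiff ℝ ∞ h)
    (hl : ∀ l l' w, |h (l, w) - h (l', w)| ≤ 1 / 2 * |l - l'|) :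
    ∃ Mn : Equiv.Perm (ℝ × ℂ), (∀ l w, Mn (l, w) = (l + h (l, w), w)) ∧ ContDiff ℝ ∞ Mn ∧
      ContDiff ℝ ∞ Mn.symm := by
  have hex : ∀ w : ℂ, ∃ f : Equiv.Perm ℝ, ∀ l, f l = l + h (l, w) := by
    intro w
    obtain ⟨f, -, -, hf⟩ := SPI.exists_perm_of_lip (E := ℝ) (fun _ x => h (x, w))
      (hh.comp (contDiff_fst.prodMk contDiff_const)) (fun s x y => hl x y w)
    exact ⟨f 0, fun l => hf 0 l⟩
  choose f hf using hex
  obtain ⟨Mn, hMn⟩ : ∃ Mn : Equiv.Perm (ℝ × ℂ), ∀ q, Mn q = (f q.2 q.1, q.2) :=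
    ⟨⟨fun q => (f q.2 q.1, q.2), fun q => ((f q.2).symm q.1, q.2), fun q => by simp, fun q => by simp⟩,
      fun q => rfl⟩
  have hMn2 : ∀ q, Mn q = (q.1 + h q, q.2) := by
    rintro ⟨l, w⟩
    rw [hMn, hf]
  have hMs : ContDiff ℝ ∞ Mn := by
    have h1 : (Mn : ℝ × ℂ → ℝ × ℂ) = fun q => (q.1 + h q, q.2) := funext hMn2
    rw [h1]
    exact (contDiff_fst.add hh).prodMk contDiff_snd
  refine ⟨Mn, fun l w => hMn2 (l, w), hMs, ?_⟩
  have key := CSG.smooth_symm_of_family (g := fun _ : ℝ => Mn) (hMs.comp contDiff_fst) ?_ rfl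
  · exact key.comp (contDiff_id.prodMk (contDiff_const (c := (0 : ℝ))))
  · rintro ⟨l, w⟩ _ ⟨dl, dw⟩ hv
    have h1 : HasFDerivAt h (fderiv ℝ h (l, w)) (l, w) := (hh.differentiable (by simp) (l, w)).hasFDerivAt
    have h2 : HasFDerivAt (Mn : ℝ × ℂ → ℝ × ℂ)
        ((ContinuousLinearMap.fst ℝ ℝ ℂ + fderiv ℝ h (l, w)).prod (ContinuousLinearMap.snd ℝ ℝ ℂ)) (l, w) := by
      have h3 : (Mn : ℝ × ℂ → ℝ × ℂ) = fun q => (q.1 + h q, q.2) := funext hMn2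
      rw [h3]
      exact (hasFDerivAt_fst.add h1).prodMk hasFDerivAt_snd
    rw [h2.fderiv] at hv
    have e1 : dl + fderiv ℝ h (l, w) (dl, dw) = 0 := congrArg Prod.fst hv
    have e2 : dw = 0 := congrArg Prod.snd hv
    subst e2
    have h4 : HasDerivAt (fun x : ℝ => h (x, w)) (fderiv ℝ h (l, w) ((1, 0) : ℝ × ℂ)) l := by
      have h5 : HasDerivAt (fun x : ℝ => ((x, w) : ℝ × ℂ)) ((1, 0) : ℝ × ℂ) l :=
        (hasDerivAt_id l).prodMk (hasDerivAt_const l w)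
      exact h1.comp_hasDerivAt l h5
    have h5 : |fderiv ℝ h (l, w) ((1, 0) : ℝ × ℂ)| ≤ 1 / 2 := by
      have h6 := h4.le_of_lip' (C := 1 / 2) (by norm_num)
        (Eventually.of_forall fun x => hl x l w)
      exact h6
    have e3 : fderiv ℝ h (l, w) (dl, 0) = dl * fderiv ℝ h (l, w) ((1, 0) : ℝ × ℂ) := by
      have e4 : ((dl, 0) : ℝ × ℂ) = dl • ((1, 0) : ℝ × ℂ) := by
        rw [Prod.smul_mk, smul_zero, smul_eq_mul, mul_one]
      rw [e4, map_smul, smul_eq_mul]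
    rw [e3] at e1
    have e5 : dl * (1 + fderiv ℝ h (l, w) ((1, 0) : ℝ × ℂ)) = 0 := by linear_combination e1
    rcases mul_eq_zero.1 e5 with e6 | e6
    · rw [e6]
      rfl
    · have := (abs_le.1 h5).1
      linarith

/-- the permutation `H₁` -/
theorem GRc_H1 {h k : ℝ × ℂ → ℝ} (hh : ContDiff ℝ ∞ h) (hk : ContDiff ℝ ∞ k)
    (hl : ∀ l l' w, |h (l, w) - h (l', w)| ≤ 1 / 2 * |l - l'|) :
    ∃ H : Equiv.Perm (ℝ × ℂ × ℝ), ContDiff ℝ ∞ H ∧ ContDiff ℝ ∞ H.symm ∧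
      ∀ l w t, H (l, w, t) = (l + h (l, w), w, t + k (l, w)) := by
  obtain ⟨Mn, hMn, hM1, hM2⟩ := GRc_Mn hh hl
  have hs2 : ∀ q : ℝ × ℂ, (Mn.symm q).2 = q.2 := by
    intro q
    have h1 := Mn.apply_symm_apply q
    have h2 := hMn (Mn.symm q).1 (Mn.symm q).2
    rw [Prod.mk.eta, h1] at h2
    exact (congrArg Prod.snd h2).symm
  obtain ⟨H, hH, hHs⟩ : ∃ H : Equiv.Perm (ℝ × ℂ × ℝ),
      (∀ q, H q = ((Mn (q.1, q.2.1)).1, q.2.1, q.2.2 + k (q.1, q.2.1))) ∧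
      ∀ q, H.symm q = ((Mn.symm (q.1, q.2.1)).1, q.2.1, q.2.2 - k (Mn.symm (q.1, q.2.1))) := by
    refine ⟨⟨fun q => ((Mn (q.1, q.2.1)).1, q.2.1, q.2.2 + k (q.1, q.2.1)),
      fun q => ((Mn.symm (q.1, q.2.1)).1, q.2.1, q.2.2 - k (Mn.symm (q.1, q.2.1))), ?_, ?_⟩,
      fun q => rfl, fun q => rfl⟩
    · rintro ⟨l, w, t⟩
      have h1 : ((Mn (l, w)).1, w) = Mn (l, w) := by rw [hMn]
      simp only [h1, Equiv.symm_apply_apply, add_sub_cancel_right]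
    · rintro ⟨l, w, t⟩
      have h1 : ((Mn.symm (l, w)).1, w) = Mn.symm (l, w) := Prod.ext rfl (hs2 (l, w)).symm
      simp only [h1, Equiv.apply_symm_apply, sub_add_cancel]
  have c0 : ContDiff ℝ ∞ fun q : ℝ × ℂ × ℝ => (q.1, q.2.1) :=
    contDiff_fst.prodMk contDiff_snd.fst
  refine ⟨H, ?_, ?_, fun l w t => ?_⟩
  · have h1 : (H : ℝ × ℂ × ℝ → ℝ × ℂ × ℝ) = fun q => ((Mn (q.1, q.2.1)).1, q.2.1, q.2.2 + k (q.1, q.2.1)) :=
      funext hH
    rw [h1]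
    exact (hM1.comp c0).fst.prodMk (contDiff_snd.fst.prodMk (contDiff_snd.snd.add (hk.comp c0)))
  · have h1 : (H.symm : ℝ × ℂ × ℝ → ℝ × ℂ × ℝ) =
        fun q => ((Mn.symm (q.1, q.2.1)).1, q.2.1, q.2.2 - k (Mn.symm (q.1, q.2.1))) := funext hHs
    rw [h1]
    exact (hM2.comp c0).fst.prodMk (contDiff_snd.fst.prodMk (contDiff_snd.snd.sub (hk.comp (hM2.comp c0))))
  · rw [hH]
    simp only [hMn]

theorem exists_germ {A b : ℝ → ℂ} {E : ℝ × ℂ → ℂ} {lam tau : ℝ × ℂ → ℝ} (hA : ContDiff ℝ ∞ A)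
    (hb : ContDiff ℝ ∞ b) (hE : ContDiff ℝ ∞ E) (hlam : ContDiff ℝ ∞ lam) (htau : ContDiff ℝ ∞ tau)
    (hAp : ∀ l, A (l + 1) = A l) (hbp : ∀ l, b (l + 1) = b l)
    (hEp : ∀ l v, E (l + 1, v) = E (l, v)) (hlp : ∀ l v, lam (l + 1, v) = lam (l, v) + 1)
    (htp : ∀ l v, tau (l + 1, v) = tau (l, v)) (hb1 : ∀ l, ‖b l‖ < 1)
    (hE0 : ∀ l, E (l, 0) = 0) (hE1 : ∀ l, dv E l = 0) (hl0 : ∀ l, lam (l, 0) = l)
    (ht0 : ∀ l, tau (l, 0) = 0) {R : ℝ} (hR : 0 < R) :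
    ∃ ε : ℝ, 0 < ε ∧ ∃ H : Equiv.Perm (ℝ × ℂ × ℝ), ContDiff ℝ ∞ H ∧ ContDiff ℝ ∞ H.symm ∧
      (∀ l v t, H (l + 1, v, t) = H (l, v, t) + (1, 0, 0)) ∧
      (∀ l v t u, H (l, v, t + u) = H (l, v, t) + (0, 0, u)) ∧
      (∀ l v t, ‖v‖ ≤ ε → H (l, v, t) = (lam (l, v), lin (A l) (b l) v + E (l, v), t + tau (l, v))) ∧
      (∀ l v t, R ≤ ‖v‖ → H (l, v, t) = (l, v, t)) ∧
      (∀ l, A l = 0 → b l = 0 → (∀ v, E (l, v) = 0) → (∀ v, lam (l, v) = l) → (∀ v, tau (l, v) = 0) →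
        ∀ v t, H (l, v, t) = (l, v, t)) := by
  obtain ⟨ε₀, hε₀, f, hf, hfs, hfe, hfR, hfp, hf1⟩ :=
    exists_fib hA hb hE hAp hbp hEp hb1 hE0 hE1 hR
  have hf0 : ∀ l, f l 0 = 0 := by
    intro l
    rw [hfe l 0 (by rw [norm_zero]; exact hε₀.le), hE0, add_zero]
    simp [lin]
  have hfs0 : ∀ l, (f l).symm 0 = 0 := by
    intro l
    rw [Equiv.symm_apply_eq, hf0]
  have csw : ContDiff ℝ ∞ fun q : ℝ × ℂ => (q.2, q.1) := contDiff_snd.prodMk contDiff_fst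
  have cfs : ContDiff ℝ ∞ fun q : ℝ × ℂ => (f q.1).symm q.2 := hfs.comp csw
  have cf : ContDiff ℝ ∞ fun q : ℝ × ℂ => f q.1 q.2 := hf.comp csw
  obtain ⟨e1, he1⟩ : ∃ e1 : ℝ × ℂ → ℝ, ∀ l w, e1 (l, w) = lam (l, (f l).symm w) - l :=
    ⟨fun q => lam (q.1, (f q.1).symm q.2) - q.1, fun l w => rfl⟩
  obtain ⟨e3, he3⟩ : ∃ e3 : ℝ × ℂ → ℝ, ∀ l w, e3 (l, w) = tau (l, (f l).symm w) :=
    ⟨fun q => tau (q.1, (f q.1).symm q.2), fun l w => rfl⟩
  have ce1 : ContDiff ℝ ∞ e1 := by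
    have h1 : e1 = fun q => lam (q.1, (f q.1).symm q.2) - q.1 := funext fun q => he1 q.1 q.2
    rw [h1]
    exact (hlam.comp (contDiff_fst.prodMk cfs)).sub contDiff_fst
  have ce3 : ContDiff ℝ ∞ e3 := by
    have h1 : e3 = fun q => tau (q.1, (f q.1).symm q.2) := funext fun q => he3 q.1 q.2
    rw [h1]
    exact htau.comp (contDiff_fst.prodMk cfs)
  have pe1 : ∀ l w, e1 (l + 1, w) = e1 (l, w) := by
    intro l w
    rw [he1, he1, hfp, hlp]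
    ring
  have pe3 : ∀ l w, e3 (l + 1, w) = e3 (l, w) := by
    intro l w
    rw [he3, he3, hfp, htp]
  have ze1 : ∀ l, e1 (l, 0) = 0 := by
    intro l
    rw [he1, hfs0, hl0, sub_self]
  obtain ⟨C, hC0, hC⟩ := GRc_lip ce1 pe1 ze1
  obtain ⟨C', hC'0, hC'⟩ := GRc_bd cf (fun l w => by simp only [hfp]) hf0
  -- the radius of the cutoff
  obtain ⟨δ, hδ, hδR, hδ1, hδC⟩ : ∃ δ : ℝ, 0 < δ ∧ 2 * δ ≤ R ∧ 2 * δ ≤ 1 ∧ C * (2 * δ) ≤ 1 / 2 := by
    refine ⟨min (R / 2) (min (1 / 2) (1 / (4 * C))), by positivity, ?_, ?_, ?_⟩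
    · have := min_le_left (R / 2) (min (1 / 2) (1 / (4 * C)))
      linarith
    · have := (min_le_right (R / 2) (min (1 / 2) (1 / (4 * C)))).trans (min_le_left _ _)
      linarith
    · have h1 := (min_le_right (R / 2) (min (1 / 2) (1 / (4 * C)))).trans (min_le_right _ _)
      have h2 : C * (2 * (1 / (4 * C))) = 1 / 2 := by
        field_simp
        norm_num
      have h3 : C * (2 * min (R / 2) (min (1 / 2) (1 / (4 * C)))) ≤ C * (2 * (1 / (4 * C))) := by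
        gcongr
      linarith
  have cχ : ContDiff ℝ ∞ (SPI.cutb δ : ℂ → ℝ) := SPI.cutb_smooth δ
  obtain ⟨H1, hH1, hH1s, hH1e⟩ := GRc_H1
    (h := fun q => SPI.cutb δ q.2 * e1 q) (k := fun q => SPI.cutb δ q.2 * e3 q)
    ((cχ.comp contDiff_snd).mul ce1) ((cχ.comp contDiff_snd).mul ce3) (by
      intro l l' w
      show |SPI.cutb δ w * e1 (l, w) - SPI.cutb δ w * e1 (l', w)| ≤ 1 / 2 * |l - l'|
      rcases le_or_gt (2 * δ) ‖w‖ with h1 | h1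
      · rw [SPI.cutb_zero hδ h1, zero_mul, zero_mul, sub_self, abs_zero]
        positivity
      · rw [← mul_sub, abs_mul, abs_of_nonneg (SPI.cutb_nonneg δ w)]
        have h2 := hC l l' w (h1.le.trans hδ1)
        have h3 := SPI.cutb_le_one δ w
        have h4 := SPI.cutb_nonneg δ w
        calc SPI.cutb δ w * |e1 (l, w) - e1 (l', w)| ≤ 1 * (C * ‖w‖ * |l - l'|) := by
              apply mul_le_mul h3 h2 (abs_nonneg _) (by norm_num)
          _ ≤ C * (2 * δ) * |l - l'| := by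
              rw [one_mul]
              gcongr
          _ ≤ 1 / 2 * |l - l'| := by gcongr)
  simp only at hH1e
  -- the fibre map
  obtain ⟨H2, hH2, hH2s⟩ : ∃ H2 : Equiv.Perm (ℝ × ℂ × ℝ), (∀ q, H2 q = (q.1, f q.1 q.2.1, q.2.2)) ∧
      ∀ q, H2.symm q = (q.1, (f q.1).symm q.2.1, q.2.2) :=
    ⟨⟨fun q => (q.1, f q.1 q.2.1, q.2.2), fun q => (q.1, (f q.1).symm q.2.1, q.2.2), fun q => by simp,
      fun q => by simp⟩, fun q => rfl, fun q => rfl⟩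
  have c0 : ContDiff ℝ ∞ fun q : ℝ × ℂ × ℝ => (q.1, q.2.1) := contDiff_fst.prodMk contDiff_snd.fst
  have cH2 : ContDiff ℝ ∞ H2 := by
    have h1 : (H2 : ℝ × ℂ × ℝ → ℝ × ℂ × ℝ) = fun q => (q.1, f q.1 q.2.1, q.2.2) := funext hH2
    rw [h1]
    exact contDiff_fst.prodMk ((cf.comp c0).prodMk contDiff_snd.snd)
  have cH2s : ContDiff ℝ ∞ H2.symm := by
    have h1 : (H2.symm : ℝ × ℂ × ℝ → ℝ × ℂ × ℝ) = fun q => (q.1, (f q.1).symm q.2.1, q.2.2) := funext hH2s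
    rw [h1]
    exact contDiff_fst.prodMk ((cfs.comp c0).prodMk contDiff_snd.snd)
  have hHe : ∀ l v t, (H2.trans H1) (l, v, t) = (l + SPI.cutb δ (f l v) * e1 (l, f l v), f l v,
      t + SPI.cutb δ (f l v) * e3 (l, f l v)) := by
    intro l v t
    rw [Equiv.trans_apply, hH2, hH1e]
  refine ⟨min ε₀ (min 1 (δ / C')), by positivity, H2.trans H1, ?_, ?_, ?_, ?_, ?_, ?_, ?_⟩
  · exact hH1.comp cH2
  · exact cH2s.comp hH1s
  · intro l v t
    rw [hHe, hHe, hfp, pe1, pe3, Prod.mk_add_mk, Prod.mk_add_mk, add_zero, add_zero]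
    congr 1
    ring
  · intro l v t u
    rw [hHe, hHe, Prod.mk_add_mk, Prod.mk_add_mk, add_zero, add_zero]
    congr 2
    ring
  · intro l v t hv
    have h1 : ‖v‖ ≤ ε₀ := hv.trans (min_le_left _ _)
    have h2 : ‖v‖ ≤ 1 := hv.trans ((min_le_right _ _).trans (min_le_left _ _))
    have h3 : ‖v‖ ≤ δ / C' := hv.trans ((min_le_right _ _).trans (min_le_right _ _))
    have h4 : ‖f l v‖ ≤ δ := by
      have h5 : ‖f l v‖ ≤ C' * ‖v‖ := hC' l v h2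
      have h6 : C' * ‖v‖ ≤ C' * (δ / C') := by gcongr
      have h7 : C' * (δ / C') = δ := by field_simp
      linarith
    rw [hHe, SPI.cutb_one hδ h4, one_mul, one_mul, he1, he3, Equiv.symm_apply_apply, hfe l v h1]
    congr 1
    ring
  · intro l v t hv
    have h1 : f l v = v := hfR l v hv
    rw [hHe, h1, SPI.cutb_zero hδ (hδR.trans hv), zero_mul, zero_mul, add_zero, add_zero]
  · intro l hA0 hb0 hE00 hl00 ht00 v t
    have h1 : ∀ w, f l w = w := hf1 l hA0 hb0 hE00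
    rw [hHe, h1, he1, he3, hl00, ht00, sub_self, mul_zero, add_zero, add_zero]

end Pool.Agent.COR
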