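import Pool.Agent.COR.Defs
import Pool.Agent.RSG.LDc

/-!
# COR/Ori: `S3 × S1` is orientable   (difficulty 3)

Let `Φ : ℝ × ℂ × ℝ → S3 × Circle`, `F Φ q = ((Φ q).1, (Φ q).2)` in `E4 × ℂ` and `N w (a, b) = (a • w.1, b • w.2)`.
`J Φ q` is the determinant of `e ∘ (fderiv (F Φ) q + N (F Φ q))`, a linear map of `V = (ℝ × ℂ × ℝ) × ℝ × ℝ`
(`e : E4 × ℂ ≃ V` fixed).
-/

open scoped Manifold ContDiff Topology
open Set Filter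
open Complex (I)
open Pool.Agent.RSG (E4 S3)

namespace Pool.Agent.COR

/-- the map to `E4 × ℂ` -/
noncomputable def Ori_F (Φ : ℝ × ℂ × ℝ → PTH.SP) (q : ℝ × ℂ × ℝ) : E4 × ℂ :=
  (((Φ q).1 : E4), ((Φ q).2 : ℂ))

/-- the normal directions -/
noncomputable def Ori_N (w : E4 × ℂ) : ℝ × ℝ →L[ℝ] E4 × ℂ :=
  (ContinuousLinearMap.toSpanSingleton ℝ w.1).prodMap (ContinuousLinearMap.toSpanSingleton ℝ w.2)

theorem Ori_N_apply (w : E4 × ℂ) (c : ℝ × ℝ) : Ori_N w c = (c.1 • w.1, c.2 • w.2) := rfl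

theorem Ori_N_cont : Continuous Ori_N := by
  rw [continuous_clm_apply]
  intro c
  simp only [Ori_N_apply]
  fun_prop

/-- the linear equivalence -/
noncomputable def Ori_e : (E4 × ℂ) ≃L[ℝ] (ℝ × ℂ × ℝ) × (ℝ × ℝ) :=
  ContinuousLinearEquiv.ofFinrankEq (by simp)

/-- the linear map -/
noncomputable def Ori_A (Φ : ℝ × ℂ × ℝ → PTH.SP) (q : ℝ × ℂ × ℝ) :
    (ℝ × ℂ × ℝ) × (ℝ × ℝ) →L[ℝ] E4 × ℂ :=
  (fderiv ℝ (Ori_F Φ) q).comp (ContinuousLinearMap.fst ℝ (ℝ × ℂ × ℝ) (ℝ × ℝ)) +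
    (Ori_N (Ori_F Φ q)).comp (ContinuousLinearMap.snd ℝ (ℝ × ℂ × ℝ) (ℝ × ℝ))

/-- the orientation function -/
noncomputable def Ori_J (Φ : ℝ × ℂ × ℝ → PTH.SP) (q : ℝ × ℂ × ℝ) : ℝ :=
  ((Ori_e : (E4 × ℂ) →L[ℝ] (ℝ × ℂ × ℝ) × (ℝ × ℝ)).comp (Ori_A Φ q)).det

attribute [local instance] finrank_real_complex_fact'

theorem Ori_fact : Fact (Module.finrank ℝ E4 = 3 + 1) := ⟨finrank_euclideanSpace_fin⟩

attribute [local instance] Ori_fact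

theorem Ori_smooth1 : ContMDiff (𝓡 3) 𝓘(ℝ, E4) ∞ (fun x : S3 => (x : E4)) := contMDiff_coe_sphere

theorem Ori_smooth2 : ContMDiff (𝓡 1) 𝓘(ℝ, ℂ) ∞ (fun x : Circle => (x : ℂ)) :=
  contMDiff_coe_sphere (E := ℂ) (n := 1)

theorem Ori_inj2 (v : Circle) : Function.Injective
    (mfderiv (𝓡 1) 𝓘(ℝ, ℂ) (fun x : Circle => (x : ℂ)) v) :=
  mfderiv_coe_sphere_injective (E := ℂ) (n := 1) v

theorem Ori_contDiffAt {Φ : ℝ × ℂ × ℝ → PTH.SP} {q : ℝ × ℂ × ℝ}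
    (h : ContMDiffAt 𝓘(ℝ, ℝ × ℂ × ℝ) PTH.ISP ∞ Φ q) : ContDiffAt ℝ ∞ (Ori_F Φ) q := by
  have h1 : ContMDiffAt 𝓘(ℝ, ℝ × ℂ × ℝ) (𝓡 3) ∞ (fun q => (Φ q).1) q :=
    contMDiffAt_fst.comp q h
  have h2 : ContMDiffAt 𝓘(ℝ, ℝ × ℂ × ℝ) (𝓡 1) ∞ (fun q => (Φ q).2) q :=
    contMDiffAt_snd.comp q h
  have h3 : ContMDiffAt 𝓘(ℝ, ℝ × ℂ × ℝ) 𝓘(ℝ, E4) ∞ (fun q => ((Φ q).1 : E4)) q :=
    (Ori_smooth1.contMDiffAt).comp q h1
  have h4 : ContMDiffAt 𝓘(ℝ, ℝ × ℂ × ℝ) 𝓘(ℝ, ℂ) ∞ (fun q => ((Φ q).2 : ℂ)) q :=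
    (Ori_smooth2.contMDiffAt).comp q h2
  exact (contMDiffAt_iff_contDiffAt.1 h3).prodMk (contMDiffAt_iff_contDiffAt.1 h4)

theorem Ori_inj {Φ : ℝ × ℂ × ℝ → PTH.SP} {q : ℝ × ℂ × ℝ}
    (h : IsLocalDiffeomorphAt 𝓘(ℝ, ℝ × ℂ × ℝ) PTH.ISP ∞ Φ q) (u : ℝ × ℂ × ℝ)
    (hu : fderiv ℝ (Ori_F Φ) q u = 0) : u = 0 := by
  have hc := h.contMDiffAt
  have h1 : ContMDiffAt 𝓘(ℝ, ℝ × ℂ × ℝ) (𝓡 3) ∞ (fun q => (Φ q).1) q :=
    contMDiffAt_fst.comp q hc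
  have h2 : ContMDiffAt 𝓘(ℝ, ℝ × ℂ × ℝ) (𝓡 1) ∞ (fun q => (Φ q).2) q :=
    contMDiffAt_snd.comp q hc
  have h3 : ContMDiffAt 𝓘(ℝ, ℝ × ℂ × ℝ) 𝓘(ℝ, E4) ∞ (fun q => ((Φ q).1 : E4)) q :=
    (Ori_smooth1.contMDiffAt).comp q h1
  have h4 : ContMDiffAt 𝓘(ℝ, ℝ × ℂ × ℝ) 𝓘(ℝ, ℂ) ∞ (fun q => ((Φ q).2 : ℂ)) q :=
    (Ori_smooth2.contMDiffAt).comp q h2
  have h1d := h1.mdifferentiableAt (by simp)
  have h2d := h2.mdifferentiableAt (by simp)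
  have h3d := (contMDiffAt_iff_contDiffAt.1 h3).differentiableAt (by simp)
  have h4d := (contMDiffAt_iff_contDiffAt.1 h4).differentiableAt (by simp)
  have e1 : fderiv ℝ (Ori_F Φ) q = (fderiv ℝ (fun q => ((Φ q).1 : E4)) q).prod
      (fderiv ℝ (fun q => ((Φ q).2 : ℂ)) q) := h3d.fderiv_prodMk h4d
  rw [e1] at hu
  have hu1 : fderiv ℝ (fun q => ((Φ q).1 : E4)) q u = 0 := congrArg Prod.fst hu
  have hu2 : fderiv ℝ (fun q => ((Φ q).2 : ℂ)) q u = 0 := congrArg Prod.snd hu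
  have k1 : mfderiv 𝓘(ℝ, ℝ × ℂ × ℝ) (𝓡 3) (fun q => (Φ q).1) q u = 0 := by
    have := mfderiv_comp (I := 𝓘(ℝ, ℝ × ℂ × ℝ)) (I' := 𝓡 3) (I'' := 𝓘(ℝ, E4)) q
      ((Ori_smooth1.contMDiffAt (x := (Φ q).1)).mdifferentiableAt (by simp)) h1d
    have h5 : mfderiv 𝓘(ℝ, ℝ × ℂ × ℝ) 𝓘(ℝ, E4) (fun q => ((Φ q).1 : E4)) q u = 0 := by
      rw [mfderiv_eq_fderiv]
      exact hu1
    apply mfderiv_coe_sphere_injective (E := E4) (n := 3) (Φ q).1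
    rw [map_zero, ← h5]
    exact (congrArg (fun L => L u) this).symm
  have k2 : mfderiv 𝓘(ℝ, ℝ × ℂ × ℝ) (𝓡 1) (fun q => (Φ q).2) q u = 0 := by
    have := mfderiv_comp (I := 𝓘(ℝ, ℝ × ℂ × ℝ)) (I' := 𝓡 1) (I'' := 𝓘(ℝ, ℂ)) q
      ((Ori_smooth2.contMDiffAt (x := (Φ q).2)).mdifferentiableAt (by simp)) h2d
    have h5 : mfderiv 𝓘(ℝ, ℝ × ℂ × ℝ) 𝓘(ℝ, ℂ) (fun q => ((Φ q).2 : ℂ)) q u = 0 := by
      rw [mfderiv_eq_fderiv]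
      exact hu2
    apply Ori_inj2 (Φ q).2
    rw [map_zero, ← h5]
    exact (congrArg (fun L => L u) this).symm
  have k3 : mfderiv 𝓘(ℝ, ℝ × ℂ × ℝ) PTH.ISP Φ q u = 0 := by
    have := mfderiv_prodMk (I := 𝓘(ℝ, ℝ × ℂ × ℝ)) (I' := 𝓡 3) (I'' := 𝓡 1) h1d h2d
    have e : mfderiv 𝓘(ℝ, ℝ × ℂ × ℝ) PTH.ISP Φ q u =
        ((mfderiv 𝓘(ℝ, ℝ × ℂ × ℝ) (𝓡 3) (fun q => (Φ q).1) q) u,
          (mfderiv 𝓘(ℝ, ℝ × ℂ × ℝ) (𝓡 1) (fun q => (Φ q).2) q) u) :=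
      congrArg (fun L => L u) this
    rw [e, k1, k2]
    rfl
  have k4 : (h.mfderivToContinuousLinearEquiv (by simp)) u = 0 := k3
  exact (map_eq_zero_iff _ (h.mfderivToContinuousLinearEquiv (by simp)).injective).1 k4

theorem Ori_tan {E : Type*} [NormedAddCommGroup E] [InnerProductSpace ℝ E] {f : ℝ × ℂ × ℝ → E}
    {q : ℝ × ℂ × ℝ} (hf : DifferentiableAt ℝ f q) (h1 : ∀ q, ‖f q‖ = 1) (u : ℝ × ℂ × ℝ) (a : ℝ)
    (h : fderiv ℝ f q u + a • f q = 0) : a = 0 := by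
  have e : (fun q => inner ℝ (f q) (f q)) = fun _ => (1 : ℝ) := by
    funext q
    rw [real_inner_self_eq_norm_sq, h1]
    norm_num
  have h2 := fderiv_inner_apply (𝕜 := ℝ) hf hf u
  rw [e] at h2
  simp only [fderiv_fun_const, Pi.zero_apply, zero_apply] at h2
  rw [real_inner_comm] at h2
  have h3 : inner ℝ (fderiv ℝ f q u) (f q) = (0 : ℝ) := by linarith
  have h4 : inner ℝ (fderiv ℝ f q u + a • f q) (f q) = (0 : ℝ) := by rw [h, inner_zero_left]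
  rw [inner_add_left, h3, inner_smul_left, real_inner_self_eq_norm_sq, h1] at h4
  simpa using h4

theorem sp_orient : ∃ J : (ℝ × ℂ × ℝ → PTH.SP) → ℝ × ℂ × ℝ → ℝ,
    (∀ Φ q, IsLocalDiffeomorphAt 𝓘(ℝ, ℝ × ℂ × ℝ) PTH.ISP ∞ Φ q → ContinuousAt (J Φ) q ∧ J Φ q ≠ 0) ∧
    (∀ (Φ Ψ : ℝ × ℂ × ℝ → PTH.SP) (g : ℝ × ℂ × ℝ → ℝ × ℂ × ℝ) (q : ℝ × ℂ × ℝ),
      IsLocalDiffeomorphAt 𝓘(ℝ, ℝ × ℂ × ℝ) PTH.ISP ∞ Φ (g q) → ContDiffAt ℝ ∞ g q →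
      Ψ =ᶠ[𝓝 q] Φ ∘ g →
      J Ψ q = J Φ (g q) * LinearMap.det ((fderiv ℝ g q : (ℝ × ℂ × ℝ) →L[ℝ] (ℝ × ℂ × ℝ)) :
        (ℝ × ℂ × ℝ) →ₗ[ℝ] (ℝ × ℂ × ℝ))) := by
  refine ⟨Ori_J, ?_, ?_⟩
  · intro Φ q h
    have hc := Ori_contDiffAt h.contMDiffAt
    constructor
    · have h1 : ContinuousAt (fderiv ℝ (Ori_F Φ)) q :=
        (hc.fderiv_right (m := 0) (by simp)).continuousAt
      have h2 : ContinuousAt (fun q => Ori_N (Ori_F Φ q)) q :=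
        Ori_N_cont.continuousAt.comp hc.continuousAt
      have h3 : ContinuousAt (Ori_A Φ) q :=
        (h1.clm_comp continuousAt_const).add (h2.clm_comp continuousAt_const)
      exact ContinuousLinearMap.continuous_det.continuousAt.comp
        (continuousAt_const.clm_comp h3)
    · have hinj : Function.Injective (((Ori_e : (E4 × ℂ) →L[ℝ] (ℝ × ℂ × ℝ) × (ℝ × ℝ)).comp
          (Ori_A Φ q) : (ℝ × ℂ × ℝ) × (ℝ × ℝ) →L[ℝ] (ℝ × ℂ × ℝ) × (ℝ × ℝ)) :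
          (ℝ × ℂ × ℝ) × (ℝ × ℝ) →ₗ[ℝ] (ℝ × ℂ × ℝ) × (ℝ × ℝ)) := by
        rw [injective_iff_map_eq_zero]
        rintro ⟨u, a, b⟩ h0
        have h1 : Ori_A Φ q (u, a, b) = 0 := by
          apply Ori_e.injective
          rw [map_zero]
          exact h0
        have h2 : fderiv ℝ (Ori_F Φ) q u + Ori_N (Ori_F Φ q) (a, b) = 0 := h1
        rw [Ori_N_apply] at h2
        have hd := hc.differentiableAt (by simp)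
        have hd1 : DifferentiableAt ℝ (fun q => ((Φ q).1 : E4)) q := hd.fst
        have hd2 : DifferentiableAt ℝ (fun q => ((Φ q).2 : ℂ)) q := hd.snd
        have e1 : fderiv ℝ (Ori_F Φ) q = (fderiv ℝ (fun q => ((Φ q).1 : E4)) q).prod
          (fderiv ℝ (fun q => ((Φ q).2 : ℂ)) q) := hd1.fderiv_prodMk hd2
        have ha : a = 0 := by
          refine Ori_tan hd1 (fun q => norm_eq_of_mem_sphere _) u a ?_
          have := congrArg Prod.fst h2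
          rw [e1] at this
          exact this
        have hb : b = 0 := by
          refine Ori_tan hd2 (fun q => Circle.norm_coe _) u b ?_
          have := congrArg Prod.snd h2
          rw [e1] at this
          exact this
        subst ha hb
        have h3 : fderiv ℝ (Ori_F Φ) q u = 0 := by
          rw [← h2, zero_smul, zero_smul]
          exact (add_zero _).symm
        rw [Ori_inj h u h3]
        rfl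
      have := LinearEquiv.isUnit_det' (LinearEquiv.ofInjectiveEndo _ hinj)
      exact this.ne_zero
  · intro Φ Ψ g q h hg he
    have h0 : Ψ q = Φ (g q) := he.eq_of_nhds
    have hc := Ori_contDiffAt h.contMDiffAt
    have h1 : Ori_F Ψ q = Ori_F Φ (g q) := by
      unfold Ori_F
      rw [h0]
    have h2 : fderiv ℝ (Ori_F Ψ) q = (fderiv ℝ (Ori_F Φ) (g q)).comp (fderiv ℝ g q) := by
      have : Ori_F Ψ =ᶠ[𝓝 q] Ori_F Φ ∘ g := by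
        filter_upwards [he] with x hx
        unfold Ori_F
        simp only [Function.comp_apply] at hx ⊢
        rw [hx]
      rw [this.fderiv_eq, fderiv_comp q (hc.differentiableAt (by simp))
        (hg.differentiableAt (by simp))]
    have h3 : Ori_A Ψ q = (Ori_A Φ (g q)).comp
        ((fderiv ℝ g q).prodMap (ContinuousLinearMap.id ℝ (ℝ × ℝ))) := by
      unfold Ori_A
      rw [h1, h2]
      ext x <;> simp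
    unfold Ori_J
    rw [h3, ← ContinuousLinearMap.comp_assoc]
    simp only [ContinuousLinearMap.det]
    have h5 : ∀ (A B : (ℝ × ℂ × ℝ) × (ℝ × ℝ) →L[ℝ] (ℝ × ℂ × ℝ) × (ℝ × ℝ)),
        LinearMap.det ((A.comp B : (ℝ × ℂ × ℝ) × (ℝ × ℝ) →L[ℝ] (ℝ × ℂ × ℝ) × (ℝ × ℝ)) :
          (ℝ × ℂ × ℝ) × (ℝ × ℝ) →ₗ[ℝ] (ℝ × ℂ × ℝ) × (ℝ × ℝ)) =
        LinearMap.det (A : (ℝ × ℂ × ℝ) × (ℝ × ℝ) →ₗ[ℝ] (ℝ × ℂ × ℝ) × (ℝ × ℝ)) *
          LinearMap.det (B : (ℝ × ℂ × ℝ) × (ℝ × ℝ) →ₗ[ℝ] (ℝ × ℂ × ℝ) × (ℝ × ℝ)) :=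
      fun A B => LinearMap.det_comp _ _
    rw [h5]
    congr 1
    have h4 : (((fderiv ℝ g q).prodMap (ContinuousLinearMap.id ℝ (ℝ × ℝ)) :
        (ℝ × ℂ × ℝ) × (ℝ × ℝ) →L[ℝ] (ℝ × ℂ × ℝ) × (ℝ × ℝ)) :
        (ℝ × ℂ × ℝ) × (ℝ × ℝ) →ₗ[ℝ] (ℝ × ℂ × ℝ) × (ℝ × ℝ)) =
        LinearMap.prodMap ((fderiv ℝ g q : (ℝ × ℂ × ℝ) →L[ℝ] (ℝ × ℂ × ℝ)) :
          (ℝ × ℂ × ℝ) →ₗ[ℝ] (ℝ × ℂ × ℝ)) LinearMap.id := rfl
    rw [h4, LinearMap.det_prodMap, LinearMap.det_id, mul_one]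

end Pool.Agent.COR
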